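import Pool.Agent.Lib.MP_aa9b81_an.H.ADefs

open MeasureTheory ENNReal NNReal

namespace Pool.Agent.BCH

universe u

variable {Z : Type u} [MeasurableSpace Z] {ν : Measure Z} [SigmaFinite ν]

/-- `(a, b) ↦ ∫ k a z * l z b dz` is measurable: use
`MeasureTheory.StronglyMeasurable.integral_prod_right` for the jointly measurable function
`((a, b), z) ↦ k a z * l z b`. -/
theorem kcomp_meas {k l : Z → Z → ℂ} (hk : Measurable (Function.uncurry k))
    (hl : Measurable (Function.uncurry l)) : Measurable (Function.uncurry (kcomp ν k l)) := by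
  have h1 : Measurable (Function.uncurry (fun (q : Z × Z) (z : Z) => k q.1 z * l z q.2)) := by
    refine Measurable.mul ?_ ?_
    · exact hk.comp ((measurable_fst.comp measurable_fst).prodMk measurable_snd)
    · exact hl.comp (measurable_snd.prodMk (measurable_snd.comp measurable_fst))
  have h2 := h1.stronglyMeasurable.integral_prod_right (ν := ν)
  exact h2.measurable

/-- Induction, `kcomp_meas`. -/
theorem kpow_meas {k : Z → Z → ℂ} (hk : Measurable (Function.uncurry k)) (n : ℕ) :
    Measurable (Function.uncurry (kpow ν k n)) := by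
  induction n with
  | zero => exact hk
  | succ n ih => exact kcomp_meas hk ih

private theorem A1_ind {g : Z → Z → ℂ} (hg : Measurable (Function.uncurry g)) {P : Set Z}
    (hP : MeasurableSet P) :
    Measurable (Function.uncurry (fun a b => Pᶜ.indicator (fun a' => g a' b) a)) := by
  have : Function.uncurry (fun a b => Pᶜ.indicator (fun a' => g a' b) a)
      = (Pᶜ ×ˢ (Set.univ : Set Z)).indicator (Function.uncurry g) := by
    funext q
    obtain ⟨a, b⟩ := q
    show Pᶜ.indicator (fun a' => g a' b) a = _
    by_cases ha : a ∈ Pᶜ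
    · rw [Set.indicator_of_mem ha,
        Set.indicator_of_mem (show (a, b) ∈ Pᶜ ×ˢ (Set.univ : Set Z) from ⟨ha, trivial⟩)]
      rfl
    · rw [Set.indicator_of_notMem ha,
        Set.indicator_of_notMem (show (a, b) ∉ Pᶜ ×ˢ (Set.univ : Set Z) from fun h => ha h.1)]
  rw [this]
  exact hg.indicator (hP.compl.prod MeasurableSet.univ)

/-- Induction, `kcomp_meas`; `(a, b) ↦ Pᶜ.indicator (fun a' => g a' b) a` is the indicator of the
measurable set `{(a, b) | a ∈ Pᶜ}` applied to `uncurry g`. -/
theorem hpow_meas {k : Z → Z → ℂ} (hk : Measurable (Function.uncurry k)) {P : Set Z}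
    (hP : MeasurableSet P) (n : ℕ) : Measurable (Function.uncurry (hpow ν k P n)) := by
  induction n with
  | zero => exact A1_ind hk hP
  | succ n ih => exact A1_ind (kcomp_meas hk ih) hP

end Pool.Agent.BCH
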