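import Pool.Agent.Lib.MP_aa9b81_an.H.ADefs

open MeasureTheory ENNReal NNReal

namespace Pool.Agent.BCH

universe u

variable {Z : Type u} [MeasurableSpace Z] {ν : Measure Z} [SigmaFinite ν]

/-- Cauchy-Schwarz for nonnegative functions, squared form (from
`ENNReal.lintegral_mul_le_Lp_mul_Lq` with `p = q = 2`). -/
theorem lintegral_mul_sq_le {f g : Z → ℝ≥0∞} (hf : AEMeasurable f ν) (hg : AEMeasurable g ν) :
    (∫⁻ a, f a * g a ∂ν) ^ 2 ≤ (∫⁻ a, f a ^ 2 ∂ν) * ∫⁻ a, g a ^ 2 ∂ν := by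
  have hpq : Real.HolderConjugate 2 2 := Real.HolderConjugate.two_two
  have h := ENNReal.lintegral_mul_le_Lp_mul_Lq ν hpq hf hg
  have h2 : (∫⁻ a, f a * g a ∂ν) ^ 2 ≤
      ((∫⁻ a, f a ^ (2:ℝ) ∂ν) ^ (1 / (2:ℝ)) * (∫⁻ a, g a ^ (2:ℝ) ∂ν) ^ (1 / (2:ℝ))) ^ 2 := by
    exact pow_le_pow_left' h 2
  refine h2.trans (le_of_eq ?_)
  rw [mul_pow, ← ENNReal.rpow_natCast, ← ENNReal.rpow_natCast, ← ENNReal.rpow_mul,
    ← ENNReal.rpow_mul]
  norm_num

/-- If every row of `K` has support of measure `≤ M` and every column has square norm `≤ D`: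
`(∫ K a y f y dy)² = (∫ 1[K a y ≠ 0] K a y f y dy)² ≤ M * ∫ K a y ² f y ² dy`; integrate over `a`
and use Tonelli. -/
theorem OB_of_rows {K : Z → Z → ℝ≥0∞} (hK : Measurable (Function.uncurry K)) {M D : ℝ≥0∞}
    (hM : ∀ a, ν {y | K a y ≠ 0} ≤ M) (hD : ∀ y, ∫⁻ a, K a y ^ 2 ∂ν ≤ D) : OB ν K (M * D) := by
  intro f hf
  have hKa : ∀ a, Measurable (K a) := fun a => hK.of_uncurry_left
  have hrow : ∀ a, (∫⁻ b, K a b * f b ∂ν) ^ 2 ≤ M * ∫⁻ b, K a b ^ 2 * f b ^ 2 ∂ν := by
    intro a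
    have hs : MeasurableSet {y | K a y ≠ 0} := by
      have : {y | K a y ≠ 0} = (K a) ⁻¹' {0}ᶜ := by ext y; simp
      rw [this]; exact hKa a (measurableSet_singleton 0).compl
    have e1 : ∫⁻ b, K a b * f b ∂ν =
        ∫⁻ b, ({y | K a y ≠ 0}.indicator (fun _ => (1:ℝ≥0∞)) b) * (K a b * f b) ∂ν := by
      refine lintegral_congr fun b => ?_
      by_cases hb : K a b = 0
      · simp [hb]
      · rw [Set.indicator_of_mem (by exact hb)]; simp
    rw [e1]
    refine (lintegral_mul_sq_le (measurable_const.indicator hs).aemeasurable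
      ((hKa a).mul hf).aemeasurable).trans ?_
    refine mul_le_mul' ?_ (le_of_eq ?_)
    · refine le_trans (le_of_eq ?_) (hM a)
      rw [← lintegral_indicator_one hs]
      refine lintegral_congr fun b => ?_
      by_cases hb : b ∈ {y | K a y ≠ 0}
      · rw [Set.indicator_of_mem hb, Set.indicator_of_mem hb]; simp
      · rw [Set.indicator_of_notMem hb, Set.indicator_of_notMem hb]; simp
    · refine lintegral_congr fun b => ?_
      rw [Pi.mul_apply, mul_pow]
  calc ∫⁻ a, (∫⁻ b, K a b * f b ∂ν) ^ 2 ∂ν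
      ≤ ∫⁻ a, M * ∫⁻ b, K a b ^ 2 * f b ^ 2 ∂ν ∂ν := lintegral_mono hrow
    _ = M * ∫⁻ a, ∫⁻ b, K a b ^ 2 * f b ^ 2 ∂ν ∂ν := by
        rw [lintegral_const_mul]
        exact Measurable.lintegral_prod_right' (f := fun p : Z × Z => K p.1 p.2 ^ 2 * f p.2 ^ 2)
          ((hK.pow_const 2).mul ((hf.comp measurable_snd).pow_const 2))
    _ = M * ∫⁻ b, ∫⁻ a, K a b ^ 2 * f b ^ 2 ∂ν ∂ν := by
        rw [lintegral_lintegral_swap]
        exact ((hK.pow_const 2).mul ((hf.comp measurable_snd).pow_const 2)).aemeasurable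
    _ ≤ M * ∫⁻ b, D * f b ^ 2 ∂ν := by
        refine mul_le_mul_right ?_ M
        refine lintegral_mono fun b => ?_
        rw [lintegral_mul_const _ (hK.of_uncurry_right.pow_const 2)]
        exact mul_le_mul_left (hD b) _
    _ = M * D * ∫⁻ b, f b ^ 2 ∂ν := by
        rw [lintegral_const_mul _ (hf.pow_const 2), mul_assoc]

/-- If every row of `K` has square norm `≤ D` and every column has support of measure `≤ M`:
`(∫ K y b f b db)² ≤ (∫ K y b ² db) (∫ 1[K y b ≠ 0] f b ² db) ≤ D ∫ 1[K y b ≠ 0] f b ² db`; integrate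
over `y` and use Tonelli. -/
theorem OB_of_cols {K : Z → Z → ℝ≥0∞} (hK : Measurable (Function.uncurry K)) {M D : ℝ≥0∞}
    (hD : ∀ y, ∫⁻ b, K y b ^ 2 ∂ν ≤ D) (hM : ∀ b, ν {y | K y b ≠ 0} ≤ M) : OB ν K (M * D) := by
  intro f hf
  have hKa : ∀ a, Measurable (K a) := fun a => hK.of_uncurry_left
  have hs2 : MeasurableSet {p : Z × Z | K p.1 p.2 ≠ 0} := by
    have : {p : Z × Z | K p.1 p.2 ≠ 0} = (Function.uncurry K) ⁻¹' {0}ᶜ := by
      ext y; simp [Function.uncurry]
    rw [this]; exact hK (measurableSet_singleton 0).compl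
  set I : Z × Z → ℝ≥0∞ := {p : Z × Z | K p.1 p.2 ≠ 0}.indicator (fun _ => (1:ℝ≥0∞)) with hI
  have hIm : Measurable I := measurable_const.indicator hs2
  have hIv : ∀ a b, K a b ≠ 0 → I (a, b) = 1 := by
    intro a b h
    rw [hI, Set.indicator_of_mem]
    exact h
  have hIv0 : ∀ a b, K a b = 0 → I (a, b) = 0 := by
    intro a b h
    rw [hI, Set.indicator_of_notMem]
    exact fun h' => h' h
  have hrow : ∀ a, (∫⁻ b, K a b * f b ∂ν) ^ 2 ≤ D * ∫⁻ b, I (a, b) * f b ^ 2 ∂ν := by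
    intro a
    have e1 : ∫⁻ b, K a b * f b ∂ν = ∫⁻ b, K a b * (I (a, b) * f b) ∂ν := by
      refine lintegral_congr fun b => ?_
      by_cases hb : K a b = 0
      · simp [hb]
      · rw [hIv a b hb]; simp
    rw [e1]
    refine (lintegral_mul_sq_le (hKa a).aemeasurable
      (((hIm.comp measurable_prodMk_left).mul hf)).aemeasurable).trans ?_
    refine mul_le_mul' (hD a) (le_of_eq ?_)
    refine lintegral_congr fun b => ?_
    by_cases hb : K a b = 0
    · simp [hIv0 a b hb]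
    · show (I (a, b) * f b) ^ 2 = I (a, b) * f b ^ 2
      rw [hIv a b hb]; simp
  calc ∫⁻ a, (∫⁻ b, K a b * f b ∂ν) ^ 2 ∂ν
      ≤ ∫⁻ a, D * ∫⁻ b, I (a, b) * f b ^ 2 ∂ν ∂ν := lintegral_mono hrow
    _ = D * ∫⁻ a, ∫⁻ b, I (a, b) * f b ^ 2 ∂ν ∂ν := by
        rw [lintegral_const_mul]
        exact Measurable.lintegral_prod_right' (f := fun p : Z × Z => I p * f p.2 ^ 2)
          (hIm.mul ((hf.comp measurable_snd).pow_const 2))
    _ = D * ∫⁻ b, ∫⁻ a, I (a, b) * f b ^ 2 ∂ν ∂ν := by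
        rw [lintegral_lintegral_swap]
        exact (hIm.mul ((hf.comp measurable_snd).pow_const 2)).aemeasurable
    _ ≤ D * ∫⁻ b, M * f b ^ 2 ∂ν := by
        refine mul_le_mul_right ?_ D
        refine lintegral_mono fun b => ?_
        have hmb : Measurable fun a => I (a, b) := hIm.comp measurable_prodMk_right
        rw [lintegral_mul_const _ hmb]
        refine mul_le_mul_left (le_trans (le_of_eq ?_) (hM b)) _
        have hs : MeasurableSet {y | K y b ≠ 0} := by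
          have : {y | K y b ≠ 0} = (fun y => K y b) ⁻¹' {0}ᶜ := by ext y; simp
          rw [this]; exact (hK.of_uncurry_right) (measurableSet_singleton 0).compl
        rw [← lintegral_indicator_one hs]
        refine lintegral_congr fun a => ?_
        by_cases hb : K a b = 0
        · rw [hIv0 a b hb, Set.indicator_of_notMem (by simpa using hb)]
        · rw [hIv a b hb, Set.indicator_of_mem (by exact hb)]; simp
    _ = M * D * ∫⁻ b, f b ^ 2 ∂ν := by
        rw [lintegral_const_mul _ (hf.pow_const 2), mul_comm M D, mul_assoc]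

end Pool.Agent.BCH
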