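import Pool.Agent.Lib.MP_aa9b81_an.H.ADefs

open MeasureTheory ENNReal NNReal

namespace Pool.Agent.BCH

universe u

variable {Z : Type u} [MeasurableSpace Z] {ν : Measure Z} [SigmaFinite ν]

theorem OB.mono {K K' : Z → Z → ℝ≥0∞} {D D' : ℝ≥0∞} (h : OB ν K' D) (hK : ∀ a b, K a b ≤ K' a b)
    (hD : D ≤ D') : OB ν K D' := by
  intro f hf
  refine le_trans (lintegral_mono fun a => ?_) ((h f hf).trans ?_)
  · exact pow_le_pow_left' (lintegral_mono fun b => mul_le_mul' (hK a b) le_rfl) 2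
  · exact mul_le_mul' hD le_rfl

/-- Composition (Tonelli: `∫_b (∫_z K a z K' z b) f b = ∫_z K a z (∫_b K' z b f b)`, then apply `OB K` to the
measurable function `z ↦ ∫_b K' z b f b`). -/
theorem OB.comp {K K' : Z → Z → ℝ≥0∞} (hK : Measurable (Function.uncurry K))
    (hK' : Measurable (Function.uncurry K')) {D D' : ℝ≥0∞} (h : OB ν K D) (h' : OB ν K' D') :
    OB ν (fun a b => ∫⁻ z, K a z * K' z b ∂ν) (D * D') := by
  intro f hf
  have hg : Measurable (fun z => ∫⁻ b, K' z b * f b ∂ν) :=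
    Measurable.lintegral_prod_right' (f := fun p : Z × Z => K' p.1 p.2 * f p.2)
      (hK'.mul (hf.comp measurable_snd))
  have e : ∀ a, ∫⁻ b, (∫⁻ z, K a z * K' z b ∂ν) * f b ∂ν =
      ∫⁻ z, K a z * (∫⁻ b, K' z b * f b ∂ν) ∂ν := by
    intro a
    have hKa : Measurable (K a) := hK.of_uncurry_left
    calc ∫⁻ b, (∫⁻ z, K a z * K' z b ∂ν) * f b ∂ν
        = ∫⁻ b, ∫⁻ z, K a z * K' z b * f b ∂ν ∂ν := by
          refine lintegral_congr fun b => ?_
          rw [lintegral_mul_const]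
          exact hKa.mul hK'.of_uncurry_right
      _ = ∫⁻ z, ∫⁻ b, K a z * K' z b * f b ∂ν ∂ν := by
          rw [lintegral_lintegral_swap]
          refine Measurable.aemeasurable ?_
          exact ((hKa.comp measurable_snd).mul (hK'.comp measurable_swap)).mul
            (hf.comp measurable_fst)
      _ = ∫⁻ z, K a z * (∫⁻ b, K' z b * f b ∂ν) ∂ν := by
          refine lintegral_congr fun z => ?_
          rw [← lintegral_const_mul]
          · refine lintegral_congr fun b => ?_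
            rw [mul_assoc]
          · exact hK'.of_uncurry_left.mul hf
  calc ∫⁻ a, (∫⁻ b, (∫⁻ z, K a z * K' z b ∂ν) * f b ∂ν) ^ 2 ∂ν
      = ∫⁻ a, (∫⁻ z, K a z * (∫⁻ b, K' z b * f b ∂ν) ∂ν) ^ 2 ∂ν := by
        refine lintegral_congr fun a => ?_
        rw [e a]
    _ ≤ D * ∫⁻ z, (∫⁻ b, K' z b * f b ∂ν) ^ 2 ∂ν := h _ hg
    _ ≤ D * (D' * ∫⁻ b, f b ^ 2 ∂ν) := mul_le_mul' le_rfl (h' f hf)
    _ = D * D' * ∫⁻ b, f b ^ 2 ∂ν := by rw [mul_assoc]

/-- `(∑_{i∈s} x_i)² ≤ #s ∑ x_i²` in `ℝ≥0∞` (`inner_mul_le_norm_mul_norm`-free: prove it by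
`ENNReal.inner_le_Lp_mul_Lq` or by induction / `Finset.inner_mul_le_norm_mul_norm`, or through
`sq_sum_le_card_mul_sum_sq` when all `x_i < ∞`, the other case being trivial). -/
theorem sq_sum_le_card {ι : Type*} (s : Finset ι) (x : ι → ℝ≥0∞) :
    (∑ i ∈ s, x i) ^ 2 ≤ (s.card : ℝ≥0∞) * ∑ i ∈ s, x i ^ 2 := by
  have hpq : Real.HolderConjugate 2 2 := Real.HolderConjugate.two_two
  have h := ENNReal.inner_le_Lp_mul_Lq s (fun _ => (1:ℝ≥0∞)) x hpq
  have h2 := pow_le_pow_left' h 2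
  simp only [one_mul, ENNReal.one_rpow, Finset.sum_const, nsmul_eq_mul, mul_one] at h2
  refine h2.trans (le_of_eq ?_)
  rw [mul_pow, ← ENNReal.rpow_natCast, ← ENNReal.rpow_natCast, ← ENNReal.rpow_mul,
    ← ENNReal.rpow_mul]
  norm_num

/-- A sum of `#s` kernels, each `OB` with constant `D`, is `OB` with constant `(#s)² D`. -/
theorem OB.sum {ι : Type*} (s : Finset ι) {K : ι → Z → Z → ℝ≥0∞}
    (hK : ∀ i ∈ s, Measurable (Function.uncurry (K i))) {D : ℝ≥0∞} (h : ∀ i ∈ s, OB ν (K i) D) :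
    OB ν (fun a b => ∑ i ∈ s, K i a b) ((s.card : ℝ≥0∞) ^ 2 * D) := by
  intro f hf
  have hm : ∀ i ∈ s, Measurable fun a => ∫⁻ b, K i a b * f b ∂ν := fun i hi =>
    Measurable.lintegral_prod_right' (f := fun p : Z × Z => K i p.1 p.2 * f p.2)
      ((hK i hi).mul (hf.comp measurable_snd))
  have e : ∀ a, ∫⁻ b, (∑ i ∈ s, K i a b) * f b ∂ν = ∑ i ∈ s, ∫⁻ b, K i a b * f b ∂ν := by
    intro a
    rw [← lintegral_finsetSum]
    · refine lintegral_congr fun b => ?_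
      rw [Finset.sum_mul]
    · intro i hi
      exact ((hK i hi).of_uncurry_left).mul hf
  calc ∫⁻ a, (∫⁻ b, (∑ i ∈ s, K i a b) * f b ∂ν) ^ 2 ∂ν
      = ∫⁻ a, (∑ i ∈ s, ∫⁻ b, K i a b * f b ∂ν) ^ 2 ∂ν := by
        refine lintegral_congr fun a => ?_
        rw [e a]
    _ ≤ ∫⁻ a, (s.card : ℝ≥0∞) * ∑ i ∈ s, (∫⁻ b, K i a b * f b ∂ν) ^ 2 ∂ν :=
        lintegral_mono fun a => sq_sum_le_card s _
    _ = (s.card : ℝ≥0∞) * ∑ i ∈ s, ∫⁻ a, (∫⁻ b, K i a b * f b ∂ν) ^ 2 ∂ν := by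
        rw [lintegral_const_mul, lintegral_finsetSum]
        · intro i hi
          exact (hm i hi).pow_const 2
        · exact Finset.measurable_sum _ fun i hi => (hm i hi).pow_const 2
    _ ≤ (s.card : ℝ≥0∞) * ∑ i ∈ s, D * ∫⁻ b, f b ^ 2 ∂ν := by
        refine mul_le_mul' le_rfl (Finset.sum_le_sum fun i hi => h i hi f hf)
    _ = (s.card : ℝ≥0∞) ^ 2 * D * ∫⁻ b, f b ^ 2 ∂ν := by
        rw [Finset.sum_const, nsmul_eq_mul]; ring

end Pool.Agent.BCH
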