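import Pool.Agent.Lib.MP_aa9b81_an.H.ADefs

open MeasureTheory ENNReal NNReal

namespace Pool.Agent.BCH

universe u

variable {Z : Type u} [MeasurableSpace Z] {ν : Measure Z} [SigmaFinite ν]

/-- Block decomposition: `h : Z → ℕ` measurable, all `Kr r` are `OB` with constant `D`. The kernel
which on `{h a = r + s, h b = r + t}` equals `Kr r` (all `r`), and is zero elsewhere, is `OB` with the
same constant: different `r` use disjoint rows and disjoint columns.
`∫_a (∫_b K f)² = ∑_r ∫_{a, h a = r + s} (∫_b Kr r a b 1[h b = r + t] f b)²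
≤ ∑_r D ∫ f² 1[h b = r + t] ≤ D ∫ f²`
(decompose `∫_a` over the fibres of `h`: e.g. write the integrand as
`∑' r, {a | h a = r + s}.indicator ...` and use `lintegral_tsum`). -/
theorem OB.blocks {h : Z → ℕ} (hh : Measurable h) {Kr : ℕ → Z → Z → ℝ≥0∞}
    (hm : ∀ r, Measurable (Function.uncurry (Kr r))) {D : ℝ≥0∞} (hK : ∀ r, OB ν (Kr r) D)
    (s t : ℕ) :
    OB ν (fun a b => if s ≤ h a ∧ h b + s = h a + t then Kr (h a - s) a b else 0) D := by
  intro f hf
  have hsm : ∀ n : ℕ, MeasurableSet {b | h b = n} := fun n => hh (measurableSet_singleton n)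
  set g : ℕ → Z → ℝ≥0∞ := fun r => {b | h b = r + t}.indicator f with hg
  have hgm : ∀ r, Measurable (g r) := fun r => hf.indicator (hsm _)
  have key : ∀ a, (∫⁻ b, (if s ≤ h a ∧ h b + s = h a + t then Kr (h a - s) a b else 0) * f b ∂ν) ^ 2
      ≤ ∑' r, (∫⁻ b, Kr r a b * g r b ∂ν) ^ 2 := by
    intro a
    by_cases hs : s ≤ h a
    · refine le_trans (le_of_eq ?_) (ENNReal.le_tsum (h a - s))
      congr 1
      refine lintegral_congr fun b => ?_
      by_cases hb : h b = h a - s + t
      · rw [if_pos ⟨hs, by omega⟩, hg]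
        simp only
        rw [Set.indicator_of_mem (by exact hb)]
      · rw [if_neg (by omega), hg]
        simp only
        rw [Set.indicator_of_notMem (by exact hb)]
        simp
    · have : ∀ b, (if s ≤ h a ∧ h b + s = h a + t then Kr (h a - s) a b else 0) * f b = 0 := by
        intro b
        rw [if_neg (by tauto)]; simp
      simp [this]
  have hsum : ∀ b, ∑' r, g r b ^ 2 ≤ f b ^ 2 := by
    intro b
    by_cases ht : t ≤ h b
    · rw [tsum_eq_single (h b - t)]
      · rw [hg]
        simp only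
        rw [Set.indicator_of_mem (by show h b = h b - t + t; omega)]
      · intro r hr
        rw [hg]
        simp only
        rw [Set.indicator_of_notMem (by show ¬ (h b = r + t); omega)]
        simp
    · have : ∀ r, g r b = 0 := by
        intro r
        rw [hg]
        simp only
        rw [Set.indicator_of_notMem (by show ¬ (h b = r + t); omega)]
      simp [this]
  calc ∫⁻ a, (∫⁻ b, (if s ≤ h a ∧ h b + s = h a + t then Kr (h a - s) a b else 0) * f b ∂ν) ^ 2 ∂ν
      ≤ ∫⁻ a, ∑' r, (∫⁻ b, Kr r a b * g r b ∂ν) ^ 2 ∂ν := lintegral_mono key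
    _ = ∑' r, ∫⁻ a, (∫⁻ b, Kr r a b * g r b ∂ν) ^ 2 ∂ν := by
        rw [lintegral_tsum]
        intro r
        refine Measurable.aemeasurable (Measurable.pow_const ?_ 2)
        exact Measurable.lintegral_prod_right' (f := fun p : Z × Z => Kr r p.1 p.2 * g r p.2)
          ((hm r).mul ((hgm r).comp measurable_snd))
    _ ≤ ∑' r, D * ∫⁻ b, g r b ^ 2 ∂ν := ENNReal.tsum_le_tsum fun r => hK r (g r) (hgm r)
    _ = D * ∫⁻ b, ∑' r, g r b ^ 2 ∂ν := by
        rw [ENNReal.tsum_mul_left, lintegral_tsum]
        intro r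
        exact ((hgm r).pow_const 2).aemeasurable
    _ ≤ D * ∫⁻ b, f b ^ 2 ∂ν := mul_le_mul' le_rfl (lintegral_mono hsum)

end Pool.Agent.BCH
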