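import Pool.Agent.Lib.MP_aa9b81_an.H.A3

open MeasureTheory ENNReal NNReal

namespace Pool.Agent.BCH

universe u

variable {Z : Type u} [MeasurableSpace Z] {ν : Measure Z} [SigmaFinite ν]

private theorem A5_sq_le {x : ℝ≥0∞} {B : ℝ≥0} (h : x ≤ B) : x ^ 2 ≤ B * x := by
  rw [sq]; exact mul_le_mul' h le_rfl

/-- `∫ ‖k y b‖² db ≤ B * ∫ ‖k y b‖ db ≤ B σ`. Then induction: `kpow (n+1) y b = ∫ z, kpow n y z * k z b`
(`kpow_right`) is the operator with the transposed kernel `fun b z => k z b` applied to the function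
`z ↦ kpow n y z` (measurable, square integrable by the induction hypothesis). -/
theorem kpow_row2 {k : Z → Z → ℂ} {B σ c : ℝ≥0} (hk : Ker ν k B σ)
    (hT : OpBd ν (fun a b => k b a) c) (n : ℕ) (y : Z) :
    ∫⁻ b, ‖kpow ν k n y b‖ₑ ^ 2 ∂ν ≤ B * σ * c ^ n := by
  induction n with
  | zero =>
    calc ∫⁻ b, ‖kpow ν k 0 y b‖ₑ ^ 2 ∂ν ≤ ∫⁻ b, B * ‖k y b‖ₑ ∂ν :=
          lintegral_mono fun b => A5_sq_le (hk.bd y b)
      _ = B * ∫⁻ b, ‖k y b‖ₑ ∂ν := by
          rw [lintegral_const_mul]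
          exact (hk.meas.of_uncurry_left).enorm
      _ ≤ B * σ * c ^ 0 := by
          rw [pow_zero, mul_one]
          exact mul_le_mul' le_rfl (hk.row y)
  | succ n ih =>
    have hm : Measurable (kpow ν k n y) := (kpow_meas hk.meas n).of_uncurry_left
    have hfin : ∫⁻ b, ‖kpow ν k n y b‖ₑ ^ 2 ∂ν < ∞ := by
      refine lt_of_le_of_lt ih ?_
      exact_mod_cast ENNReal.coe_lt_top (r := B * σ * c ^ n)
    have h := hT _ hm hfin
    calc ∫⁻ b, ‖kpow ν k (n + 1) y b‖ₑ ^ 2 ∂ν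
        = ∫⁻ b, ‖∫ z, k z b * kpow ν k n y z ∂ν‖ₑ ^ 2 ∂ν := by
          refine lintegral_congr fun b => ?_
          rw [kpow_right hk n y b]
          simp only [mul_comm]
      _ ≤ c * ∫⁻ b, ‖kpow ν k n y b‖ₑ ^ 2 ∂ν := h
      _ ≤ c * (B * σ * c ^ n) := mul_le_mul' le_rfl ih
      _ = B * σ * c ^ (n + 1) := by ring

/-- `∫ ‖k a y‖² da ≤ B σ`. Induction: `hpow (n+1) a y` is the indicator of `Pᶜ` times the operator
with kernel `k` applied to the function `z ↦ hpow n z y`. -/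
theorem hpow_col2 {k : Z → Z → ℂ} {B σ c : ℝ≥0} (hk : Ker ν k B σ)
    (hO : OpBd ν k c) {P : Set Z} (hP : MeasurableSet P) (n : ℕ) (y : Z) :
    ∫⁻ a, ‖hpow ν k P n a y‖ₑ ^ 2 ∂ν ≤ B * σ * c ^ n := by
  induction n with
  | zero =>
    calc ∫⁻ a, ‖hpow ν k P 0 a y‖ₑ ^ 2 ∂ν ≤ ∫⁻ a, B * ‖k a y‖ₑ ∂ν := by
          refine lintegral_mono fun a => ?_
          refine le_trans ?_ (A5_sq_le (hk.bd a y))
          refine pow_le_pow_left' ?_ 2
          exact enorm_indicator_le_enorm_self (fun a' => k a' y) a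
      _ = B * ∫⁻ a, ‖k a y‖ₑ ∂ν := by
          rw [lintegral_const_mul]
          exact (hk.meas.of_uncurry_right).enorm
      _ ≤ B * σ * c ^ 0 := by
          rw [pow_zero, mul_one]
          exact mul_le_mul' le_rfl (hk.col y)
  | succ n ih =>
    have hm : Measurable (fun z => hpow ν k P n z y) := (hpow_meas hk.meas hP n).of_uncurry_right
    have hfin : ∫⁻ b, ‖hpow ν k P n b y‖ₑ ^ 2 ∂ν < ∞ := by
      refine lt_of_le_of_lt ih ?_
      exact_mod_cast ENNReal.coe_lt_top (r := B * σ * c ^ n)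
    have h := hO _ hm hfin
    calc ∫⁻ a, ‖hpow ν k P (n + 1) a y‖ₑ ^ 2 ∂ν
        ≤ ∫⁻ a, ‖∫ z, k a z * hpow ν k P n z y ∂ν‖ₑ ^ 2 ∂ν := by
          refine lintegral_mono fun a => ?_
          refine pow_le_pow_left' ?_ 2
          exact enorm_indicator_le_enorm_self (fun a' => kcomp ν k (hpow ν k P n) a' y) a
      _ ≤ c * ∫⁻ b, ‖hpow ν k P n b y‖ₑ ^ 2 ∂ν := h
      _ ≤ c * (B * σ * c ^ n) := mul_le_mul' le_rfl ih
      _ = B * σ * c ^ (n + 1) := by ring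

end Pool.Agent.BCH
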