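import Pool.Agent.Lib.MP_aa9b81_an.H.ADefs

open MeasureTheory ENNReal NNReal

namespace Pool.Agent.BCH

universe u

/-- All the data of the absolute value inequality for `T ^ (n + 1)`. -/
structure AVData {Z : Type u} [MeasurableSpace Z] (ν : Measure Z) (k : Z → Z → ℂ)
    (B σ c : ℝ≥0) (S : Set Z) (d : Z → Z → ℝ) (δ R : ℝ) (o : Z) (n p : ℕ)
    (E : Z → Z → Prop) (M : ℝ≥0∞) : Prop where
  ker : Ker ν k B σ
  op : OpBd ν k c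
  opT : OpBd ν (fun a b => k b a) c
  met : HypMet S d δ
  dmeas : Measurable (Function.uncurry d)
  step : ∀ a b, k a b ≠ 0 → a ∈ S ∧ b ∈ S ∧ d a b ≤ R
  hR : 0 ≤ R
  ho : o ∈ S
  hp : n + 1 ≤ 2 ^ p
  E1 : ∀ (x x' : ℕ → Z) (i i' : ℕ), i ≤ n + 1 → i' ≤ n + 1 → Chain k x i → Chain k x' i' →
    x 0 = x' 0 → E (x i) (x' i')
  E2 : ∀ (x x' : ℕ → Z) (i i' : ℕ), i ≤ n + 1 → i' ≤ n + 1 → Chain k x i → Chain k x' i' →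
    x i = x' i' → E (x 0) (x' 0)
  EM : ∀ y₀ ∈ S, ν {y | y ∈ S ∧ E y₀ y ∧ d y₀ y ≤ 2 * (1 + p * δ + R) + 4 * δ} ≤ M

/-- The ball `P_r = {z | |z| < r + (1 + p δ) + R}`. -/
def Pr {Z : Type u} (d : Z → Z → ℝ) (o : Z) (δ R : ℝ) (p : ℕ) (r : ℝ) : Set Z :=
  {z | d o z < r + (1 + p * δ) + R}

/-- The level `r` part of `|k^(n+1)|`. -/
noncomputable def lev {Z : Type u} [MeasurableSpace Z] (ν : Measure Z) (k : Z → Z → ℂ)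
    (d : Z → Z → ℝ) (o : Z) (n : ℕ) (r : ℝ) (a b : Z) : ℝ≥0∞ :=
  {b' | r ≤ gp d o a b' ∧ gp d o a b' < r + 1}.indicator (fun b' => ‖kpow ν k n a b'‖ₑ) b

/-- The constant of one level. -/
noncomputable def levC (B σ c : ℝ≥0) (n : ℕ) (M : ℝ≥0∞) : ℝ≥0∞ :=
  ((n : ℝ≥0∞) + 1) ^ 2 * (M ^ 2 * (B * σ) ^ 2 * c ^ (n - 1) + M * (B * σ) * c ^ n)

end Pool.Agent.BCH
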