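import Pool.Agent.Lib.MP_aa9b81_an.H.A8
import Pool.Agent.Lib.MP_aa9b81_an.H.AData

open MeasureTheory ENNReal NNReal

namespace Pool.Agent.BCH

universe u

variable {Z : Type u} [MeasurableSpace Z] {ν : Measure Z} {k : Z → Z → ℂ} {B σ c : ℝ≥0}
  {S : Set Z} {d : Z → Z → ℝ} {δ R : ℝ} {o : Z} {n p : ℕ} {E : Z → Z → Prop} {M : ℝ≥0∞}

private theorem A9_m1 (D : AVData ν k B σ c S d δ R o n p E M) : Measurable (fun z => d o z) :=
  D.dmeas.of_uncurry_left (x := o)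

/-- `d o ·` is measurable. -/
theorem meas_Pr (D : AVData ν k B σ c S d δ R o n p E M) (r : ℝ) :
    MeasurableSet (Pr d o δ R p r) :=
  measurableSet_lt (A9_m1 D) measurable_const

/-- `(a, b) ↦ (a|b)_o` is measurable. -/
theorem meas_gp (D : AVData ν k B σ c S d δ R o n p E M) :
    Measurable (fun q : Z × Z => gp d o q.1 q.2) := by
  unfold gp
  have h := A9_m1 D
  exact (((h.comp measurable_fst).add (h.comp measurable_snd)).sub D.dmeas).div_const 2

/-- The support of `y ↦ hpow i a y` in `P_r` is small. If it is empty: trivial. Otherwise fix `y₀` in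
it; for every `y` in it `(a|y₀), (a|y) ≥ r + 1` and `y₀, y ∈ S` (`gp_of_hpow`, note that
`Pr d o δ R p r` is by definition the set occurring there), so `(y₀|y) ≥ r + 1 - δ ≥ r - 2 δ`
(`gp_hyp`, `gp_symm`), so `d y₀ y ≤ 2 (1 + p δ + R) + 4 δ` (`d_le_of_gp`), and `E y₀ y` by `E1` applied
to the two chains from `a` given by `chain_of_hpow` (`i + 1 ≤ n + 1` steps). So the support is
contained in the set of `EM`. -/
theorem supp_hpow (D : AVData ν k B σ c S d δ R o n p E M) (r : ℝ) {i : ℕ} (hi : i ≤ n) (a : Z) :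
    ν {y | y ∈ Pr d o δ R p r ∧ hpow ν k (Pr d o δ R p r) i a y ≠ 0} ≤ M := by
  rcases Set.eq_empty_or_nonempty
    {y | y ∈ Pr d o δ R p r ∧ hpow ν k (Pr d o δ R p r) i a y ≠ 0} with he | ⟨y₀, hy₀P, hy₀⟩
  · rw [he, measure_empty]
    exact bot_le
  have hi2 : i + 1 ≤ 2 ^ p := le_trans (by omega) D.hp
  obtain ⟨haS, hy₀S, hg₀⟩ := gp_of_hpow D.met D.ho D.step hi2 hy₀
  obtain ⟨x, hx0, hx1, hxc, -⟩ := chain_of_hpow hy₀
  have hδ := D.met.delta_nonneg D.ho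
  refine (measure_mono ?_).trans (D.EM y₀ hy₀S)
  rintro y ⟨hyP, hy⟩
  obtain ⟨-, hyS, hg⟩ := gp_of_hpow D.met D.ho D.step hi2 hy
  obtain ⟨x', hx0', hx1', hxc', -⟩ := chain_of_hpow hy
  refine ⟨hyS, ?_, ?_⟩
  · have h := D.E1 x x' (i + 1) (i + 1) (by omega) (by omega) hxc hxc' (by rw [hx0, hx0'])
    rwa [hx1, hx1'] at h
  · have h1 := gp_hyp D.met D.ho hy₀S hyS haS
    rw [gp_symm D.met hy₀S haS] at h1
    have h2 : r + 1 ≤ min (gp d o a y₀) (gp d o a y) := le_min hg₀ hg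
    have h3 : r - 2 * δ ≤ gp d o y₀ y := by linarith
    have h4 := d_le_of_gp (show d o y₀ < r + (1 + p * δ) + R from hy₀P)
      (show d o y < r + (1 + p * δ) + R from hyP) h3
    linarith

/-- The support of `y ↦ kpow j y b`, restricted to `y ∈ P_r` with `(y|b) ≥ r - δ`, is small. If it is
empty: trivial. Otherwise fix `y₀` in it; for `y` in it `(y₀|y) ≥ r - 2 δ` (`gp_hyp` through `b`), so
`d y₀ y ≤ 2 (1 + p δ + R) + 4 δ`, and `E y₀ y` by `E2` applied to the chains of `chain_of_kpow`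
(`j + 1 ≤ n + 1` steps, both ending at `b`). Points are in `S` by `dist_of_kpow`. -/
theorem supp_kpow (D : AVData ν k B σ c S d δ R o n p E M) (r : ℝ) {j : ℕ} (hj : j ≤ n) (b : Z) :
    ν {y | y ∈ Pr d o δ R p r ∧ kpow ν k j y b ≠ 0 ∧ r - δ ≤ gp d o y b} ≤ M := by
  rcases Set.eq_empty_or_nonempty
    {y | y ∈ Pr d o δ R p r ∧ kpow ν k j y b ≠ 0 ∧ r - δ ≤ gp d o y b} with
    he | ⟨y₀, hy₀P, hy₀, hg₀⟩
  · rw [he, measure_empty]
    exact bot_le
  obtain ⟨hy₀S, hbS, -⟩ := dist_of_kpow D.met D.step hy₀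
  obtain ⟨x, hx0, hx1, hxc⟩ := chain_of_kpow hy₀
  have hδ := D.met.delta_nonneg D.ho
  refine (measure_mono ?_).trans (D.EM y₀ hy₀S)
  rintro y ⟨hyP, hy, hg⟩
  obtain ⟨hyS, -, -⟩ := dist_of_kpow D.met D.step hy
  obtain ⟨x', hx0', hx1', hxc'⟩ := chain_of_kpow hy
  refine ⟨hyS, ?_, ?_⟩
  · have h := D.E2 x x' (j + 1) (j + 1) (by omega) (by omega) hxc hxc' (by rw [hx1, hx1'])
    rwa [hx0, hx0'] at h
  · have h1 := gp_hyp D.met D.ho hy₀S hyS hbS
    rw [gp_symm D.met hbS hyS] at h1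
    have h2 : r - δ ≤ min (gp d o y₀ b) (gp d o y b) := le_min hg₀ hg
    have h3 : r - 2 * δ ≤ gp d o y₀ y := by linarith
    have h4 := d_le_of_gp (show d o y₀ < r + (1 + p * δ) + R from hy₀P)
      (show d o y < r + (1 + p * δ) + R from hyP) h3
    linarith

end Pool.Agent.BCH
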