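import Pool.Agent.Lib.MP_aa9b81_an.H.A10
import Pool.Agent.Lib.MP_aa9b81_an.H.A5
import Pool.Agent.Lib.MP_aa9b81_an.H.A9

open MeasureTheory ENNReal NNReal

namespace Pool.Agent.BCH

universe u

variable {Z : Type u} [MeasurableSpace Z] {ν : Measure Z} [SigmaFinite ν] {k : Z → Z → ℂ}
  {B σ c : ℝ≥0} {S : Set Z} {d : Z → Z → ℝ} {δ R : ℝ} {o : Z} {n p : ℕ} {E : Z → Z → Prop}
  {M : ℝ≥0∞}

/-- `A_i(a,y) = 1[y ∈ P_r] |h_i(a,y)|` -/
noncomputable def Aker (ν : Measure Z) (k : Z → Z → ℂ) (P : Set Z) (i : ℕ) (a y : Z) : ℝ≥0∞ :=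
  P.indicator (fun y => ‖hpow ν k P i a y‖ₑ) y

/-- `B_j(y,b) = 1[y ∈ P_r, (y|b) ≥ r - δ] |k^(j+1)(y,b)|` -/
noncomputable def Bker (ν : Measure Z) (k : Z → Z → ℂ) (P : Set Z) (d : Z → Z → ℝ) (o : Z)
    (q : ℝ) (j : ℕ) (y b : Z) : ℝ≥0∞ :=
  {y | y ∈ P ∧ q ≤ gp d o y b}.indicator (fun y => ‖kpow ν k j y b‖ₑ) y

theorem Aker_meas (D : AVData ν k B σ c S d δ R o n p E M) (r : ℝ) (i : ℕ) :
    Measurable (Function.uncurry (Aker ν k (Pr d o δ R p r) i)) := by
  have hP := meas_Pr D r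
  have h1 := (hpow_meas (ν := ν) D.ker.meas hP i).enorm
  have h2 : MeasurableSet (Prod.snd ⁻¹' (Pr d o δ R p r) : Set (Z × Z)) := measurable_snd hP
  have e : Function.uncurry (Aker ν k (Pr d o δ R p r) i) =
      (Prod.snd ⁻¹' (Pr d o δ R p r) : Set (Z × Z)).indicator
        (fun x => ‖Function.uncurry (hpow ν k (Pr d o δ R p r) i) x‖ₑ) := by
    ext ⟨a, y⟩
    by_cases hy : y ∈ Pr d o δ R p r
    · simp [Aker, Set.indicator, hy, Function.uncurry]
    · simp [Aker, Set.indicator, hy, Function.uncurry]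
  rw [e]
  exact h1.indicator h2

theorem Bker_meas (D : AVData ν k B σ c S d δ R o n p E M) (r q : ℝ) (j : ℕ) :
    Measurable (Function.uncurry (Bker ν k (Pr d o δ R p r) d o q j)) := by
  have hP := meas_Pr D r
  have h1 := (kpow_meas (ν := ν) D.ker.meas j).enorm
  have h2 : MeasurableSet {w : Z × Z | w.1 ∈ Pr d o δ R p r ∧ q ≤ gp d o w.1 w.2} :=
    (measurable_fst hP).inter (measurableSet_le measurable_const (meas_gp D))
  have e : Function.uncurry (Bker ν k (Pr d o δ R p r) d o q j) =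
      {w : Z × Z | w.1 ∈ Pr d o δ R p r ∧ q ≤ gp d o w.1 w.2}.indicator
        (fun x => ‖Function.uncurry (kpow ν k j) x‖ₑ) := by
    ext ⟨y, b⟩
    by_cases hy : y ∈ Pr d o δ R p r ∧ q ≤ gp d o y b
    · simp [Bker, Set.indicator, hy, Function.uncurry]
    · simp [Bker, Set.indicator, hy, Function.uncurry]
  rw [e]
  exact h1.indicator h2

/-- `OB_of_rows` with `supp_hpow` and `hpow_col2`. -/
theorem Aker_OB (D : AVData ν k B σ c S d δ R o n p E M) (r : ℝ) {i : ℕ} (hi : i ≤ n) :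
    OB ν (Aker ν k (Pr d o δ R p r) i) (M * (B * σ * c ^ i)) := by
  refine OB_of_rows (Aker_meas D r i) (fun a => ?_) (fun y => ?_)
  · refine (measure_mono fun y hy => ?_).trans (supp_hpow D r hi a)
    have hy' : Aker ν k (Pr d o δ R p r) i a y ≠ 0 := hy
    by_cases h : y ∈ Pr d o δ R p r
    · refine ⟨h, fun h0 => hy' ?_⟩
      simp [Aker, Set.indicator, h, h0]
    · exact absurd (by simp [Aker, Set.indicator, h]) hy'
  · refine (lintegral_mono fun a => ?_).trans (hpow_col2 D.ker D.op (meas_Pr D r) i y)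
    by_cases h : y ∈ Pr d o δ R p r
    · simp [Aker, Set.indicator, h]
    · simp [Aker, Set.indicator, h]

/-- `OB_of_cols` with `supp_kpow` and `kpow_row2`. -/
theorem Bker_OB (D : AVData ν k B σ c S d δ R o n p E M) (r : ℝ) {j : ℕ} (hj : j ≤ n) :
    OB ν (Bker ν k (Pr d o δ R p r) d o (r - δ) j) (M * (B * σ * c ^ j)) := by
  refine OB_of_cols (Bker_meas D r _ j) (fun y => ?_) (fun b => ?_)
  · refine (lintegral_mono fun b => ?_).trans (kpow_row2 D.ker D.opT j y)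
    by_cases h : y ∈ Pr d o δ R p r ∧ r - δ ≤ gp d o y b
    · simp only [Bker, Set.indicator]
      rw [if_pos (by exact h)]
    · simp only [Bker, Set.indicator]
      rw [if_neg (by exact h)]
      simp
  · refine (measure_mono fun y hy => ?_).trans (supp_kpow D r hj b)
    have hy' : Bker ν k (Pr d o δ R p r) d o (r - δ) j y b ≠ 0 := hy
    by_cases h : y ∈ Pr d o δ R p r ∧ r - δ ≤ gp d o y b
    · refine ⟨h.1, fun h0 => hy' ?_, h.2⟩
      simp [Bker, Set.indicator, h0]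
    · refine absurd ?_ hy'
      simp only [Bker, Set.indicator]
      rw [if_neg (by exact h)]

end Pool.Agent.BCH
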