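import Pool.Agent.Lib.MP_aa9b81_an.H.A3

open MeasureTheory ENNReal NNReal

namespace Pool.Agent.BCH

universe u

variable {Z : Type u} [MeasurableSpace Z] {ν : Measure Z} [SigmaFinite ν]

/-- Cutting the second factor of a composition by the indicator function of `P`. -/
private theorem A4_cut {m : Z → Z → ℂ} (hmm : Measurable (Function.uncurry m)) {P : Set Z}
    (hP : MeasurableSet P) :
    Measurable (Function.uncurry (fun y b => P.indicator (fun y' => m y' b) y)) := by
  have : Function.uncurry (fun y b => P.indicator (fun y' => m y' b) y)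
      = (P ×ˢ (Set.univ : Set Z)).indicator (Function.uncurry m) := by
    ext ⟨y, b⟩
    by_cases hy : y ∈ P
    · rw [Set.indicator_of_mem (by exact ⟨hy, trivial⟩)]
      simp [Function.uncurry, hy]
    · rw [Set.indicator_of_notMem (by rintro ⟨h, -⟩; exact hy h)]
      simp [Function.uncurry, hy]
  rw [this]
  exact hmm.indicator (hP.prod MeasurableSet.univ)

private theorem A4_cut_int {m : Z → Z → ℂ} {P : Set Z} (hP : MeasurableSet P) (u : Z → ℂ)
    (b : Z) : ∫ y in P, u y * m y b ∂ν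
      = ∫ y, u y * P.indicator (fun y' => m y' b) y ∂ν := by
  rw [← integral_indicator hP]
  refine integral_congr_ae (Filter.Eventually.of_forall fun y => ?_)
  by_cases hy : y ∈ P
  · simp [hy]
  · simp [hy]

private theorem A4_int {k : Z → Z → ℂ} {B σ : ℝ≥0} (hk : Ker ν k B σ) (a : Z) {g : Z → ℂ}
    (hg : Measurable g) {C : ℝ≥0} (hC : ∀ z, ‖g z‖ₑ ≤ C) :
    Integrable (fun z => k a z * g z) ν := by
  have hka : Measurable (fun z => k a z) := hk.meas.comp (measurable_const.prodMk measurable_id)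
  refine ⟨(hka.mul hg).aestronglyMeasurable, ?_⟩
  show ∫⁻ z, ‖k a z * g z‖ₑ ∂ν < ∞
  calc ∫⁻ z, ‖k a z * g z‖ₑ ∂ν ≤ ∫⁻ z, ‖k a z‖ₑ * C ∂ν := by
        refine lintegral_mono fun z => ?_
        rw [enorm_mul]
        exact mul_le_mul_right (hC z) _
    _ = (∫⁻ z, ‖k a z‖ₑ ∂ν) * C := by
        rw [lintegral_mul_const _ hka.enorm]
    _ ≤ σ * C := mul_le_mul_left (hk.row a) _
    _ < ∞ := ENNReal.mul_lt_top coe_lt_top coe_lt_top

/-- `(k ∘ (1_P h)) a b`, with `h` supported outside `P` in the first variable and Fubini: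
`∫_z k a z * (∫_{y ∈ P} h z y * m y b dy) dz = ∫_{y ∈ P} (∫_z k a z * h z y dz) * m y b dy`.
Same integrability as in `kcomp_assoc`. -/
theorem kcomp_setIntegral {k h m : Z → Z → ℂ} {B σ : ℝ≥0} (hk : Ker ν k B σ)
    (hhm : Measurable (Function.uncurry h)) (hmm : Measurable (Function.uncurry m))
    {C C' : ℝ≥0} (hh : ∀ a, ∫⁻ b, ‖h a b‖ₑ ∂ν ≤ C) (hm : ∀ a b, ‖m a b‖ₑ ≤ C')
    {P : Set Z} (hP : MeasurableSet P) (a b : Z) :
    ∫ z, k a z * (∫ y in P, h z y * m y b ∂ν) ∂ν =
      ∫ y in P, (∫ z, k a z * h z y ∂ν) * m y b ∂ν := by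
  have hb : ∀ y b, ‖P.indicator (fun y' => m y' b) y‖ₑ ≤ (C' : ℝ≥0∞) := by
    intro y b
    by_cases hy : y ∈ P
    · rw [Set.indicator_of_mem hy]; exact hm y b
    · rw [Set.indicator_of_notMem hy]; simp
  have h1 := kcomp_assoc hk hhm (A4_cut hmm hP) hh hb a b
  simp only [kcomp] at h1
  simp only [A4_cut_int hP]
  exact h1

/-- FIRST HIT DECOMPOSITION. For `a ∉ P`,
`k^(n+1) a b = ∑_{i<n} ∫_{y ∈ P} h_i(a,y) k^(n-i)(y,b) dy + h_n(a,b)`.
Induction on `n`. `n = 0`: `kpow 0 a b = k a b = hpow 0 a b`.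
Step: `kpow (n+1) a b = ∫_z k a z * kpow n z b`; split the integral over `P` and `Pᶜ`
(`integral_add_compl`, integrable by A2 bounds). Over `P` this is
`∫_{z∈P} hpow 0 a z * kpow n z b` (as `a ∉ P`), the term `i = 0`. Over `Pᶜ` insert the induction
hypothesis for `z ∉ P`: `∫_{z∈Pᶜ} k a z * (∑_{i<n} ∫_{y∈P} hpow i z y * kpow (n-1-i) y b + hpow n z b)`;
here `hpow i z y = 0` for `z ∈ P`, so the integral over `Pᶜ` is the integral over everything of the
same expression, and `kcomp_setIntegral` turns the `i`-th term into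
`∫_{y∈P} hpow (i+1) a y * kpow (n-1-i) y b`, the last one into `hpow (n+1) a b`.
Use `Finset.sum_range_succ'`. -/
theorem kpow_decomp {k : Z → Z → ℂ} {B σ : ℝ≥0} (hk : Ker ν k B σ) {P : Set Z}
    (hP : MeasurableSet P) (n : ℕ) {a : Z} (ha : a ∉ P) (b : Z) :
    kpow ν k n a b =
      ∑ i ∈ Finset.range n, ∫ y in P, hpow ν k P i a y * kpow ν k (n - 1 - i) y b ∂ν
        + hpow ν k P n a b := by
  have hkm := hk.meas
  -- values of `hpow`
  have hin : ∀ (i : ℕ) (z y : Z), z ∈ P → hpow ν k P i z y = 0 := by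
    intro i z y hz
    have hz' : z ∉ Pᶜ := fun h => h hz
    cases i with
    | zero =>
      show Pᶜ.indicator (fun a' => k a' y) z = 0
      exact Set.indicator_of_notMem hz' _
    | succ i =>
      show Pᶜ.indicator (fun a' => kcomp ν k (hpow ν k P i) a' y) z = 0
      exact Set.indicator_of_notMem hz' _
  have hout : ∀ (i : ℕ) (z y : Z), z ∉ P →
      hpow ν k P (i + 1) z y = kcomp ν k (hpow ν k P i) z y := by
    intro i z y hz
    show Pᶜ.indicator (fun a' => kcomp ν k (hpow ν k P i) a' y) z = _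
    exact Set.indicator_of_mem (show z ∈ Pᶜ from hz) _
  have hout0 : ∀ (z y : Z), z ∉ P → hpow ν k P 0 z y = k z y := by
    intro z y hz
    show Pᶜ.indicator (fun a' => k a' y) z = _
    exact Set.indicator_of_mem (show z ∈ Pᶜ from hz) _
  have hpb : ∀ (j : ℕ) (y b : Z), ‖kpow ν k j y b‖ₑ ≤ ((σ ^ j * B : ℝ≥0) : ℝ≥0∞) := by
    intro j y b
    have := kpow_bd hk j y b
    push_cast
    exact this
  have hhr : ∀ (i : ℕ) (z : Z), ∫⁻ y, ‖hpow ν k P i z y‖ₑ ∂ν ≤ ((σ ^ (i + 1) : ℝ≥0) : ℝ≥0∞) := by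
    intro i z
    have := hpow_row hk hP i z
    push_cast
    exact this
  induction n generalizing a with
  | zero => simp [kpow, hout0 a b ha]
  | succ n ih =>
    -- the inner function
    set G : Z → ℂ := fun z => ∑ i ∈ Finset.range n,
      ∫ y in P, hpow ν k P i z y * kpow ν k (n - 1 - i) y b ∂ν + hpow ν k P n z b with hG
    have hGin : ∀ z ∈ P, G z = 0 := by
      intro z hz
      have h1 : ∀ i, ∫ y in P, hpow ν k P i z y * kpow ν k (n - 1 - i) y b ∂ν = 0 := by
        intro i
        have : (fun y => hpow ν k P i z y * kpow ν k (n - 1 - i) y b) = fun _ => 0 := by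
          funext y
          rw [hin i z y hz, zero_mul]
        rw [this]
        simp
      simp only [hG, h1, hin n z b hz, Finset.sum_const_zero, add_zero]
    have hGout : ∀ z, z ∉ P → kpow ν k n z b = G z := fun z hz => ih hz
    -- integrability
    have hmeas_kpow : Measurable (fun z => kpow ν k n z b) :=
      (kpow_meas hkm n).comp (measurable_id.prodMk measurable_const)
    have hint1 : Integrable (fun z => k a z * kpow ν k n z b) ν :=
      A4_int hk a hmeas_kpow (fun z => hpb n z b)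
    have hterm_meas : ∀ i, Measurable
        (fun z => ∫ y in P, hpow ν k P i z y * kpow ν k (n - 1 - i) y b ∂ν) := by
      intro i
      have h1 : (fun z => ∫ y in P, hpow ν k P i z y * kpow ν k (n - 1 - i) y b ∂ν)
          = fun z => kcomp ν (hpow ν k P i)
            (fun y b => P.indicator (fun y' => kpow ν k (n - 1 - i) y' b) y) z b := by
        funext z
        rw [A4_cut_int hP]
        rfl
      rw [h1]
      exact (kcomp_meas (hpow_meas hkm hP i) (A4_cut (kpow_meas hkm (n - 1 - i)) hP)).comp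
        (measurable_id.prodMk measurable_const)
    have hterm_bd : ∀ i z, ‖∫ y in P, hpow ν k P i z y * kpow ν k (n - 1 - i) y b ∂ν‖ₑ
        ≤ ((σ ^ (i + 1) * (σ ^ (n - 1 - i) * B) : ℝ≥0) : ℝ≥0∞) := by
      intro i z
      have hm1 : Measurable (fun y => hpow ν k P i z y) :=
        (hpow_meas hkm hP i).comp (measurable_const.prodMk measurable_id)
      calc ‖∫ y in P, hpow ν k P i z y * kpow ν k (n - 1 - i) y b ∂ν‖ₑ
          ≤ ∫⁻ y in P, ‖hpow ν k P i z y * kpow ν k (n - 1 - i) y b‖ₑ ∂ν :=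
            enorm_integral_le_lintegral_enorm _
        _ ≤ ∫⁻ y, ‖hpow ν k P i z y * kpow ν k (n - 1 - i) y b‖ₑ ∂ν :=
            lintegral_mono' Measure.restrict_le_self le_rfl
        _ ≤ ∫⁻ y, ‖hpow ν k P i z y‖ₑ * ((σ ^ (n - 1 - i) * B : ℝ≥0) : ℝ≥0∞) ∂ν := by
            refine lintegral_mono fun y => ?_
            rw [enorm_mul]
            exact mul_le_mul_right (hpb _ y b) _
        _ = (∫⁻ y, ‖hpow ν k P i z y‖ₑ ∂ν) * ((σ ^ (n - 1 - i) * B : ℝ≥0) : ℝ≥0∞) := by
            rw [lintegral_mul_const _ hm1.enorm]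
        _ ≤ ((σ ^ (i + 1) : ℝ≥0) : ℝ≥0∞) * ((σ ^ (n - 1 - i) * B : ℝ≥0) : ℝ≥0∞) :=
            mul_le_mul_left (hhr i z) _
        _ = ((σ ^ (i + 1) * (σ ^ (n - 1 - i) * B) : ℝ≥0) : ℝ≥0∞) :=
            (ENNReal.coe_mul _ _).symm
    have hint2 : ∀ i, Integrable
        (fun z => k a z * ∫ y in P, hpow ν k P i z y * kpow ν k (n - 1 - i) y b ∂ν) ν :=
      fun i => A4_int hk a (hterm_meas i) (hterm_bd i)
    have hint3 : Integrable (fun z => k a z * hpow ν k P n z b) ν := by
      refine A4_int hk a ((hpow_meas hkm hP n).comp (measurable_id.prodMk measurable_const))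
        (C := σ ^ n * B) (fun z => ?_)
      have := hpow_bd hk P n z b
      push_cast
      exact this
    -- the computation
    have e1 : kpow ν k (n + 1) a b = ∫ z in P, k a z * kpow ν k n z b ∂ν
        + ∫ z in Pᶜ, k a z * kpow ν k n z b ∂ν := by
      rw [integral_add_compl hP hint1]
      rfl
    have e2 : ∫ z in Pᶜ, k a z * kpow ν k n z b ∂ν = ∫ z, k a z * G z ∂ν := by
      rw [← integral_indicator hP.compl]
      refine integral_congr_ae (Filter.Eventually.of_forall fun z => ?_)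
      by_cases hz : z ∈ P
      · show Pᶜ.indicator (fun z => k a z * kpow ν k n z b) z = k a z * G z
        rw [Set.indicator_of_notMem (show z ∉ Pᶜ from fun h => h hz), hGin z hz, mul_zero]
      · show Pᶜ.indicator (fun z => k a z * kpow ν k n z b) z = k a z * G z
        rw [Set.indicator_of_mem (show z ∈ Pᶜ from hz), hGout z hz]
    have e3 : ∫ z, k a z * G z ∂ν = ∑ i ∈ Finset.range n,
        ∫ z, k a z * (∫ y in P, hpow ν k P i z y * kpow ν k (n - 1 - i) y b ∂ν) ∂ν
        + ∫ z, k a z * hpow ν k P n z b ∂ν := by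
      have h1 : (fun z => k a z * G z) = fun z => (∑ i ∈ Finset.range n,
          k a z * (∫ y in P, hpow ν k P i z y * kpow ν k (n - 1 - i) y b ∂ν))
          + k a z * hpow ν k P n z b := by
        funext z
        simp only [hG, mul_add, Finset.mul_sum]
      rw [h1, integral_add (integrable_finsetSum _ fun i _ => hint2 i) hint3,
        integral_finsetSum _ fun i _ => hint2 i]
    have e4 : ∀ i, ∫ z, k a z * (∫ y in P, hpow ν k P i z y * kpow ν k (n - 1 - i) y b ∂ν) ∂ν
        = ∫ y in P, hpow ν k P (i + 1) a y * kpow ν k (n - (i + 1)) y b ∂ν := by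
      intro i
      rw [kcomp_setIntegral hk (hpow_meas hkm hP i) (kpow_meas hkm (n - 1 - i)) (hhr i)
        (hpb (n - 1 - i)) hP a b]
      have h2 : n - (i + 1) = n - 1 - i := by omega
      rw [h2]
      refine integral_congr_ae (Filter.Eventually.of_forall fun y => ?_)
      show (∫ z, k a z * hpow ν k P i z y ∂ν) * kpow ν k (n - 1 - i) y b
        = hpow ν k P (i + 1) a y * kpow ν k (n - 1 - i) y b
      rw [hout i a y ha]
      rfl
    have e5 : ∫ z, k a z * hpow ν k P n z b ∂ν = hpow ν k P (n + 1) a b := by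
      rw [hout n a b ha]
      rfl
    have e6 : ∫ z in P, k a z * kpow ν k n z b ∂ν
        = ∫ y in P, hpow ν k P 0 a y * kpow ν k (n - 0) y b ∂ν := by
      refine integral_congr_ae (Filter.Eventually.of_forall fun y => ?_)
      show k a y * kpow ν k n y b = hpow ν k P 0 a y * kpow ν k n y b
      rw [hout0 a y ha]
    rw [e1, e2, e3, e5, e6, Finset.sum_range_succ', Nat.add_sub_cancel]
    rw [Finset.sum_congr rfl fun i _ => e4 i]
    ring

end Pool.Agent.BCH
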