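import Pool.Agent.Lib.MP_aa9b81_an.H.A12
import Pool.Agent.Lib.MP_aa9b81_an.H.A4

open MeasureTheory ENNReal NNReal

namespace Pool.Agent.BCH

universe u

variable {Z : Type u} [MeasurableSpace Z] {ν : Measure Z} [SigmaFinite ν] {k : Z → Z → ℂ}
  {B σ c : ℝ≥0} {S : Set Z} {d : Z → Z → ℝ} {δ R : ℝ} {o : Z} {n p : ℕ} {E : Z → Z → Prop}
  {M : ℝ≥0∞}

/-- POINTWISE BOUND OF ONE LEVEL. Let `P = P_r`. If `lev r a b ≠ 0` then `r ≤ (a|b) < r + 1` and
`kpow n a b ≠ 0`, so `a, b ∈ S` (`dist_of_kpow`).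
* `a ∈ P`: then `lev r a b ≤ B_n(a,b)` since `(a|b) ≥ r ≥ r - δ`.
* `a ∉ P`: `kpow_decomp`; the last term `hpow n a b` is `0`, otherwise `(a|b) ≥ r + 1` by `gp_of_hpow`
(`n + 1 ≤ 2 ^ p`). So `‖kpow n a b‖ ≤ ∑_{i<n} ∫_{y ∈ P} ‖hpow i a y‖ ‖kpow (n-1-i) y b‖`, and where the
integrand is nonzero `y ∈ S`, `(a|y) ≥ r + 1` (`gp_of_hpow`), so
`(y|b) ≥ min ((y|a), (a|b)) - δ ≥ r - δ`: the integrand is `A_i(a,y) B_{n-1-i}(y,b)`. -/
theorem lev_le (D : AVData ν k B σ c S d δ R o n p E M) (r : ℝ) (a b : Z) :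
    lev ν k d o n r a b ≤
      (∑ i ∈ Finset.range n, ∫⁻ y, Aker ν k (Pr d o δ R p r) i a y *
          Bker ν k (Pr d o δ R p r) d o (r - δ) (n - 1 - i) y b ∂ν)
        + Bker ν k (Pr d o δ R p r) d o (r - δ) n a b := by
  have hδ : 0 ≤ δ := D.met.delta_nonneg D.ho
  unfold lev
  by_cases h : b ∈ {b' | r ≤ gp d o a b' ∧ gp d o a b' < r + 1}
  swap
  · rw [Set.indicator_of_notMem h]
    exact zero_le
  rw [Set.indicator_of_mem h]
  by_cases hk : kpow ν k n a b = 0
  · rw [hk]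
    simp
  obtain ⟨haS, hbS, -⟩ := dist_of_kpow D.met D.step hk
  obtain ⟨h1, h2⟩ := h
  set P := Pr d o δ R p r with hPdef
  by_cases ha : a ∈ P
  · refine le_add_left ?_
    unfold Bker
    rw [Set.indicator_of_mem (show a ∈ {y | y ∈ P ∧ r - δ ≤ gp d o y b} from
      ⟨ha, by linarith⟩)]
  · have hdec := kpow_decomp D.ker (meas_Pr D r) n ha b
    have hlast : hpow ν k P n a b = 0 := by
      by_contra hne
      have := gp_of_hpow D.met D.ho D.step (ν := ν) (p := p) (i := n) D.hp hne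
      linarith [this.2.2]
    rw [hlast, add_zero] at hdec
    rw [hdec]
    refine le_add_right ?_
    refine (enorm_sum_le _ _).trans ?_
    refine Finset.sum_le_sum fun i hi => ?_
    have hi' : i < n := Finset.mem_range.1 hi
    refine (enorm_integral_le_lintegral_enorm _).trans ?_
    rw [← lintegral_indicator (meas_Pr D r)]
    refine lintegral_mono fun y => ?_
    by_cases hy : y ∈ P
    · rw [Set.indicator_of_mem hy, enorm_mul]
      by_cases hne : hpow ν k P i a y = 0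
      · rw [hne]
        simp
      · obtain ⟨-, hyS, h3⟩ := gp_of_hpow D.met D.ho D.step (ν := ν) (p := p) (i := i)
          (le_trans (by omega) D.hp) hne
        have h4 := gp_hyp D.met D.ho hyS hbS haS
        have h5 : r ≤ min (gp d o y a) (gp d o a b) := by
          refine le_min ?_ h1
          rw [gp_symm D.met hyS haS]
          linarith
        have h6 : r - δ ≤ gp d o y b := by linarith
        refine le_of_eq ?_
        congr 1
        · unfold Aker
          rw [Set.indicator_of_mem hy]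
        · unfold Bker
          rw [Set.indicator_of_mem (show y ∈ {y | y ∈ P ∧ r - δ ≤ gp d o y b} from ⟨hy, h6⟩)]
    · rw [Set.indicator_of_notMem hy]
      exact zero_le

end Pool.Agent.BCH
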