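import Pool.Agent.Lib.MP_aa9b81_an.H.A11
import Pool.Agent.Lib.MP_aa9b81_an.H.A13

open MeasureTheory ENNReal NNReal

namespace Pool.Agent.BCH

universe u

variable {Z : Type u} [MeasurableSpace Z] {ν : Measure Z} [SigmaFinite ν] {k : Z → Z → ℂ}
  {B σ c : ℝ≥0} {S : Set Z} {d : Z → Z → ℝ} {δ R : ℝ} {o : Z} {n p : ℕ} {E : Z → Z → Prop}
  {M : ℝ≥0∞}

theorem lev_meas (D : AVData ν k B σ c S d δ R o n p E M) (r : ℝ) :
    Measurable (Function.uncurry (lev ν k d o n r)) := by
  have hS : MeasurableSet {q : Z × Z | r ≤ gp d o q.1 q.2 ∧ gp d o q.1 q.2 < r + 1} :=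
    (measurableSet_le measurable_const (meas_gp D)).inter
      (measurableSet_lt (meas_gp D) measurable_const)
  have hf : Measurable (fun q : Z × Z => ‖kpow ν k n q.1 q.2‖ₑ) :=
    (kpow_meas D.ker.meas n).enorm
  have : Function.uncurry (lev ν k d o n r)
      = {q : Z × Z | r ≤ gp d o q.1 q.2 ∧ gp d o q.1 q.2 < r + 1}.indicator
        (fun q : Z × Z => ‖kpow ν k n q.1 q.2‖ₑ) := by
    funext q
    obtain ⟨a, b⟩ := q
    show lev ν k d o n r a b = _
    unfold lev
    by_cases h : r ≤ gp d o a b ∧ gp d o a b < r + 1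
    · rw [Set.indicator_of_mem (show b ∈ {b' | r ≤ gp d o a b' ∧ gp d o a b' < r + 1} from h),
        Set.indicator_of_mem (show (a, b) ∈ {q : Z × Z | r ≤ gp d o q.1 q.2 ∧
          gp d o q.1 q.2 < r + 1} from h)]
    · rw [Set.indicator_of_notMem (show b ∉ {b' | r ≤ gp d o a b' ∧ gp d o a b' < r + 1} from h),
        Set.indicator_of_notMem (show (a, b) ∉ {q : Z × Z | r ≤ gp d o q.1 q.2 ∧
          gp d o q.1 q.2 < r + 1} from h)]
  rw [this]
  exact hf.indicator hS

/-- The right side of `lev_le` is a sum of `n + 1` kernels; the `i`-th one is `OB` with constant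
`M (Bσ c^i) * M (Bσ c^(n-1-i)) = M² (Bσ)² c^(n-1)` (`OB.comp`, `Aker_OB`, `Bker_OB`), the last one with
constant `M (Bσ c^n)`; all are `≤ M² (Bσ)² c^(n-1) + M Bσ c^n`. `OB.sum` over `Finset.range (n+1)` (put the
last kernel at `i = n` with an if-then-else) and `OB.mono`. -/
theorem lev_OB (D : AVData ν k B σ c S d δ R o n p E M) (r : ℝ) :
    OB ν (lev ν k d o n r) (levC B σ c n M) := by
  set P := Pr d o δ R p r with hPdef
  set C : ℝ≥0∞ := M ^ 2 * (B * σ) ^ 2 * c ^ (n - 1) + M * (B * σ) * c ^ n with hC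
  let K : ℕ → Z → Z → ℝ≥0∞ := fun i => if i < n then
    (fun a b => ∫⁻ y, Aker ν k P i a y * Bker ν k P d o (r - δ) (n - 1 - i) y b ∂ν)
    else Bker ν k P d o (r - δ) n
  have hKlt : ∀ i, i < n → K i =
      (fun a b => ∫⁻ y, Aker ν k P i a y * Bker ν k P d o (r - δ) (n - 1 - i) y b ∂ν) :=
    fun i hi => if_pos hi
  have hKn : K n = Bker ν k P d o (r - δ) n := if_neg (lt_irrefl n)
  have hcomp_meas : ∀ i, Measurable (Function.uncurry
      (fun a b => ∫⁻ y, Aker ν k P i a y * Bker ν k P d o (r - δ) (n - 1 - i) y b ∂ν)) := by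
    intro i
    have h1 : Measurable (fun q : (Z × Z) × Z =>
        Aker ν k P i q.1.1 q.2 * Bker ν k P d o (r - δ) (n - 1 - i) q.2 q.1.2) := by
      refine Measurable.mul ?_ ?_
      · exact (Aker_meas D r i).comp ((measurable_fst.comp measurable_fst).prodMk measurable_snd)
      · exact (Bker_meas D r (r - δ) (n - 1 - i)).comp
          (measurable_snd.prodMk (measurable_snd.comp measurable_fst))
    exact h1.lintegral_prod_right'
  have hmeas : ∀ i ∈ Finset.range (n + 1), Measurable (Function.uncurry (K i)) := by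
    intro i hi
    rcases Nat.lt_or_ge i n with h | h
    · rw [hKlt i h]
      exact hcomp_meas i
    · have hin : i = n := le_antisymm (Nat.lt_succ_iff.1 (Finset.mem_range.1 hi)) h
      rw [hin, hKn]
      exact Bker_meas D r (r - δ) n
  have hOB : ∀ i ∈ Finset.range (n + 1), OB ν (K i) C := by
    intro i hi
    rcases Nat.lt_or_ge i n with h | h
    · rw [hKlt i h]
      have h1 := OB.comp (Aker_meas D r i) (Bker_meas D r (r - δ) (n - 1 - i))
        (Aker_OB D r h.le) (Bker_OB D r (j := n - 1 - i) (by omega))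
      refine h1.mono (fun _ _ => le_rfl) ?_
      have h2 : M * (B * σ * c ^ i) * (M * (B * σ * c ^ (n - 1 - i)))
          = M ^ 2 * ((B : ℝ≥0∞) * σ) ^ 2 * c ^ (n - 1) := by
        have h3 : (c : ℝ≥0∞) ^ (n - 1) = c ^ i * c ^ (n - 1 - i) := by
          rw [← pow_add]
          congr 1
          omega
        rw [h3]
        ring
      rw [h2, hC]
      exact le_self_add
    · have hin : i = n := le_antisymm (Nat.lt_succ_iff.1 (Finset.mem_range.1 hi)) h
      rw [hin, hKn]
      refine (Bker_OB D r (j := n) le_rfl).mono (fun _ _ => le_rfl) ?_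
      rw [hC, ← mul_assoc]
      exact le_add_self
  have hsum := OB.sum (ν := ν) (Finset.range (n + 1)) hmeas hOB
  refine hsum.mono (fun a b => ?_) ?_
  · refine (lev_le D r a b).trans (le_of_eq ?_)
    rw [Finset.sum_range_succ, hKn]
    congr 1
    refine Finset.sum_congr rfl fun i hi => ?_
    rw [hKlt i (Finset.mem_range.1 hi)]
  · rw [Finset.card_range, levC]
    push_cast
    exact le_rfl

end Pool.Agent.BCH
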