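import Pool.Agent.Lib.MP_aa9b81_an.H.A11b
import Pool.Agent.Lib.MP_aa9b81_an.H.A14

open MeasureTheory ENNReal NNReal

namespace Pool.Agent.BCH

universe u

variable {Z : Type u} [MeasurableSpace Z] {ν : Measure Z} [SigmaFinite ν] {k : Z → Z → ℂ}
  {B σ c : ℝ≥0} {S : Set Z} {d : Z → Z → ℝ} {δ R : ℝ} {o : Z} {n p : ℕ} {E : Z → Z → Prop}
  {M : ℝ≥0∞}

/-- `h a = ⌊d o a⌋₊`, `r = ⌊(a|b)⌋₊`. If `kpow n a b ≠ 0` then `a, b ∈ S`, `d a b ≤ (n+1) R`,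
`0 ≤ (a|b) ≤ d o a, d o b` and `(a|b) ≥ d o a - (n+1) R`, `(a|b) ≥ d o b - (n+1) R`; hence with
`s = h a - r`, `t = h b - r` one has `s, t ≤ J`, `h a - s = r`, `h b + s = h a + t`, and the `(s,t)` block
kernel at `(a,b)` is `lev r a b = ‖kpow n a b‖`. So `‖kpow n a b‖` is at most the sum of the block kernels. -/
theorem kpow_le_blocks (D : AVData ν k B σ c S d δ R o n p E M) {J : ℕ}
    (hJ : (n + 1) * R + 1 ≤ J) (a b : Z) :
    ‖kpow ν k n a b‖ₑ ≤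
      ∑ q ∈ Finset.range (J + 1) ×ˢ Finset.range (J + 1),
        (if q.1 ≤ ⌊d o a⌋₊ ∧ ⌊d o b⌋₊ + q.1 = ⌊d o a⌋₊ + q.2 then
          lev ν k d o n ((⌊d o a⌋₊ - q.1 : ℕ) : ℝ) a b else 0) := by
  by_cases hk : kpow ν k n a b = 0
  · rw [hk]
    simp
  obtain ⟨haS, hbS, hab⟩ := dist_of_kpow D.met D.step hk
  have h0 := gp_nonneg D.met D.ho haS hbS
  have h1 := gp_le_left D.met D.ho haS hbS
  have h2 := gp_le_right D.met D.ho haS hbS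
  have h3 := le_gp D.met D.ho haS hbS
  have h4 := le_gp' D.met D.ho haS hbS
  set r : ℕ := ⌊gp d o a b⌋₊ with hr
  have hra : r ≤ ⌊d o a⌋₊ := Nat.floor_mono h1
  have hrb : r ≤ ⌊d o b⌋₊ := Nat.floor_mono h2
  have hr1 : (r : ℝ) ≤ gp d o a b := Nat.floor_le h0
  have hr2 : gp d o a b < r + 1 := Nat.lt_floor_add_one _
  have hfa : ((⌊d o a⌋₊ : ℕ) : ℝ) ≤ d o a := Nat.floor_le (h0.trans h1)
  have hfb : ((⌊d o b⌋₊ : ℕ) : ℝ) ≤ d o b := Nat.floor_le (h0.trans h2)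
  have hsa : ⌊d o a⌋₊ < r + J := by
    have : ((⌊d o a⌋₊ : ℕ) : ℝ) < ((r + J : ℕ) : ℝ) := by
      push_cast
      linarith
    exact_mod_cast this
  have hsb : ⌊d o b⌋₊ < r + J := by
    have : ((⌊d o b⌋₊ : ℕ) : ℝ) < ((r + J : ℕ) : ℝ) := by
      push_cast
      linarith
    exact_mod_cast this
  have hmem : (⌊d o a⌋₊ - r, ⌊d o b⌋₊ - r) ∈ Finset.range (J + 1) ×ˢ Finset.range (J + 1) := by
    rw [Finset.mem_product, Finset.mem_range, Finset.mem_range]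
    constructor
    · show ⌊d o a⌋₊ - r < J + 1
      omega
    · show ⌊d o b⌋₊ - r < J + 1
      omega
  refine le_trans (le_of_eq ?_) (Finset.single_le_sum (f := fun q : ℕ × ℕ =>
        (if q.1 ≤ ⌊d o a⌋₊ ∧ ⌊d o b⌋₊ + q.1 = ⌊d o a⌋₊ + q.2 then
          lev ν k d o n ((⌊d o a⌋₊ - q.1 : ℕ) : ℝ) a b else 0)) (fun _ _ => zero_le) hmem)
  have hcond : ⌊d o a⌋₊ - r ≤ ⌊d o a⌋₊ ∧ ⌊d o b⌋₊ + (⌊d o a⌋₊ - r) = ⌊d o a⌋₊ + (⌊d o b⌋₊ - r) :=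
    ⟨Nat.sub_le _ _, by omega⟩
  show _ = if ⌊d o a⌋₊ - r ≤ ⌊d o a⌋₊ ∧ ⌊d o b⌋₊ + (⌊d o a⌋₊ - r) = ⌊d o a⌋₊ + (⌊d o b⌋₊ - r) then
          lev ν k d o n ((⌊d o a⌋₊ - (⌊d o a⌋₊ - r) : ℕ) : ℝ) a b else 0
  rw [if_pos hcond]
  have hsub : ⌊d o a⌋₊ - (⌊d o a⌋₊ - r) = r := by omega
  rw [hsub]
  unfold lev
  rw [Set.indicator_of_mem (show b ∈ {b' | (r : ℝ) ≤ gp d o a b' ∧ gp d o a b' < (r : ℝ) + 1} from
    ⟨hr1, hr2⟩)]

/-- THE ABSOLUTE VALUE INEQUALITY: `kpow_le_blocks`, `OB.blocks` with `h a = ⌊d o a⌋₊` and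
`Kr r = lev (r : ℝ)`, `OB.sum`, `OB.mono`. -/
theorem abs_value_inequality (D : AVData ν k B σ c S d δ R o n p E M) {J : ℕ}
    (hJ : (n + 1) * R + 1 ≤ J) :
    OB ν (fun a b => ‖kpow ν k n a b‖ₑ) ((((J : ℝ≥0∞) + 1) ^ 2) ^ 2 * levC B σ c n M) := by
  have hdo : Measurable (fun a => d o a) := D.dmeas.comp (measurable_const.prodMk measurable_id)
  have hh : Measurable (fun a => ⌊d o a⌋₊) := Nat.measurable_floor.comp hdo
  have hm : ∀ r : ℕ, Measurable (Function.uncurry (lev ν k d o n (r : ℝ))) :=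
    fun r => lev_meas D r
  have hblock : ∀ q ∈ Finset.range (J + 1) ×ˢ Finset.range (J + 1),
      OB ν (fun a b => (if q.1 ≤ ⌊d o a⌋₊ ∧ ⌊d o b⌋₊ + q.1 = ⌊d o a⌋₊ + q.2 then
          lev ν k d o n ((⌊d o a⌋₊ - q.1 : ℕ) : ℝ) a b else 0)) (levC B σ c n M) :=
    fun q _ => OB.blocks hh hm (fun r => lev_OB D r) q.1 q.2
  have hmb : ∀ q ∈ Finset.range (J + 1) ×ˢ Finset.range (J + 1),
      Measurable (Function.uncurry (fun a b =>
        (if q.1 ≤ ⌊d o a⌋₊ ∧ ⌊d o b⌋₊ + q.1 = ⌊d o a⌋₊ + q.2 then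
          lev ν k d o n ((⌊d o a⌋₊ - q.1 : ℕ) : ℝ) a b else 0))) := by
    intro q _
    have h1 : Measurable (fun z : Z × Z => ⌊d o z.1⌋₊) := hh.comp measurable_fst
    have h2 : Measurable (fun z : Z × Z => ⌊d o z.2⌋₊) := hh.comp measurable_snd
    have hset : MeasurableSet {z : Z × Z | q.1 ≤ ⌊d o z.1⌋₊ ∧
        ⌊d o z.2⌋₊ + q.1 = ⌊d o z.1⌋₊ + q.2} := by
      refine (measurableSet_le measurable_const h1).inter ?_
      exact measurableSet_eq_fun (h2.add_const _) (h1.add_const _)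
    have hF : Measurable (Function.uncurry (fun (m : ℕ) (z : Z × Z) =>
        lev ν k d o n (m : ℝ) z.1 z.2)) := measurable_from_prod_countable_right fun m => hm m
    have h3 : Measurable (fun z : Z × Z => lev ν k d o n ((⌊d o z.1⌋₊ - q.1 : ℕ) : ℝ) z.1 z.2) :=
      hF.comp ((h1.sub_const q.1).prodMk measurable_id)
    exact Measurable.ite hset h3 measurable_const
  have hsum := OB.sum (ν := ν) (Finset.range (J + 1) ×ˢ Finset.range (J + 1)) hmb hblock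
  refine hsum.mono (fun a b => kpow_le_blocks D hJ a b) (le_of_eq ?_)
  rw [Finset.card_product, Finset.card_range]
  congr 2
  push_cast
  ring

end Pool.Agent.BCH
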