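import Pool.Agent.Lib.MP_aa9b81_an.H.A1

open MeasureTheory ENNReal NNReal

namespace Pool.Agent.BCH

universe u

variable {Z : Type u} [MeasurableSpace Z] {ν : Measure Z} [SigmaFinite ν]

/-- `‖∫ k a z * l z b dz‖ ≤ ∫ ‖k a z‖ ‖l z b‖ dz ≤ σ * C` (use `enorm_integral_le_lintegral_enorm`). -/
theorem kcomp_bd {k l : Z → Z → ℂ} {B σ : ℝ≥0} (hk : Ker ν k B σ) {C : ℝ≥0∞}
    (hl : ∀ a b, ‖l a b‖ₑ ≤ C) (a b : Z) : ‖kcomp ν k l a b‖ₑ ≤ σ * C := by
  have hkz : Measurable fun z => ‖k a z‖ₑ :=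
    (hk.meas.comp (measurable_const.prodMk measurable_id)).enorm
  calc ‖kcomp ν k l a b‖ₑ ≤ ∫⁻ z, ‖k a z * l z b‖ₑ ∂ν := enorm_integral_le_lintegral_enorm _
    _ ≤ ∫⁻ z, ‖k a z‖ₑ * C ∂ν := by
        refine lintegral_mono fun z => ?_
        rw [enorm_mul]
        gcongr
        exact hl z b
    _ = (∫⁻ z, ‖k a z‖ₑ ∂ν) * C := lintegral_mul_const _ hkz
    _ ≤ σ * C := by
        gcongr
        exact hk.row a

/-- `∫ ‖(k∘l) a b‖ db ≤ ∫∫ ‖k a z‖ ‖l z b‖ dz db = ∫ ‖k a z‖ (∫ ‖l z b‖ db) dz ≤ σ * C` (Tonelli,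
`lintegral_lintegral_swap`). -/
theorem kcomp_row {k l : Z → Z → ℂ} {B σ : ℝ≥0} (hk : Ker ν k B σ)
    (hlm : Measurable (Function.uncurry l)) {C : ℝ≥0∞}
    (hl : ∀ a, ∫⁻ b, ‖l a b‖ₑ ∂ν ≤ C) (a : Z) : ∫⁻ b, ‖kcomp ν k l a b‖ₑ ∂ν ≤ σ * C := by
  have hkz : Measurable fun z => ‖k a z‖ₑ :=
    (hk.meas.comp (measurable_const.prodMk measurable_id)).enorm
  have hlz : ∀ z, Measurable fun b => ‖l z b‖ₑ := fun z =>
    (hlm.comp (measurable_const.prodMk measurable_id)).enorm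
  have hkl : Measurable (Function.uncurry fun b z => ‖k a z‖ₑ * ‖l z b‖ₑ) :=
    ((hk.meas.comp (measurable_const.prodMk measurable_snd)).enorm).mul
      ((hlm.comp (measurable_snd.prodMk measurable_fst)).enorm)
  calc ∫⁻ b, ‖kcomp ν k l a b‖ₑ ∂ν ≤ ∫⁻ b, ∫⁻ z, ‖k a z‖ₑ * ‖l z b‖ₑ ∂ν ∂ν := by
        refine lintegral_mono fun b => ?_
        refine (enorm_integral_le_lintegral_enorm _).trans (le_of_eq ?_)
        refine lintegral_congr fun z => ?_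
        rw [enorm_mul]
    _ = ∫⁻ z, ∫⁻ b, ‖k a z‖ₑ * ‖l z b‖ₑ ∂ν ∂ν := lintegral_lintegral_swap hkl.aemeasurable
    _ = ∫⁻ z, ‖k a z‖ₑ * ∫⁻ b, ‖l z b‖ₑ ∂ν ∂ν :=
        lintegral_congr fun z => lintegral_const_mul _ (hlz z)
    _ ≤ ∫⁻ z, ‖k a z‖ₑ * C ∂ν := by
        refine lintegral_mono fun z => ?_
        gcongr
        exact hl z
    _ = (∫⁻ z, ‖k a z‖ₑ ∂ν) * C := lintegral_mul_const _ hkz
    _ ≤ σ * C := by
        gcongr
        exact hk.row a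

theorem kpow_bd {k : Z → Z → ℂ} {B σ : ℝ≥0} (hk : Ker ν k B σ) (n : ℕ) (a b : Z) :
    ‖kpow ν k n a b‖ₑ ≤ σ ^ n * B := by
  induction n generalizing a b with
  | zero =>
    rw [pow_zero, one_mul]
    exact hk.bd a b
  | succ n ih =>
    refine (kcomp_bd hk (C := σ ^ n * B) ih a b).trans (le_of_eq ?_)
    rw [pow_succ']
    ring

theorem kpow_row {k : Z → Z → ℂ} {B σ : ℝ≥0} (hk : Ker ν k B σ) (n : ℕ) (a : Z) :
    ∫⁻ b, ‖kpow ν k n a b‖ₑ ∂ν ≤ σ ^ (n + 1) := by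
  induction n generalizing a with
  | zero =>
    rw [zero_add, pow_one]
    exact hk.row a
  | succ n ih =>
    refine (kcomp_row hk (kpow_meas hk.meas n) (C := σ ^ (n + 1)) ih a).trans (le_of_eq ?_)
    rw [pow_succ' _ (n + 1)]

/-- The indicator makes the norm smaller (`enorm_indicator_le_enorm_self` or by cases). -/
theorem hpow_bd {k : Z → Z → ℂ} {B σ : ℝ≥0} (hk : Ker ν k B σ) (P : Set Z) (n : ℕ) (a b : Z) :
    ‖hpow ν k P n a b‖ₑ ≤ σ ^ n * B := by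
  induction n generalizing a b with
  | zero =>
    rw [pow_zero, one_mul]
    exact (enorm_indicator_le_enorm_self (fun a' => k a' b) a).trans (hk.bd a b)
  | succ n ih =>
    refine (enorm_indicator_le_enorm_self (fun a' => kcomp ν k (hpow ν k P n) a' b) a).trans ?_
    refine (kcomp_bd hk (C := σ ^ n * B) ih a b).trans (le_of_eq ?_)
    rw [pow_succ']
    ring

theorem hpow_row {k : Z → Z → ℂ} {B σ : ℝ≥0} (hk : Ker ν k B σ) {P : Set Z}
    (hP : MeasurableSet P) (n : ℕ) (a : Z) : ∫⁻ b, ‖hpow ν k P n a b‖ₑ ∂ν ≤ σ ^ (n + 1) := by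
  induction n generalizing a with
  | zero =>
    rw [zero_add, pow_one]
    refine le_trans (lintegral_mono fun b => ?_) (hk.row a)
    exact enorm_indicator_le_enorm_self (fun a' => k a' b) a
  | succ n ih =>
    refine le_trans (lintegral_mono fun b => ?_)
      ((kcomp_row hk (hpow_meas hk.meas hP n) (C := σ ^ (n + 1)) ih a).trans (le_of_eq ?_))
    · exact enorm_indicator_le_enorm_self (fun a' => kcomp ν k (hpow ν k P n) a' b) a
    · rw [pow_succ' _ (n + 1)]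

end Pool.Agent.BCH
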