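import Pool.Agent.Lib.MP_aa9b81_an.H.A2

open MeasureTheory ENNReal NNReal

namespace Pool.Agent.BCH

universe u

variable {Z : Type u} [MeasurableSpace Z] {ν : Measure Z} [SigmaFinite ν]

/-- Associativity of the composition of kernels, by Fubini (`integral_integral_swap`): the function
`(z, w) ↦ k a z * l z w * m w b` is integrable on `Z × Z` because
`∫∫ ‖k a z‖ ‖l z w‖ ‖m w b‖ ≤ σ * C * C'`.
`kcomp k (kcomp l m) a b = ∫_z k a z (∫_w l z w m w b) = ∫_w (∫_z k a z l z w) m w b`. -/
theorem kcomp_assoc {k l m : Z → Z → ℂ} {B σ : ℝ≥0} (hk : Ker ν k B σ)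
    (hlm : Measurable (Function.uncurry l)) (hmm : Measurable (Function.uncurry m))
    {C C' : ℝ≥0} (hl : ∀ a, ∫⁻ b, ‖l a b‖ₑ ∂ν ≤ C) (hm : ∀ a b, ‖m a b‖ₑ ≤ C') (a b : Z) :
    kcomp ν k (kcomp ν l m) a b = kcomp ν (kcomp ν k l) m a b := by
  have hka : Measurable fun p : Z × Z => k a p.1 :=
    hk.meas.comp (measurable_const.prodMk measurable_fst)
  have hmb : Measurable fun p : Z × Z => m p.2 b :=
    hmm.comp (measurable_snd.prodMk measurable_const)
  have hmeas : Measurable (Function.uncurry fun z w => k a z * (l z w * m w b)) :=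
    hka.mul (hlm.mul hmb)
  have hint : Integrable (Function.uncurry fun z w => k a z * (l z w * m w b)) (ν.prod ν) := by
    refine ⟨hmeas.aestronglyMeasurable, ?_⟩
    rw [hasFiniteIntegral_iff_enorm, lintegral_prod _ hmeas.enorm.aemeasurable]
    have h1 : ∀ z, ∫⁻ w, ‖Function.uncurry (fun z w => k a z * (l z w * m w b)) (z, w)‖ₑ ∂ν ≤
        ‖k a z‖ₑ * ((C : ℝ≥0∞) * C') := by
      intro z
      calc ∫⁻ w, ‖Function.uncurry (fun z w => k a z * (l z w * m w b)) (z, w)‖ₑ ∂ν
          ≤ ∫⁻ w, ‖k a z‖ₑ * (‖l z w‖ₑ * C') ∂ν := by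
            refine lintegral_mono fun w => ?_
            show ‖k a z * (l z w * m w b)‖ₑ ≤ _
            rw [enorm_mul, enorm_mul]
            gcongr
            exact hm w b
        _ = ‖k a z‖ₑ * ((∫⁻ w, ‖l z w‖ₑ ∂ν) * C') := by
            have hlz : Measurable fun w => ‖l z w‖ₑ :=
              (hlm.comp (measurable_const.prodMk measurable_id)).enorm
            rw [lintegral_const_mul _ (hlz.mul_const _), lintegral_mul_const _ hlz]
        _ ≤ _ := by
            gcongr
            exact hl z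
    refine lt_of_le_of_lt (lintegral_mono h1) ?_
    have hkz : Measurable fun z => ‖k a z‖ₑ :=
      (hk.meas.comp (measurable_const.prodMk measurable_id)).enorm
    rw [lintegral_mul_const _ hkz]
    refine ENNReal.mul_lt_top (lt_of_le_of_lt (hk.row a) ENNReal.coe_lt_top) ?_
    exact ENNReal.mul_lt_top ENNReal.coe_lt_top ENNReal.coe_lt_top
  have hswap := integral_integral_swap hint
  calc kcomp ν k (kcomp ν l m) a b
      = ∫ z, ∫ w, k a z * (l z w * m w b) ∂ν ∂ν := by
        refine integral_congr_ae (Filter.Eventually.of_forall fun z => ?_)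
        exact (integral_const_mul (k a z) _).symm
    _ = ∫ w, ∫ z, k a z * (l z w * m w b) ∂ν ∂ν := hswap
    _ = kcomp ν (kcomp ν k l) m a b := by
        refine integral_congr_ae (Filter.Eventually.of_forall fun w => ?_)
        show ∫ z, k a z * (l z w * m w b) ∂ν = (∫ z, k a z * l z w ∂ν) * m w b
        rw [← integral_mul_const]
        refine integral_congr_ae (Filter.Eventually.of_forall fun z => ?_)
        exact (mul_assoc _ _ _).symm

/-- `k^(n+2) = k^(n+1) ∘ k`: induction on `n` with `kcomp_assoc` (bounds from A2). -/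
theorem kpow_right {k : Z → Z → ℂ} {B σ : ℝ≥0} (hk : Ker ν k B σ) (n : ℕ) (a b : Z) :
    kpow ν k (n + 1) a b = ∫ z, kpow ν k n a z * k z b ∂ν := by
  induction n generalizing a b with
  | zero => rfl
  | succ n ih =>
    have e : kpow ν k (n + 1) = kcomp ν (kpow ν k n) k := by
      funext a b
      exact ih a b
    have h := kcomp_assoc hk (kpow_meas hk.meas n) hk.meas (C := σ ^ (n + 1)) (C' := B)
      (fun a => (kpow_row hk n a).trans (le_of_eq (by push_cast; rfl))) hk.bd a b
    calc kpow ν k (n + 1 + 1) a b = kcomp ν k (kpow ν k (n + 1)) a b := rfl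
      _ = kcomp ν k (kcomp ν (kpow ν k n) k) a b := by rw [e]
      _ = kcomp ν (kcomp ν k (kpow ν k n)) k a b := h
      _ = _ := rfl

end Pool.Agent.BCH
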