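import Pool.Agent.Lib.MP_aa9b81_an.H.ADefs

open MeasureTheory ENNReal NNReal

namespace Pool.Agent.BCH

universe u

variable {Z : Type u} [MeasurableSpace Z] {ν : Measure Z}

/-- If an integral is nonzero, the integrand is nonzero somewhere (`integral_eq_zero_of_ae` or
`by_contra` and `integral_congr`). -/
theorem exists_ne_of_kcomp_ne {k l : Z → Z → ℂ} {a b : Z} (h : kcomp ν k l a b ≠ 0) :
    ∃ z, k a z ≠ 0 ∧ l z b ≠ 0 := by
  by_contra hcon
  apply h
  unfold kcomp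
  have h1 : ∀ z, k a z * l z b = 0 := by
    intro z
    by_contra h2
    exact hcon ⟨z, left_ne_zero_of_mul h2, right_ne_zero_of_mul h2⟩
  simp [h1]

omit [MeasurableSpace Z] in
private theorem A6_glue {k : Z → Z → ℂ} {n : ℕ} {a z b : Z} (haz : k a z ≠ 0) {x : ℕ → Z}
    (h0 : x 0 = z) (hn : x (n + 1) = b) (hc : Chain k x (n + 1)) {P : Set Z}
    (hP : ∀ i ≤ n, x i ∈ P) (haP : a ∈ P) :
    ∃ y : ℕ → Z, y 0 = a ∧ y (n + 1 + 1) = b ∧ Chain k y (n + 1 + 1) ∧ ∀ i ≤ n + 1, y i ∈ P := by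
  refine ⟨fun i => Nat.casesOn i a x, rfl, hn, ?_, ?_⟩
  · intro i hi
    rcases i with _ | i
    · show k a (x 0) ≠ 0
      rw [h0]
      exact haz
    · show k (x i) (x (i + 1)) ≠ 0
      exact hc i (by omega)
  · intro i hi
    rcases i with _ | i
    · exact haP
    · exact hP i (by omega)

/-- Induction on `n`; glue the new first point with
`fun i => Nat.rec a (fun j _ => x j) i` (or `Nat.casesOn`). -/
theorem chain_of_kpow {k : Z → Z → ℂ} {n : ℕ} {a b : Z} (h : kpow ν k n a b ≠ 0) :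
    ∃ x : ℕ → Z, x 0 = a ∧ x (n + 1) = b ∧ Chain k x (n + 1) := by
  induction n generalizing a with
  | zero =>
    refine ⟨fun i => Nat.casesOn i a fun _ => b, rfl, rfl, ?_⟩
    intro i hi
    obtain rfl : i = 0 := by omega
    exact h
  | succ n ih =>
    obtain ⟨z, hz1, hz2⟩ := exists_ne_of_kcomp_ne (ν := ν) (k := k) (l := kpow ν k n) h
    obtain ⟨x, h0, hn, hc⟩ := ih hz2
    obtain ⟨y, y0, yn, yc, _⟩ := A6_glue hz1 h0 hn hc (P := Set.univ) (fun _ _ => trivial) trivial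
    exact ⟨y, y0, yn, yc⟩

/-- Same, keeping track of `x i ∉ P` for `i ≤ n`. -/
theorem chain_of_hpow {k : Z → Z → ℂ} {P : Set Z} {n : ℕ} {a b : Z} (h : hpow ν k P n a b ≠ 0) :
    ∃ x : ℕ → Z, x 0 = a ∧ x (n + 1) = b ∧ Chain k x (n + 1) ∧ ∀ i ≤ n, x i ∉ P := by
  induction n generalizing a with
  | zero =>
    have h' : Pᶜ.indicator (fun a' => k a' b) a ≠ 0 := h
    have ha : a ∈ Pᶜ := Set.mem_of_indicator_ne_zero h'
    rw [Set.indicator_of_mem ha] at h'
    refine ⟨fun i => Nat.casesOn i a fun _ => b, rfl, rfl, ?_, ?_⟩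
    · intro i hi
      obtain rfl : i = 0 := by omega
      exact h'
    · intro i hi
      obtain rfl : i = 0 := by omega
      exact ha
  | succ n ih =>
    have h' : Pᶜ.indicator (fun a' => kcomp ν k (hpow ν k P n) a' b) a ≠ 0 := h
    have ha : a ∈ Pᶜ := Set.mem_of_indicator_ne_zero h'
    rw [Set.indicator_of_mem ha] at h'
    obtain ⟨z, hz1, hz2⟩ := exists_ne_of_kcomp_ne h'
    obtain ⟨x, h0, hn, hc, hx⟩ := ih hz2
    exact A6_glue hz1 h0 hn hc (P := Pᶜ) hx ha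

end Pool.Agent.BCH
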