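import Pool.Agent.Lib.MP_aa9b81_an.H.ADefs

open MeasureTheory ENNReal NNReal

namespace Pool.Agent.BCH

universe u

variable {Z : Type u} [MeasurableSpace Z] {S : Set Z} {d : Z → Z → ℝ} {δ : ℝ}

theorem gp_self (h : HypMet S d δ) {o a : Z} (ha : a ∈ S) : gp d o a a = d o a := by
  unfold gp
  rw [h.self a ha]; ring

theorem gp_symm (h : HypMet S d δ) {o a b : Z} (ha : a ∈ S) (hb : b ∈ S) :
    gp d o a b = gp d o b a := by
  unfold gp
  rw [h.symm a ha b hb]; ring

theorem gp_nonneg (h : HypMet S d δ) {o a b : Z} (ho : o ∈ S) (ha : a ∈ S) (hb : b ∈ S) :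
    0 ≤ gp d o a b := by
  unfold gp
  have h1 := h.tri a ha o ho b hb
  have h2 := h.symm a ha o ho
  linarith

theorem gp_le_left (h : HypMet S d δ) {o a b : Z} (ho : o ∈ S) (ha : a ∈ S) (hb : b ∈ S) :
    gp d o a b ≤ d o a := by
  unfold gp
  have h1 := h.tri o ho a ha b hb
  linarith

theorem gp_le_right (h : HypMet S d δ) {o a b : Z} (ho : o ∈ S) (ha : a ∈ S) (hb : b ∈ S) :
    gp d o a b ≤ d o b := by
  unfold gp
  have h1 := h.tri o ho b hb a ha
  have h2 := h.symm a ha b hb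
  linarith

theorem le_gp (h : HypMet S d δ) {o a b : Z} (ho : o ∈ S) (ha : a ∈ S) (hb : b ∈ S) :
    d o a - d a b ≤ gp d o a b := by
  unfold gp
  have h1 := h.tri o ho b hb a ha
  have h2 := h.symm a ha b hb
  linarith

theorem le_gp' (h : HypMet S d δ) {o a b : Z} (ho : o ∈ S) (ha : a ∈ S) (hb : b ∈ S) :
    d o b - d a b ≤ gp d o a b := by
  unfold gp
  have h1 := h.tri o ho a ha b hb
  linarith

/-- The four point condition in terms of Gromov products: `(a|b) ≥ min ((a|c), (c|b)) - δ`. -/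
theorem gp_hyp (h : HypMet S d δ) {o a b c : Z} (ho : o ∈ S) (ha : a ∈ S) (hb : b ∈ S)
    (hc : c ∈ S) : min (gp d o a c) (gp d o c b) - δ ≤ gp d o a b := by
  unfold gp
  have h1 := h.hyp o ho a ha b hb c hc
  have h2 := h.symm c hc b hb
  rcases le_total (d a c + d o b) (d b c + d o a) with h3 | h3
  · rw [max_eq_right h3] at h1
    have := min_le_right ((d o a + d o c - d a c) / 2) ((d o c + d o b - d c b) / 2)
    linarith
  · rw [max_eq_left h3] at h1
    have := min_le_left ((d o a + d o c - d a c) / 2) ((d o c + d o b - d c b) / 2)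
    linarith

/-- `0 ≤ δ` if `S` is nonempty (take four equal points in `hyp`). -/
theorem HypMet.delta_nonneg (h : HypMet S d δ) {o : Z} (ho : o ∈ S) : 0 ≤ δ := by
  have h1 := h.hyp o ho o ho o ho o ho
  rw [h.self o ho] at h1
  simp at h1
  linarith

/-- `d y y' = |y| + |y'| - 2 (y|y')`. If `|y|, |y'| < t` and `(y|y') ≥ s` then `d y y' ≤ 2 t - 2 s`. -/
theorem d_le_of_gp {o y y' : Z} {t s : ℝ} (hy : d o y < t) (hy' : d o y' < t)
    (hs : s ≤ gp d o y y') : d y y' ≤ 2 * t - 2 * s := by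
  unfold gp at hs
  linarith

end Pool.Agent.BCH
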