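import Pool.Agent.Lib.MP_aa9b81_an.H.A7
import Pool.Agent.Lib.MP_aa9b81_an.H.A6

open MeasureTheory ENNReal NNReal

namespace Pool.Agent.BCH

universe u

variable {Z : Type u} [MeasurableSpace Z] {S : Set Z} {d : Z → Z → ℝ} {δ : ℝ}

/-- Chain lemma: if `1 ≤ n ≤ 2 ^ p` and `(x_i | x_{i+1}) ≥ t` for all `i < n`, then
`(x_0 | x_n) ≥ t - p δ`. Induction on `p` (for all `n`, `x`): `p = 0` gives `n = 1`. For `n ≥ 2` cut at
`m = n / 2`, `1 ≤ m ≤ 2^(p-1)`, `1 ≤ n - m ≤ 2^(p-1)`, use the induction hypothesis for `x` and for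
`fun i => x (m + i)`, and `gp_hyp`. (If `n = 1` and `p ≥ 1` use `0 ≤ δ`.) -/
theorem chain_gp (h : HypMet S d δ) {o : Z} (ho : o ∈ S) (p : ℕ) :
    ∀ (n : ℕ) (x : ℕ → Z) (t : ℝ), 1 ≤ n → n ≤ 2 ^ p → (∀ i ≤ n, x i ∈ S) →
      (∀ i < n, t ≤ gp d o (x i) (x (i + 1))) → t - p * δ ≤ gp d o (x 0) (x n) := by
  induction p with
  | zero =>
    intro n x t hn1 hn2 _ hx
    have hn : n = 1 := by simp at hn2; omega
    subst hn
    have := hx 0 (by norm_num)
    simpa using this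
  | succ p ih =>
    intro n x t hn1 hn2 hS hx
    have hδ := h.delta_nonneg ho
    rcases Nat.eq_or_lt_of_le hn1 with h1 | h1
    · subst h1
      have h2 := hx 0 (by norm_num)
      have h3 : (0 : ℝ) ≤ ((p + 1 : ℕ) : ℝ) * δ := by positivity
      simp only [zero_add] at h2
      linarith
    · have hm1 : 1 ≤ n / 2 := by omega
      have hm2 : n / 2 ≤ 2 ^ p := by rw [pow_succ] at hn2; omega
      have hm3 : 1 ≤ n - n / 2 := by omega
      have hm4 : n - n / 2 ≤ 2 ^ p := by rw [pow_succ] at hn2; omega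
      have e1 := ih (n / 2) x t hm1 hm2 (fun i hi => hS i (by omega)) (fun i hi => hx i (by omega))
      have e2 := ih (n - n / 2) (fun i => x (n / 2 + i)) t hm3 hm4
        (fun i hi => hS _ (by omega)) (fun i hi => by
          have := hx (n / 2 + i) (by omega)
          simpa [add_assoc] using this)
      simp only [add_zero] at e2
      rw [show n / 2 + (n - n / 2) = n by omega] at e2
      have e3 := gp_hyp h ho (hS 0 (by omega)) (hS n le_rfl) (hS (n / 2) (by omega))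
      have e4 := le_min e1 e2
      push_cast
      linarith

/-- A chain of `n` steps of length `≤ R` has `d (x 0) (x n) ≤ n R`. Induction on `n`. -/
theorem chain_dist (h : HypMet S d δ) {R : ℝ} {k : Z → Z → ℂ}
    (hstep : ∀ a b, k a b ≠ 0 → a ∈ S ∧ b ∈ S ∧ d a b ≤ R) {n : ℕ} {x : ℕ → Z}
    (hx : Chain k x n) (hx0 : x 0 ∈ S) : d (x 0) (x n) ≤ n * R ∧ ∀ i ≤ n, x i ∈ S := by
  induction n with
  | zero =>
    refine ⟨?_, ?_⟩
    · rw [h.self _ hx0]; simp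
    · intro i hi
      have : i = 0 := by omega
      subst this; exact hx0
  | succ n ih =>
    have hc : Chain k x n := fun i hi => hx i (by omega)
    obtain ⟨e1, e2⟩ := ih hc
    obtain ⟨s1, s2, s3⟩ := hstep _ _ (hx n (by omega))
    refine ⟨?_, ?_⟩
    · have := h.tri _ hx0 _ s1 _ s2
      push_cast
      linarith
    · intro i hi
      rcases Nat.eq_or_lt_of_le hi with h1 | h1
      · subst h1; exact s2
      · exact e2 i (by omega)

/-- Let `P = {z | d o z < r + (1 + p δ) + R}` and `i + 1 ≤ 2 ^ p`. If `hpow i a y ≠ 0` then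
`(a | y) ≥ r + 1`. Proof: `chain_of_hpow` gives a chain `x_0 = a, ..., x_{i+1} = y`, `x_j ∉ P` for
`j ≤ i`; all `x_j ∈ S` by `hstep`; `(x_j | x_{j+1}) ≥ d o x_j - d x_j x_{j+1} ≥ r + 1 + p δ`
(`le_gp`); apply `chain_gp` with `n = i + 1`. -/
theorem gp_of_hpow (h : HypMet S d δ) {o : Z} (ho : o ∈ S) {R r : ℝ} {k : Z → Z → ℂ}
    (hstep : ∀ a b, k a b ≠ 0 → a ∈ S ∧ b ∈ S ∧ d a b ≤ R) {ν : Measure Z} {p i : ℕ}
    (hi : i + 1 ≤ 2 ^ p) {a y : Z}
    (hne : hpow ν k {z | d o z < r + (1 + p * δ) + R} i a y ≠ 0) :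
    a ∈ S ∧ y ∈ S ∧ r + 1 ≤ gp d o a y := by
  obtain ⟨x, hx0, hxi, hch, hP⟩ := chain_of_hpow hne
  have hS0 : x 0 ∈ S := (hstep _ _ (hch 0 (by omega))).1
  have hS := (chain_dist h hstep hch hS0).2
  refine ⟨hx0 ▸ hS0, hxi ▸ hS (i + 1) le_rfl, ?_⟩
  have e := chain_gp h ho p (i + 1) x (r + 1 + p * δ) (by omega) hi hS (fun j hj => by
    obtain ⟨s1, s2, s3⟩ := hstep _ _ (hch j hj)
    have e1 := le_gp h ho s1 s2
    have e2 := hP j (by omega)
    simp only [Set.mem_setOf_eq, not_lt] at e2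
    linarith)
  rw [hx0, hxi] at e
  linarith

/-- If `kpow n a b ≠ 0` then `a, b ∈ S` and `d a b ≤ (n + 1) R` (`chain_of_kpow`, `chain_dist`). -/
theorem dist_of_kpow (h : HypMet S d δ) {R : ℝ} {k : Z → Z → ℂ}
    (hstep : ∀ a b, k a b ≠ 0 → a ∈ S ∧ b ∈ S ∧ d a b ≤ R) {ν : Measure Z} {n : ℕ} {a b : Z}
    (hne : kpow ν k n a b ≠ 0) : a ∈ S ∧ b ∈ S ∧ d a b ≤ (n + 1) * R := by
  obtain ⟨x, hx0, hxn, hch⟩ := chain_of_kpow hne
  have hS0 : x 0 ∈ S := (hstep _ _ (hch 0 (by omega))).1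
  obtain ⟨e1, e2⟩ := chain_dist h hstep hch hS0
  refine ⟨hx0 ▸ hS0, hxn ▸ e2 (n + 1) le_rfl, ?_⟩
  rw [hx0, hxn] at e1
  push_cast at e1
  exact e1

end Pool.Agent.BCH
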