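import Mathlib

/-!
# Kernels on a measure space: definitions for the absolute value inequality

`Z` is a measurable space with a measure `ν` (s-finite); `k : Z → Z → ℂ` is the kernel of an
operator `(T f)(a) = ∫ k a b * f b dν(b)`.
-/

open MeasureTheory ENNReal NNReal

namespace Pool.Agent.BCH

universe u

variable {Z : Type u} [MeasurableSpace Z]

/-- Composition of kernels. -/
noncomputable def kcomp (ν : Measure Z) (k l : Z → Z → ℂ) : Z → Z → ℂ :=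
  fun a b => ∫ z, k a z * l z b ∂ν

/-- `kpow ν k n` is the kernel of `T ^ (n + 1)`. -/
noncomputable def kpow (ν : Measure Z) (k : Z → Z → ℂ) : ℕ → Z → Z → ℂ
  | 0 => k
  | n + 1 => kcomp ν k (kpow ν k n)

/-- `hpow ν k P n` is the kernel of `(Q T) ^ (n + 1)`, where `Q` is the multiplication by the
indicator function of the complement of `P`. -/
noncomputable def hpow (ν : Measure Z) (k : Z → Z → ℂ) (P : Set Z) : ℕ → Z → Z → ℂ
  | 0 => fun a b => Pᶜ.indicator (fun a' => k a' b) a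
  | n + 1 => fun a b => Pᶜ.indicator (fun a' => kcomp ν k (hpow ν k P n) a' b) a

/-- A measurable kernel with Schur bounds: `|k| ≤ B`, rows and columns have `L¹`-norm `≤ σ`. -/
structure Ker (ν : Measure Z) (k : Z → Z → ℂ) (B σ : ℝ≥0) : Prop where
  meas : Measurable (Function.uncurry k)
  bd : ∀ a b, ‖k a b‖ₑ ≤ B
  row : ∀ a, ∫⁻ b, ‖k a b‖ₑ ∂ν ≤ σ
  col : ∀ b, ∫⁻ a, ‖k a b‖ₑ ∂ν ≤ σ

/-- The operator with kernel `k` satisfies `‖T f‖₂² ≤ c ‖f‖₂²`. -/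
def OpBd (ν : Measure Z) (k : Z → Z → ℂ) (c : ℝ≥0) : Prop :=
  ∀ f : Z → ℂ, Measurable f → ∫⁻ b, ‖f b‖ₑ ^ 2 ∂ν < ∞ →
    ∫⁻ a, ‖∫ b, k a b * f b ∂ν‖ₑ ^ 2 ∂ν ≤ c * ∫⁻ b, ‖f b‖ₑ ^ 2 ∂ν

/-- The operator with nonnegative kernel `K` satisfies `‖T f‖₂² ≤ D ‖f‖₂²` for all `f ≥ 0`. -/
def OB (ν : Measure Z) (K : Z → Z → ℝ≥0∞) (D : ℝ≥0∞) : Prop :=
  ∀ f : Z → ℝ≥0∞, Measurable f →
    ∫⁻ a, (∫⁻ b, K a b * f b ∂ν) ^ 2 ∂ν ≤ D * ∫⁻ b, f b ^ 2 ∂ν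

/-- A `δ`-hyperbolic pseudometric on the subset `S` of `Z` (Gromov's four point condition). -/
structure HypMet (S : Set Z) (d : Z → Z → ℝ) (δ : ℝ) : Prop where
  self : ∀ a ∈ S, d a a = 0
  symm : ∀ a ∈ S, ∀ b ∈ S, d a b = d b a
  tri : ∀ a ∈ S, ∀ b ∈ S, ∀ c ∈ S, d a c ≤ d a b + d b c
  hyp : ∀ o ∈ S, ∀ a ∈ S, ∀ b ∈ S, ∀ c ∈ S,
    d a b + d o c ≤ max (d a c + d o b) (d b c + d o a) + 2 * δ

/-- The Gromov product `(a | b)_o`. -/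
noncomputable def gp (d : Z → Z → ℝ) (o a b : Z) : ℝ := (d o a + d o b - d a b) / 2

/-- `x 0, x 1, ..., x n` is a chain of `n` steps of the kernel `k`. -/
def Chain (k : Z → Z → ℂ) (x : ℕ → Z) (n : ℕ) : Prop := ∀ i < n, k (x i) (x (i + 1)) ≠ 0

end Pool.Agent.BCH
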