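import Mathlib

/-!
# The convolution algebra `C_c(X ⋊ G)` of a transformation groupoid

`G` is a second countable locally compact group with its (left) Haar measure `haar`, acting
continuously on the Hausdorff space `X`.
-/

open MeasureTheory MeasureTheory.Measure Topology

namespace Pool.Agent.BCH

universe u v

/-- `Cc G X`: continuous functions with compact support on `X × G`. -/
@[ext] structure Cc (G : Type u) (X : Type v) [TopologicalSpace G] [TopologicalSpace X] where
  toFun : X × G → ℂ
  cont : Continuous toFun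
  supp : HasCompactSupport toFun

section basic

variable {G : Type u} {X : Type v} [TopologicalSpace G] [TopologicalSpace X]

instance : CoeFun (Cc G X) (fun _ => X × G → ℂ) := ⟨Cc.toFun⟩

theorem Cc.toFun_injective : Function.Injective (Cc.toFun : Cc G X → X × G → ℂ) :=
  fun _ _ h => Cc.ext h

instance : Zero (Cc G X) := ⟨⟨0, continuous_zero, HasCompactSupport.zero⟩⟩
instance : Add (Cc G X) := ⟨fun F H => ⟨F.toFun + H.toFun, F.cont.add H.cont, F.supp.add H.supp⟩⟩
instance : Neg (Cc G X) := ⟨fun F => ⟨-F.toFun, F.cont.neg, F.supp.neg⟩⟩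
instance : Sub (Cc G X) := ⟨fun F H => ⟨F.toFun - H.toFun, F.cont.sub H.cont, F.supp.sub H.supp⟩⟩
instance : SMul ℂ (Cc G X) :=
  ⟨fun c F => ⟨c • F.toFun, F.cont.const_smul c,
    F.supp.comp_left (g := fun z : ℂ => c • z) (smul_zero c)⟩⟩
instance : SMul ℕ (Cc G X) :=
  ⟨fun c F => ⟨c • F.toFun, F.cont.const_smul c,
    F.supp.comp_left (g := fun z : ℂ => c • z) (smul_zero c)⟩⟩
instance : SMul ℤ (Cc G X) :=
  ⟨fun c F => ⟨c • F.toFun, F.cont.const_smul c,
    F.supp.comp_left (g := fun z : ℂ => c • z) (smul_zero c)⟩⟩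

instance : AddCommGroup (Cc G X) :=
  Function.Injective.addCommGroup Cc.toFun Cc.toFun_injective rfl (fun _ _ => rfl) (fun _ => rfl)
    (fun _ _ => rfl) (fun _ _ => rfl) (fun _ _ => rfl)

/-- `F ↦ F` as an additive homomorphism to functions. -/
def Cc.toFunHom : Cc G X →+ (X × G → ℂ) where
  toFun := Cc.toFun
  map_zero' := rfl
  map_add' _ _ := rfl

instance : Module ℂ (Cc G X) :=
  Function.Injective.module ℂ Cc.toFunHom Cc.toFun_injective (fun _ _ => rfl)

theorem Cc.add_apply (F H : Cc G X) (p : X × G) : (F + H) p = F p + H p := rfl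
theorem Cc.neg_apply (F : Cc G X) (p : X × G) : (-F) p = -F p := rfl
theorem Cc.sub_apply (F H : Cc G X) (p : X × G) : (F - H) p = F p - H p := rfl
theorem Cc.smul_apply (c : ℂ) (F : Cc G X) (p : X × G) : (c • F) p = c * F p := rfl
theorem Cc.zero_apply (p : X × G) : (0 : Cc G X) p = 0 := rfl

/-- The pointwise absolute value `|F|`. -/
noncomputable def Cc.abs (F : Cc G X) : Cc G X where
  toFun p := (‖F p‖ : ℂ)
  cont := Complex.continuous_ofReal.comp F.cont.norm
  supp := F.supp.norm.comp_left (g := fun t : ℝ => (t : ℂ)) Complex.ofReal_zero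

end basic

section conv

variable {G : Type u} [Group G] [TopologicalSpace G] [IsTopologicalGroup G]
  [LocallyCompactSpace G] [SecondCountableTopology G] [T2Space G] [MeasurableSpace G]
  [BorelSpace G]
variable {X : Type v} [TopologicalSpace X] [T2Space X] [MulAction G X] [ContinuousSMul G X]

/-- The convolution `(F * H)(x, g) = ∫ F(x, s) H(s⁻¹x, s⁻¹g) ds`. -/
noncomputable def convFun (F H : Cc G X) (p : X × G) : ℂ :=
  ∫ s, F (p.1, s) * H (s⁻¹ • p.1, s⁻¹ * p.2) ∂(haar : Measure G)

end conv

end Pool.Agent.BCH
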