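import Pool.Agent.Lib.MP_aa9b81_an.H.B0

open MeasureTheory MeasureTheory.Measure Topology ENNReal NNReal

namespace Pool.Agent.BCH

universe u v

variable {G : Type u} [Group G] [TopologicalSpace G] [IsTopologicalGroup G]
  [LocallyCompactSpace G] [SecondCountableTopology G] [T2Space G] [MeasurableSpace G]
  [BorelSpace G]
variable {X : Type v} [TopologicalSpace X] [T2Space X] [MulAction G X] [ContinuousSMul G X]

/-- The compact set of all `s` with `F(x, s) ≠ 0` for some `x`: the image of the support of `F`. -/
def Cc.gsupp (F : Cc G X) : Set G := Prod.snd '' tsupport F.toFun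

/-- The compact set of all `x` with `F(x, s) ≠ 0` for some `s`. -/
def Cc.xsupp (F : Cc G X) : Set X := Prod.fst '' tsupport F.toFun

omit [LocallyCompactSpace G] [SecondCountableTopology G] [MeasurableSpace G] [BorelSpace G]
  [MulAction G X] [ContinuousSMul G X] [Group G] [IsTopologicalGroup G] [T2Space G] [T2Space X] in
theorem Cc.isCompact_gsupp (F : Cc G X) : IsCompact F.gsupp := F.supp.image continuous_snd

omit [LocallyCompactSpace G] [SecondCountableTopology G] [MeasurableSpace G] [BorelSpace G]
  [MulAction G X] [ContinuousSMul G X] [Group G] [IsTopologicalGroup G] [T2Space G] [T2Space X] in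
theorem Cc.isCompact_xsupp (F : Cc G X) : IsCompact F.xsupp := F.supp.image continuous_fst

omit [LocallyCompactSpace G] [SecondCountableTopology G] [MeasurableSpace G] [BorelSpace G]
  [MulAction G X] [ContinuousSMul G X] [Group G] [IsTopologicalGroup G] [T2Space G] [T2Space X] in
theorem Cc.mem_gsupp (F : Cc G X) {x : X} {g : G} (h : F (x, g) ≠ 0) : g ∈ F.gsupp :=
  ⟨(x, g), subset_tsupport _ h, rfl⟩

omit [LocallyCompactSpace G] [SecondCountableTopology G] [MeasurableSpace G] [BorelSpace G]
  [MulAction G X] [ContinuousSMul G X] [Group G] [IsTopologicalGroup G] [T2Space G] [T2Space X] in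
theorem Cc.mem_xsupp (F : Cc G X) {x : X} {g : G} (h : F (x, g) ≠ 0) : x ∈ F.xsupp :=
  ⟨(x, g), subset_tsupport _ h, rfl⟩

/-- `p ↦ ∫ F(p.1, s) H(s⁻¹ p.1, s⁻¹ p.2) ds` is continuous: a parametric integral of a jointly
continuous function vanishing for `s` outside the compact set `F.gsupp`
(`continuous_parametric_integral_of_continuous` or, without countability assumptions,
`continuousOn_integral_of_compact_support`). -/
theorem convFun_continuous (F H : Cc G X) : Continuous (convFun F H) := by
  have hc : Continuous (Function.uncurry (fun (p : X × G) (s : G) =>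
      F (p.1, s) * H (s⁻¹ • p.1, s⁻¹ * p.2))) := by
    have h1 := F.cont
    have h2 := H.cont
    have h3 : Continuous (fun q : (X × G) × G => F (q.1.1, q.2)) :=
      h1.comp (by fun_prop)
    have h4 : Continuous (fun q : (X × G) × G => H (q.2⁻¹ • q.1.1, q.2⁻¹ * q.1.2)) :=
      h2.comp (by fun_prop)
    exact h3.mul h4
  have h := continuousOn_integral_of_compact_support (μ := (haar : Measure G))
    (f := fun (p : X × G) (s : G) => F (p.1, s) * H (s⁻¹ • p.1, s⁻¹ * p.2))
    (s := Set.univ) F.isCompact_gsupp hc.continuousOn (by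
      intro p s _ hs
      have : F (p.1, s) = 0 := by
        by_contra hne
        exact hs (F.mem_gsupp hne)
      show F (p.1, s) * _ = 0
      rw [this, zero_mul])
  exact continuousOn_univ.1 h

end Pool.Agent.BCH
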