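import Pool.Agent.Lib.MP_aa9b81_an.H.B1

open MeasureTheory MeasureTheory.Measure Topology ENNReal NNReal

namespace Pool.Agent.BCH

universe u v

variable {G : Type u} [Group G] [TopologicalSpace G] [IsTopologicalGroup G]
  [LocallyCompactSpace G] [SecondCountableTopology G] [T2Space G] [MeasurableSpace G]
  [BorelSpace G]
variable {X : Type v} [TopologicalSpace X] [T2Space X] [MulAction G X] [ContinuousSMul G X]

/-- If `(F * H)(x, g) ≠ 0` then for some `s`: `F(x, s) ≠ 0` and `H(s⁻¹ x, s⁻¹ g) ≠ 0`, so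
`x ∈ F.xsupp` and `g = s (s⁻¹ g) ∈ F.gsupp * H.gsupp`. Use `HasCompactSupport.intro` with the compact set
`F.xsupp ×ˢ (F.gsupp * H.gsupp)`. -/
theorem convFun_compact (F H : Cc G X) : HasCompactSupport (convFun F H) := by
  refine HasCompactSupport.intro
    (F.isCompact_xsupp.prod (F.isCompact_gsupp.mul H.isCompact_gsupp)) ?_
  intro p hp
  unfold convFun
  refine (integral_congr_ae (Filter.Eventually.of_forall fun s => ?_)).trans (integral_zero G ℂ)
  by_contra hne
  have h1 : F (p.1, s) ≠ 0 := fun h0 => hne (by simp [h0])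
  have h2 : H (s⁻¹ • p.1, s⁻¹ * p.2) ≠ 0 := fun h0 => hne (by simp [h0])
  refine hp (Set.mem_prod.2 ⟨F.mem_xsupp h1, ?_⟩)
  exact Set.mem_mul.2 ⟨s, F.mem_gsupp h1, s⁻¹ * p.2, H.mem_gsupp h2, by simp⟩

end Pool.Agent.BCH
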