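import Pool.Agent.Lib.MP_aa9b81_an.H.BMul

open MeasureTheory MeasureTheory.Measure Topology ENNReal NNReal

namespace Pool.Agent.BCH

universe u v

variable {G : Type u} [Group G] [TopologicalSpace G] [IsTopologicalGroup G]
  [LocallyCompactSpace G] [SecondCountableTopology G] [T2Space G] [MeasurableSpace G]
  [BorelSpace G]
variable {X : Type v} [TopologicalSpace X] [T2Space X] [MulAction G X] [ContinuousSMul G X]

/-- The integrand of the convolution is continuous with compact support in `s`, so integrable. -/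
theorem conv_integrable (F H : Cc G X) (x : X) (g : G) :
    Integrable (fun s => F (x, s) * H (s⁻¹ • x, s⁻¹ * g)) (haar : Measure G) := by
  refine Continuous.integrable_of_hasCompactSupport ?_ ?_
  · have h1 : Continuous fun s : G => F (x, s) := F.cont.comp (by fun_prop)
    have h2 : Continuous fun s : G => H (s⁻¹ • x, s⁻¹ * g) :=
      H.cont.comp ((continuous_inv.smul continuous_const).prodMk
        (continuous_inv.mul continuous_const))
    exact h1.mul h2
  · refine HasCompactSupport.intro F.isCompact_gsupp fun s hs => ?_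
    have h0 : F (x, s) = 0 := by
      by_contra h
      exact hs (F.mem_gsupp h)
    show F (x, s) * H (s⁻¹ • x, s⁻¹ * g) = 0
    rw [h0, zero_mul]

theorem conv_add_left (F F' H : Cc G X) : (F + F') * H = F * H + F' * H := by
  refine Cc.ext (funext fun p => ?_)
  obtain ⟨x, g⟩ := p
  show (∫ s, (F + F') (x, s) * H (s⁻¹ • x, s⁻¹ * g) ∂(haar : Measure G)) =
    (∫ s, F (x, s) * H (s⁻¹ • x, s⁻¹ * g) ∂(haar : Measure G)) +
      ∫ s, F' (x, s) * H (s⁻¹ • x, s⁻¹ * g) ∂(haar : Measure G)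
  rw [← integral_add (conv_integrable F H x g) (conv_integrable F' H x g)]
  refine integral_congr_ae (Filter.Eventually.of_forall fun s => ?_)
  show (F (x, s) + F' (x, s)) * H (s⁻¹ • x, s⁻¹ * g) = _
  exact add_mul _ _ _

theorem conv_add_right (F H H' : Cc G X) : F * (H + H') = F * H + F * H' := by
  refine Cc.ext (funext fun p => ?_)
  obtain ⟨x, g⟩ := p
  show (∫ s, F (x, s) * (H + H') (s⁻¹ • x, s⁻¹ * g) ∂(haar : Measure G)) =
    (∫ s, F (x, s) * H (s⁻¹ • x, s⁻¹ * g) ∂(haar : Measure G)) +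
      ∫ s, F (x, s) * H' (s⁻¹ • x, s⁻¹ * g) ∂(haar : Measure G)
  rw [← integral_add (conv_integrable F H x g) (conv_integrable F H' x g)]
  refine integral_congr_ae (Filter.Eventually.of_forall fun s => ?_)
  show F (x, s) * (H (s⁻¹ • x, s⁻¹ * g) + H' (s⁻¹ • x, s⁻¹ * g)) = _
  exact mul_add _ _ _

theorem conv_smul_left (c : ℂ) (F H : Cc G X) : (c • F) * H = c • (F * H) := by
  refine Cc.ext (funext fun p => ?_)
  obtain ⟨x, g⟩ := p
  show (∫ s, (c • F) (x, s) * H (s⁻¹ • x, s⁻¹ * g) ∂(haar : Measure G)) =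
    c * ∫ s, F (x, s) * H (s⁻¹ • x, s⁻¹ * g) ∂(haar : Measure G)
  rw [← integral_const_mul]
  refine integral_congr_ae (Filter.Eventually.of_forall fun s => ?_)
  show (c * F (x, s)) * H (s⁻¹ • x, s⁻¹ * g) = c * (F (x, s) * H (s⁻¹ • x, s⁻¹ * g))
  exact mul_assoc _ _ _

theorem conv_smul_right (c : ℂ) (F H : Cc G X) : F * (c • H) = c • (F * H) := by
  refine Cc.ext (funext fun p => ?_)
  obtain ⟨x, g⟩ := p
  show (∫ s, F (x, s) * (c • H) (s⁻¹ • x, s⁻¹ * g) ∂(haar : Measure G)) =
    c * ∫ s, F (x, s) * H (s⁻¹ • x, s⁻¹ * g) ∂(haar : Measure G)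
  rw [← integral_const_mul]
  refine integral_congr_ae (Filter.Eventually.of_forall fun s => ?_)
  show F (x, s) * (c * H (s⁻¹ • x, s⁻¹ * g)) = c * (F (x, s) * H (s⁻¹ • x, s⁻¹ * g))
  exact mul_left_comm _ _ _

end Pool.Agent.BCH
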