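import Pool.Agent.Lib.MP_aa9b81_an.H.BMul

open MeasureTheory MeasureTheory.Measure Topology ENNReal NNReal

namespace Pool.Agent.BCH

universe u v

variable {G : Type u} [Group G] [TopologicalSpace G] [IsTopologicalGroup G]
  [LocallyCompactSpace G] [SecondCountableTopology G] [T2Space G] [MeasurableSpace G]
  [BorelSpace G]
variable {X : Type v} [TopologicalSpace X] [T2Space X] [MulAction G X] [ContinuousSMul G X]

/-- Associativity. `((F*H)*J)(x,g) = ∫_t (∫_s F(x,s) H(s⁻¹x, s⁻¹t) ds) J(t⁻¹x, t⁻¹g) dt`,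
`(F*(H*J))(x,g) = ∫_s F(x,s) (∫_t H(s⁻¹x, t) J(t⁻¹s⁻¹x, t⁻¹s⁻¹g) dt) ds`; substitute `t → s⁻¹ t` in the
inner integral (`integral_mul_left_eq_self`) and use Fubini (`integral_integral_swap`; the integrand
is continuous with compact support on `G × G`: it vanishes unless `s ∈ F.gsupp` and
`t ∈ F.gsupp * H.gsupp`). -/
theorem conv_assoc (F H J : Cc G X) : F * H * J = F * (H * J) := by
  apply Cc.ext
  funext p
  obtain ⟨x, g⟩ := p
  change (F * H * J) (x, g) = (F * (H * J)) (x, g)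
  rw [Cc.mul_apply, Cc.mul_apply]
  have hswap : (∫ s, ∫ t, F (x, s) * H (s⁻¹ • x, s⁻¹ * t) * J (t⁻¹ • x, t⁻¹ * g)
        ∂(haar : Measure G) ∂(haar : Measure G)) =
      ∫ t, ∫ s, F (x, s) * H (s⁻¹ • x, s⁻¹ * t) * J (t⁻¹ • x, t⁻¹ * g)
        ∂(haar : Measure G) ∂(haar : Measure G) := by
    apply integral_integral_swap_of_hasCompactSupport
    · have h1 : Continuous (fun q : G × G => F (x, q.1)) :=
        F.cont.comp (continuous_const.prodMk continuous_fst)
      have h2 : Continuous (fun q : G × G => H (q.1⁻¹ • x, q.1⁻¹ * q.2)) :=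
        H.cont.comp ((continuous_fst.inv.smul continuous_const).prodMk
          (continuous_fst.inv.mul continuous_snd))
      have h3 : Continuous (fun q : G × G => J (q.2⁻¹ • x, q.2⁻¹ * g)) :=
        J.cont.comp ((continuous_snd.inv.smul continuous_const).prodMk
          (continuous_snd.inv.mul continuous_const))
      exact (h1.mul h2).mul h3
    · refine HasCompactSupport.intro
        (F.isCompact_gsupp.prod (F.isCompact_gsupp.mul H.isCompact_gsupp)) ?_
      rintro ⟨s, t⟩ hst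
      change F (x, s) * H (s⁻¹ • x, s⁻¹ * t) * J (t⁻¹ • x, t⁻¹ * g) = 0
      by_contra hne
      apply hst
      have hF : F (x, s) ≠ 0 := fun h => hne (by rw [h]; simp)
      have hH : H (s⁻¹ • x, s⁻¹ * t) ≠ 0 := fun h => hne (by rw [h]; simp)
      refine ⟨F.mem_gsupp hF, ?_⟩
      have := Set.mul_mem_mul (F.mem_gsupp hF) (H.mem_gsupp hH)
      simpa [mul_inv_cancel_left] using this
  have hL : ∀ t : G, (F * H) (x, t) * J (t⁻¹ • x, t⁻¹ * g) =
      ∫ s, F (x, s) * H (s⁻¹ • x, s⁻¹ * t) * J (t⁻¹ • x, t⁻¹ * g) ∂(haar : Measure G) := by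
    intro t
    rw [Cc.mul_apply, ← integral_mul_const]
  have hR : ∀ s : G, F (x, s) * (H * J) (s⁻¹ • x, s⁻¹ * g) =
      ∫ t, F (x, s) * H (s⁻¹ • x, s⁻¹ * t) * J (t⁻¹ • x, t⁻¹ * g) ∂(haar : Measure G) := by
    intro s
    rw [Cc.mul_apply, ← integral_const_mul,
      ← integral_mul_left_eq_self (μ := (haar : Measure G))
        (fun t => F (x, s) * (H (s⁻¹ • x, t) * J (t⁻¹ • s⁻¹ • x, t⁻¹ * (s⁻¹ * g)))) s⁻¹]
    refine integral_congr_ae (Filter.Eventually.of_forall fun t => ?_)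
    have e1 : (s⁻¹ * t)⁻¹ • s⁻¹ • x = t⁻¹ • x := by
      rw [smul_smul]
      congr 1
      group
    have e2 : (s⁻¹ * t)⁻¹ * (s⁻¹ * g) = t⁻¹ * g := by group
    change F (x, s) * (H (s⁻¹ • x, s⁻¹ * t) *
      J ((s⁻¹ * t)⁻¹ • s⁻¹ • x, (s⁻¹ * t)⁻¹ * (s⁻¹ * g))) = _
    rw [e1, e2]
    exact (mul_assoc _ _ _).symm
  simp_rw [hL, hR]
  exact hswap.symm

end Pool.Agent.BCH
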