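import Pool.Agent.Lib.MP_aa9b81_an.H.BMul

open MeasureTheory MeasureTheory.Measure Topology ENNReal NNReal

namespace Pool.Agent.BCH

universe u v

variable {G : Type u} [Group G] [TopologicalSpace G] [IsTopologicalGroup G]
  [LocallyCompactSpace G] [SecondCountableTopology G] [T2Space G] [MeasurableSpace G]
  [BorelSpace G]
variable {X : Type v} [TopologicalSpace X] [T2Space X] [MulAction G X] [ContinuousSMul G X]

/-- The map `(x, g) ↦ (g⁻¹ x, g⁻¹)` is an involutive homeomorphism of `X × G`; so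
`(x, g) ↦ conj F(g⁻¹ x, g⁻¹)` has compact support (`HasCompactSupport.intro` with the image of the
support under that map, or `HasCompactSupport.comp_homeomorph`). -/
theorem adj_compact (F : Cc G X) :
    HasCompactSupport (fun p : X × G => (starRingEnd ℂ) (F (p.2⁻¹ • p.1, p.2⁻¹))) := by
  let φ : X × G ≃ₜ X × G :=
    { toFun := fun p => (p.2⁻¹ • p.1, p.2⁻¹)
      invFun := fun p => (p.2⁻¹ • p.1, p.2⁻¹)
      left_inv := by
        rintro ⟨x, g⟩
        simp
      right_inv := by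
        rintro ⟨x, g⟩
        simp
      continuous_toFun := by fun_prop
      continuous_invFun := by fun_prop }
  have h1 : HasCompactSupport (F.toFun ∘ φ) := F.supp.comp_homeomorph φ
  exact h1.comp_left (g := fun z : ℂ => (starRingEnd ℂ) z) (map_zero _)

/-- The involution `F^*(x, g) = conj F(g⁻¹x, g⁻¹)`. -/
noncomputable instance : Star (Cc G X) where
  star F :=
    { toFun := fun p => (starRingEnd ℂ) (F (p.2⁻¹ • p.1, p.2⁻¹))
      cont := by
        have := F.cont
        fun_prop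
      supp := adj_compact F }

theorem Cc.star_apply (F : Cc G X) (x : X) (g : G) :
    (star F) (x, g) = (starRingEnd ℂ) (F (g⁻¹ • x, g⁻¹)) := rfl

/-- `(F*H)^*(x,g) = conj ∫ F(g⁻¹x, s) H(s⁻¹g⁻¹x, s⁻¹g⁻¹) ds`,
`(H^* * F^*)(x,g) = ∫ conj H(s⁻¹x, s⁻¹) conj F(g⁻¹x, g⁻¹s) ds`; substitute `s = g t`
(`integral_mul_left_eq_self`), `integral_conj`. -/
theorem star_conv (F H : Cc G X) : star (F * H) = star H * star F := by
  apply Cc.ext
  funext p
  obtain ⟨x, g⟩ := p
  show (star (F * H)) (x, g) = (star H * star F) (x, g)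
  rw [Cc.star_apply, Cc.mul_apply, Cc.mul_apply, ← integral_conj]
  rw [← integral_mul_left_eq_self (μ := (haar : Measure G))
    (fun s => (star H) (x, s) * (star F) (s⁻¹ • x, s⁻¹ * g)) g]
  refine integral_congr_ae (Filter.Eventually.of_forall fun t => ?_)
  show (starRingEnd ℂ) (F (g⁻¹ • x, t) * H (t⁻¹ • g⁻¹ • x, t⁻¹ * g⁻¹))
    = (star H) (x, g * t) * (star F) ((g * t)⁻¹ • x, (g * t)⁻¹ * g)
  rw [Cc.star_apply, Cc.star_apply, map_mul, mul_comm]
  have e1 : (g * t)⁻¹ • x = t⁻¹ • g⁻¹ • x := by rw [mul_inv_rev, mul_smul]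
  have e2 : (g * t)⁻¹ = t⁻¹ * g⁻¹ := mul_inv_rev g t
  have e3 : ((g * t)⁻¹ * g)⁻¹ = t := by group
  have e4 : ((g * t)⁻¹ * g)⁻¹ • (g * t)⁻¹ • x = g⁻¹ • x := by
    rw [e3, e1, smul_inv_smul]
  rw [e4, e3, e1, e2]

theorem star_star_cc (F : Cc G X) : star (star F) = F := by
  apply Cc.ext
  funext p
  obtain ⟨x, g⟩ := p
  show (star (star F)) (x, g) = F (x, g)
  rw [Cc.star_apply, Cc.star_apply, inv_inv, smul_inv_smul, Complex.conj_conj]

theorem star_add_cc (F H : Cc G X) : star (F + H) = star F + star H := by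
  apply Cc.ext
  funext p
  obtain ⟨x, g⟩ := p
  show (star (F + H)) (x, g) = (star F + star H) (x, g)
  rw [Cc.star_apply, Cc.add_apply, Cc.add_apply, Cc.star_apply, Cc.star_apply, map_add]

theorem star_smul_cc (c : ℂ) (F : Cc G X) : star (c • F) = star c • star F := by
  apply Cc.ext
  funext p
  obtain ⟨x, g⟩ := p
  show (star (c • F)) (x, g) = (star c • star F) (x, g)
  rw [Cc.star_apply, Cc.smul_apply, Cc.smul_apply, Cc.star_apply, map_mul]
  rfl

end Pool.Agent.BCH
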