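import Pool.Agent.Lib.MP_aa9b81_an.H.BMul

open MeasureTheory MeasureTheory.Measure Topology ENNReal NNReal

namespace Pool.Agent.BCH

universe u v

variable {G : Type u} [Group G] [TopologicalSpace G] [IsTopologicalGroup G]
  [LocallyCompactSpace G] [SecondCountableTopology G] [T2Space G] [MeasurableSpace G]
  [BorelSpace G]
variable {X : Type v} [TopologicalSpace X] [T2Space X] [MulAction G X] [ContinuousSMul G X]

theorem Cc.abs_apply (F : Cc G X) (p : X × G) : F.abs p = (‖F p‖ : ℂ) := rfl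

private theorem B6_abs_conv (F H : Cc G X) (x : X) (g : G) :
    (F.abs * H.abs) (x, g) =
      ((∫ s, ‖F (x, s) * H (s⁻¹ • x, s⁻¹ * g)‖ ∂(haar : Measure G) : ℝ) : ℂ) := by
  rw [Cc.mul_apply]
  refine Eq.trans (integral_congr_ae (Filter.Eventually.of_forall fun s => ?_))
    (integral_ofReal (𝕜 := ℂ))
  simp only [Cc.abs_apply, norm_mul]
  exact (Complex.ofReal_mul _ _).symm

/-- `|F * H| ≤ |F| * |H|` pointwise: `norm_integral_le_integral_norm`. -/
theorem norm_mul_apply_le (F H : Cc G X) (p : X × G) :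
    ‖(F * H) p‖ ≤ ‖(F.abs * H.abs) p‖ := by
  obtain ⟨x, g⟩ := p
  rw [Cc.mul_apply, B6_abs_conv F H x g, Complex.norm_real]
  exact (norm_integral_le_integral_norm _).trans (le_abs_self _)

/-- `(|F| * |H|)(p)` is a nonnegative real. -/
theorem abs_mul_abs_apply (F H : Cc G X) (p : X × G) :
    (F.abs * H.abs) p = (‖(F.abs * H.abs) p‖ : ℂ) := by
  obtain ⟨x, g⟩ := p
  rw [B6_abs_conv F H x g, Complex.norm_real, Real.norm_eq_abs,
    abs_of_nonneg (integral_nonneg fun s => norm_nonneg _)]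

end Pool.Agent.BCH
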