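import Pool.Agent.Lib.MP_aa9b81_an.H.B2

open MeasureTheory MeasureTheory.Measure Topology ENNReal NNReal

namespace Pool.Agent.BCH

universe u v

variable {G : Type u} [Group G] [TopologicalSpace G] [IsTopologicalGroup G]
  [LocallyCompactSpace G] [SecondCountableTopology G] [T2Space G] [MeasurableSpace G]
  [BorelSpace G]
variable {X : Type v} [TopologicalSpace X] [T2Space X] [MulAction G X] [ContinuousSMul G X]

/-- Multiplication on `Cc G X` is convolution. -/
noncomputable instance : Mul (Cc G X) :=
  ⟨fun F H => ⟨convFun F H, convFun_continuous F H, convFun_compact F H⟩⟩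

theorem Cc.mul_apply (F H : Cc G X) (x : X) (g : G) :
    (F * H) (x, g) = ∫ s, F (x, s) * H (s⁻¹ • x, s⁻¹ * g) ∂(haar : Measure G) := rfl

end Pool.Agent.BCH
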