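import Pool.Agent.Lib.MP_aa9b81_an.H.B3
import Pool.Agent.Lib.MP_aa9b81_an.H.B4

open MeasureTheory MeasureTheory.Measure Topology ENNReal NNReal

namespace Pool.Agent.BCH

universe u v

variable {G : Type u} [Group G] [TopologicalSpace G] [IsTopologicalGroup G]
  [LocallyCompactSpace G] [SecondCountableTopology G] [T2Space G] [MeasurableSpace G]
  [BorelSpace G]
variable {X : Type v} [TopologicalSpace X] [T2Space X] [MulAction G X] [ContinuousSMul G X]

noncomputable instance : NonUnitalRing (Cc G X) :=
  { (inferInstance : AddCommGroup (Cc G X)) with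
    mul := (· * ·)
    left_distrib := conv_add_right
    right_distrib := conv_add_left
    zero_mul := fun H => by
      have := conv_smul_left (0 : ℂ) (0 : Cc G X) H
      rwa [zero_smul, zero_smul] at this
    mul_zero := fun F => by
      have := conv_smul_right (0 : ℂ) F (0 : Cc G X)
      rwa [zero_smul, zero_smul] at this
    mul_assoc := conv_assoc }

instance : IsScalarTower ℂ (Cc G X) (Cc G X) := ⟨conv_smul_left⟩
instance : SMulCommClass ℂ (Cc G X) (Cc G X) := ⟨fun c F H => (conv_smul_right c F H).symm⟩

end Pool.Agent.BCH
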