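import Pool.Agent.Lib.MP_aa9b81_an.H.B5
import Pool.Agent.Lib.MP_aa9b81_an.H.BRing

open MeasureTheory MeasureTheory.Measure Topology ENNReal NNReal

namespace Pool.Agent.BCH

universe u v

variable {G : Type u} [Group G] [TopologicalSpace G] [IsTopologicalGroup G]
  [LocallyCompactSpace G] [SecondCountableTopology G] [T2Space G] [MeasurableSpace G]
  [BorelSpace G]
variable {X : Type v} [TopologicalSpace X] [T2Space X] [MulAction G X] [ContinuousSMul G X]

noncomputable instance : StarRing (Cc G X) where
  star_involutive := star_star_cc
  star_mul := star_conv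
  star_add := star_add_cc

instance : StarModule ℂ (Cc G X) := ⟨star_smul_cc⟩

end Pool.Agent.BCH
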