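import Mathlib

open MeasureTheory MeasureTheory.Measure Topology ENNReal NNReal

namespace Pool.Agent.BCH

universe u v

variable {Z : Type u} [MeasurableSpace Z]

/-- The function `T_k f`, `(T_k f)(a) = ∫ k a b f b dν(b)`. -/
noncomputable def kapp (ν : Measure Z) (k : Z → Z → ℂ) (f : Z → ℂ) (a : Z) : ℂ :=
  ∫ b, k a b * f b ∂ν

/-- The adjoint kernel. -/
noncomputable def kadj (k : Z → Z → ℂ) : Z → Z → ℂ := fun a b => (starRingEnd ℂ) (k b a)

end Pool.Agent.BCH
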