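import Pool.Agent.Lib.MP_aa9b81_an.H.ADefs
import Pool.Agent.Lib.MP_aa9b81_an.H.CDefs

open MeasureTheory MeasureTheory.Measure Topology ENNReal NNReal

namespace Pool.Agent.BCH

universe u v

variable {Z : Type u} [MeasurableSpace Z] {ν : Measure Z} [SigmaFinite ν]

private theorem C1_two_sq {f : Z → ℂ} : eLpNorm f 2 ν ^ 2 = ∫⁻ b, ‖f b‖ₑ ^ 2 ∂ν := by
  rw [eLpNorm_eq_lintegral_rpow_enorm_toReal (by norm_num) (by norm_num)]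
  rw [← ENNReal.rpow_natCast, ← ENNReal.rpow_mul]
  simp

private theorem C1_cs {μ : Measure Z} {u w : Z → ℝ≥0∞} (hu : AEMeasurable u μ)
    (hw : AEMeasurable w μ) :
    (∫⁻ b, u b * w b ∂μ) ^ 2 ≤ (∫⁻ b, u b ∂μ) * ∫⁻ b, u b * w b ^ 2 ∂μ := by
  have h1 : AEMeasurable (fun b => u b ^ (1 / 2 : ℝ)) μ := hu.pow_const _
  have h2 := ENNReal.lintegral_mul_le_Lp_mul_Lq μ (p := 2) (q := 2)
    ⟨by norm_num, by norm_num, by norm_num⟩ h1 (h1.mul hw)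
  have e0 : ∀ x : ℝ≥0∞, x ^ (1 / 2 : ℝ) * x ^ (1 / 2 : ℝ) = x := by
    intro x
    rw [← ENNReal.rpow_add_of_nonneg _ _ (by norm_num) (by norm_num)]
    norm_num
  have e1 : (∫⁻ b, ((fun b => u b ^ (1 / 2 : ℝ)) * ((fun b => u b ^ (1 / 2 : ℝ)) * w)) b ∂μ) =
      ∫⁻ b, u b * w b ∂μ := by
    refine lintegral_congr fun b => ?_
    simp only [Pi.mul_apply]
    rw [← mul_assoc, e0]
  have e2 : (∫⁻ b, (fun b => u b ^ (1 / 2 : ℝ)) b ^ (2 : ℝ) ∂μ) = ∫⁻ b, u b ∂μ := by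
    refine lintegral_congr fun b => ?_
    simp only
    rw [← ENNReal.rpow_mul]
    norm_num
  have e3 : (∫⁻ b, ((fun b => u b ^ (1 / 2 : ℝ)) * w) b ^ (2 : ℝ) ∂μ) =
      ∫⁻ b, u b * w b ^ 2 ∂μ := by
    refine lintegral_congr fun b => ?_
    simp only [Pi.mul_apply]
    rw [ENNReal.rpow_two, mul_pow, sq (u b ^ (1 / 2 : ℝ)), e0]
  rw [e1, e2, e3] at h2
  calc (∫⁻ b, u b * w b ∂μ) ^ 2 ≤
      ((∫⁻ b, u b ∂μ) ^ (1 / 2 : ℝ) * (∫⁻ b, u b * w b ^ 2 ∂μ) ^ (1 / 2 : ℝ)) ^ 2 := by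
        gcongr
    _ = (∫⁻ b, u b ∂μ) * ∫⁻ b, u b * w b ^ 2 ∂μ := by
        rw [mul_pow, sq, sq, e0, e0]

/-- `∫ ‖k a b‖² db ≤ B σ`. -/
theorem Ker.row2 {k : Z → Z → ℂ} {B σ : ℝ≥0} (hk : Ker ν k B σ) (a : Z) :
    ∫⁻ b, ‖k a b‖ₑ ^ 2 ∂ν ≤ B * σ := by
  have hm : Measurable fun b => ‖k a b‖ₑ := (hk.meas.of_uncurry_left (x := a)).enorm
  calc ∫⁻ b, ‖k a b‖ₑ ^ 2 ∂ν ≤ ∫⁻ b, B * ‖k a b‖ₑ ∂ν := by
        refine lintegral_mono fun b => ?_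
        rw [sq]
        gcongr
        exact hk.bd a b
    _ = B * ∫⁻ b, ‖k a b‖ₑ ∂ν := lintegral_const_mul _ hm
    _ ≤ B * σ := by gcongr; exact hk.row a

/-- For `f ∈ L²` all integrals defining `T_k f` converge: `∫ ‖k a b‖ ‖f b‖ db ≤ ‖k a ·‖₂ ‖f‖₂ < ∞`
(`MemLp.integrable_mul`). -/
theorem Ker.integrable {k : Z → Z → ℂ} {B σ : ℝ≥0} (hk : Ker ν k B σ) {f : Z → ℂ}
    (hf : MemLp f 2 ν) (a : Z) : Integrable (fun b => k a b * f b) ν := by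
  have hm : Measurable fun b => k a b := hk.meas.of_uncurry_left (x := a)
  refine ⟨hm.aestronglyMeasurable.mul hf.1, ?_⟩
  have h2 : ∫⁻ b, ‖f b‖ₑ ^ 2 ∂ν < ∞ := by
    rw [← C1_two_sq]
    exact ENNReal.pow_lt_top hf.2
  have h3 : ∀ x y : ℝ≥0∞, x * y ≤ x ^ 2 + y ^ 2 := by
    intro x y
    rcases le_total x y with h | h
    · calc x * y ≤ y * y := by gcongr
        _ = y ^ 2 := (sq y).symm
        _ ≤ x ^ 2 + y ^ 2 := le_add_self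
    · calc x * y ≤ x * x := by gcongr
        _ = x ^ 2 := (sq x).symm
        _ ≤ x ^ 2 + y ^ 2 := le_self_add
  change ∫⁻ b, ‖k a b * f b‖ₑ ∂ν < ∞
  calc ∫⁻ b, ‖k a b * f b‖ₑ ∂ν ≤ ∫⁻ b, (‖k a b‖ₑ ^ 2 + ‖f b‖ₑ ^ 2) ∂ν := by
        refine lintegral_mono fun b => ?_
        rw [enorm_mul]
        exact h3 _ _
    _ = ∫⁻ b, ‖k a b‖ₑ ^ 2 ∂ν + ∫⁻ b, ‖f b‖ₑ ^ 2 ∂ν :=
        lintegral_add_left (hm.enorm.pow_const 2) _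
    _ < ∞ := by
        refine ENNReal.add_lt_top.2 ⟨lt_of_le_of_lt (hk.row2 a) ?_, h2⟩
        exact ENNReal.mul_lt_top ENNReal.coe_lt_top ENNReal.coe_lt_top

theorem kapp_congr {k : Z → Z → ℂ} {f g : Z → ℂ} (h : f =ᵐ[ν] g) : kapp ν k f = kapp ν k g := by
  funext a
  exact integral_congr_ae (h.mono fun b hb => by simp only [hb])

private theorem C1_meas {k : Z → Z → ℂ} {B σ : ℝ≥0} (hk : Ker ν k B σ) {f : Z → ℂ}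
    (hf : Measurable f) : Measurable (Function.uncurry fun a b => k a b * f b) :=
  hk.meas.mul (hf.comp measurable_snd)

theorem Ker.aesm_kapp {k : Z → Z → ℂ} {B σ : ℝ≥0} (hk : Ker ν k B σ) {f : Z → ℂ}
    (hf : AEStronglyMeasurable f ν) : AEStronglyMeasurable (kapp ν k f) ν := by
  rw [kapp_congr hf.ae_eq_mk]
  have h1 := C1_meas hk hf.stronglyMeasurable_mk.measurable
  exact (h1.stronglyMeasurable.integral_prod_right).aestronglyMeasurable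

/-- Schur test: `‖T_k f‖₂ ≤ σ ‖f‖₂`.
`(∫ ‖k a b‖ ‖f b‖ db)² ≤ (∫ ‖k a b‖ db) (∫ ‖k a b‖ ‖f b‖² db) ≤ σ ∫ ‖k a b‖ ‖f b‖² db`, integrate over `a`
and use Tonelli and the column bound. -/
theorem Ker.schur {k : Z → Z → ℂ} {B σ : ℝ≥0} (hk : Ker ν k B σ) {f : Z → ℂ}
    (hf : AEStronglyMeasurable f ν) :
    ∫⁻ a, ‖kapp ν k f a‖ₑ ^ 2 ∂ν ≤ σ ^ 2 * ∫⁻ b, ‖f b‖ₑ ^ 2 ∂ν := by
  have key : ∀ g : Z → ℂ, Measurable g →
      ∫⁻ a, ‖kapp ν k g a‖ₑ ^ 2 ∂ν ≤ σ ^ 2 * ∫⁻ b, ‖g b‖ₑ ^ 2 ∂ν := by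
    intro g hg
    have hmg : Measurable fun b => ‖g b‖ₑ ^ 2 := hg.enorm.pow_const 2
    have hprod : Measurable (Function.uncurry fun a b => ‖k a b‖ₑ * ‖g b‖ₑ ^ 2) :=
      hk.meas.enorm.mul (hmg.comp measurable_snd)
    calc ∫⁻ a, ‖kapp ν k g a‖ₑ ^ 2 ∂ν
        ≤ ∫⁻ a, σ * ∫⁻ b, ‖k a b‖ₑ * ‖g b‖ₑ ^ 2 ∂ν ∂ν := by
          refine lintegral_mono fun a => ?_
          have hm : Measurable fun b => ‖k a b‖ₑ := (hk.meas.of_uncurry_left (x := a)).enorm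
          have h1 : ‖kapp ν k g a‖ₑ ≤ ∫⁻ b, ‖k a b‖ₑ * ‖g b‖ₑ ∂ν := by
            refine (enorm_integral_le_lintegral_enorm _).trans ?_
            refine lintegral_mono fun b => ?_
            rw [enorm_mul]
          calc ‖kapp ν k g a‖ₑ ^ 2 ≤ (∫⁻ b, ‖k a b‖ₑ * ‖g b‖ₑ ∂ν) ^ 2 := by gcongr
            _ ≤ (∫⁻ b, ‖k a b‖ₑ ∂ν) * ∫⁻ b, ‖k a b‖ₑ * ‖g b‖ₑ ^ 2 ∂ν :=
                C1_cs hm.aemeasurable hg.enorm.aemeasurable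
            _ ≤ σ * ∫⁻ b, ‖k a b‖ₑ * ‖g b‖ₑ ^ 2 ∂ν := by gcongr; exact hk.row a
      _ = σ * ∫⁻ a, ∫⁻ b, ‖k a b‖ₑ * ‖g b‖ₑ ^ 2 ∂ν ∂ν :=
          lintegral_const_mul _ hprod.lintegral_prod_right'
      _ = σ * ∫⁻ b, ∫⁻ a, ‖k a b‖ₑ * ‖g b‖ₑ ^ 2 ∂ν ∂ν := by
          rw [lintegral_lintegral_swap hprod.aemeasurable]
      _ ≤ σ * ∫⁻ b, σ * ‖g b‖ₑ ^ 2 ∂ν := by
          gcongr with b
          have hm : Measurable fun a => ‖k a b‖ₑ := (hk.meas.of_uncurry_right (y := b)).enorm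
          rw [lintegral_mul_const _ hm]
          gcongr
          exact hk.col b
      _ = σ ^ 2 * ∫⁻ b, ‖g b‖ₑ ^ 2 ∂ν := by
          rw [lintegral_const_mul _ hmg, ← mul_assoc, sq]
  have h1 := key _ hf.stronglyMeasurable_mk.measurable
  rw [kapp_congr hf.ae_eq_mk]
  refine h1.trans (le_of_eq ?_)
  congr 1
  exact lintegral_congr_ae (hf.ae_eq_mk.mono fun b hb => by simp only [hb])

end Pool.Agent.BCH
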