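import Pool.Agent.Lib.MP_aa9b81_an.H.C1

open MeasureTheory MeasureTheory.Measure Topology ENNReal NNReal

namespace Pool.Agent.BCH

universe u v

variable {Z : Type u} [MeasurableSpace Z] {ν : Measure Z} [SigmaFinite ν]

/-- `eLpNorm f 2` and the integral of the square. -/
theorem eLpNorm_two_sq {f : Z → ℂ} : eLpNorm f 2 ν ^ 2 = ∫⁻ b, ‖f b‖ₑ ^ 2 ∂ν := by
  rw [eLpNorm_eq_lintegral_rpow_enorm_toReal (by norm_num) (by norm_num)]
  rw [← ENNReal.rpow_natCast, ← ENNReal.rpow_mul]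
  simp

theorem Ker.eLpNorm_kapp_le {k : Z → Z → ℂ} {B σ : ℝ≥0} (hk : Ker ν k B σ) {f : Z → ℂ}
    (hf : AEStronglyMeasurable f ν) : eLpNorm (kapp ν k f) 2 ν ≤ σ * eLpNorm f 2 ν := by
  rw [← ENNReal.pow_le_pow_left_iff (n := 2) (by norm_num), mul_pow, eLpNorm_two_sq,
    eLpNorm_two_sq]
  exact hk.schur hf

theorem Ker.memLp_kapp {k : Z → Z → ℂ} {B σ : ℝ≥0} (hk : Ker ν k B σ) {f : Z → ℂ}
    (hf : MemLp f 2 ν) : MemLp (kapp ν k f) 2 ν :=
  ⟨hk.aesm_kapp hf.1, lt_of_le_of_lt (hk.eLpNorm_kapp_le hf.1)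
    (ENNReal.mul_lt_top ENNReal.coe_lt_top hf.2)⟩

theorem Ker.kapp_add {k : Z → Z → ℂ} {B σ : ℝ≥0} (hk : Ker ν k B σ) {f g : Z → ℂ}
    (hf : MemLp f 2 ν) (hg : MemLp g 2 ν) : kapp ν k (f + g) = kapp ν k f + kapp ν k g := by
  funext a
  simp only [kapp, Pi.add_apply, mul_add]
  exact integral_add (hk.integrable hf a) (hk.integrable hg a)

theorem kapp_smul {k : Z → Z → ℂ} (c : ℂ) (f : Z → ℂ) : kapp ν k (c • f) = c • kapp ν k f := by
  funext a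
  simp only [kapp, Pi.smul_apply, smul_eq_mul]
  rw [← integral_const_mul]
  exact integral_congr_ae (Filter.Eventually.of_forall fun b => mul_left_comm _ _ _)

end Pool.Agent.BCH
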