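import Pool.Agent.Lib.MP_aa9b81_an.H.C2

open MeasureTheory MeasureTheory.Measure Topology ENNReal NNReal

namespace Pool.Agent.BCH

universe u v

variable {Z : Type u} [MeasurableSpace Z] {ν : Measure Z} [SigmaFinite ν]

/-- The bounded operator on `L²(ν)` with kernel `k` (if `k` satisfies some Schur bounds; `0` otherwise). -/
noncomputable def intOp (ν : Measure Z) [SigmaFinite ν] (k : Z → Z → ℂ) :
    Lp ℂ 2 ν →L[ℂ] Lp ℂ 2 ν :=
  open Classical in
  if h : ∃ B σ : ℝ≥0, Ker ν k B σ then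
    LinearMap.mkContinuous
      { toFun := fun f => (h.choose_spec.choose_spec.memLp_kapp (Lp.memLp f)).toLp (kapp ν k f)
        map_add' := fun f g => by
          rw [← MemLp.toLp_add]
          apply MemLp.toLp_congr
          rw [kapp_congr (Lp.coeFn_add f g),
            h.choose_spec.choose_spec.kapp_add (Lp.memLp f) (Lp.memLp g)]
        map_smul' := fun c f => by
          rw [RingHom.id_apply, ← MemLp.toLp_const_smul]
          apply MemLp.toLp_congr
          rw [kapp_congr (Lp.coeFn_smul c f), kapp_smul] }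
      h.choose_spec.choose (fun f => by
        change ‖(h.choose_spec.choose_spec.memLp_kapp (Lp.memLp f)).toLp (kapp ν k f)‖ ≤ _
        rw [Lp.norm_toLp, Lp.norm_def]
        have h1 := h.choose_spec.choose_spec.eLpNorm_kapp_le (Lp.memLp f).1
        have h2 := ENNReal.toReal_mono
          (ENNReal.mul_lt_top ENNReal.coe_lt_top (Lp.memLp f).2).ne h1
        rw [ENNReal.toReal_mul, ENNReal.coe_toReal] at h2
        exact h2)
  else 0

theorem Ker.intOp_apply {k : Z → Z → ℂ} {B σ : ℝ≥0} (hk : Ker ν k B σ) (f : Lp ℂ 2 ν) :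
    intOp ν k f =ᵐ[ν] kapp ν k f := by
  have h : ∃ B σ : ℝ≥0, Ker ν k B σ := ⟨B, σ, hk⟩
  unfold intOp
  rw [dif_pos h]
  exact MemLp.coeFn_toLp (h.choose_spec.choose_spec.memLp_kapp (Lp.memLp f))

/-- `‖T_k‖ ≤ σ` for the given `σ` (use `intOp_apply` and `eLpNorm_kapp_le`). -/
theorem Ker.norm_intOp_le {k : Z → Z → ℂ} {B σ : ℝ≥0} (hk : Ker ν k B σ) :
    ‖intOp ν k‖ ≤ σ := by
  refine ContinuousLinearMap.opNorm_le_bound _ (NNReal.coe_nonneg σ) fun f => ?_
  rw [Lp.norm_def, Lp.norm_def, eLpNorm_congr_ae (hk.intOp_apply f)]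
  have h1 := hk.eLpNorm_kapp_le (Lp.memLp f).1
  have h2 := ENNReal.toReal_mono
    (ENNReal.mul_lt_top ENNReal.coe_lt_top (Lp.memLp f).2).ne h1
  rw [ENNReal.toReal_mul, ENNReal.coe_toReal] at h2
  exact h2

end Pool.Agent.BCH
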