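import Pool.Agent.Lib.MP_aa9b81_an.H.C3
import Pool.Agent.Lib.MP_aa9b81_an.H.A3

open MeasureTheory MeasureTheory.Measure Topology ENNReal NNReal

namespace Pool.Agent.BCH

universe u v

variable {Z : Type u} [MeasurableSpace Z] {ν : Measure Z} [SigmaFinite ν]

private theorem C4_tr {k : Z → Z → ℂ} {B σ : ℝ≥0} (hk : Ker ν k B σ) :
    Ker ν (fun a b => k b a) B σ :=
  ⟨hk.meas.comp measurable_swap, fun a b => hk.bd b a, fun a => hk.col a, fun b => hk.row b⟩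

/-- Composition of kernels satisfying Schur bounds. -/
theorem Ker.comp {k l : Z → Z → ℂ} {B σ B' σ' : ℝ≥0} (hk : Ker ν k B σ) (hl : Ker ν l B' σ') :
    Ker ν (kcomp ν k l) (σ * B') (σ * σ') := by
  refine ⟨kcomp_meas hk.meas hl.meas, fun a b => ?_, fun a => ?_, fun b => ?_⟩
  · rw [ENNReal.coe_mul]
    exact kcomp_bd hk hl.bd a b
  · rw [ENNReal.coe_mul]
    exact kcomp_row hk hl.meas hl.row a
  · rw [ENNReal.coe_mul, mul_comm]
    have h1 := kcomp_row (C4_tr hl) (C4_tr hk).meas (C4_tr hk).row b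
    have h2 : ∀ a, kcomp ν (fun a b => l b a) (fun a b => k b a) b a = kcomp ν k l a b := by
      intro a
      simp only [kcomp]
      exact integral_congr_ae (Filter.Eventually.of_forall fun z => mul_comm _ _)
    simp only [h2] at h1
    exact h1

/-- `T_{k∘l} f = T_k (T_l f)` everywhere, for `f ∈ L²`. Fubini:
`∫_z ‖k a z‖ (∫_b ‖l z b‖ ‖f b‖ db) dz ≤ σ (B'σ')^(1/2) ‖f‖₂ < ∞`. -/
theorem Ker.kapp_comp {k l : Z → Z → ℂ} {B σ B' σ' : ℝ≥0} (hk : Ker ν k B σ) (hl : Ker ν l B' σ')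
    {f : Z → ℂ} (hf : MemLp f 2 ν) : kapp ν (kcomp ν k l) f = kapp ν k (kapp ν l f) := by
  funext a
  have hint : Integrable (Function.uncurry fun z b => k a z * (l z b * f b)) (ν.prod ν) := by
    have hf2 : ∫⁻ b, ‖f b‖ₑ ^ 2 ∂ν < ∞ := by
      rw [← eLpNorm_two_sq]; exact ENNReal.pow_lt_top hf.2
    have hk2 : ∫⁻ b, ‖k a b‖ₑ ^ 2 ∂ν < ∞ := lt_of_le_of_lt (hk.row2 a)
      (ENNReal.mul_lt_top ENNReal.coe_lt_top ENNReal.coe_lt_top)
    have hkm : Measurable (k a) := hk.meas.of_uncurry_left (x := a)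
    have mk : AEStronglyMeasurable (fun p : Z × Z => k a p.1) (ν.prod ν) :=
      (hkm.comp measurable_fst).aestronglyMeasurable
    have ml : AEStronglyMeasurable (fun p : Z × Z => l p.1 p.2) (ν.prod ν) :=
      hl.meas.aestronglyMeasurable
    have mf : AEStronglyMeasurable (fun p : Z × Z => f p.2) (ν.prod ν) := hf.1.comp_snd
    refine ⟨mk.mul (ml.mul mf), ?_⟩
    have h3 : ∀ x y : ℝ≥0∞, x * y ≤ x ^ 2 + y ^ 2 := by
      intro x y
      rcases le_total x y with h | h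
      · calc x * y ≤ y * y := by gcongr
          _ = y ^ 2 := (sq y).symm
          _ ≤ x ^ 2 + y ^ 2 := le_add_self
      · calc x * y ≤ x * x := by gcongr
          _ = x ^ 2 := (sq x).symm
          _ ≤ x ^ 2 + y ^ 2 := le_self_add
    have elm : AEMeasurable (fun p : Z × Z => ‖l p.1 p.2‖ₑ) (ν.prod ν) :=
      hl.meas.enorm.aemeasurable
    have em1 : AEMeasurable (fun p : Z × Z => ‖l p.1 p.2‖ₑ * ‖k a p.1‖ₑ ^ 2) (ν.prod ν) :=
      elm.mul (mk.enorm.pow_const 2)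
    have em2 : AEMeasurable (fun p : Z × Z => ‖l p.1 p.2‖ₑ * ‖f p.2‖ₑ ^ 2) (ν.prod ν) :=
      elm.mul (mf.enorm.pow_const 2)
    have b1 : ∫⁻ p : Z × Z, ‖l p.1 p.2‖ₑ * ‖k a p.1‖ₑ ^ 2 ∂(ν.prod ν) < ∞ := by
      rw [lintegral_prod _ em1]
      calc ∫⁻ z, ∫⁻ b, ‖l z b‖ₑ * ‖k a z‖ₑ ^ 2 ∂ν ∂ν ≤ ∫⁻ z, σ' * ‖k a z‖ₑ ^ 2 ∂ν := by
            refine lintegral_mono fun z => ?_
            have hm : Measurable fun b => ‖l z b‖ₑ := (hl.meas.of_uncurry_left (x := z)).enorm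
            rw [lintegral_mul_const _ hm]
            gcongr
            exact hl.row z
        _ = σ' * ∫⁻ z, ‖k a z‖ₑ ^ 2 ∂ν := lintegral_const_mul' _ _ ENNReal.coe_ne_top
        _ < ∞ := ENNReal.mul_lt_top ENNReal.coe_lt_top hk2
    have b2 : ∫⁻ p : Z × Z, ‖l p.1 p.2‖ₑ * ‖f p.2‖ₑ ^ 2 ∂(ν.prod ν) < ∞ := by
      rw [lintegral_prod_symm _ em2]
      calc ∫⁻ b, ∫⁻ z, ‖l z b‖ₑ * ‖f b‖ₑ ^ 2 ∂ν ∂ν ≤ ∫⁻ b, σ' * ‖f b‖ₑ ^ 2 ∂ν := by
            refine lintegral_mono fun b => ?_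
            have hm : Measurable fun z => ‖l z b‖ₑ := (hl.meas.of_uncurry_right (y := b)).enorm
            rw [lintegral_mul_const _ hm]
            gcongr
            exact hl.col b
        _ = σ' * ∫⁻ b, ‖f b‖ₑ ^ 2 ∂ν := lintegral_const_mul' _ _ ENNReal.coe_ne_top
        _ < ∞ := ENNReal.mul_lt_top ENNReal.coe_lt_top hf2
    change ∫⁻ p : Z × Z, ‖k a p.1 * (l p.1 p.2 * f p.2)‖ₑ ∂(ν.prod ν) < ∞
    calc ∫⁻ p : Z × Z, ‖k a p.1 * (l p.1 p.2 * f p.2)‖ₑ ∂(ν.prod ν)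
        ≤ ∫⁻ p : Z × Z, (‖l p.1 p.2‖ₑ * ‖k a p.1‖ₑ ^ 2 + ‖l p.1 p.2‖ₑ * ‖f p.2‖ₑ ^ 2)
            ∂(ν.prod ν) := by
          refine lintegral_mono fun p => ?_
          rw [enorm_mul, enorm_mul, mul_left_comm, ← mul_add]
          gcongr
          exact h3 _ _
      _ = _ := lintegral_add_left' em1 _
      _ < ∞ := ENNReal.add_lt_top.2 ⟨b1, b2⟩
  have h1 : ∀ b, kcomp ν k l a b * f b = ∫ z, k a z * (l z b * f b) ∂ν := by
    intro b
    rw [kcomp, ← integral_mul_const]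
    exact integral_congr_ae (Filter.Eventually.of_forall fun z => mul_assoc _ _ _)
  have h2 : ∀ z, k a z * kapp ν l f z = ∫ b, k a z * (l z b * f b) ∂ν := by
    intro z
    rw [kapp, ← integral_const_mul]
  rw [kapp, kapp]
  simp only [h1, h2]
  exact (integral_integral_swap hint).symm

theorem Ker.intOp_comp {k l : Z → Z → ℂ} {B σ B' σ' : ℝ≥0} (hk : Ker ν k B σ)
    (hl : Ker ν l B' σ') : intOp ν (kcomp ν k l) = intOp ν k * intOp ν l := by
  refine ContinuousLinearMap.ext fun f => ?_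
  apply Lp.ext
  refine ((hk.comp hl).intOp_apply f).trans ?_
  rw [hk.kapp_comp hl (Lp.memLp f), ← kapp_congr (hl.intOp_apply f)]
  exact (hk.intOp_apply (intOp ν l f)).symm

end Pool.Agent.BCH
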