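import Pool.Agent.Lib.MP_aa9b81_an.H.C3

open MeasureTheory MeasureTheory.Measure Topology ENNReal NNReal

namespace Pool.Agent.BCH

universe u v

variable {Z : Type u} [MeasurableSpace Z] {ν : Measure Z} [SigmaFinite ν]

private theorem C5_enorm_conj (z : ℂ) : ‖(starRingEnd ℂ) z‖ₑ = ‖z‖ₑ := by
  rw [← ofReal_norm, ← ofReal_norm, RCLike.norm_conj]

theorem Ker.adj {k : Z → Z → ℂ} {B σ : ℝ≥0} (hk : Ker ν k B σ) : Ker ν (kadj k) B σ := by
  refine ⟨Complex.continuous_conj.measurable.comp (hk.meas.comp measurable_swap),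
    fun a b => ?_, fun a => ?_, fun b => ?_⟩
  · rw [kadj, C5_enorm_conj]
    exact hk.bd b a
  · simp only [kadj, C5_enorm_conj]
    exact hk.col a
  · simp only [kadj, C5_enorm_conj]
    exact hk.row b

private theorem C5_int {k : Z → Z → ℂ} {B σ : ℝ≥0} (hk : Ker ν k B σ) {f g : Z → ℂ}
    (hf : MemLp f 2 ν) (hg : MemLp g 2 ν) :
    Integrable (Function.uncurry fun a b => (starRingEnd ℂ) (k a b) * (starRingEnd ℂ) (f b) * g a)
      (ν.prod ν) := by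
  have hf2 : ∫⁻ b, ‖f b‖ₑ ^ 2 ∂ν < ∞ := by
    rw [← eLpNorm_two_sq]; exact ENNReal.pow_lt_top hf.2
  have hg2 : ∫⁻ b, ‖g b‖ₑ ^ 2 ∂ν < ∞ := by
    rw [← eLpNorm_two_sq]; exact ENNReal.pow_lt_top hg.2
  have mk : AEStronglyMeasurable (fun p : Z × Z => (starRingEnd ℂ) (k p.1 p.2)) (ν.prod ν) :=
    (Complex.continuous_conj.measurable.comp hk.meas).aestronglyMeasurable
  have mf : AEStronglyMeasurable (fun p : Z × Z => (starRingEnd ℂ) (f p.2)) (ν.prod ν) :=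
    Complex.continuous_conj.comp_aestronglyMeasurable hf.1.comp_snd
  have mg : AEStronglyMeasurable (fun p : Z × Z => g p.1) (ν.prod ν) := hg.1.comp_fst
  refine ⟨(mk.mul mf).mul mg, ?_⟩
  have h3 : ∀ x y : ℝ≥0∞, x * y ≤ x ^ 2 + y ^ 2 := by
    intro x y
    rcases le_total x y with h | h
    · calc x * y ≤ y * y := by gcongr
        _ = y ^ 2 := (sq y).symm
        _ ≤ x ^ 2 + y ^ 2 := le_add_self
    · calc x * y ≤ x * x := by gcongr
        _ = x ^ 2 := (sq x).symm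
        _ ≤ x ^ 2 + y ^ 2 := le_self_add
  have ekm : AEMeasurable (fun p : Z × Z => ‖k p.1 p.2‖ₑ) (ν.prod ν) := hk.meas.enorm.aemeasurable
  have efm : AEMeasurable (fun p : Z × Z => ‖f p.2‖ₑ ^ 2) (ν.prod ν) :=
    (hf.1.comp_snd.enorm.pow_const 2)
  have egm : AEMeasurable (fun p : Z × Z => ‖g p.1‖ₑ ^ 2) (ν.prod ν) :=
    (hg.1.comp_fst.enorm.pow_const 2)
  have em1 : AEMeasurable (fun p : Z × Z => ‖k p.1 p.2‖ₑ * ‖f p.2‖ₑ ^ 2) (ν.prod ν) :=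
    ekm.mul efm
  have em2 : AEMeasurable (fun p : Z × Z => ‖k p.1 p.2‖ₑ * ‖g p.1‖ₑ ^ 2) (ν.prod ν) :=
    ekm.mul egm
  have b1 : ∫⁻ p : Z × Z, ‖k p.1 p.2‖ₑ * ‖f p.2‖ₑ ^ 2 ∂(ν.prod ν) < ∞ := by
    rw [lintegral_prod_symm _ em1]
    calc ∫⁻ b, ∫⁻ a, ‖k a b‖ₑ * ‖f b‖ₑ ^ 2 ∂ν ∂ν ≤ ∫⁻ b, σ * ‖f b‖ₑ ^ 2 ∂ν := by
          refine lintegral_mono fun b => ?_
          have hm : Measurable fun a => ‖k a b‖ₑ := (hk.meas.of_uncurry_right (y := b)).enorm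
          rw [lintegral_mul_const _ hm]
          gcongr
          exact hk.col b
      _ = σ * ∫⁻ b, ‖f b‖ₑ ^ 2 ∂ν := lintegral_const_mul' _ _ ENNReal.coe_ne_top
      _ < ∞ := ENNReal.mul_lt_top ENNReal.coe_lt_top hf2
  have b2 : ∫⁻ p : Z × Z, ‖k p.1 p.2‖ₑ * ‖g p.1‖ₑ ^ 2 ∂(ν.prod ν) < ∞ := by
    rw [lintegral_prod _ em2]
    calc ∫⁻ a, ∫⁻ b, ‖k a b‖ₑ * ‖g a‖ₑ ^ 2 ∂ν ∂ν ≤ ∫⁻ a, σ * ‖g a‖ₑ ^ 2 ∂ν := by
          refine lintegral_mono fun a => ?_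
          have hm : Measurable fun b => ‖k a b‖ₑ := (hk.meas.of_uncurry_left (x := a)).enorm
          rw [lintegral_mul_const _ hm]
          gcongr
          exact hk.row a
      _ = σ * ∫⁻ a, ‖g a‖ₑ ^ 2 ∂ν := lintegral_const_mul' _ _ ENNReal.coe_ne_top
      _ < ∞ := ENNReal.mul_lt_top ENNReal.coe_lt_top hg2
  change ∫⁻ p : Z × Z, ‖(starRingEnd ℂ) (k p.1 p.2) * (starRingEnd ℂ) (f p.2) * g p.1‖ₑ
    ∂(ν.prod ν) < ∞
  calc ∫⁻ p : Z × Z, ‖(starRingEnd ℂ) (k p.1 p.2) * (starRingEnd ℂ) (f p.2) * g p.1‖ₑ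
        ∂(ν.prod ν)
      ≤ ∫⁻ p : Z × Z, (‖k p.1 p.2‖ₑ * ‖f p.2‖ₑ ^ 2 + ‖k p.1 p.2‖ₑ * ‖g p.1‖ₑ ^ 2)
          ∂(ν.prod ν) := by
        refine lintegral_mono fun p => ?_
        rw [enorm_mul, enorm_mul, C5_enorm_conj, C5_enorm_conj, mul_assoc, ← mul_add]
        gcongr
        exact h3 _ _
    _ = _ := lintegral_add_left' em1 _
    _ < ∞ := ENNReal.add_lt_top.2 ⟨b1, b2⟩

/-- `⟪T_k f, g⟫ = ⟪f, T_{k*} g⟫` for `f, g ∈ L²`: Fubini for `conj (k a b) conj (f b) g a`, absolutely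
integrable by the Schur test applied to `|k|` and `|f|`. -/
theorem Ker.inner_kapp {k : Z → Z → ℂ} {B σ : ℝ≥0} (hk : Ker ν k B σ) {f g : Z → ℂ}
    (hf : MemLp f 2 ν) (hg : MemLp g 2 ν) :
    ∫ a, (starRingEnd ℂ) (kapp ν k f a) * g a ∂ν = ∫ b, (starRingEnd ℂ) (f b) * kapp ν (kadj k) g b ∂ν := by
  have h1 : ∀ a, (starRingEnd ℂ) (kapp ν k f a) * g a =
      ∫ b, (starRingEnd ℂ) (k a b) * (starRingEnd ℂ) (f b) * g a ∂ν := by
    intro a
    rw [kapp, ← integral_conj, ← integral_mul_const]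
    simp only [map_mul]
  have h2 : ∀ b, (starRingEnd ℂ) (f b) * kapp ν (kadj k) g b =
      ∫ a, (starRingEnd ℂ) (k a b) * (starRingEnd ℂ) (f b) * g a ∂ν := by
    intro b
    rw [kapp, ← integral_const_mul]
    refine integral_congr_ae (Filter.Eventually.of_forall fun a => ?_)
    simp only [kadj]
    ring
  simp only [h1, h2]
  exact integral_integral_swap (C5_int hk hf hg)

theorem Ker.intOp_adj {k : Z → Z → ℂ} {B σ : ℝ≥0} (hk : Ker ν k B σ) :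
    intOp ν (kadj k) = star (intOp ν k) := by
  rw [ContinuousLinearMap.star_eq_adjoint, ContinuousLinearMap.eq_adjoint_iff]
  intro f g
  rw [L2.inner_def, L2.inner_def]
  have e1 := hk.adj.inner_kapp (Lp.memLp f) (Lp.memLp g)
  have e2 : kadj (kadj k) = k := by
    funext a b
    simp only [kadj, Complex.conj_conj]
  rw [e2] at e1
  calc _ = ∫ a, (starRingEnd ℂ) (kapp ν (kadj k) f a) * g a ∂ν := by
        refine integral_congr_ae ?_
        filter_upwards [hk.adj.intOp_apply f] with a ha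
        rw [ha, RCLike.inner_apply']
    _ = _ := e1
    _ = _ := by
        refine integral_congr_ae ?_
        filter_upwards [hk.intOp_apply g] with a ha
        rw [ha, RCLike.inner_apply']

end Pool.Agent.BCH
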