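import Pool.Agent.Lib.MP_aa9b81_an.H.C3

open MeasureTheory MeasureTheory.Measure Topology ENNReal NNReal

namespace Pool.Agent.BCH

universe u v

variable {Z : Type u} [MeasurableSpace Z] {ν : Measure Z} [SigmaFinite ν]

theorem Ker.add {k l : Z → Z → ℂ} {B σ B' σ' : ℝ≥0} (hk : Ker ν k B σ) (hl : Ker ν l B' σ') :
    Ker ν (k + l) (B + B') (σ + σ') := by
  refine ⟨hk.meas.add hl.meas, fun a b => ?_, fun a => ?_, fun b => ?_⟩
  · calc ‖(k + l) a b‖ₑ ≤ ‖k a b‖ₑ + ‖l a b‖ₑ := enorm_add_le _ _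
      _ ≤ B + B' := add_le_add (hk.bd a b) (hl.bd a b)
      _ = ((B + B' : ℝ≥0) : ℝ≥0∞) := (ENNReal.coe_add _ _).symm
  · have hm : Measurable fun b => ‖k a b‖ₑ := (hk.meas.of_uncurry_left (x := a)).enorm
    calc ∫⁻ b, ‖(k + l) a b‖ₑ ∂ν ≤ ∫⁻ b, (‖k a b‖ₑ + ‖l a b‖ₑ) ∂ν :=
          lintegral_mono fun b => enorm_add_le _ _
      _ = ∫⁻ b, ‖k a b‖ₑ ∂ν + ∫⁻ b, ‖l a b‖ₑ ∂ν := lintegral_add_left hm _
      _ ≤ σ + σ' := add_le_add (hk.row a) (hl.row a)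
      _ = ((σ + σ' : ℝ≥0) : ℝ≥0∞) := (ENNReal.coe_add _ _).symm
  · have hm : Measurable fun a => ‖k a b‖ₑ := (hk.meas.of_uncurry_right (y := b)).enorm
    calc ∫⁻ a, ‖(k + l) a b‖ₑ ∂ν ≤ ∫⁻ a, (‖k a b‖ₑ + ‖l a b‖ₑ) ∂ν :=
          lintegral_mono fun a => enorm_add_le _ _
      _ = ∫⁻ a, ‖k a b‖ₑ ∂ν + ∫⁻ a, ‖l a b‖ₑ ∂ν := lintegral_add_left hm _
      _ ≤ σ + σ' := add_le_add (hk.col b) (hl.col b)
      _ = ((σ + σ' : ℝ≥0) : ℝ≥0∞) := (ENNReal.coe_add _ _).symm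

theorem Ker.smul {k : Z → Z → ℂ} {B σ : ℝ≥0} (hk : Ker ν k B σ) (c : ℂ) :
    Ker ν (c • k) (‖c‖₊ * B) (‖c‖₊ * σ) := by
  have hc : ∀ a b, ‖(c • k) a b‖ₑ = ‖c‖₊ * ‖k a b‖ₑ := fun a b => by
    rw [Pi.smul_apply, Pi.smul_apply, smul_eq_mul, enorm_mul]
    rfl
  refine ⟨hk.meas.const_smul c, fun a b => ?_, fun a => ?_, fun b => ?_⟩
  · rw [hc, ENNReal.coe_mul]
    gcongr
    exact hk.bd a b
  · have hm : Measurable fun b => ‖k a b‖ₑ := (hk.meas.of_uncurry_left (x := a)).enorm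
    simp only [hc]
    rw [lintegral_const_mul _ hm, ENNReal.coe_mul]
    gcongr
    exact hk.row a
  · have hm : Measurable fun a => ‖k a b‖ₑ := (hk.meas.of_uncurry_right (y := b)).enorm
    simp only [hc]
    rw [lintegral_const_mul _ hm, ENNReal.coe_mul]
    gcongr
    exact hk.col b

theorem Ker.intOp_add {k l : Z → Z → ℂ} {B σ B' σ' : ℝ≥0} (hk : Ker ν k B σ)
    (hl : Ker ν l B' σ') : intOp ν (k + l) = intOp ν k + intOp ν l := by
  refine ContinuousLinearMap.ext fun f => ?_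
  apply Lp.ext
  refine ((hk.add hl).intOp_apply f).trans ?_
  rw [ContinuousLinearMap.add_apply]
  refine Filter.EventuallyEq.trans ?_ (Lp.coeFn_add _ _).symm
  have h1 : kapp ν (k + l) f = kapp ν k f + kapp ν l f := by
    funext a
    simp only [kapp, Pi.add_apply, add_mul]
    exact integral_add (hk.integrable (Lp.memLp f) a) (hl.integrable (Lp.memLp f) a)
  rw [h1]
  exact ((hk.intOp_apply f).add (hl.intOp_apply f)).symm

theorem Ker.intOp_smul {k : Z → Z → ℂ} {B σ : ℝ≥0} (hk : Ker ν k B σ) (c : ℂ) :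
    intOp ν (c • k) = c • intOp ν k := by
  refine ContinuousLinearMap.ext fun f => ?_
  apply Lp.ext
  refine ((hk.smul c).intOp_apply f).trans ?_
  rw [ContinuousLinearMap.smul_apply]
  refine Filter.EventuallyEq.trans ?_ (Lp.coeFn_smul _ _).symm
  have h1 : kapp ν (c • k) f = c • kapp ν k f := by
    funext a
    simp only [kapp, Pi.smul_apply, smul_eq_mul, mul_assoc]
    rw [← integral_const_mul]
  rw [h1]
  exact ((hk.intOp_apply f).const_smul c).symm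

end Pool.Agent.BCH
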