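import Pool.Agent.Lib.MP_aa9b81_an.H.C3

open MeasureTheory MeasureTheory.Measure Topology ENNReal NNReal

namespace Pool.Agent.BCH

universe u v

variable {Z : Type u} [MeasurableSpace Z] {ν : Measure Z} [SigmaFinite ν]

private theorem C7_aux {k : Z → Z → ℂ} {B σ : ℝ≥0} (hk : Ker ν k B σ) {f : Z → ℂ}
    (hf : MemLp f 2 ν) :
    eLpNorm (kapp ν k f) 2 ν ≤ ENNReal.ofReal ‖intOp ν k‖ * eLpNorm f 2 ν := by
  have h1 := (intOp ν k).le_opNorm (hf.toLp f)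
  rw [Lp.norm_toLp, Lp.norm_def, eLpNorm_congr_ae (hk.intOp_apply _),
    kapp_congr hf.coeFn_toLp] at h1
  have h2 := ENNReal.ofReal_le_ofReal h1
  rw [ENNReal.ofReal_toReal (hk.memLp_kapp hf).2.ne, ENNReal.ofReal_mul (norm_nonneg _),
    ENNReal.ofReal_toReal hf.2.ne] at h2
  exact h2

/-- If `‖T_k‖² ≤ c` then `OpBd ν k c` (pass to the class in `Lp` of a measurable square integrable
function). -/
theorem Ker.opBd {k : Z → Z → ℂ} {B σ : ℝ≥0} (hk : Ker ν k B σ) {c : ℝ≥0}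
    (h : ‖intOp ν k‖ ^ 2 ≤ c) : OpBd ν k c := by
  intro f hfm hf2
  have hf : MemLp f 2 ν := by
    refine ⟨hfm.aestronglyMeasurable, ?_⟩
    rw [← eLpNorm_two_sq] at hf2
    exact (ENNReal.pow_lt_top_iff.1 hf2).resolve_right (by norm_num)
  have h1 := C7_aux hk hf
  calc ∫⁻ a, ‖∫ b, k a b * f b ∂ν‖ₑ ^ 2 ∂ν = eLpNorm (kapp ν k f) 2 ν ^ 2 := by
        rw [eLpNorm_two_sq]
        rfl
    _ ≤ (ENNReal.ofReal ‖intOp ν k‖ * eLpNorm f 2 ν) ^ 2 := by gcongr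
    _ = ENNReal.ofReal (‖intOp ν k‖ ^ 2) * ∫⁻ b, ‖f b‖ₑ ^ 2 ∂ν := by
        rw [mul_pow, eLpNorm_two_sq, ENNReal.ofReal_pow (norm_nonneg _)]
    _ ≤ c * ∫⁻ b, ‖f b‖ₑ ^ 2 ∂ν := by
        gcongr
        exact (ENNReal.ofReal_le_ofReal h).trans (le_of_eq (ENNReal.ofReal_coe_nnreal))

/-- Conversely, if `‖T_k f‖₂ ≤ t ‖f‖₂` for all `f ∈ L²`, then `‖T_k‖ ≤ t`. -/
theorem Ker.norm_intOp_le_of {k : Z → Z → ℂ} {B σ : ℝ≥0} (hk : Ker ν k B σ) {t : ℝ} (ht : 0 ≤ t)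
    (h : ∀ f : Z → ℂ, MemLp f 2 ν → eLpNorm (kapp ν k f) 2 ν ≤ ENNReal.ofReal t * eLpNorm f 2 ν) :
    ‖intOp ν k‖ ≤ t := by
  refine ContinuousLinearMap.opNorm_le_bound _ ht fun f => ?_
  rw [Lp.norm_def, Lp.norm_def, eLpNorm_congr_ae (hk.intOp_apply f)]
  have h1 := h f (Lp.memLp f)
  have h2 := ENNReal.toReal_mono
    (ENNReal.mul_lt_top ENNReal.ofReal_lt_top (Lp.memLp f).2).ne h1
  rw [ENNReal.toReal_mul, ENNReal.toReal_ofReal ht] at h2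
  exact h2

theorem Ker.eLpNorm_kapp_le_norm {k : Z → Z → ℂ} {B σ : ℝ≥0} (hk : Ker ν k B σ) {f : Z → ℂ}
    (hf : MemLp f 2 ν) :
    eLpNorm (kapp ν k f) 2 ν ≤ ENNReal.ofReal ‖intOp ν k‖ * eLpNorm f 2 ν :=
  C7_aux hk hf

private theorem C7_enorm_conj (z : ℂ) : ‖(starRingEnd ℂ) z‖ₑ = ‖z‖ₑ := by
  rw [← ofReal_norm, ← ofReal_norm, RCLike.norm_conj]

/-- The transposed kernel has the same bounds as the adjoint kernel: `T_{k^t} f = conj (T_{k^*} (conj f))`. -/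
theorem opBd_transpose {k : Z → Z → ℂ} {c : ℝ≥0} (h : OpBd ν (kadj k) c) :
    OpBd ν (fun a b => k b a) c := by
  intro f hfm hf2
  have h1 := h (fun b => (starRingEnd ℂ) (f b)) (Complex.continuous_conj.measurable.comp hfm)
    (by simp only [C7_enorm_conj]; exact hf2)
  simp only [C7_enorm_conj] at h1
  refine le_trans (le_of_eq ?_) h1
  refine lintegral_congr fun a => ?_
  have h2 : ∫ b, kadj k a b * (starRingEnd ℂ) (f b) ∂ν =
      (starRingEnd ℂ) (∫ b, k b a * f b ∂ν) := by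
    rw [← integral_conj]
    simp only [kadj, map_mul]
  rw [h2, C7_enorm_conj]

end Pool.Agent.BCH
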