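import Pool.Agent.Lib.MP_aa9b81_an.H.C4
import Pool.Agent.Lib.MP_aa9b81_an.H.C5
import Pool.Agent.Lib.MP_aa9b81_an.H.C6

open MeasureTheory MeasureTheory.Measure Topology ENNReal NNReal

namespace Pool.Agent.BCH

universe u v w

/-- A *-algebra `J` represented by kernels on `(Z, ν)`, for every point `x : X`. -/
structure KerRep (J : Type u) [NonUnitalRing J] [Module ℂ J] [StarRing J] (X : Type v) (Z : Type w)
    [MeasurableSpace Z] (ν : Measure Z) where
  κ : J → X → Z → Z → ℂ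
  bound : ∀ W, ∃ B σ : ℝ≥0, ∀ x, Ker ν (κ W x) B σ
  map_add : ∀ W W' x, κ (W + W') x = κ W x + κ W' x
  map_smul : ∀ (c : ℂ) W x, κ (c • W) x = c • κ W x
  map_mul : ∀ W W' x, κ (W * W') x = kcomp ν (κ W x) (κ W' x)
  map_star : ∀ W x, κ (star W) x = kadj (κ W x)

variable {J : Type u} [NonUnitalRing J] [Module ℂ J] [StarRing J] {X : Type v} {Z : Type w}
  [MeasurableSpace Z] {ν : Measure Z} [SigmaFinite ν]

/-- The C*-algebra of bounded families of bounded operators on `L²(Z, ν)`, indexed by `X`. -/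
abbrev BX (X : Type v) (Z : Type w) [MeasurableSpace Z] (ν : Measure Z) : Type (max v w) :=
  lp (fun _ : X => (Lp ℂ 2 ν →L[ℂ] Lp ℂ 2 ν)) ∞

noncomputable example : NonUnitalCStarAlgebra (BX X Z ν) := inferInstance

/-- The family of operators of `W` is bounded. -/
theorem KerRep.memLp (r : KerRep J X Z ν) (W : J) :
    Memℓp (fun x : X => intOp ν (r.κ W x)) ∞ := by
  obtain ⟨B, σ, h⟩ := r.bound W
  refine memℓp_infty ⟨σ, ?_⟩
  rintro _ ⟨x, rfl⟩
  exact (h x).norm_intOp_le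

/-- The *-representation `W ↦ (T_{κ W x})_x`. All fields follow from `Ker.intOp_comp`, `Ker.intOp_adj`,
`Ker.intOp_add`, `Ker.intOp_smul` (and `κ 0 x = 0`). -/
noncomputable def KerRep.rep (r : KerRep J X Z ν) : J →⋆ₙₐ[ℂ] BX X Z ν where
  toFun W := ⟨fun x => intOp ν (r.κ W x), r.memLp W⟩
  map_smul' := by
    intro c W
    obtain ⟨B, σ, h⟩ := r.bound W
    refine lp.ext (funext fun x => ?_)
    change intOp ν (r.κ (c • W) x) = c • intOp ν (r.κ W x)
    rw [r.map_smul, (h x).intOp_smul]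
  map_zero' := by
    obtain ⟨B, σ, h⟩ := r.bound 0
    refine lp.ext (funext fun x => ?_)
    change intOp ν (r.κ 0 x) = 0
    have h1 := r.map_smul 0 0 x
    rw [smul_zero] at h1
    rw [h1, (h x).intOp_smul, zero_smul]
  map_add' := by
    intro W W'
    obtain ⟨B, σ, h⟩ := r.bound W
    obtain ⟨B', σ', h'⟩ := r.bound W'
    refine lp.ext (funext fun x => ?_)
    change intOp ν (r.κ (W + W') x) = intOp ν (r.κ W x) + intOp ν (r.κ W' x)
    rw [r.map_add, (h x).intOp_add (h' x)]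
  map_mul' := by
    intro W W'
    obtain ⟨B, σ, h⟩ := r.bound W
    obtain ⟨B', σ', h'⟩ := r.bound W'
    refine lp.ext (funext fun x => ?_)
    change intOp ν (r.κ (W * W') x) = intOp ν (r.κ W x) * intOp ν (r.κ W' x)
    rw [r.map_mul, (h x).intOp_comp (h' x)]
  map_star' := by
    intro W
    obtain ⟨B, σ, h⟩ := r.bound W
    refine lp.ext (funext fun x => ?_)
    change intOp ν (r.κ (star W) x) = star (intOp ν (r.κ W x))
    rw [r.map_star, (h x).intOp_adj]

theorem KerRep.rep_apply (r : KerRep J X Z ν) (W : J) (x : X) :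
    (r.rep W : ∀ _ : X, Lp ℂ 2 ν →L[ℂ] Lp ℂ 2 ν) x = intOp ν (r.κ W x) := rfl

theorem KerRep.norm_intOp_le (r : KerRep J X Z ν) (W : J) (x : X) :
    ‖intOp ν (r.κ W x)‖ ≤ ‖r.rep W‖ := by
  rw [← r.rep_apply]
  exact lp.norm_apply_le_norm ENNReal.top_ne_zero (r.rep W) x

theorem KerRep.norm_rep_le (r : KerRep J X Z ν) (W : J) {t : ℝ} (ht : 0 ≤ t)
    (h : ∀ x, ‖intOp ν (r.κ W x)‖ ≤ t) : ‖r.rep W‖ ≤ t := by
  refine lp.norm_le_of_forall_le ht fun x => ?_
  rw [r.rep_apply]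
  exact h x

end Pool.Agent.BCH
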