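import Pool.Agent.Lib.MP_aa9b81_an.H.BStar
import Pool.Agent.Lib.MP_aa9b81_an.H.C8

open MeasureTheory MeasureTheory.Measure Topology ENNReal NNReal

namespace Pool.Agent.BCH

universe u v w

variable {G : Type u} [Group G] [TopologicalSpace G] [IsTopologicalGroup G]
  [LocallyCompactSpace G] [SecondCountableTopology G] [T2Space G] [MeasurableSpace G]
  [BorelSpace G]
variable {X : Type v} [TopologicalSpace X] [T2Space X] [MulAction G X] [ContinuousSMul G X]

/-- The kernel on `G` of the operator attached to `F` at the point `x`: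
`k_x(a, b) = F(a⁻¹ x, a⁻¹ b)`. -/
def gker (F : Cc G X) (x : X) (a b : G) : ℂ := F (a⁻¹ • x, a⁻¹ * b)

private theorem C9_row (F : Cc G X) : ∃ B σ : ℝ≥0, (∀ p, ‖F p‖ₑ ≤ B) ∧
    ∀ (x : X) (a : G), ∫⁻ b, ‖gker F x a b‖ₑ ∂(haar : Measure G) ≤ σ := by
  obtain ⟨C, hC⟩ := F.supp.exists_bound_of_continuous F.cont
  have hB : ∀ p, ‖F p‖ₑ ≤ (C.toNNReal : ℝ≥0∞) := by
    intro p
    rw [← ofReal_norm]
    exact ENNReal.ofReal_le_ofReal (hC p)
  have hlt : (C.toNNReal : ℝ≥0∞) * (haar : Measure G) F.gsupp < ∞ :=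
    ENNReal.mul_lt_top ENNReal.coe_lt_top F.isCompact_gsupp.measure_lt_top
  refine ⟨C.toNNReal, ((C.toNNReal : ℝ≥0∞) * (haar : Measure G) F.gsupp).toNNReal, hB, ?_⟩
  intro x a
  rw [ENNReal.coe_toNNReal hlt.ne]
  calc ∫⁻ b, ‖gker F x a b‖ₑ ∂(haar : Measure G)
      = ∫⁻ s, ‖F (a⁻¹ • x, s)‖ₑ ∂(haar : Measure G) :=
        lintegral_mul_left_eq_self (fun s => ‖F (a⁻¹ • x, s)‖ₑ) a⁻¹
    _ ≤ ∫⁻ s, F.gsupp.indicator (fun _ => (C.toNNReal : ℝ≥0∞)) s ∂(haar : Measure G) := by
        refine lintegral_mono fun s => ?_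
        by_cases hs : s ∈ F.gsupp
        · rw [Set.indicator_of_mem hs]
          exact hB _
        · have h0 : F (a⁻¹ • x, s) = 0 := by
            by_contra h
            exact hs (F.mem_gsupp h)
          rw [h0, enorm_zero]
          exact zero_le
    _ ≤ (C.toNNReal : ℝ≥0∞) * (haar : Measure G) F.gsupp := lintegral_indicator_const_le _ _

private theorem C9_star (F : Cc G X) (x : X) (a b : G) :
    gker (star F) x a b = (starRingEnd ℂ) (gker F x b a) := by
  rw [gker, Cc.star_apply, gker, mul_inv_rev, inv_inv, smul_smul, mul_assoc, mul_inv_cancel,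
    mul_one]

/-- Uniform Schur bounds. `|F| ≤ B` (continuous with compact support). Rows: by left invariance
`∫ ‖F(a⁻¹x, a⁻¹b)‖ db = ∫ ‖F(a⁻¹x, s)‖ ds ≤ B * haar(F.gsupp)`. Columns: `‖F(a⁻¹x, a⁻¹b)‖ =
‖(star F)(b⁻¹x, b⁻¹a)‖`, so the column bound of `F` is the row bound of `star F`.
Measurable: continuous in `(a, b)`. -/
theorem gker_bound (F : Cc G X) : ∃ B σ : ℝ≥0, ∀ x, Ker (haar : Measure G) (gker F x) B σ := by
  obtain ⟨B, σ, hB, hσ⟩ := C9_row F
  obtain ⟨B', σ', hB', hσ'⟩ := C9_row (star F)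
  refine ⟨B, max σ σ', fun x => ⟨?_, fun a b => hB _, fun a => ?_, fun b => ?_⟩⟩
  · have h1 : Continuous (Function.uncurry (gker F x)) := by
      have := F.cont
      change Continuous fun p : G × G => F.toFun (p.1⁻¹ • x, p.1⁻¹ * p.2)
      fun_prop
    exact h1.measurable
  · exact (hσ x a).trans (by exact_mod_cast le_max_left σ σ')
  · have h2 : ∀ a, ‖gker F x a b‖ₑ = ‖gker (star F) x b a‖ₑ := by
      intro a
      rw [C9_star, ← ofReal_norm, ← ofReal_norm, RCLike.norm_conj]
    simp only [h2]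
    exact (hσ' x b).trans (by exact_mod_cast le_max_right σ σ')

theorem gker_add (F H : Cc G X) (x : X) : gker (F + H) x = gker F x + gker H x := rfl

theorem gker_smul (c : ℂ) (F : Cc G X) (x : X) : gker (c • F) x = c • gker F x := rfl

/-- `∫ F(a⁻¹x, a⁻¹z) H(z⁻¹x, z⁻¹b) dz`, substitute `z = a s` (`integral_mul_left_eq_self`). -/
theorem gker_mul (F H : Cc G X) (x : X) :
    gker (F * H) x = kcomp (haar : Measure G) (gker F x) (gker H x) := by
  funext a b
  rw [gker, Cc.mul_apply, kcomp,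
    ← integral_mul_left_eq_self (fun z => gker F x a z * gker H x z b) a]
  refine integral_congr_ae (Filter.Eventually.of_forall fun s => ?_)
  simp only [gker]
  rw [inv_mul_cancel_left, mul_inv_rev, mul_smul, mul_assoc]

theorem gker_star (F : Cc G X) (x : X) : gker (star F) x = kadj (gker F x) := by
  funext a b
  exact C9_star F x a b

/-- The regular representation data of `Cc G X` on `L²(G)`. -/
noncomputable def gRep (G : Type u) [Group G] [TopologicalSpace G] [IsTopologicalGroup G]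
    [LocallyCompactSpace G] [SecondCountableTopology G] [T2Space G] [MeasurableSpace G]
    [BorelSpace G] (X : Type v) [TopologicalSpace X] [T2Space X] [MulAction G X]
    [ContinuousSMul G X] : KerRep (Cc G X) X G (haar : Measure G) where
  κ := gker
  bound := gker_bound
  map_add := gker_add
  map_smul := gker_smul
  map_mul := gker_mul
  map_star := gker_star

end Pool.Agent.BCH
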