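import Pool.Agent.Lib.MP_aa9b81_an.H.B0

open MeasureTheory MeasureTheory.Measure Topology ENNReal NNReal

namespace Pool.Agent.BCH

universe u v w

variable {G : Type u} [Group G] [TopologicalSpace G] [IsTopologicalGroup G]
  [LocallyCompactSpace G] [SecondCountableTopology G] [T2Space G] [MeasurableSpace G]
  [BorelSpace G]
variable {X : Type v} [TopologicalSpace X] [T2Space X] [MulAction G X] [ContinuousSMul G X]

/-- REDUCED NORM. `redNorm F` is the least `c ≥ 0` such that for all `x : X` the operator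
`(T_x f)(a) = ∫ F(a⁻¹x, a⁻¹b) f(b) db` on `L²(G)` has norm `≤ c`; i.e. `sup_x ‖T_x‖`. -/
noncomputable def redNorm (F : Cc G X) : ℝ :=
  sInf {c : ℝ | 0 ≤ c ∧ ∀ (x : X) (f : G → ℂ), MemLp f 2 (haar : Measure G) →
    eLpNorm (fun a => ∫ b, F (a⁻¹ • x, a⁻¹ * b) * f b ∂(haar : Measure G)) 2
      (haar : Measure G) ≤ ENNReal.ofReal c * eLpNorm f 2 (haar : Measure G)}

/-- UNCONDITIONAL NORM: the reduced norm of the pointwise absolute value. -/
noncomputable def uncNorm (F : Cc G X) : ℝ := redNorm F.abs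

end Pool.Agent.BCH
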