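import Pool.Agent.Lib.MP_aa9b81_an.H.C7
import Pool.Agent.Lib.MP_aa9b81_an.H.C9
import Pool.Agent.Lib.MP_aa9b81_an.H.EDefs

open MeasureTheory MeasureTheory.Measure Topology ENNReal NNReal

namespace Pool.Agent.BCH

universe u v w

variable {G : Type u} [Group G] [TopologicalSpace G] [IsTopologicalGroup G]
  [LocallyCompactSpace G] [SecondCountableTopology G] [T2Space G] [MeasurableSpace G]
  [BorelSpace G]
variable {X : Type v} [TopologicalSpace X] [T2Space X] [MulAction G X] [ContinuousSMul G X]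

private theorem E1_mem (F : Cc G X) (x : X) {f : G → ℂ} (hf : MemLp f 2 (haar : Measure G)) :
    eLpNorm (kapp (haar : Measure G) (gker F x) f) 2 haar ≤
      ENNReal.ofReal ‖(gRep G X).rep F‖ * eLpNorm f 2 (haar : Measure G) := by
  obtain ⟨B, σ, h⟩ := gker_bound F
  refine ((h x).eLpNorm_kapp_le_norm hf).trans ?_
  gcongr
  exact (gRep G X).norm_intOp_le F x

private theorem E1_le {F : Cc G X} {t : ℝ} (ht : 0 ≤ t)
    (h : ∀ (x : X) (f : G → ℂ), MemLp f 2 (haar : Measure G) →
      eLpNorm (kapp (haar : Measure G) (gker F x) f) 2 haar ≤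
        ENNReal.ofReal t * eLpNorm f 2 (haar : Measure G)) : ‖(gRep G X).rep F‖ ≤ t := by
  obtain ⟨B, σ, hk⟩ := gker_bound F
  exact (gRep G X).norm_rep_le F ht fun x => (hk x).norm_intOp_le_of ht (h x)

/-- The function in the definition of `redNorm` is `kapp haar (gker F x) f`, so
`redNorm F = sup_x ‖T_x‖ = ‖(gRep G X).rep F‖` (`Ker.norm_intOp_le_of`, `Ker.eLpNorm_kapp_le_norm`,
`KerRep.norm_intOp_le`, `KerRep.norm_rep_le`): the set contains `‖rep F‖` and is bounded below by it. -/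
theorem redNorm_eq (F : Cc G X) : redNorm F = ‖(gRep G X).rep F‖ := by
  refine IsLeast.csInf_eq ⟨⟨norm_nonneg _, fun x f hf => E1_mem F x hf⟩, ?_⟩
  rintro c ⟨hc, h⟩
  exact E1_le hc h

theorem redNorm_nonneg (F : Cc G X) : 0 ≤ redNorm F := by
  rw [redNorm_eq]
  exact norm_nonneg _

theorem redNorm_add_le (F H : Cc G X) : redNorm (F + H) ≤ redNorm F + redNorm H := by
  rw [redNorm_eq, redNorm_eq, redNorm_eq, map_add]
  exact norm_add_le _ _

theorem redNorm_smul (c : ℂ) (F : Cc G X) : redNorm (c • F) = ‖c‖ * redNorm F := by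
  rw [redNorm_eq, redNorm_eq, map_smul]
  exact norm_smul _ _

theorem redNorm_mul_le (F H : Cc G X) : redNorm (F * H) ≤ redNorm F * redNorm H := by
  rw [redNorm_eq, redNorm_eq, redNorm_eq, map_mul]
  exact norm_mul_le ((gRep G X).rep F) ((gRep G X).rep H)

/-- The bound defining `redNorm` holds for `c = redNorm F`. -/
theorem eLpNorm_kapp_le_redNorm (F : Cc G X) (x : X) {f : G → ℂ}
    (hf : MemLp f 2 (haar : Measure G)) :
    eLpNorm (kapp (haar : Measure G) (gker F x) f) 2 haar ≤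
      ENNReal.ofReal (redNorm F) * eLpNorm f 2 (haar : Measure G) := by
  rw [redNorm_eq]
  exact E1_mem F x hf

theorem redNorm_le_of {F : Cc G X} {t : ℝ} (ht : 0 ≤ t)
    (h : ∀ (x : X) (f : G → ℂ), MemLp f 2 (haar : Measure G) →
      eLpNorm (kapp (haar : Measure G) (gker F x) f) 2 haar ≤
        ENNReal.ofReal t * eLpNorm f 2 (haar : Measure G)) : redNorm F ≤ t := by
  rw [redNorm_eq]
  exact E1_le ht h

end Pool.Agent.BCH
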