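import Pool.Agent.Lib.MP_aa9b81_an.H.B6
import Pool.Agent.Lib.MP_aa9b81_an.H.E1

open MeasureTheory MeasureTheory.Measure Topology ENNReal NNReal

namespace Pool.Agent.BCH

universe u v w

variable {G : Type u} [Group G] [TopologicalSpace G] [IsTopologicalGroup G]
  [LocallyCompactSpace G] [SecondCountableTopology G] [T2Space G] [MeasurableSpace G]
  [BorelSpace G]
variable {X : Type v} [TopologicalSpace X] [T2Space X] [MulAction G X] [ContinuousSMul G X]

/-- If `|F| ≤ H` pointwise, where `H ≥ 0`, then `redNorm F ≤ redNorm H`: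
`‖∫ F(..) f b db‖ ≤ ∫ H(..) ‖f b‖ db = T_H |f|`. -/
theorem redNorm_mono {F H : Cc G X} (hH : ∀ p, H p = (‖H p‖ : ℂ)) (h : ∀ p, ‖F p‖ ≤ ‖H p‖) :
    redNorm F ≤ redNorm H := by
  obtain ⟨B, σ, hk⟩ := gker_bound H
  refine redNorm_le_of (redNorm_nonneg H) ?_
  intro x f hf
  have hfn : MemLp (fun a => ((‖f a‖ : ℝ) : ℂ)) 2 (haar : Measure G) := hf.norm.ofReal
  have h1 : eLpNorm (kapp (haar : Measure G) (gker F x) f) 2 haar ≤
      eLpNorm (kapp (haar : Measure G) (gker H x) (fun a => ((‖f a‖ : ℝ) : ℂ))) 2 haar := by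
    refine eLpNorm_mono ?_
    intro a
    have hi := (hk x).integrable hfn a
    have e1 : kapp (haar : Measure G) (gker H x) (fun a => ((‖f a‖ : ℝ) : ℂ)) a =
        ((∫ b, ‖gker H x a b‖ * ‖f b‖ ∂(haar : Measure G) : ℝ) : ℂ) := by
      unfold kapp
      refine Eq.trans ?_ integral_ofReal
      refine integral_congr_ae (Filter.Eventually.of_forall fun b => ?_)
      show gker H x a b * ((‖f b‖ : ℝ) : ℂ) = ((‖gker H x a b‖ * ‖f b‖ : ℝ) : ℂ)
      have h2 : gker H x a b = ((‖gker H x a b‖ : ℝ) : ℂ) := hH _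
      calc gker H x a b * ((‖f b‖ : ℝ) : ℂ)
          = ((‖gker H x a b‖ : ℝ) : ℂ) * ((‖f b‖ : ℝ) : ℂ) := by rw [← h2]
        _ = ((‖gker H x a b‖ * ‖f b‖ : ℝ) : ℂ) := by push_cast; rfl
    rw [e1]
    have e2 : 0 ≤ ∫ b, ‖gker H x a b‖ * ‖f b‖ ∂(haar : Measure G) :=
      integral_nonneg fun b => mul_nonneg (norm_nonneg _) (norm_nonneg _)
    rw [Complex.norm_real, Real.norm_of_nonneg e2]
    have hi' : Integrable (fun b => ‖gker H x a b‖ * ‖f b‖) (haar : Measure G) := by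
      have := hi.norm
      refine this.congr (Filter.Eventually.of_forall fun b => ?_)
      show ‖gker H x a b * ((‖f b‖ : ℝ) : ℂ)‖ = ‖gker H x a b‖ * ‖f b‖
      rw [norm_mul, Complex.norm_real, norm_norm]
    calc ‖kapp (haar : Measure G) (gker F x) f a‖
        ≤ ∫ b, ‖gker F x a b * f b‖ ∂(haar : Measure G) := norm_integral_le_integral_norm _
      _ ≤ ∫ b, ‖gker H x a b‖ * ‖f b‖ ∂(haar : Measure G) := by
          refine integral_mono_of_nonneg (Filter.Eventually.of_forall fun b => norm_nonneg _) hi'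
            (Filter.Eventually.of_forall fun b => ?_)
          show ‖gker F x a b * f b‖ ≤ ‖gker H x a b‖ * ‖f b‖
          rw [norm_mul]
          exact mul_le_mul_of_nonneg_right (h _) (norm_nonneg _)
  refine h1.trans ((eLpNorm_kapp_le_redNorm H x hfn).trans (le_of_eq ?_))
  congr 1
  refine eLpNorm_congr_norm_ae (Filter.Eventually.of_forall fun a => ?_)
  show ‖((‖f a‖ : ℝ) : ℂ)‖ = ‖f a‖
  rw [Complex.norm_real, norm_norm]

private theorem E2_abs (F : Cc G X) (p : X × G) : F.abs p = (‖F.abs p‖ : ℂ) := by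
  have h : F.abs p = ((‖F p‖ : ℝ) : ℂ) := rfl
  rw [h, Complex.norm_real, norm_norm]

private theorem E2_norm_abs (F : Cc G X) (p : X × G) : ‖F.abs p‖ = ‖F p‖ := by
  have h : F.abs p = ((‖F p‖ : ℝ) : ℂ) := rfl
  rw [h, Complex.norm_real, norm_norm]

/-- The unconditional norm is monotone in `|F|`. -/
theorem uncNorm_mono {F H : Cc G X} (h : ∀ p, ‖F p‖ ≤ ‖H p‖) : uncNorm F ≤ uncNorm H := by
  refine redNorm_mono (E2_abs H) fun p => ?_
  rw [E2_norm_abs, E2_norm_abs]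
  exact h p

theorem redNorm_le_uncNorm (F : Cc G X) : redNorm F ≤ uncNorm F := by
  refine redNorm_mono (E2_abs F) fun p => ?_
  rw [E2_norm_abs]

theorem uncNorm_nonneg (F : Cc G X) : 0 ≤ uncNorm F := redNorm_nonneg _

/-- `|F + H| ≤ |F| + |H|` and `redNorm_mono`. -/
theorem uncNorm_add_le (F H : Cc G X) : uncNorm (F + H) ≤ uncNorm F + uncNorm H := by
  refine le_trans ?_ (redNorm_add_le F.abs H.abs)
  have e : ∀ p, (F.abs + H.abs) p = ((‖F p‖ + ‖H p‖ : ℝ) : ℂ) := fun p => by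
    rw [Cc.add_apply]
    have h1 : F.abs p = ((‖F p‖ : ℝ) : ℂ) := rfl
    have h2 : H.abs p = ((‖H p‖ : ℝ) : ℂ) := rfl
    rw [h1, h2]
    push_cast
    rfl
  have e' : ∀ p, ‖(F.abs + H.abs) p‖ = ‖F p‖ + ‖H p‖ := fun p => by
    rw [e, Complex.norm_real, Real.norm_of_nonneg (add_nonneg (norm_nonneg _) (norm_nonneg _))]
  refine redNorm_mono (fun p => ?_) (fun p => ?_)
  · rw [e' p]
    exact e p
  · rw [e' p, E2_norm_abs, Cc.add_apply]
    exact norm_add_le _ _

theorem uncNorm_smul (c : ℂ) (F : Cc G X) : uncNorm (c • F) = ‖c‖ * uncNorm F := by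
  have h : (c • F).abs = ((‖c‖ : ℝ) : ℂ) • F.abs := by
    refine Cc.ext (funext fun p => ?_)
    show ((‖(c • F) p‖ : ℝ) : ℂ) = ((‖c‖ : ℝ) : ℂ) * ((‖F p‖ : ℝ) : ℂ)
    rw [Cc.smul_apply, norm_mul]
    push_cast
    rfl
  unfold uncNorm
  rw [h, redNorm_smul, Complex.norm_real, norm_norm]

/-- `|F * H| ≤ |F| * |H|` (B6). -/
theorem uncNorm_mul_le (F H : Cc G X) : uncNorm (F * H) ≤ uncNorm F * uncNorm H := by
  refine le_trans ?_ (redNorm_mul_le F.abs H.abs)
  refine redNorm_mono (abs_mul_abs_apply F H) fun p => ?_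
  rw [E2_norm_abs]
  exact norm_mul_apply_le F H p

end Pool.Agent.BCH
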