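import Pool.Agent.Lib.MP_aa9b81_an.H.E2

open MeasureTheory MeasureTheory.Measure Topology ENNReal NNReal

namespace Pool.Agent.BCH

universe u v w

variable {G : Type u} [Group G] [TopologicalSpace G] [IsTopologicalGroup G]
  [LocallyCompactSpace G] [SecondCountableTopology G] [T2Space G] [MeasurableSpace G]
  [BorelSpace G]
variable {X : Type v} [TopologicalSpace X] [T2Space X] [MulAction G X] [ContinuousSMul G X]

/-- The reduced norm is faithful on `Cc G X`. -/
theorem eq_zero_of_redNorm (F : Cc G X) (h : redNorm F = 0) : F = 0 := by
  have key : ∀ (x : X) (b : G), F (x, b) = 0 := by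
    intro x
    set f : G → ℂ := fun b => (starRingEnd ℂ) (F (x, b)) with hf
    have hfc : Continuous f := by
      have := F.cont
      fun_prop
    have hfs : HasCompactSupport f := by
      refine HasCompactSupport.intro F.isCompact_gsupp ?_
      intro b hb
      have : F (x, b) = 0 := by
        by_contra hne
        exact hb (F.mem_gsupp hne)
      simp [hf, this]
    have hfL : MemLp f 2 (haar : Measure G) := hfc.memLp_of_hasCompactSupport hfs
    have h1 := eLpNorm_kapp_le_redNorm F x hfL
    rw [h, ENNReal.ofReal_zero, zero_mul, nonpos_iff_eq_zero] at h1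
    -- continuity of the function `T_x f`
    have hcont : Continuous (kapp (haar : Measure G) (gker F x) f) := by
      rw [← continuousOn_univ]
      refine continuousOn_integral_of_compact_support
        (f := fun a b => gker F x a b * f b) (k := tsupport f) hfs ?_ ?_
      · apply Continuous.continuousOn
        have h2 := F.cont
        have h3 : Continuous (fun p : G × G => F (p.1⁻¹ • x, p.1⁻¹ * p.2)) :=
          h2.comp (by fun_prop)
        exact h3.mul (hfc.comp continuous_snd)
      · intro a b _ hb
        show gker F x a b * f b = 0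
        rw [image_eq_zero_of_notMem_tsupport hb, mul_zero]
    have hae : kapp (haar : Measure G) (gker F x) f =ᵐ[haar] 0 := by
      rwa [eLpNorm_eq_zero_iff hcont.aestronglyMeasurable (by norm_num)] at h1
    have hz : kapp (haar : Measure G) (gker F x) f = 0 :=
      (Continuous.ae_eq_iff_eq (haar : Measure G) hcont continuous_const).1 hae
    have h4 : ∫ b, ‖F (x, b)‖ ^ 2 ∂(haar : Measure G) = 0 := by
      have h5 := congrFun hz 1
      have h6 : kapp (haar : Measure G) (gker F x) f 1 =
          ∫ b, ((‖F (x, b)‖ ^ 2 : ℝ) : ℂ) ∂(haar : Measure G) := by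
        refine integral_congr_ae (Filter.Eventually.of_forall fun b => ?_)
        show F ((1 : G)⁻¹ • x, (1 : G)⁻¹ * b) * (starRingEnd ℂ) (F (x, b)) = _
        rw [inv_one, one_smul, one_mul, Complex.mul_conj, Complex.normSq_eq_norm_sq]
      rw [h6, integral_complex_ofReal, Pi.zero_apply] at h5
      exact_mod_cast h5
    have hc2 : Continuous (fun b => ‖F (x, b)‖ ^ 2) := by
      have := F.cont
      fun_prop
    have hs2 : HasCompactSupport (fun b => ‖F (x, b)‖ ^ 2) := by
      refine HasCompactSupport.intro F.isCompact_gsupp ?_
      intro b hb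
      have : F (x, b) = 0 := by
        by_contra hne
        exact hb (F.mem_gsupp hne)
      simp [this]
    have h7 := (integral_eq_zero_iff_of_nonneg (fun b => by positivity)
      (hc2.integrable_of_hasCompactSupport hs2)).1 h4
    have h8 : (fun b => ‖F (x, b)‖ ^ 2) = fun _ => 0 :=
      (Continuous.ae_eq_iff_eq (haar : Measure G) hc2 continuous_const).1 h7
    intro b
    have := congrFun h8 b
    simpa using this
  apply Cc.ext
  funext p
  exact key p.1 p.2

/-- So is the unconditional norm. -/
theorem eq_zero_of_uncNorm (F : Cc G X) (h : uncNorm F = 0) : F = 0 := by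
  apply eq_zero_of_redNorm
  exact le_antisymm ((redNorm_le_uncNorm F).trans_eq h) (redNorm_nonneg F)

end Pool.Agent.BCH
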