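import Pool.Agent.Lib.MP_aa9b81_an.H.KFun

/-!
# Algebra seminorms, unitizations, completions and their K-theory

For a (non-unital) complex algebra `A` and a submultiplicative seminorm `ν` on `A` we define the
Banach algebra `Compl A ν`, the completion of the unitization `ℂ ⊕ A` for the norm `|λ| + ν(a)`
(this is the unitization of the completion of `A`), its augmentation `Compl A ν → ℂ`, and
`KK0 A ν = ker (K0 (Compl A ν) → K0 ℂ)`, `KK1 A ν = ker (K1 (Compl A ν) → K1 ℂ)`: the K-theory of
the Banach algebra obtained by completing `A` for `ν`.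
-/

open Matrix UniformSpace

namespace Pool.Agent.BCH

universe u v w

/-- A submultiplicative seminorm on a complex algebra. -/
structure AlgSeminorm (A : Type u) [NonUnitalRing A] [Module ℂ A] extends Seminorm ℂ A where
  mul_le' : ∀ a b : A, toFun (a * b) ≤ toFun a * toFun b

section

variable {A : Type u} [NonUnitalRing A] [Module ℂ A]

instance : CoeFun (AlgSeminorm A) (fun _ => A → ℝ) := ⟨fun ν => ν.toFun⟩

theorem AlgSeminorm.nonneg (ν : AlgSeminorm A) (a : A) : 0 ≤ ν a := apply_nonneg ν.toSeminorm a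
theorem AlgSeminorm.add_le (ν : AlgSeminorm A) (a b : A) : ν (a + b) ≤ ν a + ν b :=
  map_add_le_add ν.toSeminorm a b
theorem AlgSeminorm.zero (ν : AlgSeminorm A) : ν 0 = 0 := map_zero ν.toSeminorm
theorem AlgSeminorm.neg (ν : AlgSeminorm A) (a : A) : ν (-a) = ν a := map_neg_eq_map ν.toSeminorm a
theorem AlgSeminorm.smul (ν : AlgSeminorm A) (c : ℂ) (a : A) : ν (c • a) = ‖c‖ * ν a :=
  map_smul_eq_mul ν.toSeminorm c a
theorem AlgSeminorm.mul_le (ν : AlgSeminorm A) (a b : A) : ν (a * b) ≤ ν a * ν b :=
  ν.mul_le' a b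

end

variable {A : Type u} [NonUnitalRing A] [Module ℂ A] [IsScalarTower ℂ A A] [SMulCommClass ℂ A A]

/-- The unitization `ℂ ⊕ A`, with the seminorm `|λ| + ν(a)`. -/
def Plus (A : Type u) [NonUnitalRing A] [Module ℂ A] (_ν : AlgSeminorm A) : Type u :=
  Unitization ℂ A

variable (ν : AlgSeminorm A)

noncomputable instance : Ring (Plus A ν) := inferInstanceAs (Ring (Unitization ℂ A))
noncomputable instance : Algebra ℂ (Plus A ν) := inferInstanceAs (Algebra ℂ (Unitization ℂ A))

/-- The norm `|λ| + ν(a)`. -/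
noncomputable instance : Norm (Plus A ν) :=
  ⟨fun x : Unitization ℂ A => ‖x.fst‖ + ν x.snd⟩

theorem Plus.norm_def (x : Unitization ℂ A) :
    ‖(show Plus A ν from x)‖ = ‖x.fst‖ + ν x.snd := rfl

theorem Plus.core : SeminormedSpace.Core ℂ (Plus A ν) where
  norm_nonneg x := add_nonneg (norm_nonneg _) (ν.nonneg _)
  norm_smul c x := by
    change ‖c • (x : Unitization ℂ A).fst‖ + ν (c • (x : Unitization ℂ A).snd)
      = ‖c‖ * (‖(x : Unitization ℂ A).fst‖ + ν (x : Unitization ℂ A).snd)
    rw [norm_smul, ν.smul]; ring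
  norm_triangle x y := by
    have h1 := norm_add_le (x : Unitization ℂ A).fst (y : Unitization ℂ A).fst
    have h2 := ν.add_le (x : Unitization ℂ A).snd (y : Unitization ℂ A).snd
    change ‖(x : Unitization ℂ A).fst + (y : Unitization ℂ A).fst‖ +
      ν ((x : Unitization ℂ A).snd + (y : Unitization ℂ A).snd) ≤
      (‖(x : Unitization ℂ A).fst‖ + ν (x : Unitization ℂ A).snd) +
      (‖(y : Unitization ℂ A).fst‖ + ν (y : Unitization ℂ A).snd)
    linarith

noncomputable instance : SeminormedAddCommGroup (Plus A ν) :=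
  SeminormedAddCommGroup.ofCore (Plus.core ν)

theorem Plus.norm_mul_le (x y : Plus A ν) : ‖x * y‖ ≤ ‖x‖ * ‖y‖ := by
  change ‖(x : Unitization ℂ A).fst * (y : Unitization ℂ A).fst‖ +
      ν ((x : Unitization ℂ A).fst • (y : Unitization ℂ A).snd +
        (y : Unitization ℂ A).fst • (x : Unitization ℂ A).snd +
        (x : Unitization ℂ A).snd * (y : Unitization ℂ A).snd) ≤
      (‖(x : Unitization ℂ A).fst‖ + ν (x : Unitization ℂ A).snd) *
      (‖(y : Unitization ℂ A).fst‖ + ν (y : Unitization ℂ A).snd)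
  have h1 := ν.add_le ((x : Unitization ℂ A).fst • (y : Unitization ℂ A).snd +
        (y : Unitization ℂ A).fst • (x : Unitization ℂ A).snd)
        ((x : Unitization ℂ A).snd * (y : Unitization ℂ A).snd)
  have h2 := ν.add_le ((x : Unitization ℂ A).fst • (y : Unitization ℂ A).snd)
        ((y : Unitization ℂ A).fst • (x : Unitization ℂ A).snd)
  have h3 := ν.mul_le (x : Unitization ℂ A).snd (y : Unitization ℂ A).snd
  rw [ν.smul, ν.smul] at h2
  rw [norm_mul]
  nlinarith [h1, h2, h3]

noncomputable instance : SeminormedRing (Plus A ν) :=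
  { (inferInstance : Ring (Plus A ν)), (inferInstance : SeminormedAddCommGroup (Plus A ν)) with
    norm_mul_le := Plus.norm_mul_le ν }

noncomputable instance : NormedSpace ℂ (Plus A ν) where
  norm_smul_le c x := ((Plus.core ν).norm_smul c x).le

/-- The Banach algebra `Compl A ν`: completion of `ℂ ⊕ A` for `|λ| + ν(a)`. -/
abbrev Compl (A : Type u) [NonUnitalRing A] [Module ℂ A] [IsScalarTower ℂ A A]
    [SMulCommClass ℂ A A] (ν : AlgSeminorm A) : Type u :=
  Completion (Plus A ν)

noncomputable instance : NormedRing (Compl A ν) := inferInstance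
noncomputable instance : Algebra ℂ (Compl A ν) := inferInstance
noncomputable instance : NormedSpace ℂ (Compl A ν) := inferInstance
noncomputable instance : NormedAlgebra ℂ (Compl A ν) where
  norm_smul_le := norm_smul_le
example : CompleteSpace (Compl A ν) := inferInstance

/-- The augmentation `ℂ ⊕ A → ℂ`. -/
def Plus.aug : Plus A ν →+* ℂ := (Unitization.fstHom ℂ A).toRingHom

theorem Plus.norm_aug_le (x : Plus A ν) : ‖Plus.aug ν x‖ ≤ ‖x‖ :=
  le_add_of_nonneg_right (ν.nonneg _)

theorem Plus.continuous_aug : Continuous (Plus.aug ν) :=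
  AddMonoidHomClass.continuous_of_bound (Plus.aug ν) 1 (fun x => by
    rw [one_mul]; exact Plus.norm_aug_le ν x)

/-- The augmentation `Compl A ν → ℂ`. -/
noncomputable def Compl.aug : Compl A ν →+* ℂ :=
  Completion.extensionHom (Plus.aug ν) (Plus.continuous_aug ν)

theorem Compl.continuous_aug : Continuous (Compl.aug ν) :=
  Completion.continuous_extension

variable {ν} {ν' : AlgSeminorm A}

/-- The identity map `ℂ ⊕ A → ℂ ⊕ A`, as a map between two normings. -/
def Plus.id (ν ν' : AlgSeminorm A) : Plus A ν →+* Plus A ν' := RingHom.id (Unitization ℂ A)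

theorem Plus.continuous_id (h : ∀ a, ν' a ≤ ν a) : Continuous (Plus.id ν ν') :=
  AddMonoidHomClass.continuous_of_bound (Plus.id ν ν') 1 (fun x => by
    rw [one_mul]
    exact add_le_add le_rfl (h _))

/-- If `ν' ≤ ν`, the identity of `A` extends to a homomorphism of the completions. -/
noncomputable def Compl.id (h : ∀ a, ν' a ≤ ν a) : Compl A ν →+* Compl A ν' :=
  Completion.mapRingHom (Plus.id ν ν') (Plus.continuous_id h)

theorem Compl.continuous_id (h : ∀ a, ν' a ≤ ν a) : Continuous (Compl.id h) :=
  Completion.continuous_map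

theorem Compl.aug_id (h : ∀ a, ν' a ≤ ν a) (x : Compl A ν) :
    Compl.aug ν' (Compl.id h x) = Compl.aug ν x := by
  induction x using Completion.induction_on with
  | hp =>
    exact isClosed_eq ((Compl.continuous_aug ν').comp (Compl.continuous_id h))
      (Compl.continuous_aug ν)
  | ih x =>
    rw [Compl.id, Completion.mapRingHom_coe, Compl.aug, Compl.aug, Completion.extensionHom_coe,
      Completion.extensionHom_coe]
    rfl

variable (A) in
/-- `K_0` of the Banach algebra obtained by completing `A` for `ν`: the kernel of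
`K_0(unitization) → K_0(ℂ)`. -/
noncomputable def KK0 (ν : AlgSeminorm A) : AddSubgroup (K0 (Compl A ν)) :=
  (K0.map (Compl.aug ν)).ker

variable (A) in
/-- `K_1` of the Banach algebra obtained by completing `A` for `ν`: the kernel of
`K_1(unitization) → K_1(ℂ)`. -/
noncomputable def KK1 (ν : AlgSeminorm A) : Subgroup (K1 (Compl A ν)) :=
  (K1.map (Compl.aug ν) (Compl.continuous_aug ν)).ker

/-- The map `K_0(A, ν) → K_0(A, ν')` induced by the identity of `A`, for `ν' ≤ ν`. -/
noncomputable def KK0.map (h : ∀ a, ν' a ≤ ν a) : KK0 A ν →+ KK0 A ν' :=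
  ((K0.map (Compl.id h)).comp (KK0 A ν).subtype).codRestrict (KK0 A ν') (fun x => by
    have hx : K0.map (Compl.aug ν) x.1 = 0 := x.2
    show K0.map (Compl.aug ν') (K0.map (Compl.id h) x.1) = 0
    rw [K0.map_comp, show (Compl.aug ν').comp (Compl.id h) = Compl.aug ν from
      RingHom.ext (Compl.aug_id h), hx])

/-- The map `K_1(A, ν) → K_1(A, ν')` induced by the identity of `A`, for `ν' ≤ ν`. -/
noncomputable def KK1.map (h : ∀ a, ν' a ≤ ν a) : KK1 A ν →* KK1 A ν' :=
  ((K1.map (Compl.id h) (Compl.continuous_id h)).comp (KK1 A ν).subtype).codRestrict (KK1 A ν')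
    (fun x => by
      have hx : K1.map (Compl.aug ν) (Compl.continuous_aug ν) x.1 = 1 := x.2
      show K1.map (Compl.aug ν') _ (K1.map (Compl.id h) _ x.1) = 1
      rw [K1.map_comp]
      have : (Compl.aug ν').comp (Compl.id h) = Compl.aug ν := RingHom.ext (Compl.aug_id h)
      simp only [this]
      exact hx)

end Pool.Agent.BCH
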