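import Pool.Agent.Lib.MP_aa9b81_an.H.E2
import Pool.Agent.Lib.MP_aa9b81_an.H.PDefs

open MeasureTheory MeasureTheory.Measure Topology ENNReal NNReal

namespace Pool.Agent.BCH

universe u v w

variable {G : Type u} [Group G] [TopologicalSpace G] [IsTopologicalGroup G]
  [LocallyCompactSpace G] [SecondCountableTopology G] [T2Space G] [MeasurableSpace G]
  [BorelSpace G]
variable {X : Type v} [TopologicalSpace X] [T2Space X] [MulAction G X] [ContinuousSMul G X]

variable (G X) in
/-- The reduced norm on `C_c(X ⋊ G)`; the completion is the reduced crossed product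
`C_0(X) ⋊_r G = C*_r(X ⋊ G)`. -/
noncomputable def redSemi : AlgSeminorm (Cc G X) where
  toFun := redNorm
  map_zero' := by
    have := redNorm_smul (0 : ℂ) (0 : Cc G X)
    rwa [zero_smul, norm_zero, zero_mul] at this
  add_le' := redNorm_add_le
  neg' F := by
    have := redNorm_smul (-1 : ℂ) F
    rwa [neg_one_smul, norm_neg, norm_one, one_mul] at this
  smul' := redNorm_smul
  mul_le' := redNorm_mul_le

variable (G X) in
/-- The unconditional norm `F ↦ redNorm |F|` on `C_c(X ⋊ G)`. -/
noncomputable def uncSemi : AlgSeminorm (Cc G X) where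
  toFun := uncNorm
  map_zero' := by
    have := uncNorm_smul (0 : ℂ) (0 : Cc G X)
    rwa [zero_smul, norm_zero, zero_mul] at this
  add_le' := uncNorm_add_le
  neg' F := by
    have := uncNorm_smul (-1 : ℂ) F
    rwa [neg_one_smul, norm_neg, norm_one, one_mul] at this
  smul' := uncNorm_smul
  mul_le' := uncNorm_mul_le

variable (G X) in
theorem redSemi_le_uncSemi (F : Cc G X) : redSemi G X F ≤ uncSemi G X F := redNorm_le_uncNorm F

end Pool.Agent.BCH
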