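import Pool.Agent.Lib.MP_aa9b81_an.H.KStar

/-!
# The transfer theorem

See `Pool.Agent.BCH.isUnit_transfer`, `KK0.bijective_of_rep`, `KK1.bijective_of_rep`.
-/

open Matrix UniformSpace Topology

namespace Pool.Agent.BCH

universe u v

attribute [local instance] Matrix.linftyOpNormedRing Matrix.linftyOpNormedAlgebra

theorem norm_entry_le {B : Type*} [NormedRing B] {m : ℕ} (M : Matrix (Fin m) (Fin m) B)
    (i j : Fin m) : ‖M i j‖ ≤ ‖M‖ := by
  rw [Matrix.linfty_opNorm_def]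
  have h1 : ‖M i j‖₊ ≤ ∑ j, ‖M i j‖₊ :=
    Finset.single_le_sum (f := fun j => ‖M i j‖₊) (fun _ _ => zero_le) (Finset.mem_univ j)
  have h2 : ∑ j, ‖M i j‖₊ ≤ (Finset.univ : Finset (Fin m)).sup fun i => ∑ j, ‖M i j‖₊ :=
    Finset.le_sup (f := fun i => ∑ j, ‖M i j‖₊) (Finset.mem_univ i)
  exact_mod_cast h1.trans h2

theorem sum_norm_le {B : Type*} [NormedRing B] {m : ℕ} (M : Matrix (Fin m) (Fin m) B) :
    ∑ i, ∑ j, ‖M i j‖ ≤ (m : ℝ) * m * ‖M‖ := by
  calc ∑ i, ∑ j, ‖M i j‖ ≤ ∑ _i : Fin m, ∑ _j : Fin m, ‖M‖ :=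
        Finset.sum_le_sum fun i _ => Finset.sum_le_sum fun j _ => norm_entry_le M i j
    _ = (m : ℝ) * m * ‖M‖ := by
        simp [mul_assoc]

theorem isUnit_of_mul_both {M : Type*} [Monoid M] {a b : M} (h : IsUnit (a * b))
    (h' : IsUnit (b * a)) : IsUnit a := by
  obtain ⟨u, hu⟩ := h
  obtain ⟨v, hv⟩ := h'
  rw [isUnit_iff_exists_and_exists]
  refine ⟨⟨b * ((u⁻¹ : Mˣ) : M), ?_⟩, ⟨((v⁻¹ : Mˣ) : M) * b, ?_⟩⟩
  · rw [← mul_assoc, ← hu, Units.mul_inv]
  · rw [mul_assoc, ← hv, Units.inv_mul]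

section transfer

variable {A : Type u} [NonUnitalRing A] [Module ℂ A] [IsScalarTower ℂ A A] [SMulCommClass ℂ A A]
  {ν ν' : AlgSeminorm A}

theorem injM_dense {m : ℕ} (z : Matrix (Fin m) (Fin m) (Compl A ν))
    (hz : ∀ i j, Compl.aug ν (z i j) = 0) :
    z ∈ closure (Set.range (injM ν m)) := by
  have h1 : (Set.range (injM ν m) : Set (Matrix (Fin m) (Fin m) (Compl A ν)))
      = Set.pi (Set.univ : Set (Fin m))
        (fun _ => Set.pi (Set.univ : Set (Fin m)) (fun _ => Set.range (Compl.inr ν))) := by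
    ext c
    constructor
    · rintro ⟨W, rfl⟩ i _ j _
      exact ⟨W i j, rfl⟩
    · intro h
      have h2 : ∀ i j, ∃ a : A, Compl.inr ν a = c i j := fun i j =>
        h i (Set.mem_univ i) j (Set.mem_univ j)
      choose W hW using h2
      exact ⟨fun i j => W i j, by ext i j; exact hW i j⟩
  have h3 : z ∈ Set.pi (Set.univ : Set (Fin m))
        (fun _ => closure (Set.pi (Set.univ : Set (Fin m)) (fun _ => Set.range (Compl.inr ν)))) := by
    intro i _
    rw [closure_pi_set]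
    intro j _
    exact Compl.mem_closure_inr ν _ (hz i j)
  rw [← closure_pi_set, ← h1] at h3
  exact h3

variable [StarRing A]

/-- Invertibility over the completion for `ν'` implies invertibility in the representation. -/
theorem isUnit_rep {m : ℕ} {D : Type v} [CStarAlgebra D]
    (T : Matrix (Fin m) (Fin m) A →⋆ₙₐ[ℂ] D) (K : ℝ)
    (hT : ∀ c, ‖T c‖ ≤ K * ∑ i, ∑ j, ν' (c i j)) (c : Matrix (Fin m) (Fin m) A)
    (hc : IsUnit (1 + injM ν' m c)) : IsUnit (1 + T c) := by
  obtain ⟨u, hu⟩ := hc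
  set g : Matrix (Fin m) (Fin m) (Compl A ν') := ((u⁻¹ : (Matrix (Fin m) (Fin m) (Compl A ν'))ˣ) :
    Matrix (Fin m) (Fin m) (Compl A ν')) with hg
  have hug : (1 + injM ν' m c) * g = 1 := by rw [← hu, hg, Units.mul_inv]
  have hgu : g * (1 + injM ν' m c) = 1 := by rw [← hu, hg, Units.inv_mul]
  -- the augmentation of `g` is `1`
  have haug : (Compl.aug ν').mapMatrix (injM ν' m c) = 0 := by
    ext i j
    show Compl.aug ν' (Compl.of ν' ((c i j : A) : Unitization ℂ A)) = 0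
    rw [Compl.aug_of]
    simp
  have hga : (Compl.aug ν').mapMatrix g = 1 := by
    have := congrArg (Compl.aug ν').mapMatrix hug
    rwa [map_mul, map_add, haug, map_one, add_zero, one_mul] at this
  have hz : ∀ i j, Compl.aug ν' ((g - 1) i j) = 0 := by
    intro i j
    have h1 : (Compl.aug ν').mapMatrix (g - 1) = 0 := by rw [map_sub, hga, map_one, sub_self]
    exact congrFun (congrFun h1 i) j
  have hcl := injM_dense _ hz
  set δ : ℝ := 1 / (|K| * ((m : ℝ) * m) + 1) with hδ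
  have hδpos : 0 < δ := by positivity
  have hP : Continuous (fun z : Matrix (Fin m) (Fin m) (Compl A ν') =>
      ‖(1 + injM ν' m c) * (1 + z) - 1‖) := by fun_prop
  have hQ : Continuous (fun z : Matrix (Fin m) (Fin m) (Compl A ν') =>
      ‖(1 + z) * (1 + injM ν' m c) - 1‖) := by fun_prop
  have hO : IsOpen {z : Matrix (Fin m) (Fin m) (Compl A ν') |
      ‖(1 + injM ν' m c) * (1 + z) - 1‖ < δ ∧ ‖(1 + z) * (1 + injM ν' m c) - 1‖ < δ} :=
    (isOpen_lt hP continuous_const).inter (isOpen_lt hQ continuous_const)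
  have hmem : (g - 1) ∈ {z : Matrix (Fin m) (Fin m) (Compl A ν') |
      ‖(1 + injM ν' m c) * (1 + z) - 1‖ < δ ∧ ‖(1 + z) * (1 + injM ν' m c) - 1‖ < δ} := by
    constructor
    · rw [add_sub_cancel, hug, sub_self, norm_zero]
      exact hδpos
    · rw [add_sub_cancel, hgu, sub_self, norm_zero]
      exact hδpos
  obtain ⟨z, ⟨hz1, hz2⟩, ⟨d, rfl⟩⟩ := mem_closure_iff.1 hcl _ hO hmem
  have key : ∀ a b : Matrix (Fin m) (Fin m) A,
      ‖(1 + injM ν' m a) * (1 + injM ν' m b) - 1‖ < δ → IsUnit ((1 + T a) * (1 + T b)) := by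
    intro a b hab
    have h1 : (1 + injM ν' m a) * (1 + injM ν' m b) - 1 = injM ν' m (a + b + a * b) := by
      rw [map_add, map_add, map_mul]
      noncomm_ring
    rw [h1] at hab
    have h2 : ∑ i, ∑ j, ν' ((a + b + a * b) i j) ≤ (m : ℝ) * m * ‖injM ν' m (a + b + a * b)‖ := by
      have := sum_norm_le (injM ν' m (a + b + a * b))
      simp only [injM_apply, Compl.norm_inr] at this
      exact this
    have h0 : 0 ≤ ∑ i, ∑ j, ν' ((a + b + a * b) i j) :=
      Finset.sum_nonneg fun i _ => Finset.sum_nonneg fun j _ => ν'.nonneg _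
    have h3 : ‖T (a + b + a * b)‖ < 1 := by
      calc ‖T (a + b + a * b)‖ ≤ K * ∑ i, ∑ j, ν' ((a + b + a * b) i j) := hT _
        _ ≤ |K| * ∑ i, ∑ j, ν' ((a + b + a * b) i j) :=
            mul_le_mul_of_nonneg_right (le_abs_self K) h0
        _ ≤ |K| * ((m : ℝ) * m * ‖injM ν' m (a + b + a * b)‖) :=
            mul_le_mul_of_nonneg_left h2 (abs_nonneg K)
        _ ≤ |K| * ((m : ℝ) * m * δ) := by
            refine mul_le_mul_of_nonneg_left ?_ (abs_nonneg K)
            exact mul_le_mul_of_nonneg_left hab.le (by positivity)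
        _ = (|K| * ((m : ℝ) * m)) / (|K| * ((m : ℝ) * m) + 1) := by rw [hδ]; ring
        _ < 1 := by
            rw [div_lt_one (by positivity)]
            linarith
    have h4 : (1 + T a) * (1 + T b) = 1 - (-(T (a + b + a * b))) := by
      rw [map_add, map_add, map_mul]
      noncomm_ring
    rw [h4]
    exact ⟨Units.oneSub (-(T (a + b + a * b))) (by rwa [norm_neg]), rfl⟩
  exact isUnit_of_mul_both (key c d hz1) (key d c hz2)

variable [StarModule ℂ A]

/-- The iteration `W_{n+1} = W_n (1 - k (1 + F)²)`. -/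
noncomputable def iter {B : Type*} [NonUnitalRing B] [Module ℂ B] (k : ℂ) (F : B) : ℕ → B
  | 0 => -F
  | n + 1 => iter k F n - k • (iter k F n + iter k F n * (F + F + F * F))

theorem isUnit_star_mul {m : ℕ} {D : Type v} [CStarAlgebra D]
    (T : Matrix (Fin m) (Fin m) A →⋆ₙₐ[ℂ] D)
    (HN : ∀ W : Matrix (Fin m) (Fin m) A, ‖T W‖ < 1 →
      ∃ n, ∑ i, ∑ j, ν ((nuPow W n) i j) < 1)
    (c : Matrix (Fin m) (Fin m) A) (hc : IsUnit (1 + T c)) :
    IsUnit ((1 + injM ν m (star c)) * (1 + injM ν m c)) := by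
  set F : Matrix (Fin m) (Fin m) A := star c + c + star c * c with hF
  set S : D := 1 + T F with hS
  have hS' : S = star (1 + T c) * (1 + T c) := by
    rw [hS, hF, map_add, map_add, map_mul, map_star, star_add, star_one]
    noncomm_ring
  have hSsa : IsSelfAdjoint S := by rw [hS']; exact IsSelfAdjoint.star_mul_self _
  have hSu : IsUnit S := by rw [hS']; exact hc.star.mul hc
  have hV := norm_one_sub_sq_lt S hSsa hSu
  set k : ℝ := ((‖S‖ + 1) ^ 2)⁻¹ with hk
  set V : D := (1 : D) - k • (S * S) with hVdef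
  have hTW : ∀ n, T (iter (k : ℂ) F n) = T (-F) * V ^ n := by
    intro n
    induction n with
    | zero => simp [iter]
    | succ n ih =>
      rw [iter, map_sub, map_smul, map_add, map_mul, map_add, map_add, map_mul, pow_succ,
        ← mul_assoc, ← ih, hVdef, hS, Complex.coe_smul, mul_sub, mul_one, mul_smul_comm]
      congr 2
      noncomm_ring
  have hlim : Filter.Tendsto (fun n => ‖T (-F)‖ * ‖V‖ ^ n) Filter.atTop (𝓝 0) := by
    have := (tendsto_pow_atTop_nhds_zero_of_lt_one (norm_nonneg V) hV).const_mul ‖T (-F)‖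
    rwa [mul_zero] at this
  obtain ⟨n, hn⟩ := (hlim.eventually (gt_mem_nhds (one_pos))).exists
  have hTn : ‖T (iter (k : ℂ) F n)‖ < 1 := by
    rw [hTW]
    refine lt_of_le_of_lt ((norm_mul_le _ _).trans ?_) hn
    rcases n with _ | n
    · rcases subsingleton_or_nontrivial D with hD | hD
      · have : ‖T (-F)‖ = 0 := by rw [Subsingleton.elim (T (-F)) 0, norm_zero]
        rw [this, zero_mul, zero_mul]
      · simp
    · exact mul_le_mul_of_nonneg_left (norm_pow_le' _ (Nat.succ_pos n)) (norm_nonneg _)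
  obtain ⟨N, hN⟩ := HN _ hTn
  have h1 := isUnit_one_sub_injM ν m _ N hN
  have h2 : 1 + injM ν m F = (1 + injM ν m (star c)) * (1 + injM ν m c) := by
    rw [hF, map_add, map_add, map_mul]
    noncomm_ring
  rw [← h2]
  set Sh : Matrix (Fin m) (Fin m) (Compl A ν) := 1 + injM ν m F with hSh
  have hQ : ∀ n, ∃ Q : Matrix (Fin m) (Fin m) (Compl A ν),
      1 - injM ν m (iter (k : ℂ) F n) = Sh * Q ∧ Sh * Q = Q * Sh := by
    intro n
    induction n with
    | zero => exact ⟨1, by rw [iter, map_neg, sub_neg_eq_add, mul_one], by rw [mul_one, one_mul]⟩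
    | succ n ih =>
      obtain ⟨Q, hQ1, hQ2⟩ := ih
      set w := injM ν m (iter (k : ℂ) F n) with hw
      have hw1 : w = 1 - Sh * Q := by rw [← hQ1]; abel
      have hwc : Sh * w = w * Sh := by
        rw [hw1, mul_sub, sub_mul, mul_one, one_mul]
        congr 1
        calc Sh * (Sh * Q) = Sh * (Q * Sh) := by rw [hQ2]
          _ = Sh * Q * Sh := by rw [mul_assoc]
      have e1 : injM ν m (iter (k : ℂ) F (n + 1)) = w - (k : ℂ) • (w * (Sh * Sh)) := by
        have e2 : w + w * (injM ν m F + injM ν m F + injM ν m F * injM ν m F)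
            = w * (Sh * Sh) := by
          rw [hSh]
          noncomm_ring
        rw [← e2, iter, map_sub, map_smul, map_add, map_mul, map_add, map_add, map_mul]
      have e3 : w * (Sh * Sh) = Sh * (w * Sh) := by
        calc w * (Sh * Sh) = (w * Sh) * Sh := (mul_assoc _ _ _).symm
          _ = (Sh * w) * Sh := by rw [hwc]
          _ = Sh * (w * Sh) := mul_assoc _ _ _
      refine ⟨Q + (k : ℂ) • (w * Sh), ?_, ?_⟩
      · calc 1 - injM ν m (iter (k : ℂ) F (n + 1)) = (1 - w) + (k : ℂ) • (w * (Sh * Sh)) := by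
              rw [e1]; abel
          _ = Sh * Q + (k : ℂ) • (Sh * (w * Sh)) := by rw [hQ1, e3]
          _ = Sh * (Q + (k : ℂ) • (w * Sh)) := by
              rw [mul_add (Sh) Q, mul_smul_comm]
      · calc Sh * (Q + (k : ℂ) • (w * Sh)) = Sh * Q + (k : ℂ) • (Sh * (w * Sh)) := by
              rw [mul_add (Sh) Q, mul_smul_comm]
          _ = Q * Sh + (k : ℂ) • ((w * Sh) * Sh) := by
              rw [hQ2, ← e3, mul_assoc w Sh Sh]
          _ = (Q + (k : ℂ) • (w * Sh)) * Sh := by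
              rw [add_mul, smul_mul_assoc]
  obtain ⟨Q, hQ1, hQ2⟩ := hQ n
  rw [hQ1] at h1
  have hcomm : Commute Sh Q := hQ2
  exact (hcomm.isUnit_mul_iff.1 h1).1

/-- The case of matrices `1 + c`, `c ∈ M_m(A)`. -/
theorem isUnit_one_add {m : ℕ} {D : Type v} [CStarAlgebra D]
    (T : Matrix (Fin m) (Fin m) A →⋆ₙₐ[ℂ] D) (K : ℝ)
    (hT : ∀ c, ‖T c‖ ≤ K * ∑ i, ∑ j, ν' (c i j))
    (HN : ∀ W : Matrix (Fin m) (Fin m) A, ‖T W‖ < 1 →
      ∃ n, ∑ i, ∑ j, ν ((nuPow W n) i j) < 1)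
    (c : Matrix (Fin m) (Fin m) A) (hc : IsUnit (1 + injM ν' m c)) :
    IsUnit (1 + injM ν m c) := by
  have h1 := isUnit_rep T K hT c hc
  have h2 := isUnit_star_mul (ν := ν) T HN c h1
  have h3 : IsUnit (1 + T (star c)) := by
    have := h1.star
    rwa [star_add, star_one, ← map_star] at this
  have h4 := isUnit_star_mul (ν := ν) T HN (star c) h3
  rw [star_star] at h4
  exact isUnit_of_mul_both h4 h2

/-- **Transfer of invertibility.** A matrix over `ℂ ⊕ A` which is invertible over the completion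
for `ν'` is invertible over the completion for `ν`. -/
theorem isUnit_transfer (D : ℕ → Type v) [∀ m, CStarAlgebra (D m)]
    (T : ∀ m, Matrix (Fin m) (Fin m) A →⋆ₙₐ[ℂ] D m) (K : ℕ → ℝ)
    (hT : ∀ m c, ‖T m c‖ ≤ K m * ∑ i, ∑ j, ν' (c i j))
    (HN : ∀ (m : ℕ) (W : Matrix (Fin m) (Fin m) A), ‖T m W‖ < 1 →
      ∃ n, ∑ i, ∑ j, ν ((nuPow W n) i j) < 1)
    (m : ℕ) (c : Matrix (Fin m) (Fin m) (Unitization ℂ A))
    (hc : IsUnit (c.map (Compl.of ν'))) : IsUnit (c.map (Compl.of ν)) := by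
  -- the scalar part is invertible
  have hs : IsUnit (c.map (fun x : Unitization ℂ A => x.fst)) := by
    have h1 := hc.map (Compl.aug ν').mapMatrix
    have h2 : (Compl.aug ν').mapMatrix (c.map (Compl.of ν'))
        = c.map (fun x : Unitization ℂ A => x.fst) := by
      ext i j
      exact Compl.aug_of ν' (c i j)
    rwa [h2] at h1
  obtain ⟨s, hs⟩ := hs
  let L : Matrix (Fin m) (Fin m) ℂ →+* Matrix (Fin m) (Fin m) (Unitization ℂ A) :=
    (algebraMap ℂ (Unitization ℂ A)).mapMatrix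
  let O : ∀ μ : AlgSeminorm A, Matrix (Fin m) (Fin m) (Unitization ℂ A) →+*
    Matrix (Fin m) (Fin m) (Compl A μ) := fun μ => (Compl.ofHom μ).mapMatrix
  set c' : Matrix (Fin m) (Fin m) (Unitization ℂ A) :=
    L ((s⁻¹ : (Matrix (Fin m) (Fin m) ℂ)ˣ) : Matrix (Fin m) (Fin m) ℂ) * c with hc'
  have hcc' : c = L (s : Matrix (Fin m) (Fin m) ℂ) * c' := by
    rw [hc', ← mul_assoc, ← map_mul, Units.mul_inv, map_one, one_mul]
  have hfst : c'.map (fun x : Unitization ℂ A => x.fst) = 1 := by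
    have h1 : c'.map (fun x : Unitization ℂ A => x.fst)
        = (Unitization.fstHom ℂ A).toRingHom.mapMatrix c' := rfl
    have h2 : (Unitization.fstHom ℂ A).toRingHom.mapMatrix
        (L ((s⁻¹ : (Matrix (Fin m) (Fin m) ℂ)ˣ) : Matrix (Fin m) (Fin m) ℂ))
        = ((s⁻¹ : (Matrix (Fin m) (Fin m) ℂ)ˣ) : Matrix (Fin m) (Fin m) ℂ) := by
      ext i j
      rfl
    have h3 : (Unitization.fstHom ℂ A).toRingHom.mapMatrix c = (s : Matrix (Fin m) (Fin m) ℂ) := by
      rw [hs]
      rfl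
    rw [h1, hc', map_mul, h2, h3, Units.inv_mul]
  set c0 : Matrix (Fin m) (Fin m) A := c'.map (fun x : Unitization ℂ A => x.snd) with hc0
  have hdec : ∀ μ : AlgSeminorm A, O μ c' = 1 + injM μ m c0 := by
    intro μ
    have h1 : c' = 1 + c0.map (fun a => (a : Unitization ℂ A)) := by
      ext1 i j
      have h2 : (c' i j).fst = (1 : Matrix (Fin m) (Fin m) ℂ) i j :=
        congrFun (congrFun hfst i) j
      have h3 : (c' i j) = Unitization.inl (c' i j).fst + ((c' i j).snd : Unitization ℂ A) :=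
        (Unitization.inl_fst_add_inr_snd_eq _).symm
      rw [h3, h2, Matrix.add_apply, Matrix.map_apply]
      congr 1
      rw [Matrix.one_apply, Matrix.one_apply]
      split_ifs
      · rfl
      · exact Unitization.inl_zero A
    rw [h1, map_add, map_one]
    congr 1
  have hc'u : IsUnit (O ν' c') := by
    rw [hc', map_mul]
    refine IsUnit.mul ?_ hc
    exact (s⁻¹.isUnit.map L).map (O ν')
  rw [hdec] at hc'u
  have h5 := isUnit_one_add (ν := ν) (T m) (K m) (hT m) (HN m) c0 hc'u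
  rw [← hdec] at h5
  show IsUnit (O ν c)
  rw [hcc', map_mul]
  exact ((s.isUnit.map L).map (O ν)).mul h5

/-- **Isomorphism on `K_0` from representations.** -/
theorem KK0.bijective_of_rep (h : ∀ a, ν' a ≤ ν a) (D : ℕ → Type v) [∀ m, CStarAlgebra (D m)]
    (T : ∀ m, Matrix (Fin m) (Fin m) A →⋆ₙₐ[ℂ] D m) (K : ℕ → ℝ)
    (hT : ∀ m c, ‖T m c‖ ≤ K m * ∑ i, ∑ j, ν' (c i j))
    (HN : ∀ (m : ℕ) (W : Matrix (Fin m) (Fin m) A), ‖T m W‖ < 1 →
      ∃ n, ∑ i, ∑ j, ν ((nuPow W n) i j) < 1) :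
    Function.Bijective (KK0.map (A := A) h) :=
  KK0.map_bijective h (isUnit_transfer D T K hT HN)

/-- **Isomorphism on `K_1` from representations.** -/
theorem KK1.bijective_of_rep (h : ∀ a, ν' a ≤ ν a) (D : ℕ → Type v) [∀ m, CStarAlgebra (D m)]
    (T : ∀ m, Matrix (Fin m) (Fin m) A →⋆ₙₐ[ℂ] D m) (K : ℕ → ℝ)
    (hT : ∀ m c, ‖T m c‖ ≤ K m * ∑ i, ∑ j, ν' (c i j))
    (HN : ∀ (m : ℕ) (W : Matrix (Fin m) (Fin m) A), ‖T m W‖ < 1 →
      ∃ n, ∑ i, ∑ j, ν ((nuPow W n) i j) < 1) :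
    Function.Bijective (KK1.map (A := A) h) :=
  KK1.map_bijective h (isUnit_transfer D T K hT HN)

end transfer

end Pool.Agent.BCH
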