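import Pool.Agent.Lib.MP_aa9b81_an.H.M2
import Pool.Agent.Lib.MP_aa9b81_an.H.E1

open MeasureTheory MeasureTheory.Measure Topology ENNReal NNReal

namespace Pool.Agent.BCH

universe u v w

variable {G : Type u} [Group G] [TopologicalSpace G] [IsTopologicalGroup G]
  [LocallyCompactSpace G] [SecondCountableTopology G] [T2Space G] [MeasurableSpace G]
  [BorelSpace G]
variable {X : Type v} [TopologicalSpace X] [T2Space X] [MulAction G X] [ContinuousSMul G X]

private theorem M3_map_le (m : ℕ) (j : Fin m) :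
    (haar : Measure G).map (fun a => (a, j)) ≤ hm G m := by
  have hmj : Measurable (fun a : G => (a, j)) := measurable_prodMk_right
  rw [Measure.le_iff]
  intro s hs
  rw [Measure.map_apply hmj hs]
  have h1 : hm G m s = ∑ j', ∫⁻ a, s.indicator (1 : G × Fin m → ℝ≥0∞) (a, j') ∂(haar : Measure G) := by
    rw [← lintegral_hm (measurable_one.indicator hs), lintegral_indicator_one hs]
  have h2 : (haar : Measure G) ((fun a => (a, j)) ⁻¹' s)
      = ∫⁻ a, s.indicator (1 : G × Fin m → ℝ≥0∞) (a, j) ∂(haar : Measure G) := by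
    rw [← lintegral_indicator_one (hmj hs)]
    rfl
  rw [h1, h2]
  exact Finset.single_le_sum (f := fun j' =>
    ∫⁻ a, s.indicator (1 : G × Fin m → ℝ≥0∞) (a, j') ∂(haar : Measure G))
    (fun _ _ => zero_le) (Finset.mem_univ j)

/-- `‖rep W‖ ≤ ∑_{i,j} redNorm (W i j)`. For `f ∈ L²(G × Fin m)` put `f_j = f(·, j) ∈ L²(G)`,
`‖f_j‖ ≤ ‖f‖`; `(T f)(·, i) = ∑_j T_{W i j} f_j`. So `‖T f‖ ≤ ∑_i ‖(T f)(·, i)‖ ≤ ∑_{i,j} redNorm (W i j) ‖f_j‖`.
Use `KerRep.norm_rep_le`, `Ker.norm_intOp_le_of`, `eLpNorm_kapp_le_redNorm`. -/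
theorem norm_mRep_le {m : ℕ} (W : Matrix (Fin m) (Fin m) (Cc G X)) :
    ‖(mRep G X m).rep W‖ ≤ ∑ i, ∑ j, redNorm (W i j) := by
  have ht : 0 ≤ ∑ i, ∑ j, redNorm (W i j) :=
    Finset.sum_nonneg fun i _ => Finset.sum_nonneg fun j _ => redNorm_nonneg _
  obtain ⟨B, σ, hK⟩ := mker_bound W
  refine KerRep.norm_rep_le _ W ht fun x => ?_
  refine Ker.norm_intOp_le_of (hK x) ht fun f₀ hf₀ => ?_
  show eLpNorm (kapp (hm G m) (mker W x) f₀) 2 (hm G m) ≤ _
  -- a measurable representative
  obtain ⟨f, hfm, hff⟩ := hf₀.1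
  have hf : MemLp f 2 (hm G m) := (memLp_congr_ae hff).1 hf₀
  rw [kapp_congr hff, eLpNorm_congr_ae hff]
  have hfm' : Measurable f := hfm.measurable
  -- the components
  have hfj : ∀ j, MemLp (fun a => f (a, j)) 2 (haar : Measure G) := by
    intro j
    have h1 := hf.mono_measure (M3_map_le (G := G) m j)
    exact (memLp_map_measure_iff hfm.aestronglyMeasurable measurable_prodMk_right.aemeasurable).1 h1
  have hfj_le : ∀ j, eLpNorm (fun a => f (a, j)) 2 (haar : Measure G) ≤ eLpNorm f 2 (hm G m) := by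
    intro j
    have h1 := eLpNorm_mono_measure (p := 2) f (M3_map_le (G := G) m j)
    rw [eLpNorm_map_measure hfm.aestronglyMeasurable measurable_prodMk_right.aemeasurable] at h1
    exact h1
  set g := kapp (hm G m) (mker W x) f with hg
  have hgm : Measurable g := by
    have h1 : Measurable (Function.uncurry (fun (a b : G × Fin m) => mker W x a b * f b)) :=
      (hK x).meas.mul (hfm'.comp measurable_snd)
    exact (h1.stronglyMeasurable.integral_prod_right (ν := hm G m)).measurable
  have hgi : ∀ i a, g (a, i)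
      = ∑ j, kapp (haar : Measure G) (gker (W i j) x) (fun b => f (b, j)) a := by
    intro i a
    have hint := (hK x).integrable hf (a, i)
    show ∫ q, mker W x (a, i) q * f q ∂(hm G m) = _
    rw [integral_hm hint]
    rfl
  -- the rows
  have hrow : ∀ i, eLpNorm (fun a => g (a, i)) 2 (haar : Measure G)
      ≤ ENNReal.ofReal (∑ j, redNorm (W i j)) * eLpNorm f 2 (hm G m) := by
    intro i
    have e1 : (fun a => g (a, i))
        = ∑ j, kapp (haar : Measure G) (gker (W i j) x) (fun b => f (b, j)) := by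
      funext a
      rw [hgi i a, Finset.sum_apply]
    rw [e1]
    refine (eLpNorm_sum_le (fun j _ => ?_) (by norm_num)).trans ?_
    · obtain ⟨B', σ', hK'⟩ := gker_bound (W i j)
      exact (hK' x).aesm_kapp (hfj j).1
    · rw [ENNReal.ofReal_sum_of_nonneg fun j _ => redNorm_nonneg _, Finset.sum_mul]
      refine Finset.sum_le_sum fun j _ => ?_
      exact (eLpNorm_kapp_le_redNorm (W i j) x (hfj j)).trans
        (mul_le_mul_right (hfj_le j) _)
  -- sum over the rows
  have hsq : eLpNorm g 2 (hm G m) ^ 2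
      = ∑ i, eLpNorm (fun a => g (a, i)) 2 (haar : Measure G) ^ 2 := by
    rw [eLpNorm_two_sq, lintegral_hm (hgm.enorm.pow_const 2)]
    refine Finset.sum_congr rfl fun i _ => ?_
    rw [eLpNorm_two_sq]
  have hle : eLpNorm g 2 (hm G m) ≤ ∑ i, eLpNorm (fun a => g (a, i)) 2 (haar : Measure G) := by
    rw [← ENNReal.pow_le_pow_left_iff (two_ne_zero), hsq]
    have key : ∀ s : Finset (Fin m), ∑ i ∈ s, eLpNorm (fun a => g (a, i)) 2 (haar : Measure G) ^ 2
        ≤ (∑ i ∈ s, eLpNorm (fun a => g (a, i)) 2 (haar : Measure G)) ^ 2 := by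
      intro s
      classical
      induction s using Finset.induction_on with
      | empty => simp
      | insert i s hi ih =>
        rw [Finset.sum_insert hi, Finset.sum_insert hi, add_sq]
        calc _ ≤ eLpNorm (fun a => g (a, i)) 2 (haar : Measure G) ^ 2
              + (∑ i ∈ s, eLpNorm (fun a => g (a, i)) 2 (haar : Measure G)) ^ 2 :=
              add_le_add le_rfl ih
          _ ≤ _ := by
              refine add_le_add ?_ le_rfl
              exact le_self_add
    exact key Finset.univ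
  refine hle.trans ((Finset.sum_le_sum fun i _ => hrow i).trans (le_of_eq ?_))
  have hsum : ENNReal.ofReal (∑ i, ∑ j, redNorm (W i j))
      = ∑ i, ENNReal.ofReal (∑ j, redNorm (W i j)) :=
    ENNReal.ofReal_sum_of_nonneg (s := Finset.univ) (f := fun i => ∑ j, redNorm (W i j))
      fun i _ => Finset.sum_nonneg fun j _ => redNorm_nonneg _
  rw [← Finset.sum_mul, hsum]

end Pool.Agent.BCH
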