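import Pool.Agent.Lib.MP_aa9b81_an.H.H5
import Pool.Agent.Lib.MP_aa9b81_an.H.M3
import Pool.Agent.Lib.MP_aa9b81_an.H.ESemi
import Pool.Agent.Lib.MP_aa9b81_an.H.KTransfer

open MeasureTheory MeasureTheory.Measure Topology ENNReal NNReal

namespace Pool.Agent.BCH

universe u v w

variable {G : Type u} [Group G] [TopologicalSpace G] [IsTopologicalGroup G]
  [LocallyCompactSpace G] [SecondCountableTopology G] [T2Space G] [MeasurableSpace G]
  [BorelSpace G]
variable {X : Type v} [TopologicalSpace X] [T2Space X] [MulAction G X] [ContinuousSMul G X]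

theorem mpow_comm {A : Type*} [NonUnitalRing A] {m : ℕ} (W : Matrix (Fin m) (Fin m) A) (n : ℕ) :
    W * mpow W n = mpow W n * W := by
  induction n with
  | zero => rfl
  | succ n ih =>
    show W * (W * mpow W n) = W * mpow W n * W
    rw [Matrix.mul_assoc, ← ih]

theorem nuPow_eq_mpow {A : Type*} [NonUnitalRing A] {m : ℕ} (W : Matrix (Fin m) (Fin m) A)
    (n : ℕ) : nuPow W n = mpow W n := by
  induction n with
  | zero => rfl
  | succ n ih =>
    show nuPow W n * W = W * mpow W n
    rw [ih, mpow_comm]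

/-- The unital C*-algebra in which the matrices over `Cc G X` are represented. -/
abbrev DX (G : Type u) [Group G] [TopologicalSpace G] [IsTopologicalGroup G]
    [LocallyCompactSpace G] [SecondCountableTopology G] [T2Space G] [MeasurableSpace G]
    [BorelSpace G] (X : Type v) (m : ℕ) : Type (max u v) :=
  Unitization ℂ (BX X (G × Fin m) (hm G m))

/-- The representation. -/
noncomputable def TX (G : Type u) [Group G] [TopologicalSpace G] [IsTopologicalGroup G]
    [LocallyCompactSpace G] [SecondCountableTopology G] [T2Space G] [MeasurableSpace G]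
    [BorelSpace G] (X : Type v) [TopologicalSpace X] [T2Space X] [MulAction G X]
    [ContinuousSMul G X] (m : ℕ) :
    Matrix (Fin m) (Fin m) (Cc G X) →⋆ₙₐ[ℂ] DX G X m :=
  (Unitization.inrNonUnitalStarAlgHom ℂ (BX X (G × Fin m) (hm G m))).comp (mRep G X m).rep

theorem norm_TX (m : ℕ) (W : Matrix (Fin m) (Fin m) (Cc G X)) :
    ‖TX G X m W‖ = ‖(mRep G X m).rep W‖ :=
  Unitization.norm_inr _

/-- **The K-theory theorem.** -/
theorem K_iso (hG : HyperbolicGSpace G X) :
    Function.Bijective (KK0.map (redSemi_le_uncSemi G X)) ∧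
      Function.Bijective (KK1.map (redSemi_le_uncSemi G X)) := by
  have hT : ∀ (m : ℕ) (c : Matrix (Fin m) (Fin m) (Cc G X)),
      ‖TX G X m c‖ ≤ (fun _ : ℕ => (1 : ℝ)) m * ∑ i, ∑ j, redSemi G X (c i j) := by
    intro m c
    rw [norm_TX]
    refine (norm_mRep_le c).trans (le_of_eq ?_)
    exact (one_mul (∑ i, ∑ j, redNorm (c i j))).symm
  have HN : ∀ (m : ℕ) (W : Matrix (Fin m) (Fin m) (Cc G X)), ‖TX G X m W‖ < 1 →
      ∃ n, ∑ i, ∑ j, uncSemi G X ((nuPow W n) i j) < 1 := by
    intro m W hW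
    rw [norm_TX] at hW
    obtain ⟨n, hn⟩ := uncNorm_mpow_small hG W hW (ε := 1 / ((m : ℝ) * m + 1)) (by positivity)
    refine ⟨n, ?_⟩
    rw [nuPow_eq_mpow]
    have h1 : ∀ i j, uncSemi G X (mpow W n i j) ≤ 1 / ((m : ℝ) * m + 1) :=
      fun i j => (hn i j).le
    calc ∑ i, ∑ j, uncSemi G X (mpow W n i j)
        ≤ ∑ _i : Fin m, ∑ _j : Fin m, 1 / ((m : ℝ) * m + 1) :=
          Finset.sum_le_sum fun i _ => Finset.sum_le_sum fun j _ => h1 i j
      _ = ((m : ℝ) * m) / ((m : ℝ) * m + 1) := by
          simp only [Finset.sum_const, Finset.card_univ, Fintype.card_fin, nsmul_eq_mul]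
          ring
      _ < 1 := by
          rw [div_lt_one (by positivity)]
          linarith
  exact ⟨KK0.bijective_of_rep (redSemi_le_uncSemi G X) (fun m => DX G X m) (fun m => TX G X m)
      (fun _ => 1) hT HN,
    KK1.bijective_of_rep (redSemi_le_uncSemi G X) (fun m => DX G X m) (fun m => TX G X m)
      (fun _ => 1) hT HN⟩

end Pool.Agent.BCH
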