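import Pool.Agent.Lib.MP_aa9b81_an.H.BMul

open MeasureTheory MeasureTheory.Measure Topology ENNReal NNReal

namespace Pool.Agent.BCH

universe u v w

/-- The Banach algebra `B` with the map `ι : Cc G X → B` is the unitization of the completion of the
convolution algebra `Cc G X` for the norm `ν` (with the norm `|c| + ν(F)` of `c + F`). -/
structure IsCompletion {G : Type u} [Group G] [TopologicalSpace G] [IsTopologicalGroup G]
    [LocallyCompactSpace G] [SecondCountableTopology G] [T2Space G] [MeasurableSpace G]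
    [BorelSpace G] {X : Type v} [TopologicalSpace X] [T2Space X] [MulAction G X]
    [ContinuousSMul G X] (ν : Cc G X → ℝ) {B : Type w} [NormedRing B] [NormedAlgebra ℂ B]
    (ι : Cc G X → B) : Prop where
  add : ∀ F H : Cc G X, ι (F + H) = ι F + ι H
  smul : ∀ (c : ℂ) (F : Cc G X), ι (c • F) = c • ι F
  mul : ∀ F H : Cc G X, ι (F * H) = ι F * ι H
  norm : ∀ (c : ℂ) (F : Cc G X), ‖algebraMap ℂ B c + ι F‖ = ‖c‖ + ν F
  dense : ∀ (b : B) (ε : ℝ), 0 < ε →
    ∃ (c : ℂ) (F : Cc G X), ‖b - (algebraMap ℂ B c + ι F)‖ < ε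

end Pool.Agent.BCH
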