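import Pool.Agent.Lib.MP_aa9b81_an.H.KMain

/-!
# K-theory isomorphisms in elementary terms

`KBij φ`: the homomorphism `φ` of Banach algebras induces bijections on Murray-von Neumann classes
of idempotent matrices and on path components of invertible matrices of each size; so it induces
isomorphisms on `K_0` and `K_1`.
-/

open UniformSpace

namespace Pool.Agent.BCH

universe u v

/-- `φ` induces bijections on classes of idempotent matrices (`e ~ f` iff `e = x y`, `f = y x` for
some matrices `x`, `y`) and on `π₀(GL_n)` for every `n`. Hence it induces isomorphisms on `K_0` and `K_1`. -/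
structure KBij {B : Type u} {C : Type v} [Ring B] [TopologicalSpace B] [Ring C]
    [TopologicalSpace C] (φ : B →+* C) : Prop where
  idem_surj : ∀ (n : ℕ) (f : Matrix (Fin n) (Fin n) C), f * f = f →
    ∃ e : Matrix (Fin n) (Fin n) B, e * e = e ∧
      ∃ x y : Matrix (Fin n) (Fin n) C, f = x * y ∧ e.map φ = y * x
  idem_inj : ∀ (n m : ℕ) (e : Matrix (Fin n) (Fin n) B) (f : Matrix (Fin m) (Fin m) B),
    e * e = e → f * f = f →
    (∃ (x : Matrix (Fin n) (Fin m) C) (y : Matrix (Fin m) (Fin n) C),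
      e.map φ = x * y ∧ f.map φ = y * x) →
    ∃ (x : Matrix (Fin n) (Fin m) B) (y : Matrix (Fin m) (Fin n) B), e = x * y ∧ f = y * x
  gl_surj : ∀ (n : ℕ) (v : (Matrix (Fin n) (Fin n) C)ˣ),
    ∃ u : (Matrix (Fin n) (Fin n) B)ˣ, Joined (Units.map φ.mapMatrix.toMonoidHom u) v
  gl_inj : ∀ (n : ℕ) (u u' : (Matrix (Fin n) (Fin n) B)ˣ),
    Joined (Units.map φ.mapMatrix.toMonoidHom u) (Units.map φ.mapMatrix.toMonoidHom u') →
    Joined u u'

attribute [local instance] Matrix.linftyOpNormedRing Matrix.linftyOpNormedAlgebra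

theorem CRelSpec.kBij {R : Type u} {S : Type v} [NormedRing R] [NormedAlgebra ℂ R]
    [CompleteSpace R] [NormedRing S] [NormedAlgebra ℂ S] [CompleteSpace S]
    {φ : R →ₐ[ℂ] S} {C : Subalgebra ℂ R} (H : CRelSpec φ C) : KBij (φ : R →+* S) where
  idem_surj n f hf := by
    obtain ⟨e, he, hs⟩ := (H.relSpec (Fin n)).exists_idem hf
    have h1 : MvN f (e.map φ) := by
      refine mvN_of_sim hf ?_ hs
      show (φ.mapMatrix : Matrix (Fin n) (Fin n) R →ₐ[ℂ] Matrix (Fin n) (Fin n) S) e *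
        (φ.mapMatrix : Matrix (Fin n) (Fin n) R →ₐ[ℂ] Matrix (Fin n) (Fin n) S) e = _
      rw [← map_mul, he]
      rfl
    obtain ⟨x, y, h2, h3⟩ := h1
    exact ⟨e, he, x, y, h2.symm, h3.symm⟩
  idem_inj n m e f he hf h := by
    obtain ⟨x, y, h1, h2⟩ := h
    obtain ⟨x', y', h3, h4⟩ := H.mvN_of_map he hf ⟨x, y, h1.symm, h2.symm⟩
    exact ⟨x', y', h3.symm, h4.symm⟩
  gl_surj n v := by
    obtain ⟨r, hr⟩ := (H.relSpec (Fin n)).joined_surj v
    exact ⟨r, hr.symm⟩
  gl_inj n u u' h := by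
    have h1 : Joined (1 : GLn S n) (GLn.map (φ : R →+* S) n (u⁻¹ * u')) := by
      rw [map_mul, map_inv]
      have h2 : Joined ((GLn.map (φ : R →+* S) n u)⁻¹ * GLn.map (φ : R →+* S) n u)
          ((GLn.map (φ : R →+* S) n u)⁻¹ * GLn.map (φ : R →+* S) n u') :=
        (Joined.refl _).mul h
      rwa [inv_mul_cancel] at h2
    have h3 : Joined (1 : GLn R n) (u⁻¹ * u') := (H.relSpec (Fin n)).joined_inj _ h1
    have h4 : Joined (u * 1) (u * (u⁻¹ * u')) := (Joined.refl u).mul h3
    rwa [mul_one, mul_inv_cancel_left] at h4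

end Pool.Agent.BCH
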