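import Pool.Agent.Lib.MP_aa9b81_an.H.F
import Pool.Agent.Lib.MP_aa9b81_an.H.FDefs
import Pool.Agent.Lib.MP_aa9b81_an.H.KBij

open MeasureTheory MeasureTheory.Measure Topology ENNReal NNReal

namespace Pool.Agent.BCH

universe u v w

variable {G : Type u} [Group G] [TopologicalSpace G] [IsTopologicalGroup G]
  [LocallyCompactSpace G] [SecondCountableTopology G] [T2Space G] [MeasurableSpace G]
  [BorelSpace G]
variable {X : Type v} [TopologicalSpace X] [T2Space X] [MulAction G X] [ContinuousSMul G X]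

theorem isCompletion_inr (ν : AlgSeminorm (Cc G X)) :
    IsCompletion (fun F => ν F) (Compl.inr ν) where
  add F H := by
    show Compl.of ν ((F + H : Cc G X) : Unitization ℂ (Cc G X)) = _
    rw [Unitization.inr_add, Compl.of_add]
    rfl
  smul c F := by
    show Compl.of ν ((c • F : Cc G X) : Unitization ℂ (Cc G X)) = _
    rw [Unitization.inr_smul, Compl.of_smul]
    rfl
  mul F H := by
    show Compl.of ν ((F * H : Cc G X) : Unitization ℂ (Cc G X)) = _
    rw [Unitization.inr_mul, Compl.of_mul]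
    rfl
  norm c F := by
    have h1 : algebraMap ℂ (Compl (Cc G X) ν) c + Compl.inr ν F =
        Compl.of ν (algebraMap ℂ (Unitization ℂ (Cc G X)) c + (F : Unitization ℂ (Cc G X))) := by
      rw [Compl.of_add]
      rfl
    rw [h1, Compl.norm_of]
    have h2 : (algebraMap ℂ (Unitization ℂ (Cc G X)) c + (F : Unitization ℂ (Cc G X))).fst = c := by
      rw [Unitization.fst_add, Unitization.fst_inr, add_zero]
      rfl
    have h3 : (algebraMap ℂ (Unitization ℂ (Cc G X)) c + (F : Unitization ℂ (Cc G X))).snd = F := by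
      rw [Unitization.snd_add, Unitization.snd_inr]
      exact zero_add F
    rw [h2, h3]
  dense b ε hε := by
    obtain ⟨_, ⟨w, rfl⟩, hw⟩ := Metric.mem_closure_iff.1 (Compl.denseRange_of ν b) ε hε
    refine ⟨w.fst, w.snd, ?_⟩
    have h1 : algebraMap ℂ (Compl (Cc G X) ν) w.fst + Compl.inr ν w.snd = Compl.of ν w := by
      have h2 : algebraMap ℂ (Compl (Cc G X) ν) w.fst + Compl.inr ν w.snd =
        Compl.of ν (algebraMap ℂ (Unitization ℂ (Cc G X)) w.fst +
          (w.snd : Unitization ℂ (Cc G X))) := by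
        rw [Compl.of_add]
        rfl
      rw [h2]
      congr 1
      exact Unitization.inl_fst_add_inr_snd_eq w
    rw [h1, ← dist_eq_norm]
    exact hw

/-- Spectral permanence on hyperbolic `G`-spaces. -/
theorem isUnit_unc (hG : HyperbolicGSpace G X) (m : ℕ)
    (c : Matrix (Fin m) (Fin m) (Unitization ℂ (Cc G X)))
    (hc : IsUnit (c.map (Compl.of (redSemi G X)))) : IsUnit (c.map (Compl.of (uncSemi G X))) := by
  have hT : ∀ (m : ℕ) (c : Matrix (Fin m) (Fin m) (Cc G X)),
      ‖TX G X m c‖ ≤ (fun _ : ℕ => (1 : ℝ)) m * ∑ i, ∑ j, redSemi G X (c i j) := by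
    intro m c
    rw [norm_TX]
    refine (norm_mRep_le c).trans (le_of_eq ?_)
    exact (one_mul (∑ i, ∑ j, redNorm (c i j))).symm
  have HN : ∀ (m : ℕ) (W : Matrix (Fin m) (Fin m) (Cc G X)), ‖TX G X m W‖ < 1 →
      ∃ n, ∑ i, ∑ j, uncSemi G X ((nuPow W n) i j) < 1 := by
    intro m W hW
    rw [norm_TX] at hW
    obtain ⟨n, hn⟩ := uncNorm_mpow_small hG W hW (ε := 1 / ((m : ℝ) * m + 1)) (by positivity)
    refine ⟨n, ?_⟩
    rw [nuPow_eq_mpow]
    have h1 : ∀ i j, uncSemi G X (mpow W n i j) ≤ 1 / ((m : ℝ) * m + 1) :=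
      fun i j => (hn i j).le
    calc ∑ i, ∑ j, uncSemi G X (mpow W n i j)
        ≤ ∑ _i : Fin m, ∑ _j : Fin m, 1 / ((m : ℝ) * m + 1) :=
          Finset.sum_le_sum fun i _ => Finset.sum_le_sum fun j _ => h1 i j
      _ = ((m : ℝ) * m) / ((m : ℝ) * m + 1) := by
          simp only [Finset.sum_const, Finset.card_univ, Fintype.card_fin, nsmul_eq_mul]
          ring
      _ < 1 := by
          rw [div_lt_one (by positivity)]
          linarith
  exact isUnit_transfer (fun m => DX G X m) (fun m => TX G X m) (fun _ => 1) hT HN m c hc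

/-- **Main theorem**, in elementary terms. -/
theorem exists_kBij (hG : HyperbolicGSpace G X) :
    ∃ (B B' : Type (max u v)) (_ : NormedRing B) (_ : NormedAlgebra ℂ B) (_ : CompleteSpace B)
      (_ : NormedRing B') (_ : NormedAlgebra ℂ B') (_ : CompleteSpace B')
      (ι : Cc G X → B) (ι' : Cc G X → B') (φ : B →ₐ[ℂ] B'),
      IsCompletion uncNorm ι ∧ IsCompletion redNorm ι' ∧ Continuous φ ∧
        (∀ F, φ (ι F) = ι' F) ∧ KBij (φ : B →+* B') := by
  refine ⟨Compl (Cc G X) (uncSemi G X), Compl (Cc G X) (redSemi G X), inferInstance,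
    inferInstance, inferInstance, inferInstance, inferInstance, inferInstance,
    Compl.inr (uncSemi G X), Compl.inr (redSemi G X), Compl.idAlg (redSemi_le_uncSemi G X),
    isCompletion_inr (uncSemi G X), isCompletion_inr (redSemi G X),
    Compl.continuous_id (redSemi_le_uncSemi G X), ?_,
    (Compl.cRelSpec (redSemi_le_uncSemi G X) (isUnit_unc hG)).kBij⟩
  intro F
  exact Compl.id_of (redSemi_le_uncSemi G X) (F : Unitization ℂ (Cc G X))

end Pool.Agent.BCH
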