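import Pool.Agent.Lib.MP_aa9b81_an.H.B0

open MeasureTheory MeasureTheory.Measure Topology ENNReal NNReal

namespace Pool.Agent.BCH

universe u v w

variable {G : Type u} [Group G] [TopologicalSpace G] [IsTopologicalGroup G]
  [LocallyCompactSpace G] [SecondCountableTopology G] [T2Space G] [MeasurableSpace G]
  [BorelSpace G]
variable {X : Type v} [TopologicalSpace X] [T2Space X] [MulAction G X] [ContinuousSMul G X]

/-- Powers of a matrix over a nonunital ring: `mpow W n = W ^ (n + 1)`. -/
def mpow {A : Type*} [NonUnitalRing A] {m : ℕ} (W : Matrix (Fin m) (Fin m) A) :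
    ℕ → Matrix (Fin m) (Fin m) A
  | 0 => W
  | n + 1 => W * mpow W n

/-- The measure on `G × Fin m`. -/
noncomputable abbrev hm (G : Type u) [Group G] [TopologicalSpace G] [IsTopologicalGroup G]
    [LocallyCompactSpace G] [MeasurableSpace G] [BorelSpace G] (m : ℕ) : Measure (G × Fin m) :=
  (haar : Measure G).prod (count : Measure (Fin m))

noncomputable example (m : ℕ) : SigmaFinite (hm G m) := inferInstance

/-- The kernel on `G × Fin m` of a matrix over `Cc G X` at the point `x`. -/
def mker {m : ℕ} (W : Matrix (Fin m) (Fin m) (Cc G X)) (x : X) (a b : G × Fin m) : ℂ :=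
  W a.2 b.2 (a.1⁻¹ • x, a.1⁻¹ * b.1)

end Pool.Agent.BCH
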