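import Pool.Agent.Lib.MP_aa9b81_an.H.HDefs
import Pool.Agent.Lib.MP_aa9b81_an.H.MDefs

open MeasureTheory MeasureTheory.Measure Topology ENNReal NNReal

namespace Pool.Agent.BCH

universe u v w

variable {G : Type u} [Group G] [TopologicalSpace G] [IsTopologicalGroup G]
  [LocallyCompactSpace G] [SecondCountableTopology G] [T2Space G] [MeasurableSpace G]
  [BorelSpace G]
variable {X : Type v} [TopologicalSpace X] [T2Space X] [MulAction G X] [ContinuousSMul G X]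

/-- A matrix over `Cc G X` is supported in returns to a compact set `Q`, with `a⁻¹ b` in a compact set
`C`: `C = ⋃ gsupp (W i j)`, `Q = ⋃ (xsupp (W i j) ∪ (image of gsupp × xsupp under (g, x) ↦ g⁻¹ x))`. Note
`(a⁻¹ b)⁻¹ (a⁻¹ x) = b⁻¹ x`. -/
theorem exists_supp {m : ℕ} (W : Matrix (Fin m) (Fin m) (Cc G X)) :
    ∃ (Q : Set X) (C : Set G), IsCompact Q ∧ IsCompact C ∧
      ∀ x a b, mker W x a b ≠ 0 → a.1 ∈ ret Q x ∧ b.1 ∈ ret Q x ∧ a.1⁻¹ * b.1 ∈ C := by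
  refine ⟨⋃ i, ⋃ j, ((Prod.fst '' tsupport (W i j).toFun) ∪
    ((fun p : X × G => p.2⁻¹ • p.1) '' tsupport (W i j).toFun)),
    ⋃ i, ⋃ j, (Prod.snd '' tsupport (W i j).toFun), ?_, ?_, ?_⟩
  · refine isCompact_iUnion fun i => isCompact_iUnion fun j => ?_
    refine ((W i j).supp.isCompact.image continuous_fst).union
      ((W i j).supp.isCompact.image ?_)
    exact (continuous_inv.comp continuous_snd).smul continuous_fst
  · refine isCompact_iUnion fun i => isCompact_iUnion fun j => ?_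
    exact (W i j).supp.isCompact.image continuous_snd
  · intro x a b h
    have hs : (a.1⁻¹ • x, a.1⁻¹ * b.1) ∈ tsupport (W a.2 b.2).toFun := subset_tsupport _ h
    refine ⟨?_, ?_, ?_⟩
    · refine Set.mem_iUnion.2 ⟨a.2, Set.mem_iUnion.2 ⟨b.2, Or.inl ⟨_, hs, rfl⟩⟩⟩
    · refine Set.mem_iUnion.2 ⟨a.2, Set.mem_iUnion.2 ⟨b.2, Or.inr ⟨_, hs, ?_⟩⟩⟩
      show (a.1⁻¹ * b.1)⁻¹ • (a.1⁻¹ • x) = b.1⁻¹ • x
      rw [smul_smul]; congr 1; group
    · exact Set.mem_iUnion.2 ⟨a.2, Set.mem_iUnion.2 ⟨b.2, ⟨_, hs, rfl⟩⟩⟩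

end Pool.Agent.BCH
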