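import Pool.Agent.Lib.MP_aa9b81_an.H.HDefs
import Pool.Agent.Lib.MP_aa9b81_an.H.ADefs

open MeasureTheory MeasureTheory.Measure Topology ENNReal NNReal

namespace Pool.Agent.BCH

universe u v w

variable {G : Type u} [Group G] {S C : Set G} {m : ℕ}

/-- The constant chain. -/
theorem Reach.refl (h1 : (1 : G) ∈ C) {a : G} (ha : a ∈ S) (n : ℕ) : Reach S C n a a :=
  ⟨fun _ => a, rfl, rfl, fun _ _ => ha, fun _ _ => by simpa using h1⟩

/-- Concatenation: `fun i => if i ≤ n then g i else g' (i - n)`. -/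
theorem Reach.trans {n n' : ℕ} {a b c : G} (h : Reach S C n a b) (h' : Reach S C n' b c) :
    Reach S C (n + n') a c := by
  obtain ⟨g, g0, gn, gS, gC⟩ := h
  obtain ⟨g', g0', gn', gS', gC'⟩ := h'
  refine ⟨fun i => if i ≤ n then g i else g' (i - n), ?_, ?_, ?_, ?_⟩
  · simp [g0]
  · by_cases hn : n' = 0
    · subst hn
      simp only [add_zero, le_refl, if_true]
      rw [gn, ← gn', g0']
    · have : ¬ n + n' ≤ n := by omega
      simp only [this, if_false]
      rw [show n + n' - n = n' by omega, gn']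
  · intro i hi
    by_cases hin : i ≤ n
    · simp only [hin, if_true]
      exact gS i hin
    · simp only [hin, if_false]
      exact gS' _ (by omega)
  · intro i hi
    by_cases hin : i + 1 ≤ n
    · have h2 : i ≤ n := by omega
      simp only [hin, h2, if_true]
      exact gC i (by omega)
    · by_cases hi2 : i ≤ n
      · have h3 : i = n := by omega
        subst h3
        simp only [le_refl, if_true, hin, if_false]
        rw [gn, ← g0', show i + 1 - i = 0 + 1 by omega]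
        exact gC' 0 (by omega)
      · simp only [hin, hi2, if_false]
        rw [show i + 1 - n = (i - n) + 1 by omega]
        exact gC' _ (by omega)

/-- `trans` with `refl`. -/
theorem Reach.mono (h1 : (1 : G) ∈ C) {n n' : ℕ} {a b : G} (h : Reach S C n a b) (hn : n ≤ n') :
    Reach S C n' a b := by
  have hb : b ∈ S := by
    obtain ⟨g, -, gn, gS, -⟩ := h
    rw [← gn]
    exact gS n le_rfl
  have := h.trans (Reach.refl h1 hb (n' - n))
  rwa [show n + (n' - n) = n' by omega] at this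

/-- The reversed chain `fun i => g (n - i)`. -/
theorem Reach.symm (hs : C⁻¹ = C) {n : ℕ} {a b : G} (h : Reach S C n a b) : Reach S C n b a := by
  obtain ⟨g, g0, gn, gS, gC⟩ := h
  refine ⟨fun i => g (n - i), ?_, ?_, ?_, ?_⟩
  · simpa using gn
  · simpa using g0
  · intro i _
    exact gS _ (by omega)
  · intro i hi
    have h1 := gC (n - (i + 1)) (by omega)
    rw [show n - (i + 1) + 1 = n - i by omega] at h1
    rw [← hs, Set.mem_inv]
    simpa using h1

/-- A chain of steps of `k` which starts in `S` stays in `S`. -/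
theorem reach_of_chain {k : G × Fin m → G × Fin m → ℂ}
    (hk : ∀ a b, k a b ≠ 0 → a.1 ∈ S ∧ b.1 ∈ S ∧ a.1⁻¹ * b.1 ∈ C) {x : ℕ → G × Fin m} {i : ℕ}
    (hx : Chain k x i) (h0 : (x 0).1 ∈ S) : Reach S C i (x 0).1 (x i).1 := by
  refine ⟨fun j => (x j).1, rfl, rfl, ?_, ?_⟩
  · intro j hj
    rcases j with _ | j
    · exact h0
    · exact (hk _ _ (hx j (by omega))).2.1
  · intro j hj
    exact (hk _ _ (hx j hj)).2.2

/-- Same, if the end point is in `S` (if `0 < i` the start is in `S` by `hk`; if `i = 0` it is the end). -/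
theorem reach_of_chain' {k : G × Fin m → G × Fin m → ℂ}
    (hk : ∀ a b, k a b ≠ 0 → a.1 ∈ S ∧ b.1 ∈ S ∧ a.1⁻¹ * b.1 ∈ C) {x : ℕ → G × Fin m} {i : ℕ}
    (hx : Chain k x i) (h0 : (x i).1 ∈ S) : Reach S C i (x 0).1 (x i).1 := by
  refine reach_of_chain hk hx ?_
  rcases Nat.eq_zero_or_pos i with hi | hi
  · rwa [hi] at h0
  · exact (hk _ _ (hx 0 hi)).1

/-- Two chains with the same start: `x i → x 0 = x' 0 → x' i'`, in `i + i' ≤ 2 (n + 1)` steps. -/
theorem chain_E1 (h1 : (1 : G) ∈ C) (hs : C⁻¹ = C) {k : G × Fin m → G × Fin m → ℂ}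
    (hk : ∀ a b, k a b ≠ 0 → a.1 ∈ S ∧ b.1 ∈ S ∧ a.1⁻¹ * b.1 ∈ C) {x x' : ℕ → G × Fin m}
    {i i' n : ℕ} (hi : i ≤ n + 1) (hi' : i' ≤ n + 1) (hx : Chain k x i) (hx' : Chain k x' i')
    (h : x 0 = x' 0) (hS : (x i).1 ∈ S) : Reach S C (2 * (n + 1)) (x i).1 (x' i').1 := by
  have h2 := reach_of_chain' hk hx hS
  have h3 : (x 0).1 ∈ S := by
    obtain ⟨g, g0, -, gS, -⟩ := h2
    rw [← g0]
    exact gS 0 (Nat.zero_le _)
  have h4 : Reach S C i' (x' 0).1 (x' i').1 := reach_of_chain hk hx' (by rw [← h]; exact h3)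
  rw [← h] at h4
  exact ((h2.symm hs).trans h4).mono h1 (by omega)

/-- Two chains with the same end: `x 0 → x i = x' i' → x' 0`. -/
theorem chain_E2 (h1 : (1 : G) ∈ C) (hs : C⁻¹ = C) {k : G × Fin m → G × Fin m → ℂ}
    (hk : ∀ a b, k a b ≠ 0 → a.1 ∈ S ∧ b.1 ∈ S ∧ a.1⁻¹ * b.1 ∈ C) {x x' : ℕ → G × Fin m}
    {i i' n : ℕ} (hi : i ≤ n + 1) (hi' : i' ≤ n + 1) (hx : Chain k x i) (hx' : Chain k x' i')
    (h : x i = x' i') (hS : (x 0).1 ∈ S) : Reach S C (2 * (n + 1)) (x 0).1 (x' 0).1 := by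
  have h2 := reach_of_chain hk hx hS
  have h3 : (x i).1 ∈ S := by
    obtain ⟨g, -, gn, gS, -⟩ := h2
    rw [← gn]
    exact gS i le_rfl
  have h4 : Reach S C i' (x' 0).1 (x' i').1 := reach_of_chain' hk hx' (by rw [← h]; exact h3)
  rw [← h] at h4
  exact (h2.trans (h4.symm hs)).mono h1 (by omega)

end Pool.Agent.BCH
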