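import Mathlib

namespace Pool.Agent.BCH

/-- `p_n = clog 2 (n+1)`; `2 (1 + p_n δ + R) + 4 δ ≤ c log (n+1)` for all `n ≥ 1`, for a suitable `c`.
(`Nat.clog 2 (n+1) ≤ log (n+1) / log 2 + 1`, `log (n+1) ≥ log 2 > 0`.) -/
theorem radius_le {δ R : ℝ} (hδ : 0 ≤ δ) (hR : 0 ≤ R) :
    ∃ c : ℝ, 0 < c ∧ ∀ n : ℕ, 1 ≤ n →
      2 * (1 + (Nat.clog 2 (n + 1) : ℝ) * δ + R) + 4 * δ ≤ c * Real.log ((n + 1 : ℕ) : ℝ) := by
  have hl2 : 0 < Real.log 2 := Real.log_pos (by norm_num)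
  refine ⟨2 * δ / Real.log 2 + (2 + 6 * δ + 2 * R) / Real.log 2, by positivity, fun n hn => ?_⟩
  set L := Real.log ((n + 1 : ℕ) : ℝ) with hL
  have hL2 : Real.log 2 ≤ L := by
    refine Real.log_le_log (by norm_num) ?_
    have : (1 : ℝ) ≤ n := by exact_mod_cast hn
    push_cast
    linarith
  set p := Nat.clog 2 (n + 1) with hp
  have hp1 : 1 ≤ p := Nat.clog_pos (by norm_num) (by omega)
  have hpow : 2 ^ p.pred < n + 1 := Nat.pow_pred_clog_lt_self (by norm_num) (by omega)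
  have hpL : ((p : ℝ) - 1) * Real.log 2 ≤ L := by
    have h1 : ((2 : ℝ) ^ p.pred) ≤ ((n + 1 : ℕ) : ℝ) := by exact_mod_cast hpow.le
    have h2 := Real.log_le_log (by positivity) h1
    rw [Real.log_pow] at h2
    have h3 : ((p.pred : ℕ) : ℝ) = (p : ℝ) - 1 := by
      rw [Nat.pred_eq_sub_one]
      push_cast [hp1]
      ring
    rwa [h3] at h2
  have hpL' : (p : ℝ) ≤ L / Real.log 2 + 1 := by
    have : (p : ℝ) - 1 ≤ L / Real.log 2 := by
      rw [le_div_iff₀ hl2]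
      exact hpL
    linarith
  have h1 : (p : ℝ) * δ ≤ (L / Real.log 2 + 1) * δ := mul_le_mul_of_nonneg_right hpL' hδ
  have h2 : (2 + 6 * δ + 2 * R) ≤ (2 + 6 * δ + 2 * R) / Real.log 2 * L := by
    rw [div_mul_eq_mul_div, le_div_iff₀ hl2]
    exact mul_le_mul_of_nonneg_left hL2 (by positivity)
  have h3 : (2 * δ / Real.log 2 + (2 + 6 * δ + 2 * R) / Real.log 2) * L
      = 2 * (L / Real.log 2 * δ) + (2 + 6 * δ + 2 * R) / Real.log 2 * L := by
    field_simp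
  rw [h3]
  have h4 : (L / Real.log 2 + 1) * δ = L / Real.log 2 * δ + δ := by ring
  linarith

end Pool.Agent.BCH
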