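import Pool.Agent.Lib.MP_aa9b81_an.H.MDefs

open MeasureTheory MeasureTheory.Measure Topology ENNReal NNReal

namespace Pool.Agent.BCH

universe u v w

variable {G : Type u} [Group G] [TopologicalSpace G] [IsTopologicalGroup G]
  [LocallyCompactSpace G] [SecondCountableTopology G] [T2Space G] [MeasurableSpace G]
  [BorelSpace G]
variable {X : Type v} [TopologicalSpace X] [T2Space X] [MulAction G X] [ContinuousSMul G X]

/-- Integration over `G × Fin m`. -/
theorem lintegral_hm {m : ℕ} {f : G × Fin m → ℝ≥0∞} (hf : Measurable f) :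
    ∫⁻ q, f q ∂(hm G m) = ∑ j, ∫⁻ a, f (a, j) ∂(haar : Measure G) := by
  show ∫⁻ q, f q ∂((haar : Measure G).prod (count : Measure (Fin m))) = _
  rw [lintegral_prod f hf.aemeasurable]
  have h1 : ∀ a, ∫⁻ j, f (a, j) ∂(count : Measure (Fin m)) = ∑ j, f (a, j) := by
    intro a
    rw [lintegral_count, tsum_fintype]
  simp only [h1]
  exact lintegral_finsetSum (Finset.univ : Finset (Fin m)) (f := fun j a => f (a, j))
    fun j _ => hf.comp measurable_prodMk_right

theorem integral_hm {m : ℕ} {f : G × Fin m → ℂ} (hf : Integrable f (hm G m)) :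
    ∫ q, f q ∂(hm G m) = ∑ j, ∫ a, f (a, j) ∂(haar : Measure G) := by
  show ∫ q, f q ∂((haar : Measure G).prod (count : Measure (Fin m))) = _
  rw [integral_prod_symm f hf, integral_count]

end Pool.Agent.BCH
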