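import Pool.Agent.Lib.MP_aa9b81_an.H.C9
import Pool.Agent.Lib.MP_aa9b81_an.H.M1

open MeasureTheory MeasureTheory.Measure Topology ENNReal NNReal

namespace Pool.Agent.BCH

universe u v w

variable {G : Type u} [Group G] [TopologicalSpace G] [IsTopologicalGroup G]
  [LocallyCompactSpace G] [SecondCountableTopology G] [T2Space G] [MeasurableSpace G]
  [BorelSpace G]
variable {X : Type v} [TopologicalSpace X] [T2Space X] [MulAction G X] [ContinuousSMul G X]

private theorem M2_sum_apply {ι : Type*} (s : Finset ι) (F : ι → Cc G X) (p : X × G) :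
    (∑ i ∈ s, F i : Cc G X) p = ∑ i ∈ s, F i p := by
  have h := map_sum (Cc.toFunHom : Cc G X →+ (X × G → ℂ)) F s
  have h2 := congrFun h p
  rw [Finset.sum_apply] at h2
  exact h2

private theorem M2_int {Z : Type*} [MeasurableSpace Z] {ν : Measure Z} {k : Z → Z → ℂ}
    {B σ : ℝ≥0} (hk : Ker ν k B σ) (a : Z) {g : Z → ℂ}
    (hg : Measurable g) {C : ℝ≥0} (hC : ∀ z, ‖g z‖ₑ ≤ C) :
    Integrable (fun z => k a z * g z) ν := by
  have hka : Measurable (fun z => k a z) := hk.meas.comp (measurable_const.prodMk measurable_id)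
  refine ⟨(hka.mul hg).aestronglyMeasurable, ?_⟩
  show ∫⁻ z, ‖k a z * g z‖ₑ ∂ν < ∞
  calc ∫⁻ z, ‖k a z * g z‖ₑ ∂ν ≤ ∫⁻ z, ‖k a z‖ₑ * C ∂ν := by
        refine lintegral_mono fun z => ?_
        rw [enorm_mul]
        exact mul_le_mul_right (hC z) _
    _ = (∫⁻ z, ‖k a z‖ₑ ∂ν) * C := by
        rw [lintegral_mul_const _ hka.enorm]
    _ ≤ σ * C := mul_le_mul_left (hk.row a) _
    _ < ∞ := ENNReal.mul_lt_top coe_lt_top coe_lt_top

/-- Uniform Schur bounds for the matrix kernels: from `gker_bound` for the finitely many entries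
(`B` = sum of the `B`'s, `σ` = sum of the `σ`'s) and `lintegral_hm`. -/
theorem mker_bound {m : ℕ} (W : Matrix (Fin m) (Fin m) (Cc G X)) :
    ∃ B σ : ℝ≥0, ∀ x, Ker (hm G m) (mker W x) B σ := by
  have h : ∀ i j, ∃ B σ : ℝ≥0, ∀ x, Ker (haar : Measure G) (gker (W i j) x) B σ :=
    fun i j => gker_bound (W i j)
  choose B σ hK using h
  refine ⟨∑ i, ∑ j, B i j, ∑ i, ∑ j, σ i j, fun x => ?_⟩
  have hmeas : Measurable (Function.uncurry (mker W x)) := by
    have h1 : Measurable (fun q : (Fin m × Fin m) × (G × G) =>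
        gker (W q.1.1 q.1.2) x q.2.1 q.2.2) := by
      refine measurable_from_prod_countable_right fun ij => ?_
      exact (hK ij.1 ij.2 x).meas
    exact h1.comp (f := fun q : (G × Fin m) × (G × Fin m) =>
      ((q.1.2, q.2.2), (q.1.1, q.2.1))) (by fun_prop)
  have hBle : ∀ i j, B i j ≤ ∑ i, ∑ j, B i j := fun i j =>
    (Finset.single_le_sum (f := fun j => B i j) (fun _ _ => zero_le) (Finset.mem_univ j)).trans
      (Finset.single_le_sum (f := fun i => ∑ j, B i j) (fun _ _ => zero_le) (Finset.mem_univ i))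
  refine ⟨hmeas, ?_, ?_, ?_⟩
  · intro a b
    refine ((hK a.2 b.2 x).bd a.1 b.1).trans ?_
    exact_mod_cast hBle a.2 b.2
  · intro a
    have hma : Measurable (fun b => mker W x a b) :=
      hmeas.comp (measurable_const.prodMk measurable_id)
    rw [lintegral_hm hma.enorm]
    calc ∑ j, ∫⁻ b, ‖mker W x a (b, j)‖ₑ ∂(haar : Measure G)
        ≤ ∑ j, (σ a.2 j : ℝ≥0∞) := Finset.sum_le_sum fun j _ => (hK a.2 j x).row a.1
      _ = ((∑ j, σ a.2 j : ℝ≥0) : ℝ≥0∞) := by push_cast; rfl
      _ ≤ ((∑ i, ∑ j, σ i j : ℝ≥0) : ℝ≥0∞) := by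
          rw [ENNReal.coe_le_coe]
          exact Finset.single_le_sum (f := fun i => ∑ j, σ i j) (fun _ _ => zero_le)
            (Finset.mem_univ a.2)
  · intro b
    have hmb : Measurable (fun a => mker W x a b) :=
      hmeas.comp (measurable_id.prodMk measurable_const)
    rw [lintegral_hm hmb.enorm]
    calc ∑ i, ∫⁻ a, ‖mker W x (a, i) b‖ₑ ∂(haar : Measure G)
        ≤ ∑ i, (σ i b.2 : ℝ≥0∞) := Finset.sum_le_sum fun i _ => (hK i b.2 x).col b.1
      _ = ((∑ i, σ i b.2 : ℝ≥0) : ℝ≥0∞) := by push_cast; rfl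
      _ ≤ ((∑ i, ∑ j, σ i j : ℝ≥0) : ℝ≥0∞) := by
          rw [ENNReal.coe_le_coe]
          exact Finset.sum_le_sum fun i _ => Finset.single_le_sum (f := fun j => σ i j)
            (fun _ _ => zero_le) (Finset.mem_univ b.2)

theorem mker_add {m : ℕ} (W W' : Matrix (Fin m) (Fin m) (Cc G X)) (x : X) :
    mker (W + W') x = mker W x + mker W' x := rfl

theorem mker_smul {m : ℕ} (c : ℂ) (W : Matrix (Fin m) (Fin m) (Cc G X)) (x : X) :
    mker (c • W) x = c • mker W x := rfl

/-- Entrywise `gker_mul` and `integral_hm`: `∑_j ∫ W i j (a⁻¹x, a⁻¹z) W' j l (z⁻¹x, z⁻¹b) dz`. -/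
theorem mker_mul {m : ℕ} (W W' : Matrix (Fin m) (Fin m) (Cc G X)) (x : X) :
    mker (W * W') x = kcomp (hm G m) (mker W x) (mker W' x) := by
  obtain ⟨B, σ, hK⟩ := mker_bound W
  obtain ⟨B', σ', hK'⟩ := mker_bound W'
  funext a b
  have hint : Integrable (fun z => mker W x a z * mker W' x z b) (hm G m) :=
    M2_int (hK x) a ((hK' x).meas.comp (measurable_id.prodMk measurable_const))
      (C := B') (fun z => (hK' x).bd z b)
  have e1 : mker (W * W') x a b
      = ∑ j, gker (W a.2 j * W' j b.2) x a.1 b.1 := by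
    show (W * W') a.2 b.2 (a.1⁻¹ • x, a.1⁻¹ * b.1) = _
    rw [Matrix.mul_apply, M2_sum_apply]
    rfl
  rw [e1]
  show _ = ∫ z, mker W x a z * mker W' x z b ∂(hm G m)
  rw [integral_hm hint]
  refine Finset.sum_congr rfl fun j _ => ?_
  rw [gker_mul]
  rfl

/-- `star W = Wᴴ`, `(star W) i j = star (W j i)`; `gker_star`. -/
theorem mker_star {m : ℕ} (W : Matrix (Fin m) (Fin m) (Cc G X)) (x : X) :
    mker (star W) x = kadj (mker W x) := by
  funext a b
  show gker (star (W b.2 a.2)) x a.1 b.1 = kadj (mker W x) a b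
  rw [gker_star]
  rfl

/-- The regular representation data of `M_m(Cc G X)` on `L²(G × Fin m)`. -/
noncomputable def mRep (G : Type u) [Group G] [TopologicalSpace G] [IsTopologicalGroup G]
    [LocallyCompactSpace G] [SecondCountableTopology G] [T2Space G] [MeasurableSpace G]
    [BorelSpace G] (X : Type v) [TopologicalSpace X] [T2Space X] [MulAction G X]
    [ContinuousSMul G X] (m : ℕ) :
    KerRep (Matrix (Fin m) (Fin m) (Cc G X)) X (G × Fin m) (hm G m) where
  κ := mker
  bound := mker_bound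
  map_add := mker_add
  map_smul := mker_smul
  map_mul := mker_mul
  map_star := mker_star

end Pool.Agent.BCH
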