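import Pool.Agent.Lib.MP_aa9b81_an.H.H1
import Pool.Agent.Lib.MP_aa9b81_an.H.H3r
import Pool.Agent.Lib.MP_aa9b81_an.H.H2
import Pool.Agent.Lib.MP_aa9b81_an.H.A15
import Pool.Agent.Lib.MP_aa9b81_an.H.M2
import Pool.Agent.Lib.MP_aa9b81_an.H.C7

open MeasureTheory MeasureTheory.Measure Topology ENNReal NNReal

namespace Pool.Agent.BCH

universe u v w

variable {G : Type u} [Group G] [TopologicalSpace G] [IsTopologicalGroup G]
  [LocallyCompactSpace G] [SecondCountableTopology G] [T2Space G] [MeasurableSpace G]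
  [BorelSpace G]
variable {X : Type v} [TopologicalSpace X] [T2Space X] [MulAction G X] [ContinuousSMul G X]

/-- All the data for `abs_value_inequality`, for the kernel `mker W x` on `G × Fin m`, with
`S = {q | q.1 ∈ ret Q x}`, `d q q' = d x q.1 q'.1`, `E q q'`: if `q.1 ∈ ret Q x` then `q'.1` is reached from
`q.1` by `2 (n+1)` steps in `C` inside `ret Q x` (`chain_E1`, `chain_E2` with `S = ret Q x`),
`M = m * exp(ε (n+1))` for large `n`, uniformly in `x` and in the base point `o`. -/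
theorem exists_AVData {m : ℕ} (hG : HyperbolicGSpace G X) (W : Matrix (Fin m) (Fin m) (Cc G X)) :
    ∃ (Q : Set X) (B σ : ℝ≥0) (δ R : ℝ) (d : X → G → G → ℝ) (C : Set G),
      (∀ x a b, mker W x a b ≠ 0 → a.1 ∈ ret Q x ∧ b.1 ∈ ret Q x) ∧ 0 ≤ R ∧
      ∀ ε : ℝ, 0 < ε → ∀ᶠ n : ℕ in Filter.atTop, ∀ (x : X) (o : G × Fin m), o.1 ∈ ret Q x →
        AVData (hm G m) (mker W x) B σ (‖(mRep G X m).rep W‖₊ ^ 2)
          {q | q.1 ∈ ret Q x} (fun q q' => d x q.1 q'.1) δ R o n (Nat.clog 2 (n + 1))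
          (fun q q' => q.1 ∈ ret Q x → Reach (ret Q x) C (2 * (n + 1)) q.1 q'.1)
          ((m : ℝ≥0∞) * ENNReal.ofReal (Real.exp (ε * ((n + 1 : ℕ) : ℝ)))) := by
  obtain ⟨Q, C₀, hQ, hC₀, hsupp⟩ := exists_supp W
  obtain ⟨B, σ, hker⟩ := mker_bound W
  obtain ⟨δ₀, d, hd⟩ := hG Q hQ
  set C : Set G := C₀ ∪ C₀⁻¹ ∪ {1} with hCdef
  have hC : IsCompact C := (hC₀.union hC₀.inv).union isCompact_singleton
  have h1 : (1 : G) ∈ C := Or.inr rfl
  have hs : C⁻¹ = C := by
    rw [hCdef]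
    ext g
    simp only [Set.mem_inv, Set.mem_union, inv_inv, Set.mem_singleton_iff, inv_eq_one]
    tauto
  obtain ⟨R₀, hR₀⟩ := hd.bdd C hC
  have hδ : δ₀ ≤ max δ₀ 0 := le_max_left _ _
  have hδ0 : 0 ≤ max δ₀ 0 := le_max_right _ _
  have hR : 0 ≤ max R₀ 0 := le_max_right _ _
  obtain ⟨c, hc, hrad⟩ := radius_le hδ0 hR
  have hsupp' : ∀ x a b, mker W x a b ≠ 0 →
      a.1 ∈ (ret Q x : Set G) ∧ b.1 ∈ (ret Q x : Set G) ∧ a.1⁻¹ * b.1 ∈ C := by
    intro x a b hab
    obtain ⟨h2, h3, h4⟩ := hsupp x a b hab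
    exact ⟨h2, h3, Or.inl (Or.inl h4)⟩
  refine ⟨Q, B, σ, max δ₀ 0, max R₀ 0, d, C, fun x a b h => ⟨(hsupp' x a b h).1, (hsupp' x a b h).2.1⟩,
    hR, ?_⟩
  intro ε hε
  have hgr := hd.growth C hC c hc (ε / 2) (by positivity)
  have htend : Filter.Tendsto (fun n : ℕ => 2 * (n + 1)) Filter.atTop Filter.atTop :=
    Filter.tendsto_atTop_mono (fun n => by simp only [id]; omega) Filter.tendsto_id
  filter_upwards [htend.eventually hgr, Filter.eventually_ge_atTop 1] with n hn hn1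
  intro x o ho
  have hopn : ∀ V : Matrix (Fin m) (Fin m) (Cc G X),
      ‖intOp (hm G m) (mker V x)‖ ≤ ‖(mRep G X m).rep V‖ :=
    fun V => (mRep G X m).norm_intOp_le V x
  refine
    { ker := hker x
      op := ?_
      opT := ?_
      met := ?_
      dmeas := ?_
      step := ?_
      hR := hR
      ho := ho
      hp := ?_
      E1 := ?_
      E2 := ?_
      EM := ?_ }
  · refine (hker x).opBd ?_
    have := hopn W
    have h2 : ‖intOp (hm G m) (mker W x)‖ ^ 2 ≤ ‖(mRep G X m).rep W‖ ^ 2 :=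
      pow_le_pow_left₀ (norm_nonneg _) this 2
    simpa using h2
  · apply opBd_transpose
    obtain ⟨B', σ', hker'⟩ := mker_bound (star W)
    rw [← mker_star W x]
    refine (hker' x).opBd ?_
    have h3 := hopn (star W)
    have h4 : ‖(mRep G X m).rep (star W)‖ = ‖(mRep G X m).rep W‖ := by
      rw [map_star]
      exact norm_star (E := BX X (G × Fin m) (hm G m)) ((mRep G X m).rep W)
    rw [h4] at h3
    have h2 : ‖intOp (hm G m) (mker (star W) x)‖ ^ 2 ≤ ‖(mRep G X m).rep W‖ ^ 2 :=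
      pow_le_pow_left₀ (norm_nonneg _) h3 2
    simpa using h2
  · constructor
    · intro a ha; exact hd.self x _ ha
    · intro a ha b hb; exact hd.symm x _ ha _ hb
    · intro a ha b hb c hc; exact hd.tri x _ ha _ hb _ hc
    · intro o ho a ha b hb c hc
      refine (hd.hyp x _ ho _ ha _ hb _ hc).trans ?_
      gcongr
  · exact (hd.meas x).comp
      ((measurable_fst.comp measurable_fst).prodMk (measurable_fst.comp measurable_snd))
  · intro a b hab
    obtain ⟨h2, h3, h4⟩ := hsupp' x a b hab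
    exact ⟨h2, h3, (hR₀ x _ h2 _ h3 h4).trans (le_max_left _ _)⟩
  · exact Nat.le_pow_clog (by norm_num) _
  · intro y y' i i' hi hi' hy hy' h hS
    exact chain_E1 h1 hs (hsupp' x) hi hi' hy hy' h hS
  · intro y y' i i' hi hi' hy hy' h hS
    exact chain_E2 h1 hs (hsupp' x) hi hi' hy hy' h hS
  · intro y₀ hy₀
    have hsub : {y : G × Fin m | y ∈ {q : G × Fin m | q.1 ∈ (ret Q x : Set G)} ∧
        (y₀.1 ∈ (ret Q x : Set G) → Reach (ret Q x) C (2 * (n + 1)) y₀.1 y.1) ∧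
        d x y₀.1 y.1 ≤ 2 * (1 + (Nat.clog 2 (n + 1) : ℝ) * max δ₀ 0 + max R₀ 0) + 4 * max δ₀ 0} ⊆
        {b : G | Reach (ret Q x) C (2 * (n + 1)) y₀.1 b ∧
          d x y₀.1 b ≤ c * Real.log ((2 * (n + 1) : ℕ) : ℝ)} ×ˢ (Set.univ : Set (Fin m)) := by
      rintro y ⟨_, h3, h4⟩
      refine ⟨⟨h3 hy₀, h4.trans ((hrad n hn1).trans ?_)⟩, trivial⟩
      apply mul_le_mul_of_nonneg_left _ hc.le
      apply Real.log_le_log
      · exact_mod_cast Nat.succ_pos n
      · exact_mod_cast (by omega : n + 1 ≤ 2 * (n + 1))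
    refine (measure_mono hsub).trans ?_
    rw [Measure.prod_prod]
    have h5 := hn x y₀.1 hy₀
    have h6 : (count : Measure (Fin m)) Set.univ = (m : ℝ≥0∞) := by
      rw [Measure.count_univ]
      simp
    rw [h6, mul_comm]
    refine mul_le_mul' le_rfl (h5.trans (le_of_eq ?_))
    congr 2
    push_cast
    ring

end Pool.Agent.BCH
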