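import Pool.Agent.Lib.MP_aa9b81_an.H.AData

open MeasureTheory MeasureTheory.Measure Topology ENNReal NNReal

namespace Pool.Agent.BCH

universe u v w

/-- Numerical limit: if `c < 1` there is `ε > 0` such that
`((J_n+1)²)² * levC B σ c n (m exp(ε (n+1))) → 0`, where `J_n = ⌈(n+1) R + 1⌉₊`: it is a polynomial in `n` times
`exp(2 ε n) c ^ (n-1)`. Choose `ε` with `exp(2 ε) c < 1` (if `c = 0` any `ε`). All terms are finite; pass to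
reals, or bound by `const * n ^ 6 * q ^ n` with `q < 1`. -/
theorem levC_tendsto {B σ c : ℝ≥0} (hc : c < 1) (m : ℕ) {R : ℝ} (hR : 0 ≤ R) :
    ∃ ε : ℝ, 0 < ε ∧ Filter.Tendsto (fun n : ℕ =>
      ((((⌈((n : ℝ) + 1) * R + 1⌉₊ : ℕ) : ℝ≥0∞) + 1) ^ 2) ^ 2 *
        levC B σ c n ((m : ℝ≥0∞) * ENNReal.ofReal (Real.exp (ε * ((n + 1 : ℕ) : ℝ)))))
      Filter.atTop (𝓝 0) := by
  -- choose `q` strictly between `c` and `1`
  obtain ⟨q, hcq, hq1⟩ := exists_between hc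
  have hq0 : 0 < (q : ℝ) := lt_of_le_of_lt c.coe_nonneg (NNReal.coe_lt_coe.2 hcq)
  have hq1' : (q : ℝ) < 1 := by exact_mod_cast hq1
  have hcq' : (c : ℝ) ≤ q := (NNReal.coe_lt_coe.2 hcq).le
  have hlogq : Real.log q < 0 := Real.log_neg hq0 hq1'
  set ε : ℝ := -Real.log q / 4 with hε
  have hε0 : 0 < ε := by rw [hε]; linarith
  set ρ : ℝ := Real.exp (2 * ε) * q with hρ
  have hρ0 : 0 < ρ := by positivity
  have hρ1 : ρ < 1 := by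
    have h1 : ρ = Real.exp (Real.log q / 2) := by
      have h2 : (q : ℝ) = Real.exp (Real.log q) := (Real.exp_log hq0).symm
      rw [hρ, hε]
      nth_rewrite 2 [h2]
      rw [← Real.exp_add]
      congr 1
      ring
    rw [h1]
    exact Real.exp_lt_one_iff.2 (by linarith)
  refine ⟨ε, hε0, ?_⟩
  let N : ℕ → ℝ≥0 := fun n => ((((⌈((n : ℝ) + 1) * R + 1⌉₊ : ℕ) : ℝ≥0) + 1) ^ 2) ^ 2 *
    (((n : ℝ≥0) + 1) ^ 2 * (((m : ℝ≥0) * Real.toNNReal (Real.exp (ε * ((n + 1 : ℕ) : ℝ)))) ^ 2 *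
      (B * σ) ^ 2 * c ^ (n - 1) +
      ((m : ℝ≥0) * Real.toNNReal (Real.exp (ε * ((n + 1 : ℕ) : ℝ)))) * (B * σ) * c ^ n))
  have hN : ∀ n : ℕ, ((((⌈((n : ℝ) + 1) * R + 1⌉₊ : ℕ) : ℝ≥0∞) + 1) ^ 2) ^ 2 *
        levC B σ c n ((m : ℝ≥0∞) * ENNReal.ofReal (Real.exp (ε * ((n + 1 : ℕ) : ℝ))))
      = ((N n : ℝ≥0) : ℝ≥0∞) := by
    intro n
    simp only [N, levC, ENNReal.ofReal]
    push_cast
    rfl
  simp only [hN]
  rw [← ENNReal.coe_zero, ENNReal.tendsto_coe, ← NNReal.tendsto_coe]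
  set K : ℝ := R + 3 with hK
  set C : ℝ := (m : ℝ) ^ 2 * (B * σ) ^ 2 + m * (B * σ) with hC
  have hC0 : 0 ≤ C := by positivity
  have hK0 : 0 ≤ K := by positivity
  have hlim : Filter.Tendsto (fun n : ℕ => K ^ 4 * C * ((q : ℝ) ^ 2)⁻¹ *
      ((((n + 1 : ℕ) : ℝ)) ^ 6 * ρ ^ (n + 1))) Filter.atTop (𝓝 0) := by
    have h1 := tendsto_pow_const_mul_const_pow_of_abs_lt_one 6
      (show |ρ| < 1 by rw [abs_of_pos hρ0]; exact hρ1)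
    have h2 := (h1.comp (Filter.tendsto_add_atTop_nat 1)).const_mul (K ^ 4 * C * ((q : ℝ) ^ 2)⁻¹)
    rw [mul_zero] at h2
    exact h2
  have hz : ((0 : ℝ≥0) : ℝ) = 0 := rfl
  rw [hz]
  refine squeeze_zero (fun n => (N n).coe_nonneg) (fun n => ?_) hlim
  set e : ℝ := Real.exp (ε * ((n + 1 : ℕ) : ℝ)) with he
  have he1 : 1 ≤ e := by
    rw [he]
    exact Real.one_le_exp (by positivity)
  have hNr : ((N n : ℝ≥0) : ℝ) = ((((⌈((n : ℝ) + 1) * R + 1⌉₊ : ℕ) : ℝ) + 1) ^ 2) ^ 2 *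
    (((n : ℝ) + 1) ^ 2 * (((m : ℝ) * e) ^ 2 * (B * σ) ^ 2 * c ^ (n - 1) +
      ((m : ℝ) * e) * (B * σ) * c ^ n)) := by
    simp only [N]
    push_cast
    rw [Real.coe_toNNReal _ (Real.exp_pos _).le]
    push_cast at he
    rw [← he]
  rw [hNr]
  have hn1 : (1 : ℝ) ≤ (n : ℝ) + 1 := by
    have : (0 : ℝ) ≤ n := Nat.cast_nonneg n
    linarith
  have hceil : ((⌈((n : ℝ) + 1) * R + 1⌉₊ : ℕ) : ℝ) + 1 ≤ ((n : ℝ) + 1) * K := by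
    have h1 : ((⌈((n : ℝ) + 1) * R + 1⌉₊ : ℕ) : ℝ) < ((n : ℝ) + 1) * R + 1 + 1 :=
      Nat.ceil_lt_add_one (by positivity)
    rw [hK]
    nlinarith
  have hf1 : ((((⌈((n : ℝ) + 1) * R + 1⌉₊ : ℕ) : ℝ) + 1) ^ 2) ^ 2 ≤ (((n : ℝ) + 1) * K) ^ 4 := by
    rw [← pow_mul]
    exact pow_le_pow_left₀ (by positivity) hceil 4
  have hcn : (c : ℝ) ^ n ≤ (q : ℝ) ^ (n - 1) := by
    calc (c : ℝ) ^ n ≤ (q : ℝ) ^ n := pow_le_pow_left₀ c.coe_nonneg hcq' n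
      _ ≤ (q : ℝ) ^ (n - 1) := pow_le_pow_of_le_one hq0.le hq1'.le (Nat.sub_le n 1)
  have hcn' : (c : ℝ) ^ (n - 1) ≤ (q : ℝ) ^ (n - 1) := pow_le_pow_left₀ c.coe_nonneg hcq' _
  have hee : e ≤ e ^ 2 := by nlinarith
  have hf2 : ((m : ℝ) * e) ^ 2 * (B * σ) ^ 2 * c ^ (n - 1) + ((m : ℝ) * e) * (B * σ) * c ^ n
      ≤ C * (e ^ 2 * (q : ℝ) ^ (n - 1)) := by
    have h1 : ((m : ℝ) * e) ^ 2 * (B * σ) ^ 2 * c ^ (n - 1)
        ≤ ((m : ℝ) * e) ^ 2 * (B * σ) ^ 2 * (q : ℝ) ^ (n - 1) :=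
      mul_le_mul_of_nonneg_left hcn' (by positivity)
    have h2 : ((m : ℝ) * e) * (B * σ) * c ^ n ≤ ((m : ℝ) * e ^ 2) * (B * σ) * (q : ℝ) ^ (n - 1) := by
      refine mul_le_mul ?_ hcn (by positivity) (by positivity)
      refine mul_le_mul_of_nonneg_right ?_ (by positivity)
      exact mul_le_mul_of_nonneg_left hee (Nat.cast_nonneg m)
    calc _ ≤ ((m : ℝ) * e) ^ 2 * (B * σ) ^ 2 * (q : ℝ) ^ (n - 1)
          + ((m : ℝ) * e ^ 2) * (B * σ) * (q : ℝ) ^ (n - 1) := add_le_add h1 h2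
      _ = C * (e ^ 2 * (q : ℝ) ^ (n - 1)) := by rw [hC]; ring
  have hq2 : (q : ℝ) ^ (n - 1) ≤ ((q : ℝ) ^ 2)⁻¹ * (q : ℝ) ^ (n + 1) := by
    rw [le_inv_mul_iff₀ (by positivity), ← pow_add]
    exact pow_le_pow_of_le_one hq0.le hq1'.le (by omega)
  have he2 : e ^ 2 = Real.exp (2 * ε) ^ (n + 1) := by
    rw [he, ← Real.exp_nat_mul, ← Real.exp_nat_mul]
    congr 1
    push_cast
    ring
  calc ((((⌈((n : ℝ) + 1) * R + 1⌉₊ : ℕ) : ℝ) + 1) ^ 2) ^ 2 *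
    (((n : ℝ) + 1) ^ 2 * (((m : ℝ) * e) ^ 2 * (B * σ) ^ 2 * c ^ (n - 1) +
      ((m : ℝ) * e) * (B * σ) * c ^ n))
      ≤ (((n : ℝ) + 1) * K) ^ 4 * (((n : ℝ) + 1) ^ 2 * (C * (e ^ 2 * (q : ℝ) ^ (n - 1)))) := by
        refine mul_le_mul hf1 ?_ (by positivity) (by positivity)
        exact mul_le_mul_of_nonneg_left hf2 (by positivity)
    _ ≤ (((n : ℝ) + 1) * K) ^ 4 * (((n : ℝ) + 1) ^ 2 *
          (C * (e ^ 2 * (((q : ℝ) ^ 2)⁻¹ * (q : ℝ) ^ (n + 1))))) := by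
        refine mul_le_mul_of_nonneg_left ?_ (by positivity)
        refine mul_le_mul_of_nonneg_left ?_ (by positivity)
        refine mul_le_mul_of_nonneg_left ?_ hC0
        exact mul_le_mul_of_nonneg_left hq2 (by positivity)
    _ = K ^ 4 * C * ((q : ℝ) ^ 2)⁻¹ * ((((n + 1 : ℕ) : ℝ)) ^ 6 * ρ ^ (n + 1)) := by
        rw [he2, hρ, mul_pow (Real.exp (2 * ε))]
        push_cast
        ring

end Pool.Agent.BCH
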