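import Pool.Agent.Lib.MP_aa9b81_an.H.E1
import Pool.Agent.Lib.MP_aa9b81_an.H.M2

open MeasureTheory MeasureTheory.Measure Topology ENNReal NNReal

namespace Pool.Agent.BCH

universe u v w

variable {G : Type u} [Group G] [TopologicalSpace G] [IsTopologicalGroup G]
  [LocallyCompactSpace G] [SecondCountableTopology G] [T2Space G] [MeasurableSpace G]
  [BorelSpace G]
variable {X : Type v} [TopologicalSpace X] [T2Space X] [MulAction G X] [ContinuousSMul G X]

/-- If the kernels `|mker V x|` are `OB` with constant `D` for all `x`, then every entry of `V` has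
`uncNorm (V i j) ² ≤ D`. For `f ∈ L²(G)` (first measurable, then a.e.) apply `OB` to
`F(b, j') = if j' = j then ‖f b‖ₑ else 0` and keep only the row `i` of the left side:
`‖kapp (gker |V i j| x) f a‖ ≤ ∫ ‖V i j (a⁻¹x, a⁻¹b)‖ ‖f b‖ db`; then `redNorm_le_of`. -/
theorem uncNorm_sq_le {m : ℕ} {V : Matrix (Fin m) (Fin m) (Cc G X)} {D : ℝ≥0∞}
    (h : ∀ x, OB (hm G m) (fun a b => ‖mker V x a b‖ₑ) D) (i j : Fin m) :
    ENNReal.ofReal (uncNorm (V i j)) ^ 2 ≤ D := by
  rcases eq_or_ne D ∞ with hD | hD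
  · rw [hD]
    exact le_top
  set t : ℝ := Real.sqrt D.toReal with ht
  have ht0 : 0 ≤ t := Real.sqrt_nonneg _
  have htD : ENNReal.ofReal t ^ 2 = D := by
    rw [← ENNReal.ofReal_pow ht0, ht, Real.sq_sqrt ENNReal.toReal_nonneg, ENNReal.ofReal_toReal hD]
  have hmain : redNorm (V i j).abs ≤ t := by
    refine redNorm_le_of ht0 fun x f₀ hf₀ => ?_
    obtain ⟨f, hfm, hff⟩ := hf₀.1
    rw [kapp_congr hff, eLpNorm_congr_ae hff]
    have hfm' : Measurable f := hfm.measurable
    obtain ⟨B, σ, hK⟩ := mker_bound V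
    rw [← ENNReal.pow_le_pow_left_iff (two_ne_zero), mul_pow, htD, eLpNorm_two_sq, eLpNorm_two_sq]
    -- apply `OB` to the function supported on the component `j`
    set F : G × Fin m → ℝ≥0∞ := fun q => if q.2 = j then ‖f q.1‖ₑ else 0 with hF
    have hFm : Measurable F := by
      refine Measurable.ite ?_ (hfm'.comp measurable_fst).enorm measurable_const
      exact measurable_snd (measurableSet_singleton j)
    have hFj : ∀ b, F (b, j) = ‖f b‖ₑ := fun b => by simp [hF]
    have hFj' : ∀ (j' : Fin m) (b : G), j' ≠ j → F (b, j') = 0 := fun j' b hne => by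
      simp [hF, hne]
    have hOB := h x F hFm
    have hkm : Measurable (Function.uncurry (mker V x)) := (hK x).meas
    have hR : ∫⁻ q, F q ^ 2 ∂(hm G m) = ∫⁻ b, ‖f b‖ₑ ^ 2 ∂(haar : Measure G) := by
      rw [lintegral_hm (hFm.pow_const 2), Finset.sum_eq_single j]
      · simp only [hFj]
      · intro j' _ hne
        simp only [hFj' j' _ hne]
        simp
      · intro hj
        exact absurd (Finset.mem_univ j) hj
    have hinner : ∀ a : G × Fin m, ∫⁻ q, ‖mker V x a q‖ₑ * F q ∂(hm G m)
        = ∫⁻ b, ‖mker V x a (b, j)‖ₑ * ‖f b‖ₑ ∂(haar : Measure G) := by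
      intro a
      have hma : Measurable (fun q => ‖mker V x a q‖ₑ * F q) :=
        (hkm.comp (measurable_const.prodMk measurable_id)).enorm.mul hFm
      rw [lintegral_hm hma, Finset.sum_eq_single j]
      · simp only [hFj]
      · intro j' _ hne
        simp only [hFj' j' _ hne]
        simp
      · intro hj
        exact absurd (Finset.mem_univ j) hj
    have hL : Measurable (fun a => (∫⁻ q, ‖mker V x a q‖ₑ * F q ∂(hm G m)) ^ 2) := by
      have h1 : Measurable (fun z : (G × Fin m) × (G × Fin m) => ‖mker V x z.1 z.2‖ₑ * F z.2) :=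
        (hkm.enorm).mul (hFm.comp measurable_snd)
      exact (h1.lintegral_prod_right' (ν := hm G m)).pow_const 2
    rw [hR, lintegral_hm hL] at hOB
    refine le_trans ?_ hOB
    refine le_trans ?_ (Finset.single_le_sum (f := fun i' =>
      ∫⁻ a, (∫⁻ q, ‖mker V x (a, i') q‖ₑ * F q ∂(hm G m)) ^ 2 ∂(haar : Measure G))
      (fun _ _ => zero_le) (Finset.mem_univ i))
    refine lintegral_mono fun a => ?_
    rw [hinner (a, i)]
    refine ENNReal.pow_le_pow_left ?_
    refine (enorm_integral_le_lintegral_enorm _).trans (lintegral_mono fun b => ?_)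
    rw [enorm_mul]
    refine mul_le_mul_left (le_of_eq ?_) _
    show ‖((‖(V i j) (a⁻¹ • x, a⁻¹ * b)‖ : ℝ) : ℂ)‖ₑ = ‖(V i j) (a⁻¹ • x, a⁻¹ * b)‖ₑ
    rw [← ofReal_norm_eq_enorm, ← ofReal_norm_eq_enorm, Complex.norm_real, norm_norm]
  rw [← htD]
  refine ENNReal.pow_le_pow_left ?_
  exact ENNReal.ofReal_le_ofReal hmain

/-- `kpow` of the kernel of `W` is the kernel of the power of `W` (`mker_mul`, induction). -/
theorem kpow_mker {m : ℕ} (W : Matrix (Fin m) (Fin m) (Cc G X)) (x : X) (n : ℕ) :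
    kpow (hm G m) (mker W x) n = mker (mpow W n) x := by
  induction n with
  | zero => rfl
  | succ n ih =>
    show kcomp (hm G m) (mker W x) (kpow (hm G m) (mker W x) n) = mker (W * mpow W n) x
    rw [ih, mker_mul]

end Pool.Agent.BCH
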