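import Pool.Agent.Lib.MP_aa9b81_an.H.H3
import Pool.Agent.Lib.MP_aa9b81_an.H.H4
import Pool.Agent.Lib.MP_aa9b81_an.H.M4

open MeasureTheory MeasureTheory.Measure Topology ENNReal NNReal

namespace Pool.Agent.BCH

universe u v w

variable {G : Type u} [Group G] [TopologicalSpace G] [IsTopologicalGroup G]
  [LocallyCompactSpace G] [SecondCountableTopology G] [T2Space G] [MeasurableSpace G]
  [BorelSpace G]
variable {X : Type v} [TopologicalSpace X] [T2Space X] [MulAction G X] [ContinuousSMul G X]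

private theorem H5_kpow_zero {Z : Type*} [MeasurableSpace Z] {ν : Measure Z} {k : Z → Z → ℂ}
    (hk : ∀ a b, k a b = 0) (n : ℕ) (a b : Z) : kpow ν k n a b = 0 := by
  cases n with
  | zero => exact hk a b
  | succ n =>
    show ∫ z, k a z * kpow ν k n z b ∂ν = 0
    simp [hk]

/-- CONCLUSION OF THE ANALYSIS: on a hyperbolic `G`-space, if `‖rep W‖ < 1` then the unconditional norms
of the entries of the powers of `W` have arbitrarily small values. For large `n`, for every `x`: if some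
`o.1 ∈ ret Q x` use `abs_value_inequality` with the data of `exists_AVData` (`J = ⌈(n+1)R+1⌉₊`); if the return
set is empty the kernel `mker W x` is zero, so all its powers vanish (`kpow` of the zero kernel) and `OB` holds
with any constant. Then `kpow_mker`, `uncNorm_sq_le`, `levC_tendsto` with `c = ‖rep W‖²`. If `m = 0` trivial. -/
theorem uncNorm_mpow_small {m : ℕ} (hG : HyperbolicGSpace G X)
    (W : Matrix (Fin m) (Fin m) (Cc G X)) (hW : ‖(mRep G X m).rep W‖ < 1) {ε : ℝ} (hε : 0 < ε) :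
    ∃ n : ℕ, ∀ i j, uncNorm (mpow W n i j) < ε := by
  obtain ⟨Q, B, σ, δ, R, d, C, hsupp, hR, hdata⟩ := exists_AVData hG W
  have hc : ‖(mRep G X m).rep W‖₊ ^ 2 < 1 := by
    have h1 : ‖(mRep G X m).rep W‖₊ < 1 := by
      rw [← NNReal.coe_lt_coe]
      simpa using hW
    exact pow_lt_one₀ zero_le h1 (by norm_num)
  obtain ⟨ε₁, hε₁, hlim⟩ := levC_tendsto (B := B) (σ := σ) hc m hR
  have hpos : (0 : ℝ≥0∞) < ENNReal.ofReal ε ^ 2 :=
    ENNReal.pow_pos (ENNReal.ofReal_pos.2 hε) 2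
  obtain ⟨n, hn1, hn2⟩ := ((hdata ε₁ hε₁).and (hlim.eventually (gt_mem_nhds hpos))).exists
  refine ⟨n, fun i j => ?_⟩
  set D : ℝ≥0∞ := (((((⌈((n : ℝ) + 1) * R + 1⌉₊ : ℕ) : ℝ≥0∞) + 1) ^ 2) ^ 2 *
        levC B σ (‖(mRep G X m).rep W‖₊ ^ 2) n
          ((m : ℝ≥0∞) * ENNReal.ofReal (Real.exp (ε₁ * ((n + 1 : ℕ) : ℝ))))) with hD
  have hOB : ∀ x : X, OB (hm G m) (fun a b => ‖mker (mpow W n) x a b‖ₑ) D := by
    intro x
    have hk : (fun a b => ‖mker (mpow W n) x a b‖ₑ) =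
        fun a b => ‖kpow (hm G m) (mker W x) n a b‖ₑ := by
      rw [kpow_mker]
    rw [hk]
    by_cases ho : ∃ o : G × Fin m, o.1 ∈ (ret Q x : Set G)
    · obtain ⟨o, ho⟩ := ho
      exact abs_value_inequality (hn1 x o ho) (J := ⌈((n : ℝ) + 1) * R + 1⌉₊) (Nat.le_ceil _)
    · have hz : ∀ a b, mker W x a b = 0 := by
        intro a b
        by_contra h
        exact ho ⟨a, (hsupp x a b h).1⟩
      intro f _
      simp [H5_kpow_zero hz n]
  have h1 := uncNorm_sq_le hOB i j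
  have h2 : ENNReal.ofReal (uncNorm (mpow W n i j)) ^ 2 < ENNReal.ofReal ε ^ 2 :=
    lt_of_le_of_lt h1 hn2
  have h3 : ENNReal.ofReal (uncNorm (mpow W n i j)) < ENNReal.ofReal ε :=
    by
    by_contra h
    exact absurd h2 (not_lt.2 (pow_le_pow_left' (not_lt.1 h) 2))
  exact (ENNReal.ofReal_lt_ofReal_iff hε).1 h3

end Pool.Agent.BCH
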