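import Mathlib

open MeasureTheory MeasureTheory.Measure Topology ENNReal NNReal

namespace Pool.Agent.BCH

universe u v w

/-- The times at which the orbit of `x` returns to `Q`. -/
def ret {G : Type u} [Group G] {X : Type v} [MulAction G X] (Q : Set X) (x : X) : Set G :=
  {a | a⁻¹ • x ∈ Q}

/-- `b` is reached from `a` by `n` steps inside `S`, each step `g ↦ g c` with `c ∈ C`. -/
def Reach {G : Type u} [Group G] (S C : Set G) (n : ℕ) (a b : G) : Prop :=
  ∃ g : ℕ → G, g 0 = a ∧ g n = b ∧ (∀ i ≤ n, g i ∈ S) ∧ ∀ i < n, (g i)⁻¹ * g (i + 1) ∈ C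

variable (G : Type u) [Group G] [TopologicalSpace G] [IsTopologicalGroup G]
  [LocallyCompactSpace G] [SecondCountableTopology G] [T2Space G] [MeasurableSpace G]
  [BorelSpace G]
variable (X : Type v) [TopologicalSpace X] [MulAction G X]

/-- `d x` is, for every `x : X`, a `δ`-hyperbolic pseudometric on the return set of `x` to `Q`, bounded
on `{a⁻¹ b ∈ C}` for compact `C`, such that, for every compact `C` and `c > 0`, the Haar measure of the
set of those points of the ball of radius `c log n` around `a` which are reached from `a` by `n` steps in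
`C` inside the return set is at most `exp(o(n))`, uniformly in `x` and `a`. -/
structure HypReturns (Q : Set X) (δ : ℝ) (d : X → G → G → ℝ) : Prop where
  meas : ∀ x, Measurable (fun q : G × G => d x q.1 q.2)
  self : ∀ x, ∀ a ∈ ret Q x, d x a a = 0
  symm : ∀ x, ∀ a ∈ ret Q x, ∀ b ∈ ret Q x, d x a b = d x b a
  tri : ∀ x, ∀ a ∈ ret Q x, ∀ b ∈ ret Q x, ∀ c ∈ ret Q x, d x a c ≤ d x a b + d x b c
  hyp : ∀ x, ∀ o ∈ ret Q x, ∀ a ∈ ret Q x, ∀ b ∈ ret Q x, ∀ c ∈ ret Q x,
    d x a b + d x o c ≤ max (d x a c + d x o b) (d x b c + d x o a) + 2 * δ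
  bdd : ∀ C : Set G, IsCompact C → ∃ R : ℝ, ∀ x, ∀ a ∈ ret Q x, ∀ b ∈ ret Q x,
    a⁻¹ * b ∈ C → d x a b ≤ R
  growth : ∀ C : Set G, IsCompact C → ∀ c : ℝ, 0 < c → ∀ ε : ℝ, 0 < ε →
    ∀ᶠ n : ℕ in Filter.atTop, ∀ x, ∀ a ∈ ret Q x,
      (haar : Measure G) {b | Reach (ret Q x) C n a b ∧ d x a b ≤ c * Real.log n} ≤
        ENNReal.ofReal (Real.exp (ε * n))

/-- HYPERBOLIC `G`-SPACES: for every compact `Q` the return sets to `Q` carry hyperbolic pseudometrics
as in `HypReturns`. -/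
def HyperbolicGSpace : Prop :=
  ∀ Q : Set X, IsCompact Q → ∃ (δ : ℝ) (d : X → G → G → ℝ), HypReturns G X Q δ d

end Pool.Agent.BCH
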