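import Pool.Agent.Lib.MP_aa9b81_an.H.KSpec

/-!
# Relatively spectral morphisms: paths of invertible elements
-/

namespace Pool.Agent.BCH

open Topology Filter

variable {R S : Type*} [NormedRing R] [NormedAlgebra ℂ R] [CompleteSpace R]
  [NormedRing S] [NormedAlgebra ℂ S] [CompleteSpace S]
  {φ : R →ₐ[ℂ] S} {C : Subalgebra ℂ R}

theorem joined_units (P : C(unitInterval, R)) (hP : ∀ t, IsUnit (P t)) {a b : Rˣ}
    (ha : P 0 = (a : R)) (hb : P 1 = (b : R)) : Joined a b :=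
  ⟨{ toContinuousMap := ContinuousMap.unitsOfForallIsUnit hP
     source' := Units.ext ha
     target' := Units.ext hb }⟩

theorem exists_ball_units (a : Rˣ) : ∃ δ > 0, ∀ x : R, ‖x - a‖ < δ → IsUnit x := by
  obtain ⟨δ, hδ, h⟩ := Metric.isOpen_iff.1 (Units.isOpen (R := R)) (a : R) a.isUnit
  exact ⟨δ, hδ, fun x hx => h (by rwa [Metric.mem_ball, dist_eq_norm])⟩

theorem joined_of_near {a b : Rˣ} {δ : ℝ} (hδ : ∀ x : R, ‖x - a‖ < δ → IsUnit x)
    (hb : ‖(b : R) - a‖ < δ) : Joined a b := by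
  refine joined_units (seg (a : R) b) (fun t => hδ _ (seg_mem_ball ?_ hb t))
    (seg_zero _ _) (seg_one _ _)
  rw [sub_self, norm_zero]
  exact lt_of_le_of_lt (norm_nonneg _) hb

theorem RelSpec.joined_surj (H : RelSpec φ C) (s : Sˣ) :
    ∃ r : Rˣ, Joined s (Units.map (φ : R →* S) r) := by
  obtain ⟨δ, hδ, h⟩ := exists_ball_units s
  obtain ⟨c, hc, hcs⟩ := H.dense' (s : S) δ hδ
  obtain ⟨r, hr⟩ := H.spec c hc (h _ hcs)
  refine ⟨r, joined_of_near h ?_⟩
  have : ((Units.map (φ : R →* S) r : Sˣ) : S) = φ c := by rw [← hr]; rfl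
  rw [this]
  exact hcs

theorem RelSpec.joined_inj (H : RelSpec φ C) (r : Rˣ)
    (h : Joined 1 (Units.map (φ : R →* S) r)) : Joined 1 r := by
  obtain ⟨γ⟩ := h
  obtain ⟨δ0, hδ0, h0⟩ := exists_ball_units (1 : Rˣ)
  obtain ⟨δ1, hδ1, h1⟩ := exists_ball_units r
  -- the convex sets of admissible approximations
  let T : unitInterval → Set R := fun t =>
    {c | c ∈ C ∧ ‖φ c - (γ t : S)‖ * ‖(((γ t)⁻¹ : Sˣ) : S)‖ < 1 ∧
      (t = 0 → ‖c - (1 : R)‖ < δ0) ∧ (t = 1 → ‖c - (r : R)‖ < δ1)}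
  have hφlin : ∀ (a b : ℝ) (x y : R), φ (a • x + b • y) = a • φ x + b • φ y := by
    intro a b x y
    rw [map_add, ← Complex.coe_smul, ← Complex.coe_smul, map_smul, map_smul,
        Complex.coe_smul, Complex.coe_smul]
  have hballconv : ∀ (z : R) (δ : ℝ), Convex ℝ {c : R | ‖c - z‖ < δ} := by
    intro z δ
    have : {c : R | ‖c - z‖ < δ} = Metric.ball z δ := by
      ext c; rw [Metric.mem_ball, dist_eq_norm]; rfl
    rw [this]
    exact convex_ball z δ
  have hT : ∀ t, Convex ℝ (T t) := by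
    intro t x hx y hy a b ha hb hab
    obtain ⟨hx1, hx2, hx3, hx4⟩ := hx
    obtain ⟨hy1, hy2, hy3, hy4⟩ := hy
    refine ⟨?_, ?_, ?_, ?_⟩
    · rw [← Complex.coe_smul, ← Complex.coe_smul]
      exact C.add_mem (C.smul_mem hx1 _) (C.smul_mem hy1 _)
    · rw [hφlin]
      have e1 : a • φ x + b • φ y - (γ t : S)
          = a • (φ x - (γ t : S)) + b • (φ y - (γ t : S)) := by
        rw [smul_sub, smul_sub]
        have : (γ t : S) = a • (γ t : S) + b • (γ t : S) := by
          rw [← add_smul, hab, one_smul]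
        nth_rewrite 1 [this]
        abel
      rw [e1]
      have e2 : ‖a • (φ x - (γ t : S)) + b • (φ y - (γ t : S))‖
          ≤ a * ‖φ x - (γ t : S)‖ + b * ‖φ y - (γ t : S)‖ := by
        refine (norm_add_le _ _).trans ?_
        rw [norm_smul, norm_smul, Real.norm_of_nonneg ha, Real.norm_of_nonneg hb]
      set K := ‖(((γ t)⁻¹ : Sˣ) : S)‖ with hK
      have hK0 : 0 ≤ K := norm_nonneg _
      calc ‖a • (φ x - (γ t : S)) + b • (φ y - (γ t : S))‖ * K
          ≤ (a * ‖φ x - (γ t : S)‖ + b * ‖φ y - (γ t : S)‖) * K :=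
            mul_le_mul_of_nonneg_right e2 hK0
        _ = a * (‖φ x - (γ t : S)‖ * K) + b * (‖φ y - (γ t : S)‖ * K) := by ring
        _ < 1 := by
          rcases eq_or_lt_of_le ha with ha0 | ha0
          · have hb1 : b = 1 := by linarith
            rw [← ha0, hb1]; linarith
          · have h5 : a * (‖φ x - (γ t : S)‖ * K) < a * 1 := mul_lt_mul_of_pos_left hx2 ha0
            have h6 : b * (‖φ y - (γ t : S)‖ * K) ≤ b * 1 := mul_le_mul_of_nonneg_left hy2.le hb
            linarith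
    · intro ht
      exact hballconv _ _ (hx3 ht) (hy3 ht) ha hb hab
    · intro ht
      exact hballconv _ _ (hx4 ht) (hy4 ht) ha hb hab
  have hγc : Continuous (fun t => (γ t : S)) := Units.continuous_val.comp γ.continuous
  have hγi : Continuous (fun t => (((γ t)⁻¹ : Sˣ) : S)) :=
    Units.continuous_val.comp (continuous_inv.comp γ.continuous)
  have hsel : ∀ t : unitInterval, ∃ c : R, ∀ᶠ t' in 𝓝 t, c ∈ T t' := by
    intro t
    -- an approximation at `t`
    have hopen : ∀ c : R, ‖φ c - (γ t : S)‖ * ‖(((γ t)⁻¹ : Sˣ) : S)‖ < 1 →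
        ∀ᶠ t' in 𝓝 t, ‖φ c - (γ t' : S)‖ * ‖(((γ t')⁻¹ : Sˣ) : S)‖ < 1 := by
      intro c hc
      have hcc : Continuous (fun t' => ‖φ c - (γ t' : S)‖ * ‖(((γ t')⁻¹ : Sˣ) : S)‖) :=
        (continuous_const.sub hγc).norm.mul hγi.norm
      exact hcc.continuousAt.eventually_lt continuousAt_const hc
    -- near a point `a` of `R` with `φ a = γ t`
    have hnear : ∀ (a : R) (δ : ℝ), 0 < δ → φ a = (γ t : S) →
        ∃ c ∈ C, ‖c - a‖ < δ ∧ ‖φ c - (γ t : S)‖ * ‖(((γ t)⁻¹ : Sˣ) : S)‖ < 1 := by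
      intro a δ hδ ha
      set K := ‖(((γ t)⁻¹ : Sˣ) : S)‖ with hK
      have hK0 : 0 ≤ K := norm_nonneg _
      have hpos : 0 < 1 / (K + 1) := by positivity
      obtain ⟨ρ, hρ, hρ1⟩ := Metric.continuous_iff.1 H.cont a (1 / (K + 1)) hpos
      obtain ⟨c, hc, hca⟩ := H.dense a (min δ ρ) (lt_min hδ hρ)
      refine ⟨c, hc, lt_of_lt_of_le hca (min_le_left _ _), ?_⟩
      have h7 := hρ1 c (by rw [dist_eq_norm]; exact lt_of_lt_of_le hca (min_le_right _ _))
      rw [dist_eq_norm, ha] at h7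
      calc ‖φ c - (γ t : S)‖ * K ≤ 1 / (K + 1) * K := mul_le_mul_of_nonneg_right h7.le hK0
        _ < 1 := by
          rw [one_div, inv_mul_lt_iff₀ (by positivity)]
          linarith
    by_cases ht0 : t = 0
    · have hγ0 : φ 1 = (γ t : S) := by rw [ht0, γ.source, map_one]; rfl
      obtain ⟨c, hc, hc1, hc2⟩ := hnear 1 δ0 hδ0 hγ0
      refine ⟨c, ?_⟩
      have hne : ∀ᶠ t' in 𝓝 t, t' ≠ 1 := by
        rw [ht0]
        exact isOpen_ne.mem_nhds (by exact zero_ne_one)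
      filter_upwards [hopen c hc2, hne] with t' h8 h9
      exact ⟨hc, h8, fun _ => hc1, fun h => absurd h h9⟩
    · by_cases ht1 : t = 1
      · have hγ1 : φ (r : R) = (γ t : S) := by rw [ht1, γ.target]; rfl
        obtain ⟨c, hc, hc1, hc2⟩ := hnear r δ1 hδ1 hγ1
        refine ⟨c, ?_⟩
        have hne : ∀ᶠ t' in 𝓝 t, t' ≠ 0 := by
          rw [ht1]
          exact isOpen_ne.mem_nhds (by exact one_ne_zero)
        filter_upwards [hopen c hc2, hne] with t' h8 h9
        exact ⟨hc, h8, fun h => absurd h h9, fun _ => hc1⟩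
      · set K := ‖(((γ t)⁻¹ : Sˣ) : S)‖ with hK
        have hK0 : 0 ≤ K := norm_nonneg _
        have hpos : 0 < 1 / (K + 1) := by positivity
        obtain ⟨c, hc, hc2⟩ := H.dense' (γ t : S) (1 / (K + 1)) hpos
        have hc3 : ‖φ c - (γ t : S)‖ * K < 1 := by
          calc ‖φ c - (γ t : S)‖ * K ≤ 1 / (K + 1) * K :=
                mul_le_mul_of_nonneg_right hc2.le hK0
            _ < 1 := by
              rw [one_div, inv_mul_lt_iff₀ (by positivity)]
              linarith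
        refine ⟨c, ?_⟩
        have hne0 : ∀ᶠ t' in 𝓝 t, t' ≠ 0 := isOpen_ne.mem_nhds ht0
        have hne1 : ∀ᶠ t' in 𝓝 t, t' ≠ 1 := isOpen_ne.mem_nhds ht1
        filter_upwards [hopen c hc3, hne0, hne1] with t' h8 h9 h10
        exact ⟨hc, h8, fun h => absurd h h9, fun h => absurd h h10⟩
  obtain ⟨P, hP⟩ := exists_continuous_forall_mem_convex_of_local_const hT hsel
  have hPu : ∀ t, IsUnit (P t) := by
    intro t
    obtain ⟨h2, h3, -, -⟩ := hP t
    refine H.spec _ h2 ?_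
    -- near `γ t`
    have h4 : ‖(((γ t)⁻¹ : Sˣ) : S) * (-(φ (P t) - (γ t : S)))‖ < 1 := by
      refine lt_of_le_of_lt (norm_mul_le _ _) ?_
      rw [norm_neg, mul_comm]
      exact h3
    have h5 : φ (P t) = (γ t : S) * ((Units.oneSub _ h4 : Sˣ) : S) := by
      rw [Units.val_oneSub, mul_sub, mul_one, Units.mul_inv_cancel_left]
      abel
    rw [h5]
    exact (γ t).isUnit.mul (Units.isUnit _)
  obtain ⟨u0, hu0⟩ := hPu 0
  obtain ⟨u1, hu1⟩ := hPu 1
  have j1 : Joined (1 : Rˣ) u0 := by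
    refine joined_of_near h0 ?_
    rw [hu0]
    exact (hP 0).2.2.1 rfl
  have j2 : Joined u0 u1 := joined_units P hPu hu0.symm hu1.symm
  have j3 : Joined r u1 := by
    refine joined_of_near h1 ?_
    rw [hu1]
    exact (hP 1).2.2.2 rfl
  exact j1.trans (j2.trans j3.symm)

end Pool.Agent.BCH
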