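import Pool.Agent.Lib.MP_aa9b81_an.H.KFun
import Pool.Agent.Lib.MP_aa9b81_an.H.KUnits

/-!
# Relatively spectral morphisms induce isomorphisms in K-theory

`φ : R → S` a continuous homomorphism of complex Banach algebras, `C ⊆ R` a dense subalgebra with
`φ(C)` dense in `S`, such that a matrix with entries in `C` is invertible over `R` as soon as its
image is invertible over `S`. Then `φ` induces isomorphisms on `K_0` and `K_1`.
-/

open Matrix Topology

namespace Pool.Agent.BCH

universe u v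

variable {R : Type u} {S : Type v} [NormedRing R] [NormedAlgebra ℂ R] [CompleteSpace R]
  [NormedRing S] [NormedAlgebra ℂ S] [CompleteSpace S]

/-- `φ : R → S` is *completely relatively spectral* with respect to the dense subalgebra `C`. -/
structure CRelSpec (φ : R →ₐ[ℂ] S) (C : Subalgebra ℂ R) : Prop where
  cont : Continuous φ
  dense : Dense (C : Set R)
  dense' : Dense (φ '' (C : Set R))
  spec : ∀ (m : ℕ) (c : Matrix (Fin m) (Fin m) R), (∀ i j, c i j ∈ C) →
    IsUnit (c.map φ) → IsUnit c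

attribute [local instance] Matrix.linftyOpNormedRing Matrix.linftyOpNormedAlgebra

instance completeSpace_matrix (ι : Type*) [Fintype ι] [DecidableEq ι] :
    @CompleteSpace (Matrix ι ι R) (@PseudoMetricSpace.toUniformSpace _
      (@SeminormedRing.toPseudoMetricSpace _
        (@NormedRing.toSeminormedRing _ Matrix.linftyOpNormedRing))) := by
  show CompleteSpace (ι → ι → R)
  infer_instance

theorem CRelSpec.cont' {φ : R →ₐ[ℂ] S} {C : Subalgebra ℂ R} (H : CRelSpec φ C) :
    Continuous (φ : R →+* S) := H.cont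

/-- Matrices with entries in a subalgebra. -/
def matSub (C : Subalgebra ℂ R) (ι : Type*) [Fintype ι] [DecidableEq ι] :
    Subalgebra ℂ (Matrix ι ι R) where
  carrier := {c | ∀ i j, c i j ∈ C}
  mul_mem' := by
    intro a b ha hb i j
    rw [Matrix.mul_apply]
    exact C.sum_mem fun k _ => C.mul_mem (ha i k) (hb k j)
  add_mem' := by
    intro a b ha hb i j
    exact C.add_mem (ha i j) (hb i j)
  algebraMap_mem' := by
    intro r i j
    rw [Matrix.algebraMap_matrix_apply]
    split_ifs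
    · exact C.algebraMap_mem r
    · exact C.zero_mem

theorem mem_matSub {C : Subalgebra ℂ R} {ι : Type*} [Fintype ι] [DecidableEq ι]
    {c : Matrix ι ι R} : c ∈ matSub C ι ↔ ∀ i j, c i j ∈ C := Iff.rfl

theorem dense_matrices {T : Type*} [TopologicalSpace T] (ι : Type*) {D : Set T} (hD : Dense D) :
    Dense {c : Matrix ι ι T | ∀ i j, c i j ∈ D} := by
  intro r
  have h1 : {c : Matrix ι ι T | ∀ i j, c i j ∈ D}
      = Set.pi (Set.univ : Set ι) (fun _ => Set.pi (Set.univ : Set ι) (fun _ => D)) := by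
    ext c
    constructor
    · intro h i _ j _
      exact h i j
    · intro h i j
      exact h i (Set.mem_univ i) j (Set.mem_univ j)
  have h2 : closure (Set.pi (Set.univ : Set ι) (fun _ => Set.pi (Set.univ : Set ι) (fun _ => D)))
      = Set.univ := by
    rw [closure_pi_set]
    simp only [closure_pi_set, hD.closure_eq]
    ext x
    simp
  have h3 : r ∈ closure (Set.pi (Set.univ : Set ι)
      (fun _ => Set.pi (Set.univ : Set ι) (fun _ => D))) := by
    rw [h2]; trivial
  rw [← h1] at h3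
  exact h3

theorem CRelSpec.relSpec {φ : R →ₐ[ℂ] S} {C : Subalgebra ℂ R} (H : CRelSpec φ C)
    (ι : Type*) [Fintype ι] [DecidableEq ι] :
    RelSpec (φ.mapMatrix : Matrix ι ι R →ₐ[ℂ] Matrix ι ι S) (matSub C ι) where
  cont := Continuous.matrix_map continuous_id H.cont
  dense r ε hε := by
    have h1 : r ∈ closure {c : Matrix ι ι R | ∀ i j, c i j ∈ (C : Set R)} :=
      dense_matrices ι H.dense r
    obtain ⟨c, hc, hcr⟩ := Metric.mem_closure_iff.1 h1 ε hε
    refine ⟨c, hc, ?_⟩
    rwa [dist_comm, dist_eq_norm] at hcr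
  dense' s ε hε := by
    have h1 : s ∈ closure {c : Matrix ι ι S | ∀ i j, c i j ∈ (φ '' (C : Set R))} :=
      dense_matrices ι H.dense' s
    obtain ⟨c, hc, hcs⟩ := Metric.mem_closure_iff.1 h1 ε hε
    choose d hd1 hd2 using hc
    refine ⟨d, hd1, ?_⟩
    have : (φ.mapMatrix : Matrix ι ι R →ₐ[ℂ] Matrix ι ι S) d = c := by
      ext i j
      exact hd2 i j
    rw [this]
    rwa [dist_comm, dist_eq_norm] at hcs
  spec c hc hu := by
    let e : ι ≃ Fin (Fintype.card ι) := Fintype.equivFin ι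
    have h1 : IsUnit ((Matrix.reindexAlgEquiv ℂ R e c).map φ) := by
      have h2 : (Matrix.reindexAlgEquiv ℂ R e c).map φ
          = Matrix.reindexAlgEquiv ℂ S e ((φ.mapMatrix : Matrix ι ι R →ₐ[ℂ] Matrix ι ι S) c) := by
        ext i j
        rfl
      rw [h2]
      exact hu.map (Matrix.reindexAlgEquiv ℂ S e)
    have h3 := H.spec _ (Matrix.reindexAlgEquiv ℂ R e c) (fun i j => hc _ _) h1
    have h4 := h3.map (Matrix.reindexAlgEquiv ℂ R e).symm
    rwa [AlgEquiv.symm_apply_apply] at h4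

/-! ### `K_1` -/

theorem CRelSpec.P0_bijective {φ : R →ₐ[ℂ] S} {C : Subalgebra ℂ R} (H : CRelSpec φ C) (n : ℕ) :
    Function.Bijective (P0.map (φ : R →+* S) H.cont' n) := by
  have hR := H.relSpec (Fin n)
  constructor
  · rw [injective_iff_map_eq_one]
    intro x hx
    obtain ⟨r, rfl⟩ := QuotientGroup.mk_surjective x
    have h1 : (QuotientGroup.mk (GLn.map (φ : R →+* S) n r) : P0 S n) = 1 := hx
    rw [QuotientGroup.eq_one_iff] at h1
    have h2 : Joined (1 : GLn S n) (GLn.map (φ : R →+* S) n r) := h1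
    rw [QuotientGroup.eq_one_iff]
    show Joined (1 : GLn R n) r
    exact hR.joined_inj r h2
  · intro y
    obtain ⟨s, rfl⟩ := QuotientGroup.mk_surjective y
    obtain ⟨r, hr⟩ := hR.joined_surj s
    refine ⟨QuotientGroup.mk r, ?_⟩
    have h1 : (QuotientGroup.mk s : P0 S n) = QuotientGroup.mk (GLn.map (φ : R →+* S) n r) := by
      rw [QuotientGroup.eq]
      show Joined (1 : GLn S n) (s⁻¹ * GLn.map (φ : R →+* S) n r)
      have h2 : Joined (s⁻¹ * s) (s⁻¹ * GLn.map (φ : R →+* S) n r) :=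
        (Joined.refl s⁻¹).mul hr
      rwa [inv_mul_cancel] at h2
    rw [h1]
    rfl

/-- **A completely relatively spectral homomorphism induces an isomorphism on `K_1`.** -/
theorem CRelSpec.K1_bijective {φ : R →ₐ[ℂ] S} {C : Subalgebra ℂ R} (H : CRelSpec φ C) :
    Function.Bijective (K1.map (φ : R →+* S) H.cont') := by
  constructor
  · rw [injective_iff_map_eq_one]
    intro x
    induction x using DirectLimit.induction with
    | _ n x =>
      intro hx
      have h1 : (⟦⟨n, P0.map (φ : R →+* S) H.cont' n x⟩⟧ : K1 S) = 1 := hx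
      rw [DirectLimit.exists_eq_one] at h1
      obtain ⟨m, hnm, h2⟩ := h1
      rw [DirectLimit.exists_eq_one]
      refine ⟨m, hnm, ?_⟩
      have h3 : P0.map (φ : R →+* S) H.cont' m (stabP0 R n m hnm x) = 1 := by
        rw [P0.map_stab]
        exact h2
      exact (injective_iff_map_eq_one _).1 (H.P0_bijective m).1 _ h3
  · intro y
    induction y using DirectLimit.induction with
    | _ n y =>
      obtain ⟨x, hx⟩ := (H.P0_bijective n).2 y
      exact ⟨⟦⟨n, x⟩⟧, by rw [← hx]; rfl⟩

/-! ### `K_0` -/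

section

variable {A : Type*} [Ring A] {ι κ : Type*} [Fintype ι] [Fintype κ] [DecidableEq ι] [DecidableEq κ]

theorem mvN_of_sim {e f : Matrix ι ι A} (he : e * e = e) (hf : f * f = f) (h : Sim e f) :
    MvN e f := by
  obtain ⟨u, hu⟩ := h
  refine ⟨(((u⁻¹ : (Matrix ι ι A)ˣ) : Matrix ι ι A)) * f, f * u, ?_, ?_⟩
  · calc ((u⁻¹ : (Matrix ι ι A)ˣ) : Matrix ι ι A) * f * (f * u)
        = ((u⁻¹ : (Matrix ι ι A)ˣ) : Matrix ι ι A) * ((f * f) * u) := by
          simp only [mul_assoc]
      _ = ((u⁻¹ : (Matrix ι ι A)ˣ) : Matrix ι ι A) * (u * e) := by rw [hf, hu]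
      _ = e := by rw [← mul_assoc, Units.inv_mul, one_mul]
  · calc f * u * (((u⁻¹ : (Matrix ι ι A)ˣ) : Matrix ι ι A) * f)
        = f * ((u : Matrix ι ι A) * ((u⁻¹ : (Matrix ι ι A)ˣ) : Matrix ι ι A)) * f := by
          simp only [mul_assoc]
      _ = f := by rw [Units.mul_inv, mul_one, hf]

theorem one_sub_idem {B : Type*} [Ring B] {p : B} (hp : p * p = p) :
    (1 - p) * (1 - p) = 1 - p := by
  calc (1 - p) * (1 - p) = 1 - p - p + p * p := by noncomm_ring
    _ = 1 - p := by rw [hp]; abel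

theorem sim_of_mvN {e : Matrix ι ι A} {f : Matrix κ κ A} (he : e * e = e) (hf : f * f = f)
    (h : MvN e f) : Sim (Matrix.fromBlocks e 0 0 (0 : Matrix κ κ A))
      (Matrix.fromBlocks (0 : Matrix ι ι A) 0 0 f) := by
  obtain ⟨x, y, hxy, hyx⟩ := h
  set X := x * y * x with hX
  set Y := y * x * y with hY
  have hXY : X * Y = e := by
    calc X * Y = (x * y) * (x * y) * (x * y) := by
          rw [hX, hY]; simp only [Matrix.mul_assoc]
      _ = e := by rw [hxy, he, he]
  have hYX : Y * X = f := by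
    calc Y * X = (y * x) * (y * x) * (y * x) := by
          rw [hX, hY]; simp only [Matrix.mul_assoc]
      _ = f := by rw [hyx, hf, hf]
  have heX : e * X = X := by
    calc e * X = (x * y) * (x * y) * x := by
          rw [hX, ← hxy]; simp only [Matrix.mul_assoc]
      _ = X := by rw [hX, hxy, he]
  have hXf : X * f = X := by
    calc X * f = (x * y) * (x * y) * x := by
          rw [hX, ← hyx]; simp only [Matrix.mul_assoc]
      _ = X := by rw [hX, hxy, he]
  have hfY : f * Y = Y := by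
    calc f * Y = (y * x) * (y * x) * y := by
          rw [hY, ← hyx]; simp only [Matrix.mul_assoc]
      _ = Y := by rw [hY, hyx, hf]
  have hYe : Y * e = Y := by
    calc Y * e = (y * x) * (y * x) * y := by
          rw [hY, ← hxy]; simp only [Matrix.mul_assoc]
      _ = Y := by rw [hY, hyx, hf]
  have hz : Matrix.fromBlocks (1 - e) X Y (1 - f) * Matrix.fromBlocks (1 - e) X Y (1 - f) = 1 := by
    rw [Matrix.fromBlocks_multiply, ← Matrix.fromBlocks_one]
    congr 1
    · rw [hXY, one_sub_idem he]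
      abel
    · rw [Matrix.sub_mul, Matrix.one_mul, heX, Matrix.mul_sub, Matrix.mul_one, hXf]
      simp
    · rw [Matrix.mul_sub, Matrix.mul_one, hYe, Matrix.sub_mul, Matrix.one_mul, hfY]
      simp
    · rw [hYX, one_sub_idem hf]
      abel
  refine ⟨⟨Matrix.fromBlocks (1 - e) X Y (1 - f), Matrix.fromBlocks (1 - e) X Y (1 - f), hz, hz⟩,
    ?_⟩
  show Matrix.fromBlocks (1 - e) X Y (1 - f) * Matrix.fromBlocks e 0 0 0
    = Matrix.fromBlocks 0 0 0 f * Matrix.fromBlocks (1 - e) X Y (1 - f)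
  rw [Matrix.fromBlocks_multiply, Matrix.fromBlocks_multiply]
  congr 1
  · rw [sub_mul, one_mul, he]; simp
  · simp
  · rw [hYe, hfY]; simp
  · rw [mul_sub, mul_one, hf]; simp

theorem mvN_corner {e : Matrix ι ι A} (he : e * e = e) :
    MvN e (Matrix.fromBlocks e 0 0 (0 : Matrix κ κ A)) := by
  refine ⟨Matrix.fromCols e 0, Matrix.fromRows e 0, ?_, ?_⟩
  · rw [Matrix.fromCols_mul_fromRows, he]
    simp
  · rw [Matrix.fromRows_mul_fromCols, he]
    simp

end

theorem CRelSpec.mvN_of_map {φ : R →ₐ[ℂ] S} {C : Subalgebra ℂ R} (H : CRelSpec φ C)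
    {ι κ : Type*} [Fintype ι] [Fintype κ] [DecidableEq ι] [DecidableEq κ]
    {e : Matrix ι ι R} {f : Matrix κ κ R} (he : e * e = e) (hf : f * f = f)
    (h : MvN (e.map φ) (f.map φ)) : MvN e f := by
  have he' : e.map φ * e.map φ = e.map φ := by
    have := Matrix.map_mul (L := e) (M := e) (f := (φ : R →+* S))
    rw [he] at this
    exact this.symm
  have hf' : f.map φ * f.map φ = f.map φ := by
    have := Matrix.map_mul (L := f) (M := f) (f := (φ : R →+* S))
    rw [hf] at this
    exact this.symm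
  have h1 := sim_of_mvN he' hf' h
  have hR := H.relSpec (ι ⊕ κ)
  have iE := Idem.blocks_idem he (show (0 : Matrix κ κ R) * 0 = 0 by simp)
  have iF := Idem.blocks_idem (show (0 : Matrix ι ι R) * 0 = 0 by simp) hf
  have e1 : (φ.mapMatrix : Matrix (ι ⊕ κ) (ι ⊕ κ) R →ₐ[ℂ] Matrix (ι ⊕ κ) (ι ⊕ κ) S)
      (Matrix.fromBlocks e 0 0 (0 : Matrix κ κ R))
      = Matrix.fromBlocks (e.map φ) 0 0 (0 : Matrix κ κ S) := by
    ext i j
    rcases i with i | i <;> rcases j with j | j <;> simp
  have e2 : (φ.mapMatrix : Matrix (ι ⊕ κ) (ι ⊕ κ) R →ₐ[ℂ] Matrix (ι ⊕ κ) (ι ⊕ κ) S)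
      (Matrix.fromBlocks (0 : Matrix ι ι R) 0 0 f)
      = Matrix.fromBlocks (0 : Matrix ι ι S) 0 0 (f.map φ) := by
    ext i j
    rcases i with i | i <;> rcases j with j | j <;> simp
  have h2 : Sim (Matrix.fromBlocks e 0 0 (0 : Matrix κ κ R))
      (Matrix.fromBlocks (0 : Matrix ι ι R) 0 0 f) := by
    refine hR.sim_of_sim iE iF ?_
    rw [e1, e2]
    exact h1
  exact MvN.trans he hf (MvN.trans he iF (mvN_corner he) (mvN_of_sim iE iF h2))
    (MvN.zero_blocks rfl hf)

/-- A completely relatively spectral homomorphism induces a bijection on classes of idempotent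
matrices. -/
theorem CRelSpec.V_bijective {φ : R →ₐ[ℂ] S} {C : Subalgebra ℂ R} (H : CRelSpec φ C) :
    Function.Bijective (V.map (φ : R →+* S)) := by
  constructor
  · rintro ⟨a⟩ ⟨b⟩ hab
    have h1 : MvN (a.e.map φ) (b.e.map φ) := V.mk_eq_mk.1 hab
    exact V.mk_eq_mk.2 (H.mvN_of_map a.idem b.idem h1)
  · rintro ⟨b⟩
    obtain ⟨e, he, hs⟩ := (H.relSpec (Fin b.n)).exists_idem b.idem
    refine ⟨V.mk ⟨b.n, e, he⟩, ?_⟩
    refine V.mk_eq_mk.2 ?_
    refine (mvN_of_sim b.idem ?_ hs).symm
    rw [← map_mul, he]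

/-- **A completely relatively spectral homomorphism induces an isomorphism on `K_0`.** -/
theorem CRelSpec.K0_bijective {φ : R →ₐ[ℂ] S} {C : Subalgebra ℂ R} (H : CRelSpec φ C) :
    Function.Bijective (K0.map (φ : R →+* S)) :=
  K0.map_bijective_of_V _ H.V_bijective

end Pool.Agent.BCH
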