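import Pool.Agent.Lib.MP_aa9b81_an.H.PDefs
import Pool.Agent.Lib.MP_aa9b81_an.H.KMain

/-!
# Two norms on an algebra with the same invertible matrices have the same K-theory
-/

open Matrix UniformSpace

namespace Pool.Agent.BCH

universe u

variable {A : Type u} [NonUnitalRing A] [Module ℂ A] [IsScalarTower ℂ A A] [SMulCommClass ℂ A A]
variable {ν ν' : AlgSeminorm A}

/-- The canonical map `ℂ ⊕ A → Compl A ν`. -/
noncomputable def Compl.of (ν : AlgSeminorm A) (x : Unitization ℂ A) : Compl A ν :=
  ((show Plus A ν from x : Plus A ν) : Completion (Plus A ν))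

theorem Compl.id_of (h : ∀ a, ν' a ≤ ν a) (x : Unitization ℂ A) :
    Compl.id h (Compl.of ν x) = Compl.of ν' x :=
  Completion.mapRingHom_coe (Plus.continuous_id h) (show Plus A ν from x)

/-- `Compl.id` as a homomorphism of complex algebras. -/
noncomputable def Compl.idAlg (h : ∀ a, ν' a ≤ ν a) : Compl A ν →ₐ[ℂ] Compl A ν' :=
  { Compl.id h with
    commutes' := fun r => by
      show Compl.id h (algebraMap ℂ (Compl A ν) r) = algebraMap ℂ (Compl A ν') r
      exact Compl.id_of h (algebraMap ℂ (Unitization ℂ A) r) }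

/-- The dense subalgebra `ℂ ⊕ A` of `Compl A ν`. -/
noncomputable def Compl.dense (ν : AlgSeminorm A) : Subalgebra ℂ (Compl A ν) where
  carrier := Set.range (Compl.of ν)
  mul_mem' := by
    rintro _ _ ⟨x, rfl⟩ ⟨y, rfl⟩
    exact ⟨x * y, Completion.coe_mul (show Plus A ν from x) (show Plus A ν from y)⟩
  add_mem' := by
    rintro _ _ ⟨x, rfl⟩ ⟨y, rfl⟩
    exact ⟨x + y, Completion.coe_add (show Plus A ν from x) (show Plus A ν from y)⟩
  algebraMap_mem' r := ⟨algebraMap ℂ (Unitization ℂ A) r, rfl⟩

theorem Compl.denseRange_of (ν : AlgSeminorm A) : DenseRange (Compl.of ν) := by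
  have h1 : DenseRange (fun x : Plus A ν => (x : Completion (Plus A ν))) :=
    Completion.denseRange_coe
  exact h1

/-- The hypothesis on the invertible matrices over `ℂ ⊕ A`. -/
theorem Compl.cRelSpec (h : ∀ a, ν' a ≤ ν a)
    (H : ∀ (m : ℕ) (c : Matrix (Fin m) (Fin m) (Unitization ℂ A)),
      IsUnit (c.map (Compl.of ν')) → IsUnit (c.map (Compl.of ν))) :
    CRelSpec (Compl.idAlg h) (Compl.dense ν) where
  cont := Compl.continuous_id h
  dense := Compl.denseRange_of ν
  dense' := by
    refine (Compl.denseRange_of ν').mono ?_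
    rintro _ ⟨x, rfl⟩
    exact ⟨Compl.of ν x, ⟨x, rfl⟩, Compl.id_of h x⟩
  spec m c hc hu := by
    choose d hd using hc
    have h1 : c = Matrix.map (fun i j => d i j) (Compl.of ν) := by
      ext i j
      exact (hd i j).symm
    have h2 : c.map (Compl.idAlg h) = Matrix.map (fun i j => d i j) (Compl.of ν') := by
      ext i j
      rw [Matrix.map_apply, ← hd i j]
      exact Compl.id_of h (d i j)
    rw [h2] at hu
    rw [h1]
    exact H m _ hu

/-- **Isomorphism on `K_0`.** -/
theorem KK0.map_bijective (h : ∀ a, ν' a ≤ ν a)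
    (H : ∀ (m : ℕ) (c : Matrix (Fin m) (Fin m) (Unitization ℂ A)),
      IsUnit (c.map (Compl.of ν')) → IsUnit (c.map (Compl.of ν))) :
    Function.Bijective (KK0.map (A := A) h) := by
  have hb : Function.Bijective (K0.map (Compl.id h)) := (Compl.cRelSpec h H).K0_bijective
  constructor
  · intro x y hxy
    have h1 : K0.map (Compl.id h) x.1 = K0.map (Compl.id h) y.1 := congrArg Subtype.val hxy
    exact Subtype.ext (hb.1 h1)
  · intro y
    obtain ⟨x, hx⟩ := hb.2 y.1
    have hx0 : K0.map (Compl.aug ν) x = 0 := by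
      have h2 : K0.map (Compl.aug ν') (K0.map (Compl.id h) x) = 0 := by rw [hx]; exact y.2
      rw [K0.map_comp, show (Compl.aug ν').comp (Compl.id h) = Compl.aug ν from
        RingHom.ext (Compl.aug_id h)] at h2
      exact h2
    exact ⟨⟨x, hx0⟩, Subtype.ext hx⟩

/-- **Isomorphism on `K_1`.** -/
theorem KK1.map_bijective (h : ∀ a, ν' a ≤ ν a)
    (H : ∀ (m : ℕ) (c : Matrix (Fin m) (Fin m) (Unitization ℂ A)),
      IsUnit (c.map (Compl.of ν')) → IsUnit (c.map (Compl.of ν))) :
    Function.Bijective (KK1.map (A := A) h) := by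
  have hb : Function.Bijective (K1.map (Compl.id h) (Compl.continuous_id h)) :=
    (Compl.cRelSpec h H).K1_bijective
  constructor
  · intro x y hxy
    have h1 : K1.map (Compl.id h) (Compl.continuous_id h) x.1
        = K1.map (Compl.id h) (Compl.continuous_id h) y.1 := congrArg Subtype.val hxy
    exact Subtype.ext (hb.1 h1)
  · intro y
    obtain ⟨x, hx⟩ := hb.2 y.1
    have hx0 : K1.map (Compl.aug ν) (Compl.continuous_aug ν) x = 1 := by
      have h2 : K1.map (Compl.aug ν') (Compl.continuous_aug ν')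
          (K1.map (Compl.id h) (Compl.continuous_id h) x) = 1 := by rw [hx]; exact y.2
      rw [K1.map_comp] at h2
      have h3 : (Compl.aug ν').comp (Compl.id h) = Compl.aug ν := RingHom.ext (Compl.aug_id h)
      simp only [h3] at h2
      exact h2
    exact ⟨⟨x, hx0⟩, Subtype.ext hx⟩

end Pool.Agent.BCH
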