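import Mathlib

/-!
# K-theory of topological rings: definitions

* `K0 R`: Grothendieck group of the monoid `V R` of classes of idempotent matrices over the unital
  ring `R`, under algebraic (Murray-von Neumann) equivalence and block sum.
* `K1 R`: direct limit over `n` of the groups `GL_n(R) / (path component of 1)`, for a topological
  ring `R`.
-/

open Matrix

namespace Pool.Agent.BCH

universe u v w

section MvN

variable {R : Type u} [Ring R] {S : Type v} [Ring S]
variable {ι κ l m : Type*} [Fintype ι] [Fintype κ] [Fintype l] [Fintype m]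

/-- Algebraic (Murray-von Neumann) equivalence of square matrices: `e = x y`, `f = y x`. -/
def MvN (e : Matrix ι ι R) (f : Matrix κ κ R) : Prop :=
  ∃ (x : Matrix ι κ R) (y : Matrix κ ι R), x * y = e ∧ y * x = f

theorem MvN.refl {e : Matrix ι ι R} (he : e * e = e) : MvN e e := ⟨e, e, he, he⟩

theorem MvN.symm {e : Matrix ι ι R} {f : Matrix κ κ R} (h : MvN e f) : MvN f e := by
  obtain ⟨x, y, h1, h2⟩ := h
  exact ⟨y, x, h2, h1⟩

theorem MvN.trans {e : Matrix ι ι R} {f : Matrix κ κ R} {g : Matrix l l R}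
    (he : e * e = e) (hg : g * g = g) (h : MvN e f) (h' : MvN f g) : MvN e g := by
  obtain ⟨x, y, h1, h2⟩ := h
  obtain ⟨z, w, h3, h4⟩ := h'
  refine ⟨x * z, w * y, ?_, ?_⟩
  · calc x * z * (w * y) = x * (z * w) * y := by simp only [Matrix.mul_assoc]
      _ = x * (y * x) * y := by rw [h3, h2]
      _ = (x * y) * (x * y) := by simp only [Matrix.mul_assoc]
      _ = e := by rw [h1, he]
  · calc w * y * (x * z) = w * (y * x) * z := by simp only [Matrix.mul_assoc]
      _ = w * (z * w) * z := by rw [h2, h3]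
      _ = (w * z) * (w * z) := by simp only [Matrix.mul_assoc]
      _ = g := by rw [h4, hg]

theorem MvN.map (f : R →+* S) {e : Matrix ι ι R} {e' : Matrix κ κ R} (h : MvN e e') :
    MvN (e.map f) (e'.map f) := by
  obtain ⟨x, y, h1, h2⟩ := h
  exact ⟨x.map f, y.map f, by rw [← Matrix.map_mul, h1], by rw [← Matrix.map_mul, h2]⟩

theorem MvN.reindex {e : Matrix ι ι R} (he : e * e = e) (σ : ι ≃ κ) :
    MvN e (Matrix.reindex σ σ e) := by
  refine ⟨Matrix.reindex (_root_.Equiv.refl _) σ e, Matrix.reindex σ (_root_.Equiv.refl _) e,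
    ?_, ?_⟩
  · simp only [Matrix.reindex_apply, Matrix.submatrix_mul_equiv, he]
    ext i j; simp
  · simp only [Matrix.reindex_apply, Matrix.submatrix_mul_equiv, he]

theorem MvN.fromBlocks {e : Matrix ι ι R} {e' : Matrix κ κ R} {f : Matrix l l R}
    {f' : Matrix m m R} (h : MvN e e') (h' : MvN f f') :
    MvN (Matrix.fromBlocks e 0 0 f) (Matrix.fromBlocks e' 0 0 f') := by
  obtain ⟨x, y, h1, h2⟩ := h
  obtain ⟨z, w, h3, h4⟩ := h'
  refine ⟨Matrix.fromBlocks x 0 0 z, Matrix.fromBlocks y 0 0 w, ?_, ?_⟩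
  · simp [Matrix.fromBlocks_multiply, h1, h3]
  · simp [Matrix.fromBlocks_multiply, h2, h4]

theorem MvN.blocks_comm {e : Matrix ι ι R} {f : Matrix κ κ R} (he : e * e = e) (hf : f * f = f) :
    MvN (Matrix.fromBlocks e 0 0 f) (Matrix.fromBlocks f 0 0 e) := by
  refine ⟨Matrix.fromBlocks 0 e f 0, Matrix.fromBlocks 0 f e 0, ?_, ?_⟩
  · simp [Matrix.fromBlocks_multiply, he, hf]
  · simp [Matrix.fromBlocks_multiply, he, hf]

theorem MvN.zero_blocks {z : Matrix ι ι R} (hz : z = 0) {e : Matrix κ κ R} (he : e * e = e) :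
    MvN (Matrix.fromBlocks z 0 0 e) e := by
  subst hz
  refine ⟨Matrix.fromRows 0 e, Matrix.fromCols 0 e, ?_, ?_⟩
  · rw [Matrix.fromRows_mul_fromCols]
    simp [he]
  · rw [Matrix.fromCols_mul_fromRows]
    simp [he]

end MvN

section K0

variable {R : Type u} [Ring R] {S : Type v} [Ring S] {T : Type w} [Ring T]

/-- An idempotent matrix of some size `n` over `R`. -/
structure Idem (R : Type u) [Ring R] where
  n : ℕ
  e : Matrix (Fin n) (Fin n) R
  idem : e * e = e

/-- Algebraic (Murray-von Neumann) equivalence of idempotent matrices: `e = x y`, `f = y x`. -/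
instance Idem.setoid (R : Type u) [Ring R] : Setoid (Idem R) where
  r e f := MvN e.e f.e
  iseqv := ⟨fun e => MvN.refl e.idem, fun h => h.symm,
    fun {e} _ {g} h h' => MvN.trans e.idem g.idem h h'⟩

/-- Classes of idempotent matrices over `R`. -/
def V (R : Type u) [Ring R] : Type u := Quotient (Idem.setoid R)

/-- The class of an idempotent matrix. -/
def V.mk (e : Idem R) : V R := Quotient.mk _ e

theorem V.mk_eq_mk {e f : Idem R} : V.mk e = V.mk f ↔ MvN e.e f.e := Quotient.eq

/-- Block sum of idempotent matrices. -/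
def Idem.add (e f : Idem R) : Idem R where
  n := e.n + f.n
  e := Matrix.reindex finSumFinEquiv finSumFinEquiv (Matrix.fromBlocks e.e 0 0 f.e)
  idem := by
    rw [Matrix.reindex_apply, Matrix.submatrix_mul_equiv, Matrix.fromBlocks_multiply]
    simp [e.idem, f.idem]

theorem Idem.blocks_idem {ι κ : Type*} [Fintype ι] [Fintype κ] {e : Matrix ι ι R}
    {f : Matrix κ κ R} (he : e * e = e) (hf : f * f = f) :
    (Matrix.fromBlocks e 0 0 f) * (Matrix.fromBlocks e 0 0 f) = Matrix.fromBlocks e 0 0 f := by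
  rw [Matrix.fromBlocks_multiply]; simp [he, hf]

theorem Idem.add_mvn (e f : Idem R) : MvN (Matrix.fromBlocks e.e 0 0 f.e) (e.add f).e :=
  MvN.reindex (Idem.blocks_idem e.idem f.idem) _

/-- The zero idempotent (of size 0). -/
def Idem.zero : Idem R where
  n := 0
  e := 0
  idem := by simp

theorem Idem.add_congr {e e' f f' : Idem R} (h : MvN e.e e'.e) (h' : MvN f.e f'.e) :
    MvN (e.add f).e (e'.add f').e :=
  MvN.trans (e.add f).idem (e'.add f').idem (Idem.add_mvn e f).symm
    (MvN.trans (Idem.blocks_idem e.idem f.idem) (e'.add f').idem (h.fromBlocks h')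
      (Idem.add_mvn e' f'))

theorem Idem.zero_add_mvn (e : Idem R) : MvN (Idem.zero.add e).e e.e :=
  MvN.trans (Idem.zero.add e).idem e.idem (Idem.add_mvn Idem.zero e).symm
    (MvN.zero_blocks rfl e.idem)

theorem Idem.add_comm_mvn (e f : Idem R) : MvN (e.add f).e (f.add e).e :=
  MvN.trans (e.add f).idem (f.add e).idem (Idem.add_mvn e f).symm
    (MvN.trans (Idem.blocks_idem e.idem f.idem) (f.add e).idem (MvN.blocks_comm e.idem f.idem)
      (Idem.add_mvn f e))

theorem Idem.add_assoc_mvn (e f g : Idem R) :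
    MvN ((e.add f).add g).e (e.add (f.add g)).e := by
  have h1 : MvN (Matrix.fromBlocks (Matrix.fromBlocks e.e 0 0 f.e) 0 0 g.e)
      ((e.add f).add g).e :=
    MvN.trans (Idem.blocks_idem (Idem.blocks_idem e.idem f.idem) g.idem) ((e.add f).add g).idem
      ((Idem.add_mvn e f).fromBlocks (MvN.refl g.idem)) (Idem.add_mvn (e.add f) g)
  have h2 : MvN (Matrix.fromBlocks e.e 0 0 (Matrix.fromBlocks f.e 0 0 g.e))
      (e.add (f.add g)).e :=
    MvN.trans (Idem.blocks_idem e.idem (Idem.blocks_idem f.idem g.idem)) (e.add (f.add g)).idem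
      ((MvN.refl e.idem).fromBlocks (Idem.add_mvn f g)) (Idem.add_mvn e (f.add g))
  have h3 : MvN (Matrix.fromBlocks (Matrix.fromBlocks e.e 0 0 f.e) 0 0 g.e)
      (Matrix.fromBlocks e.e 0 0 (Matrix.fromBlocks f.e 0 0 g.e)) := by
    have := MvN.reindex (Idem.blocks_idem (Idem.blocks_idem e.idem f.idem) g.idem)
      (_root_.Equiv.sumAssoc (Fin e.n) (Fin f.n) (Fin g.n))
    have he : Matrix.reindex (_root_.Equiv.sumAssoc (Fin e.n) (Fin f.n) (Fin g.n))
        (_root_.Equiv.sumAssoc (Fin e.n) (Fin f.n) (Fin g.n))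
        (Matrix.fromBlocks (Matrix.fromBlocks e.e 0 0 f.e) 0 0 g.e) =
        Matrix.fromBlocks e.e 0 0 (Matrix.fromBlocks f.e 0 0 g.e) := by
      ext i j
      rcases i with i | i | i <;> rcases j with j | j | j <;> simp [Matrix.reindex_apply]
    rw [he] at this
    exact this
  exact MvN.trans ((e.add f).add g).idem (e.add (f.add g)).idem h1.symm
    (MvN.trans (Idem.blocks_idem (Idem.blocks_idem e.idem f.idem) g.idem)
      (e.add (f.add g)).idem h3 h2)

instance : Add (V R) where
  add := Quotient.map₂ Idem.add (fun _ _ h _ _ h' => Idem.add_congr h h')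

instance : Zero (V R) where
  zero := V.mk Idem.zero

theorem V.mk_add (e f : Idem R) : V.mk e + V.mk f = V.mk (e.add f) := rfl

theorem V.zero_def : (0 : V R) = V.mk Idem.zero := rfl

instance : AddCommMonoid (V R) where
  add_assoc := by
    rintro ⟨a⟩ ⟨b⟩ ⟨c⟩
    exact V.mk_eq_mk.mpr (Idem.add_assoc_mvn a b c)
  add_comm := by
    rintro ⟨a⟩ ⟨b⟩
    exact V.mk_eq_mk.mpr (Idem.add_comm_mvn a b)
  zero_add := by
    rintro ⟨a⟩
    exact V.mk_eq_mk.mpr (Idem.zero_add_mvn a)
  add_zero := by
    rintro ⟨a⟩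
    exact V.mk_eq_mk.mpr (MvN.trans (a.add Idem.zero).idem a.idem (Idem.add_comm_mvn a Idem.zero)
      (Idem.zero_add_mvn a))
  nsmul := nsmulRec

/-- The image of an idempotent matrix under a ring homomorphism. -/
def Idem.map (f : R →+* S) (e : Idem R) : Idem S where
  n := e.n
  e := e.e.map f
  idem := by rw [← Matrix.map_mul, e.idem]

theorem map_reindex_fromBlocks {ι κ l : Type*} (f : R →+* S) (σ : ι ⊕ κ ≃ l)
    (e : Matrix ι ι R) (e' : Matrix κ κ R) :
    (Matrix.reindex σ σ (Matrix.fromBlocks e 0 0 e')).map f =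
      Matrix.reindex σ σ (Matrix.fromBlocks (e.map f) 0 0 (e'.map f)) := by
  ext i j
  simp only [Matrix.reindex_apply, Matrix.submatrix_apply, Matrix.map_apply]
  rcases σ.symm i with i | i <;> rcases σ.symm j with j | j <;> simp

/-- The map induced on classes of idempotent matrices. -/
def V.map (f : R →+* S) : V R →+ V S where
  toFun := Quotient.map (Idem.map f) (fun _ _ h => MvN.map f h)
  map_zero' := by
    refine V.mk_eq_mk.mpr ?_
    have : (Idem.map f (Idem.zero : Idem R)).e = (Idem.zero : Idem S).e := by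
      ext i; exact i.elim0
    rw [this]
    exact MvN.refl Idem.zero.idem
  map_add' := by
    rintro ⟨a⟩ ⟨b⟩
    refine V.mk_eq_mk.mpr ?_
    have : (Idem.map f (a.add b)).e = ((Idem.map f a).add (Idem.map f b)).e :=
      map_reindex_fromBlocks f finSumFinEquiv a.e b.e
    rw [this]
    exact MvN.refl (Idem.add _ _).idem

theorem V.map_mk (f : R →+* S) (e : Idem R) : V.map f (V.mk e) = V.mk (e.map f) := rfl

/-- The group `K_0(R)` of a unital ring `R`. -/
abbrev K0 (R : Type u) [Ring R] : Type u := Algebra.GrothendieckAddGroup (V R)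

/-- The map induced on `K_0` by a ring homomorphism. -/
noncomputable def K0.map (f : R →+* S) : K0 R →+ K0 S :=
  Algebra.GrothendieckAddGroup.lift
    ((Algebra.GrothendieckAddGroup.of : V S →+ K0 S).comp (V.map f))

end K0

section stab

variable {R : Type u} [Ring R] {S : Type v} [Ring S]

/-- The block sum of an `n × n` matrix with the identity matrix of size `m - n` (for `n ≤ m`). -/
def stabM (R : Type u) [Ring R] (n m : ℕ) (A : Matrix (Fin n) (Fin n) R) :
    Matrix (Fin m) (Fin m) R :=
  fun i j => if h : i.1 < n ∧ j.1 < n then A ⟨i.1, h.1⟩ ⟨j.1, h.2⟩ else if i = j then 1 else 0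

theorem stabM_one (n m : ℕ) : stabM R n m 1 = 1 := by
  ext i j
  simp only [stabM, Matrix.one_apply]
  by_cases h : i.1 < n ∧ j.1 < n
  · rw [dif_pos h]
    simp [Fin.ext_iff]
  · rw [dif_neg h]

theorem stabM_self (n : ℕ) (A : Matrix (Fin n) (Fin n) R) : stabM R n n A = A := by
  ext i j
  simp [stabM]

theorem stabM_stabM {n m : ℕ} (h : n ≤ m) (k : ℕ) (A : Matrix (Fin n) (Fin n) R) :
    stabM R m k (stabM R n m A) = stabM R n k A := by
  ext i j
  simp only [stabM]
  by_cases h1 : i.1 < n ∧ j.1 < n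
  · have h2 : i.1 < m ∧ j.1 < m := ⟨h1.1.trans_le h, h1.2.trans_le h⟩
    rw [dif_pos h2, dif_pos h1, dif_pos h1]
  · rw [dif_neg h1]
    by_cases h2 : i.1 < m ∧ j.1 < m
    · rw [dif_pos h2, dif_neg h1]
      simp [Fin.ext_iff]
    · rw [dif_neg h2]

theorem stabM_mul {n m : ℕ} (h : n ≤ m) (A B : Matrix (Fin n) (Fin n) R) :
    stabM R n m (A * B) = stabM R n m A * stabM R n m B := by
  obtain ⟨k, rfl⟩ := Nat.exists_eq_add_of_le h
  have key : ∀ C : Matrix (Fin n) (Fin n) R, stabM R n (n + k) C =
      Matrix.reindex finSumFinEquiv finSumFinEquiv (Matrix.fromBlocks C 0 0 1) := by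
    intro C
    ext i j
    rcases hi : finSumFinEquiv.symm i with a | a <;> rcases hj : finSumFinEquiv.symm j with b | b
    all_goals
      rw [Equiv.symm_apply_eq] at hi hj
      subst hi hj
      simp [stabM, Matrix.reindex_apply, Matrix.one_apply, Fin.ext_iff]
      try omega
  rw [key, key, key, Matrix.reindex_apply, Matrix.reindex_apply, Matrix.reindex_apply,
    Matrix.submatrix_mul_equiv, Matrix.fromBlocks_multiply]
  simp

theorem stabM_map (f : R →+* S) (n m : ℕ) (A : Matrix (Fin n) (Fin n) R) :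
    (stabM R n m A).map f = stabM S n m (A.map f) := by
  ext i j
  simp only [stabM, Matrix.map_apply]
  split_ifs <;> simp

theorem continuous_stabM [TopologicalSpace R] (n m : ℕ) : Continuous (stabM R n m) := by
  refine continuous_pi fun i => continuous_pi fun j => ?_
  unfold stabM
  by_cases h : i.1 < n ∧ j.1 < n
  · simp only [dif_pos h]
    fun_prop
  · simp only [dif_neg h]
    fun_prop

/-- `GL_n(R)`. -/
abbrev GLn (R : Type u) [Ring R] (n : ℕ) : Type u := (Matrix (Fin n) (Fin n) R)ˣ

/-- Stabilization `GL_n(R) → GL_m(R)`, `n ≤ m`. -/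
def stabGL (R : Type u) [Ring R] {n m : ℕ} (h : n ≤ m) : GLn R n →* GLn R m :=
  Units.map { toFun := stabM R n m, map_one' := stabM_one n m, map_mul' := stabM_mul h }

/-- The map `GL_n(R) → GL_n(S)` induced by a ring homomorphism. -/
def GLn.map (f : R →+* S) (n : ℕ) : GLn R n →* GLn S n := Units.map f.mapMatrix.toMonoidHom

end stab

section K1

variable {R : Type u} [Ring R] [TopologicalSpace R] [IsTopologicalRing R]
variable {S : Type v} [Ring S] [TopologicalSpace S] [IsTopologicalRing S]

/-- `π₀(GL_n(R)) = GL_n(R) / (path component of 1)`. -/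
abbrev P0 (R : Type u) [Ring R] [TopologicalSpace R] [IsTopologicalRing R] (n : ℕ) : Type u :=
  GLn R n ⧸ Subgroup.pathComponentOne (GLn R n)

theorem continuous_stabGL {n m : ℕ} (h : n ≤ m) : Continuous (stabGL R h) :=
  Continuous.units_map _ (continuous_stabM n m)

theorem continuous_GLnMap {f : R →+* S} (hf : Continuous f) (n : ℕ) :
    Continuous (GLn.map f n) :=
  Continuous.units_map _ (by
    show Continuous (fun A : Matrix (Fin n) (Fin n) R => A.map f)
    fun_prop)

theorem pathComponentOne_le_comap {A B : Type*} [Group A] [TopologicalSpace A]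
    [IsTopologicalGroup A] [Group B] [TopologicalSpace B] [IsTopologicalGroup B] (g : A →* B)
    (hg : Continuous g) :
    Subgroup.pathComponentOne A ≤ (Subgroup.pathComponentOne B).comap g := by
  intro a ha
  have ha' : Joined (1 : A) a := ha
  show Joined (1 : B) (g a)
  have := ha'.map hg
  rwa [map_one] at this

/-- Stabilization `π₀(GL_n(R)) → π₀(GL_m(R))`, `n ≤ m`. -/
def stabP0 (R : Type u) [Ring R] [TopologicalSpace R] [IsTopologicalRing R] (n m : ℕ)
    (h : n ≤ m) : P0 R n →* P0 R m :=
  QuotientGroup.map _ _ (stabGL R h) (pathComponentOne_le_comap _ (continuous_stabGL h))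

instance stabP0_directed : DirectedSystem (P0 R) (fun n m h => ⇑(stabP0 R n m h)) where
  map_self := by
    intro n x
    obtain ⟨u, rfl⟩ := QuotientGroup.mk_surjective x
    exact congrArg (QuotientGroup.mk (s := Subgroup.pathComponentOne (GLn R n)))
      (Units.ext (stabM_self n u.1))
  map_map := by
    intro c b a h h' x
    obtain ⟨u, rfl⟩ := QuotientGroup.mk_surjective x
    exact congrArg (QuotientGroup.mk (s := Subgroup.pathComponentOne (GLn R c)))
      (Units.ext (stabM_stabM h c u.1))

/-- The group `K_1(R) = lim_n π₀(GL_n(R))` of a topological ring `R` (written multiplicatively). -/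
abbrev K1 (R : Type u) [Ring R] [TopologicalSpace R] [IsTopologicalRing R] : Type u :=
  DirectLimit (P0 R) (stabP0 R)

/-- The map `π₀(GL_n(R)) → π₀(GL_n(S))` induced by a continuous ring homomorphism. -/
def P0.map (f : R →+* S) (hf : Continuous f) (n : ℕ) : P0 R n →* P0 S n :=
  QuotientGroup.map _ _ (GLn.map f n) (pathComponentOne_le_comap _ (continuous_GLnMap hf n))

theorem P0.map_stab (f : R →+* S) (hf : Continuous f) (n m : ℕ) (h : n ≤ m) (x : P0 R n) :
    P0.map f hf m (stabP0 R n m h x) = stabP0 S n m h (P0.map f hf n x) := by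
  obtain ⟨u, rfl⟩ := QuotientGroup.mk_surjective x
  exact congrArg (QuotientGroup.mk (s := Subgroup.pathComponentOne (GLn S m)))
    (Units.ext (stabM_map f n m u.1))

/-- The map induced on `K_1` by a continuous ring homomorphism. -/
def K1.map (f : R →+* S) (hf : Continuous f) : K1 R →* K1 S where
  toFun := DirectLimit.map _ _ (fun n => P0.map f hf n) (fun n m h x => (P0.map_stab f hf n m h x).symm)
  map_one' := by
    rw [DirectLimit.one_def 0, DirectLimit.map_def, DirectLimit.one_def 0]
    simp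
  map_mul' := by
    refine DirectLimit.induction₂ _ fun i x y => ?_
    simp only [DirectLimit.mul_def, DirectLimit.map_def, map_mul]

end K1

end Pool.Agent.BCH
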