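import Pool.Agent.Lib.MP_aa9b81_an.H.KDefs

/-!
# Functoriality of `K_0` and `K_1`
-/

open Matrix

namespace Pool.Agent.BCH

universe u v w

section

variable {R : Type u} [Ring R] {S : Type v} [Ring S] {T : Type w} [Ring T]

theorem K0.map_of (f : R →+* S) (x : V R) :
    K0.map f (Algebra.GrothendieckAddGroup.of x) = Algebra.GrothendieckAddGroup.of (V.map f x) := by
  have := Algebra.GrothendieckAddGroup.lift.symm_apply_apply
    ((Algebra.GrothendieckAddGroup.of : V S →+ K0 S).comp (V.map f))
  exact DFunLike.congr_fun this x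

theorem K0.hom_ext {M : Type*} [AddCommMonoid M] {G : Type*} [AddCommGroup G]
    {f g : Algebra.GrothendieckAddGroup M →+ G}
    (h : ∀ x, f (Algebra.GrothendieckAddGroup.of x) = g (Algebra.GrothendieckAddGroup.of x)) :
    f = g := by
  apply Algebra.GrothendieckAddGroup.lift.symm.injective
  ext x
  exact h x

/-- A homomorphism inducing a bijection on `V` induces a bijection on `K_0`. -/
theorem K0.map_bijective_of_V (φ : R →+* S) (h : Function.Bijective (V.map φ)) :
    Function.Bijective (K0.map φ) := by
  let E : V R ≃+ V S := AddEquiv.ofBijective (V.map φ) h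
  let G : K0 S →+ K0 R := Algebra.GrothendieckAddGroup.lift
    ((Algebra.GrothendieckAddGroup.of : V R →+ K0 R).comp E.symm.toAddMonoidHom)
  have hG : ∀ y : V S, G (Algebra.GrothendieckAddGroup.of y)
      = Algebra.GrothendieckAddGroup.of (E.symm y) := by
    intro y
    have := Algebra.GrothendieckAddGroup.lift.symm_apply_apply
      ((Algebra.GrothendieckAddGroup.of : V R →+ K0 R).comp E.symm.toAddMonoidHom)
    exact DFunLike.congr_fun this y
  have h1 : G.comp (K0.map φ) = AddMonoidHom.id _ := by
    refine K0.hom_ext fun x => ?_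
    rw [AddMonoidHom.comp_apply, K0.map_of, hG, AddMonoidHom.id_apply]
    congr 1
    exact E.symm_apply_apply x
  have h2 : (K0.map φ).comp G = AddMonoidHom.id _ := by
    refine K0.hom_ext fun y => ?_
    rw [AddMonoidHom.comp_apply, hG, K0.map_of, AddMonoidHom.id_apply]
    congr 1
    exact E.apply_symm_apply y
  refine ⟨fun a b hab => ?_, fun b => ⟨G b, DFunLike.congr_fun h2 b⟩⟩
  have ha := DFunLike.congr_fun h1 a
  have hb := DFunLike.congr_fun h1 b
  rw [AddMonoidHom.comp_apply, AddMonoidHom.id_apply] at ha hb
  rw [← ha, ← hb, hab]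

theorem K0.map_comp (g : S →+* T) (f : R →+* S) (x : K0 R) :
    K0.map g (K0.map f x) = K0.map (g.comp f) x := by
  have : (K0.map g).comp (K0.map f) = K0.map (g.comp f) := by
    refine K0.hom_ext fun x => ?_
    rw [AddMonoidHom.comp_apply, K0.map_of, K0.map_of, K0.map_of]
    congr 1
    obtain ⟨e⟩ := x
    rfl
  exact DFunLike.congr_fun this x

end

section

variable {R : Type u} [Ring R] [TopologicalSpace R] [IsTopologicalRing R]
    {S : Type v} [Ring S] [TopologicalSpace S] [IsTopologicalRing S]
    {T : Type w} [Ring T] [TopologicalSpace T] [IsTopologicalRing T]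

theorem K1.map_comp (g : S →+* T) (hg : Continuous g) (f : R →+* S) (hf : Continuous f)
    (x : K1 R) : K1.map g hg (K1.map f hf x) = K1.map (g.comp f) (hg.comp hf) x := by
  induction x using DirectLimit.induction with
  | _ n x =>
    obtain ⟨u, rfl⟩ := QuotientGroup.mk_surjective x
    rfl

end

end Pool.Agent.BCH
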