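import Mathlib

/-!
# Idempotents in Banach algebras: the function `E`

`E g` is the idempotent obtained from an almost idempotent `g` (spectral radius of `g - g^2` below
`1/4`).
-/

namespace Pool.Agent.BCH

open Topology Filter

section cat

variable {R : Type*} [NormedRing R] [NormedAlgebra ℂ R] [CompleteSpace R]

/-- The Catalan series `c(x) = ∑ C_n x^n`, which satisfies `c = 1 + x c²`. -/
noncomputable def catSer (x : R) : R := ∑' n : ℕ, (catalan n : ℂ) • x ^ n

theorem catalan_le_four_pow (n : ℕ) : catalan n ≤ 4 ^ n := by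
  have h1 : catalan n ≤ n.centralBinom := by
    rw [catalan_eq_centralBinom_div]
    exact Nat.div_le_self _ _
  have h2 : n.centralBinom ≤ 2 ^ (2 * n) := by
    unfold Nat.centralBinom
    exact Nat.choose_le_two_pow _ _
  calc catalan n ≤ n.centralBinom := h1
    _ ≤ 2 ^ (2 * n) := h2
    _ = 4 ^ n := by rw [pow_mul]; norm_num

theorem summable_cat {x : R} (hx : spectralRadius ℂ x < 1 / 4) :
    Summable (fun n : ℕ => ‖(catalan n : ℂ) • x ^ n‖) := by
  -- choose r with ρ < r < 1/4
  obtain ⟨r, hr1, hr2⟩ := ENNReal.lt_iff_exists_nnreal_btwn.1 hx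
  have ht := spectrum.pow_nnnorm_pow_one_div_tendsto_nhds_spectralRadius x
  have hev : ∀ᶠ n : ℕ in atTop, ((‖x ^ n‖₊ : ENNReal) ^ (1 / n : ℝ)) < (r : ENNReal) :=
    ht.eventually (gt_mem_nhds hr1)
  have hr4 : (r : ℝ) < 1 / 4 := by
    have : (r : ENNReal) < ((1 / 4 : NNReal) : ENNReal) := by
      refine lt_of_lt_of_le hr2 ?_
      rw [ENNReal.coe_div (by norm_num)]
      norm_num
    have h2 : r < 1 / 4 := by exact_mod_cast this
    exact_mod_cast h2
  have hb : ∀ᶠ n : ℕ in atTop, ‖x ^ n‖ ≤ (r : ℝ) ^ n := by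
    filter_upwards [hev, eventually_gt_atTop 0] with n hn hn0
    have hn0' : (n : ℝ) ≠ 0 := by exact_mod_cast hn0.ne'
    have h1 : (((‖x ^ n‖₊ : ENNReal) ^ (1 / n : ℝ)) ^ (n : ℝ)) ≤ (r : ENNReal) ^ (n : ℝ) :=
      ENNReal.rpow_le_rpow hn.le (by positivity)
    rw [← ENNReal.rpow_mul, one_div_mul_cancel hn0', ENNReal.rpow_one, ENNReal.rpow_natCast] at h1
    have h2 : ‖x ^ n‖₊ ≤ r ^ n := by exact_mod_cast h1
    exact_mod_cast h2
  refine Summable.of_norm_bounded_eventually_nat (g := fun n => (4 * (r : ℝ)) ^ n) ?_ ?_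
  · refine summable_geometric_of_lt_one (by positivity) (by linarith)
  · filter_upwards [hb] with n hn
    rw [norm_norm, norm_smul, mul_pow]
    refine mul_le_mul ?_ hn (norm_nonneg _) (by positivity)
    rw [Complex.norm_natCast]
    exact_mod_cast catalan_le_four_pow n

theorem catSer_eq {x : R} (hx : spectralRadius ℂ x < 1 / 4) :
    catSer x = 1 + x * (catSer x * catSer x) := by
  have hs := summable_cat hx
  have hs' : Summable (fun n : ℕ => (catalan n : ℂ) • x ^ n) := hs.of_norm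
  unfold catSer
  rw [tsum_mul_tsum_eq_tsum_sum_antidiagonal_of_summable_norm hs hs]
  have hprod : Summable (fun n : ℕ => ∑ kl ∈ Finset.HasAntidiagonal.antidiagonal n,
      ((catalan kl.1 : ℂ) • x ^ kl.1) * ((catalan kl.2 : ℂ) • x ^ kl.2)) :=
    (summable_norm_sum_mul_antidiagonal_of_summable_norm hs hs).of_norm
  rw [← hprod.tsum_mul_left, hs'.tsum_eq_zero_add]
  congr 1
  · simp
  · refine tsum_congr fun n => ?_
    rw [catalan_succ']
    push_cast
    rw [Finset.sum_smul, Finset.mul_sum]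
    refine Finset.sum_congr rfl fun kl hkl => ?_
    have hk : kl.1 + kl.2 = n := Finset.HasAntidiagonal.mem_antidiagonal.1 hkl
    rw [smul_mul_smul_comm, mul_smul_comm, ← pow_add, hk, pow_succ']

/-- `s(x) = 1 - 2 x c(x)`, a square root of `1 - 4x`. -/
noncomputable def sqr (x : R) : R := 1 - 2 * (x * catSer x)

theorem commute_catSer {x y : R} (hxy : Commute y x) (hx : spectralRadius ℂ x < 1 / 4) :
    Commute y (catSer x) := by
  have hs' : Summable (fun n : ℕ => (catalan n : ℂ) • x ^ n) := (summable_cat hx).of_norm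
  show y * catSer x = catSer x * y
  unfold catSer
  rw [← hs'.tsum_mul_left, ← hs'.tsum_mul_right]
  refine tsum_congr fun n => ?_
  rw [mul_smul_comm, smul_mul_assoc, (hxy.pow_right n).eq]

theorem sqr_mul_self {x : R} (hx : spectralRadius ℂ x < 1 / 4) :
    sqr x * sqr x = 1 - 4 * x := by
  have hc := catSer_eq hx
  have hcomm : x * catSer x = catSer x * x := (commute_catSer (Commute.refl x) hx).eq
  have h1 : x * catSer x * (x * catSer x) = x * (catSer x - 1) := by
    have : catSer x - 1 = x * (catSer x * catSer x) := by rw [sub_eq_iff_eq_add']; exact hc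
    rw [this]
    calc x * catSer x * (x * catSer x) = x * (catSer x * x) * catSer x := by noncomm_ring
      _ = x * (x * catSer x) * catSer x := by rw [hcomm]
      _ = x * (x * (catSer x * catSer x)) := by noncomm_ring
  unfold sqr
  calc (1 - 2 * (x * catSer x)) * (1 - 2 * (x * catSer x))
      = 1 - 4 * (x * catSer x) + 4 * (x * catSer x * (x * catSer x)) := by noncomm_ring
    _ = 1 - 4 * (x * catSer x) + 4 * (x * (catSer x - 1)) := by rw [h1]
    _ = 1 - 4 * x := by noncomm_ring

theorem isUnit_one_sub_four {x : R} (hx : spectralRadius ℂ x < 1 / 4) : IsUnit (1 - 4 * x) := by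
  have h1 : ((1 / 4 : ℂ)) ∉ spectrum ℂ x := by
    intro h
    have h2 : (‖(1 / 4 : ℂ)‖₊ : ENNReal) ≤ spectralRadius ℂ x := by
      unfold spectralRadius
      exact le_iSup₂_of_le (1 / 4 : ℂ) h le_rfl
    have h3 : (‖(1 / 4 : ℂ)‖₊ : ENNReal) = 1 / 4 := by
      have : ‖(1 / 4 : ℂ)‖₊ = 1 / 4 := by
        ext; simp
      rw [this, ENNReal.coe_div (by norm_num)]
      norm_num
    rw [h3] at h2
    exact absurd hx (not_lt.2 h2)
  rw [spectrum.notMem_iff] at h1
  have h4 : (1 : R) - 4 * x = (4 : ℂ) • (algebraMap ℂ R (1 / 4) - x) := by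
    rw [smul_sub, Algebra.algebraMap_eq_smul_one, smul_smul]
    norm_num
    rw [Algebra.smul_def, map_ofNat]
  rw [h4]
  exact (IsUnit.smul (Units.mk0 (4 : ℂ) (by norm_num)) h1 : _)

theorem isUnit_sqr {x : R} (hx : spectralRadius ℂ x < 1 / 4) : IsUnit (sqr x) := by
  have h := isUnit_one_sub_four hx
  rw [← sqr_mul_self hx] at h
  exact isUnit_mul_self_iff.1 h

/-- The idempotent attached to an almost idempotent element. -/
noncomputable def idem (g : R) : R :=
  (1 / 2 : ℂ) • (1 + (2 * g - 1) * Ring.inverse (sqr (g - g * g)))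

theorem idem_mul_self {g : R} (h : spectralRadius ℂ (g - g * g) < 1 / 4) :
    idem g * idem g = idem g := by
  obtain ⟨s, hs⟩ := isUnit_sqr h
  have hss : (s : R) * s = 1 - 4 * (g - g * g) := by rw [hs]; exact sqr_mul_self h
  have hgx : Commute (2 * g - 1) (g - g * g) := by
    show (2 * g - 1) * (g - g * g) = (g - g * g) * (2 * g - 1)
    noncomm_ring
  have hc : Commute (2 * g - 1) (s : R) := by
    rw [hs]
    unfold sqr
    refine Commute.sub_right (Commute.one_right _) ?_
    refine Commute.mul_right ?_ (hgx.mul_right (commute_catSer hgx h))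
    exact Commute.ofNat_right _ 2
  have hcv : Commute (2 * g - 1) ((s⁻¹ : Rˣ) : R) := hc.units_inv_right
  have hinv : Ring.inverse (sqr (g - g * g)) = ((s⁻¹ : Rˣ) : R) := by
    rw [← hs, Ring.inverse_unit]
  unfold idem
  rw [hinv]
  have hsq : (2 * g - 1) * ((s⁻¹ : Rˣ) : R) * ((2 * g - 1) * ((s⁻¹ : Rˣ) : R)) = 1 := by
    calc (2 * g - 1) * ((s⁻¹ : Rˣ) : R) * ((2 * g - 1) * ((s⁻¹ : Rˣ) : R))
        = (2 * g - 1) * (((s⁻¹ : Rˣ) : R) * (2 * g - 1)) * ((s⁻¹ : Rˣ) : R) := by noncomm_ring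
      _ = (2 * g - 1) * ((2 * g - 1) * ((s⁻¹ : Rˣ) : R)) * ((s⁻¹ : Rˣ) : R) := by rw [hcv.eq]
      _ = ((2 * g - 1) * (2 * g - 1)) * ((s⁻¹ : Rˣ) : R) * ((s⁻¹ : Rˣ) : R) := by noncomm_ring
      _ = ((s : R) * s) * ((s⁻¹ : Rˣ) : R) * ((s⁻¹ : Rˣ) : R) := by
          rw [hss]
          congr 2
          noncomm_ring
      _ = 1 := by simp [mul_assoc]
  set a := (2 * g - 1) * ((s⁻¹ : Rˣ) : R) with ha
  rw [smul_mul_smul_comm]
  have : (1 + a) * (1 + a) = (2 : ℂ) • (1 + a) := by
    calc (1 + a) * (1 + a) = 1 + a + a + a * a := by noncomm_ring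
      _ = 1 + a + a + 1 := by rw [hsq]
      _ = (2 : ℂ) • (1 + a) := by rw [two_smul]; abel
  rw [this, smul_smul]
  norm_num

theorem idem_of_idem {g : R} (h : g * g = g) : idem g = g := by
  have hx : g - g * g = 0 := by rw [h, sub_self]
  unfold idem
  rw [hx]
  unfold sqr
  rw [zero_mul, mul_zero, sub_zero, Ring.inverse_one, mul_one]
  rw [add_sub_cancel, two_mul, smul_add, ← add_smul]
  norm_num

end cat

section natural

variable {R S : Type*} [NormedRing R] [NormedAlgebra ℂ R] [CompleteSpace R]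
  [NormedRing S] [NormedAlgebra ℂ S] [CompleteSpace S]

theorem map_idem (ψ : R →ₐ[ℂ] S) (hψ : Continuous ψ) {g : R}
    (h : spectralRadius ℂ (g - g * g) < 1 / 4) : ψ (idem g) = idem (ψ g) := by
  obtain ⟨s, hs⟩ := isUnit_sqr h
  have hcat : ψ (catSer (g - g * g)) = catSer (ψ g - ψ g * ψ g) := by
    unfold catSer
    have hs' : Summable (fun n : ℕ => (catalan n : ℂ) • (g - g * g) ^ n) :=
      (summable_cat h).of_norm
    rw [hs'.map_tsum ψ hψ]
    refine tsum_congr fun n => ?_
    rw [map_smul, map_pow, map_sub, map_mul]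
  have hsq : ψ (sqr (g - g * g)) = sqr (ψ g - ψ g * ψ g) := by
    unfold sqr
    rw [map_sub, map_mul, map_mul, hcat, map_one, map_ofNat, map_sub, map_mul]
  unfold idem
  rw [map_smul, map_add, map_mul, map_sub, map_mul, map_one, map_ofNat, ← hsq, ← hs,
    Ring.inverse_unit]
  have : ψ (s : R) = ((Units.map (ψ : R →* S) s : Sˣ) : S) := rfl
  rw [this, Ring.inverse_unit]
  rfl

end natural

section sim

variable {R : Type*} [NormedRing R] [NormedAlgebra ℂ R] [CompleteSpace R]

/-- Similarity of elements. -/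
def Sim {R : Type*} [Ring R] (e f : R) : Prop := ∃ u : Rˣ, (u : R) * e = f * u

theorem Sim.refl {R : Type*} [Ring R] (e : R) : Sim e e := ⟨1, by simp⟩

theorem Sim.symm {R : Type*} [Ring R] {e f : R} (h : Sim e f) : Sim f e := by
  obtain ⟨u, hu⟩ := h
  refine ⟨u⁻¹, ?_⟩
  rw [Units.inv_mul_eq_iff_eq_mul, ← mul_assoc, Units.eq_mul_inv_iff_mul_eq]
  exact hu.symm

theorem Sim.trans {R : Type*} [Ring R] {e f g : R} (h : Sim e f) (h' : Sim f g) : Sim e g := by
  obtain ⟨u, hu⟩ := h
  obtain ⟨v, hv⟩ := h'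
  refine ⟨v * u, ?_⟩
  rw [Units.val_mul, mul_assoc, hu, ← mul_assoc, hv, mul_assoc]

theorem sim_of_path (P : C(unitInterval, R)) (hP : P * P = P) : Sim (P 0) (P 1) := by
  have hPt : ∀ t, P t * P t = P t := fun t => by
    have := congrArg (fun Q : C(unitInterval, R) => Q t) hP
    simpa using this
  haveI : Std.Symm (fun s t : unitInterval => Sim (P s) (P t)) := ⟨fun _ _ h => h.symm⟩
  refine PreconnectedSpace.induction₂ (fun s t : unitInterval => Sim (P s) (P t)) ?_
    ⟨fun _ _ _ h h' => h.trans h'⟩ 0 1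
  intro t
  have hcont : Continuous (fun t' => P t' * P t + (1 - P t') * (1 - P t)) := by fun_prop
  have h1 : (fun t' => P t' * P t + (1 - P t') * (1 - P t)) t = 1 := by
    have := hPt t
    simp only [sub_mul, mul_sub, one_mul, mul_one, this]
    abel
  have hev : ∀ᶠ t' in 𝓝 t, IsUnit (P t' * P t + (1 - P t') * (1 - P t)) := by
    have : {x : R | IsUnit x} ∈ 𝓝 ((fun t' => P t' * P t + (1 - P t') * (1 - P t)) t) := by
      rw [h1]
      exact Units.isOpen.mem_nhds isUnit_one
    exact hcont.continuousAt this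
  filter_upwards [hev] with t' ht'
  obtain ⟨u, hu⟩ := ht'
  refine ⟨u, ?_⟩
  rw [hu]
  have e1 := hPt t
  have e2 := hPt t'
  calc (P t' * P t + (1 - P t') * (1 - P t)) * P t
      = P t' * (P t * P t) + (1 - P t') * (P t - P t * P t) := by noncomm_ring
    _ = P t' * P t := by rw [e1, sub_self, mul_zero, add_zero]
    _ = (P t' * P t') * P t + (P t' - P t' * P t') * (1 - P t) := by
        rw [e2, sub_self, zero_mul, add_zero]
    _ = P t' * (P t' * P t + (1 - P t') * (1 - P t)) := by noncomm_ring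

/-- The affine path from `g` to `h`. -/
noncomputable def seg (g h : R) : C(unitInterval, R) where
  toFun t := (1 - (t : ℝ)) • g + (t : ℝ) • h
  continuous_toFun := by fun_prop

theorem seg_zero (g h : R) : seg g h 0 = g := by simp [seg]

theorem seg_one (g h : R) : seg g h 1 = h := by simp [seg]

theorem seg_mem_ball {a g h : R} {δ : ℝ} (hg : ‖g - a‖ < δ) (hh : ‖h - a‖ < δ)
    (t : unitInterval) : ‖seg g h t - a‖ < δ := by
  have hconv : Convex ℝ (Metric.ball a δ) := convex_ball a δ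
  have h1 : g ∈ Metric.ball a δ := by rwa [Metric.mem_ball, dist_eq_norm]
  have h2 : h ∈ Metric.ball a δ := by rwa [Metric.mem_ball, dist_eq_norm]
  have h3 : seg g h t ∈ Metric.ball a δ :=
    hconv h1 h2 (by linarith [t.2.2]) t.2.1 (by ring)
  rwa [Metric.mem_ball, dist_eq_norm] at h3

theorem exists_delta {e : R} (he : e * e = e) :
    ∃ δ > 0, ∀ x : R, ‖x - e‖ < δ → ‖x - x * x‖ ≤ 1 / 8 := by
  have hcont : Continuous (fun x : R => x - x * x) := by fun_prop
  have h0 : (fun x : R => x - x * x) e = 0 := by simp [he]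
  have := Metric.continuous_iff.1 hcont e (1 / 8) (by norm_num)
  obtain ⟨δ, hδ, h⟩ := this
  refine ⟨δ, hδ, fun x hx => ?_⟩
  have h1 := h x (by rwa [dist_eq_norm])
  rw [dist_eq_norm] at h1
  have h2 : (x - x * x) - (e - e * e) = x - x * x := by rw [he, sub_self, sub_zero]
  rw [h2] at h1
  exact h1.le

end sim

end Pool.Agent.BCH
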