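import Pool.Agent.Lib.MP_aa9b81_an.H.KIdem

/-!
# Relatively spectral morphisms: the one algebra statements

`φ : R → S` a continuous homomorphism of Banach algebras, `C ⊆ R` a dense subalgebra such that
`φ(C)` is dense in `S` and `c ∈ C`, `φ c` invertible imply `c` invertible.
-/

namespace Pool.Agent.BCH

open Topology Filter

/-- `φ : R → S` is *relatively spectral* with respect to the dense subalgebra `C`. -/
structure RelSpec {R S : Type*} [NormedRing R] [NormedAlgebra ℂ R]
    [NormedRing S] [NormedAlgebra ℂ S] (φ : R →ₐ[ℂ] S) (C : Subalgebra ℂ R) : Prop where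
  cont : Continuous φ
  dense : ∀ (r : R) (ε : ℝ), 0 < ε → ∃ c ∈ C, ‖c - r‖ < ε
  dense' : ∀ (s : S) (ε : ℝ), 0 < ε → ∃ c ∈ C, ‖φ c - s‖ < ε
  spec : ∀ c ∈ C, IsUnit (φ c) → IsUnit c

variable {R S : Type*} [NormedRing R] [NormedAlgebra ℂ R] [CompleteSpace R]
  [NormedRing S] [NormedAlgebra ℂ S] [CompleteSpace S]
  {φ : R →ₐ[ℂ] S} {C : Subalgebra ℂ R}

theorem RelSpec.id (R : Type*) [NormedRing R] [NormedAlgebra ℂ R] :
    RelSpec (AlgHom.id ℂ R) ⊤ where
  cont := continuous_id
  dense r ε hε := ⟨r, by simp, by simpa using hε⟩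
  dense' r ε hε := ⟨r, by simp, by simpa using hε⟩
  spec c _ h := h

theorem RelSpec.spectralRadius_le (H : RelSpec φ C) (P : C(unitInterval, R))
    (hP : ∀ t, P t ∈ C) (hn : ∀ t, ‖φ (P t)‖ ≤ 1 / 8) :
    spectralRadius ℂ P < 1 / 4 := by
  have h1 : spectralRadius ℂ P ≤ ((1 / 8 : NNReal) : ENNReal) := by
    unfold spectralRadius
    refine iSup₂_le fun k hk => ?_
    rw [ENNReal.coe_le_coe]
    by_contra hcon
    rw [not_le] at hcon
    have hk' : (1 / 8 : ℝ) < ‖k‖ := by
      have := NNReal.coe_lt_coe.2 hcon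
      simpa using this
    have hk0 : k ≠ 0 := by
      intro h
      rw [h, norm_zero] at hk'
      norm_num at hk'
    apply hk
    show IsUnit (algebraMap ℂ C(unitInterval, R) k - P)
    rw [ContinuousMap.isUnit_iff_forall_isUnit]
    intro t
    have h2 : (algebraMap ℂ C(unitInterval, R) k - P) t = algebraMap ℂ R k - P t := rfl
    rw [h2]
    refine H.spec _ (C.sub_mem (C.algebraMap_mem k) (hP t)) ?_
    rw [map_sub, AlgHom.commutes]
    have h3 : ‖k⁻¹ • φ (P t)‖ < 1 := by
      rw [norm_smul, norm_inv]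
      have h4 := hn t
      have hkpos : 0 < ‖k‖ := norm_pos_iff.2 hk0
      rw [inv_mul_lt_iff₀ hkpos, mul_one]
      linarith
    have h5 : algebraMap ℂ S k - φ (P t) = k • ((Units.oneSub _ h3 : Sˣ) : S) := by
      rw [Units.val_oneSub, smul_sub, smul_smul, mul_inv_cancel₀ hk0, one_smul,
        Algebra.algebraMap_eq_smul_one]
    rw [h5]
    exact IsUnit.smul (Units.mk0 k hk0) (Units.isUnit _)
  refine lt_of_le_of_lt h1 ?_
  have h6 : ((1 / 4 : NNReal) : ENNReal) = 1 / 4 := by
    rw [ENNReal.coe_div (by norm_num)]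
    norm_num
  rw [← h6, ENNReal.coe_lt_coe]
  rw [← NNReal.coe_lt_coe]
  norm_num

/-- evaluation at a point of the interval as a continuous algebra homomorphism. -/
noncomputable def evA (R : Type*) [NormedRing R] [NormedAlgebra ℂ R] (t : unitInterval) :
    C(unitInterval, R) →ₐ[ℂ] R where
  toFun P := P t
  map_one' := rfl
  map_mul' _ _ := rfl
  map_zero' := rfl
  map_add' _ _ := rfl
  commutes' _ := rfl

theorem evA_apply (t : unitInterval) (P : C(unitInterval, R)) : evA R t P = P t := rfl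

theorem continuous_evA (t : unitInterval) : Continuous (evA R t) :=
  continuous_eval_const t

/-- along an affine path in `C` whose image in `S` consists of almost idempotents the idempotents
are similar -/
theorem RelSpec.sim_seg (H : RelSpec φ C) {g h : R} (hg : g ∈ C) (hh : h ∈ C)
    (hn : ∀ t, ‖φ (seg g h t) - φ (seg g h t) * φ (seg g h t)‖ ≤ 1 / 8) :
    Sim (idem g) (idem h) := by
  have hmem : ∀ t, seg g h t ∈ C := fun t => by
    have e1 : seg g h t = ((1 - (t : ℝ) : ℝ) : ℂ) • g + (((t : ℝ) : ℝ) : ℂ) • h := by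
      simp only [seg, ContinuousMap.coe_mk]
      rw [Complex.coe_smul, Complex.coe_smul]
    rw [e1]
    exact C.add_mem (C.smul_mem hg _) (C.smul_mem hh _)
  set P := seg g h with hPdef
  have hr : spectralRadius ℂ (P - P * P) < 1 / 4 := by
    refine H.spectralRadius_le _ (fun t => ?_) (fun t => ?_)
    · exact C.sub_mem (hmem t) (C.mul_mem (hmem t) (hmem t))
    · have : φ ((P - P * P) t) = φ (P t) - φ (P t) * φ (P t) := by
        rw [ContinuousMap.sub_apply, ContinuousMap.mul_apply, map_sub, map_mul]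
      rw [this]
      exact hn t
  have hid := idem_mul_self hr
  have h01 := sim_of_path (idem P) hid
  have e0 : (idem P) 0 = idem g := by
    have := map_idem (evA R 0) (continuous_evA 0) hr
    rw [evA_apply, evA_apply, hPdef, seg_zero] at this
    exact this
  have e1 : (idem P) 1 = idem h := by
    have := map_idem (evA R 1) (continuous_evA 1) hr
    rw [evA_apply, evA_apply, hPdef, seg_one] at this
    exact this
  rw [e0, e1] at h01
  exact h01

/-- the constant path version: a single element -/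
theorem RelSpec.spectralRadius_lt (H : RelSpec φ C) {g : R} (hg : g ∈ C)
    (hn : ‖φ g - φ g * φ g‖ ≤ 1 / 8) : spectralRadius ℂ (g - g * g) < 1 / 4 := by
  have h1 : spectralRadius ℂ (g - g * g) ≤ ((1 / 8 : NNReal) : ENNReal) := by
    unfold spectralRadius
    refine iSup₂_le fun k hk => ?_
    rw [ENNReal.coe_le_coe]
    by_contra hcon
    rw [not_le] at hcon
    have hk' : (1 / 8 : ℝ) < ‖k‖ := by
      have := NNReal.coe_lt_coe.2 hcon
      simpa using this
    have hk0 : k ≠ 0 := by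
      intro h
      rw [h, norm_zero] at hk'
      norm_num at hk'
    apply hk
    show IsUnit (algebraMap ℂ R k - (g - g * g))
    refine H.spec _ (C.sub_mem (C.algebraMap_mem k) (C.sub_mem hg (C.mul_mem hg hg))) ?_
    rw [map_sub, AlgHom.commutes, map_sub, map_mul]
    have h3 : ‖k⁻¹ • (φ g - φ g * φ g)‖ < 1 := by
      rw [norm_smul, norm_inv]
      have hkpos : 0 < ‖k‖ := norm_pos_iff.2 hk0
      rw [inv_mul_lt_iff₀ hkpos, mul_one]
      linarith
    have h5 : algebraMap ℂ S k - (φ g - φ g * φ g) = k • ((Units.oneSub _ h3 : Sˣ) : S) := by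
      rw [Units.val_oneSub, smul_sub, smul_smul, mul_inv_cancel₀ hk0, one_smul,
        Algebra.algebraMap_eq_smul_one]
    rw [h5]
    exact IsUnit.smul (Units.mk0 k hk0) (Units.isUnit _)
  refine lt_of_le_of_lt h1 ?_
  have h6 : ((1 / 4 : NNReal) : ENNReal) = 1 / 4 := by
    rw [ENNReal.coe_div (by norm_num)]
    norm_num
  rw [← h6, ENNReal.coe_lt_coe]
  rw [← NNReal.coe_lt_coe]
  norm_num

/-- In a Banach algebra: idempotent close elements give similar idempotents. -/
theorem sim_idem_near {e : R} (he : e * e = e) :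
    ∃ δ > 0, ∀ g : R, ‖g - e‖ < δ → Sim e (idem g) := by
  obtain ⟨δ, hδ, h⟩ := exists_delta he
  refine ⟨δ, hδ, fun g hg => ?_⟩
  have h1 : ∀ t, ‖seg e g t - e‖ < δ := seg_mem_ball (by simpa using hδ) hg
  have h2 := (RelSpec.id R).sim_seg (g := e) (h := g) (by simp) (by simp)
    (fun t => by simpa using h _ (h1 t))
  rwa [idem_of_idem he] at h2

/-- **Surjectivity on idempotents.** -/
theorem RelSpec.exists_idem (H : RelSpec φ C) {f : S} (hf : f * f = f) :
    ∃ e : R, e * e = e ∧ Sim f (φ e) := by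
  obtain ⟨δ, hδ, h⟩ := exists_delta hf
  obtain ⟨δ', hδ', h'⟩ := sim_idem_near hf
  obtain ⟨c, hc, hcf⟩ := H.dense' f (min δ δ') (lt_min hδ hδ')
  have hr := H.spectralRadius_lt hc (h _ (lt_of_lt_of_le hcf (min_le_left _ _)))
  refine ⟨idem c, idem_mul_self hr, ?_⟩
  rw [map_idem φ H.cont hr]
  exact h' _ (lt_of_lt_of_le hcf (min_le_right _ _))

/-- **Injectivity on idempotents.** -/
theorem RelSpec.sim_of_sim (H : RelSpec φ C) {e f : R} (he : e * e = e) (hf : f * f = f)
    (h : Sim (φ e) (φ f)) : Sim e f := by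
  obtain ⟨u, hu⟩ := h
  have hφf : φ f * φ f = φ f := by rw [← map_mul, hf]
  obtain ⟨δ, hδ, hδ1⟩ := exists_delta hφf
  -- conjugation by an element of `C`
  have hcont : ContinuousAt (fun v : S => v * φ e * Ring.inverse v) (u : S) :=
    (continuousAt_id.mul continuousAt_const).mul (NormedRing.inverse_continuousAt u)
  have hval : (u : S) * φ e * Ring.inverse (u : S) = φ f := by
    rw [Ring.inverse_unit, hu, Units.mul_inv_cancel_right]
  have hev : ∀ᶠ v in 𝓝 (u : S), ‖v * φ e * Ring.inverse v - φ f‖ < δ / 2 ∧ IsUnit v := by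
    refine Filter.Eventually.and ?_ (Units.isOpen.mem_nhds u.isUnit)
    have := Metric.continuousAt_iff'.1 hcont (δ / 2) (by positivity)
    filter_upwards [this] with v hv
    rw [dist_eq_norm, hval] at hv
    exact hv
  obtain ⟨r, hr, hball⟩ := Metric.eventually_nhds_iff.1 hev
  obtain ⟨c, hc, hcu⟩ := H.dense' (u : S) r hr
  obtain ⟨h1, h2⟩ := hball (y := φ c) (by rwa [dist_eq_norm])
  obtain ⟨v, hv⟩ := H.spec c hc h2
  -- the conjugated idempotent
  set e' : R := v * e * ((v⁻¹ : Rˣ) : R) with he'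
  have he'i : e' * e' = e' := by
    rw [he']
    calc (v : R) * e * ((v⁻¹ : Rˣ) : R) * (v * e * ((v⁻¹ : Rˣ) : R))
        = v * e * (((v⁻¹ : Rˣ) : R) * v) * e * ((v⁻¹ : Rˣ) : R) := by noncomm_ring
      _ = v * (e * e) * ((v⁻¹ : Rˣ) : R) := by rw [Units.inv_mul]; noncomm_ring
      _ = v * e * ((v⁻¹ : Rˣ) : R) := by rw [he]
  have hs1 : Sim e e' := ⟨v, by rw [he']; simp [mul_assoc]⟩
  have hφe' : φ e' = φ c * φ e * Ring.inverse (φ c) := by
    rw [he', map_mul, map_mul, ← hv]
    have e1 : φ (v : R) = ((Units.map (φ : R →* S) v : Sˣ) : S) := rfl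
    rw [e1, Ring.inverse_unit]
    rfl
  have hclose : ‖φ e' - φ f‖ < δ / 2 := by rw [hφe']; exact h1
  -- approximate `e'` and `f`
  obtain ⟨δe, hδe, hδe1⟩ := sim_idem_near he'i
  obtain ⟨δf, hδf, hδf1⟩ := sim_idem_near hf
  have happ : ∀ (a : R) (η : ℝ), 0 < η → ∃ c ∈ C, ‖c - a‖ < η ∧ ‖φ c - φ a‖ < δ / 2 := by
    intro a η hη
    have hc1 := Metric.continuous_iff.1 H.cont a (δ / 2) (by positivity)
    obtain ⟨ρ, hρ, hρ1⟩ := hc1
    obtain ⟨c, hc, hca⟩ := H.dense a (min η ρ) (lt_min hη hρ)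
    refine ⟨c, hc, lt_of_lt_of_le hca (min_le_left _ _), ?_⟩
    rw [← dist_eq_norm]
    refine hρ1 c ?_
    rw [dist_eq_norm]
    exact lt_of_lt_of_le hca (min_le_right _ _)
  obtain ⟨g, hg, hg1, hg2⟩ := happ e' δe hδe
  obtain ⟨k, hk, hk1, hk2⟩ := happ f δf hδf
  have hs2 : Sim e' (idem g) := hδe1 g hg1
  have hs4 : Sim f (idem k) := hδf1 k hk1
  have hs3 : Sim (idem g) (idem k) := by
    refine H.sim_seg hg hk fun t => ?_
    have e1 : φ (seg g k t) = seg (φ g) (φ k) t := by
      simp only [seg, ContinuousMap.coe_mk]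
      rw [map_add, ← Complex.coe_smul, ← Complex.coe_smul, map_smul, map_smul,
        Complex.coe_smul, Complex.coe_smul]
    rw [e1]
    refine hδ1 _ (seg_mem_ball ?_ ?_ t)
    · calc ‖φ g - φ f‖ = ‖(φ g - φ e') + (φ e' - φ f)‖ := by rw [sub_add_sub_cancel]
        _ ≤ ‖φ g - φ e'‖ + ‖φ e' - φ f‖ := norm_add_le _ _
        _ < δ / 2 + δ / 2 := add_lt_add hg2 hclose
        _ = δ := by ring
    · linarith
  exact hs1.trans (hs2.trans (hs3.trans hs4.symm))

end Pool.Agent.BCH
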