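import Pool.Agent.Lib.MP_aa9b81_an.H.KAug

/-!
# From `C*`-representations to invertible matrices

`A` a complex `*`-algebra with two seminorms `ν' ≤ ν`. Suppose the matrices over `A` are
represented in `C*`-algebras `D m` by `*`-homomorphisms `T m` whose norm is controlled by `ν'`, and
that `‖T m W‖ < 1` forces some power of `W` to have `ν`-norm less than `1`. Then a matrix over
`ℂ ⊕ A` which is invertible over the completion for `ν'` is invertible over the completion
for `ν`.
-/

open Matrix UniformSpace Topology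

namespace Pool.Agent.BCH

universe u v

/-! ### A norm estimate in `C*`-algebras -/

theorem norm_one_sub_sq_lt {D : Type*} [CStarAlgebra D] (s : D) (hs : IsSelfAdjoint s)
    (hu : IsUnit s) : ‖(1 : D) - (((‖s‖ + 1) ^ 2)⁻¹ : ℝ) • (s * s)‖ < 1 := by
  set k : ℝ := ((‖s‖ + 1) ^ 2)⁻¹ with hk
  have h : (1 : D) - k • (s * s) = cfc (fun x : ℝ => 1 - k * (x * x)) s := by
    rw [cfc_sub (fun _ : ℝ => (1 : ℝ)) (fun x : ℝ => k * (x * x)) s, cfc_const_one ℝ s,
      cfc_const_mul k (fun x : ℝ => x * x) s, cfc_mul (fun x : ℝ => x) (fun x : ℝ => x) s,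
      cfc_id' ℝ s]
  rw [h]
  refine norm_cfc_lt one_pos fun x hx => ?_
  have hx0 : x ≠ 0 := by
    rintro rfl
    exact spectrum.zero_notMem ℝ hu hx
  haveI : Nontrivial D := by
    by_contra hn
    rw [not_nontrivial_iff_subsingleton] at hn
    rw [spectrum.of_subsingleton] at hx
    exact hx
  have hxn : |x| ≤ ‖s‖ := by
    have := spectrum.norm_le_norm_mul_of_mem hx
    rwa [CStarRing.norm_one, mul_one] at this
  have h1 : 0 < x * x := mul_self_pos.2 hx0
  have h2 : x * x < (‖s‖ + 1) ^ 2 := by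
    have : x * x = |x| ^ 2 := by rw [sq_abs]; ring
    rw [this]
    have h3 : |x| < ‖s‖ + 1 := by linarith
    exact pow_lt_pow_left₀ h3 (abs_nonneg x) (by norm_num)
  have h4 : 0 < (‖s‖ + 1) ^ 2 := by positivity
  have h5 : 0 < k * (x * x) := by positivity
  have h6 : k * (x * x) < 1 := by
    rw [hk, inv_mul_lt_iff₀ h4, mul_one]
    exact h2
  rw [Real.norm_eq_abs, abs_lt]
  constructor <;> linarith

/-! ### Powers in a non-unital ring -/

/-- `nuPow W n = W^(n+1)`. -/
def nuPow {B : Type*} [Mul B] (W : B) : ℕ → B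
  | 0 => W
  | n + 1 => nuPow W n * W

section inj

variable {A : Type u} [NonUnitalRing A] [Module ℂ A] [IsScalarTower ℂ A A] [SMulCommClass ℂ A A]

attribute [local instance] Matrix.linftyOpNormedRing Matrix.linftyOpNormedAlgebra

/-- The map `A → Compl A ν`. -/
noncomputable def Compl.inr (ν : AlgSeminorm A) (a : A) : Compl A ν :=
  Compl.of ν (a : Unitization ℂ A)

theorem Compl.norm_of (ν : AlgSeminorm A) (x : Unitization ℂ A) :
    ‖Compl.of ν x‖ = ‖x.fst‖ + ν x.snd := by
  show ‖((show Plus A ν from x : Plus A ν) : Completion (Plus A ν))‖ = _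
  rw [Completion.norm_coe]
  rfl

theorem Compl.norm_inr (ν : AlgSeminorm A) (a : A) : ‖Compl.inr ν a‖ = ν a := by
  unfold Compl.inr
  rw [Compl.norm_of]
  simp

theorem Compl.of_mul (ν : AlgSeminorm A) (x y : Unitization ℂ A) :
    Compl.of ν (x * y) = Compl.of ν x * Compl.of ν y :=
  Completion.coe_mul (show Plus A ν from x) (show Plus A ν from y)

theorem Compl.of_add (ν : AlgSeminorm A) (x y : Unitization ℂ A) :
    Compl.of ν (x + y) = Compl.of ν x + Compl.of ν y :=
  Completion.coe_add (show Plus A ν from x) (show Plus A ν from y)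

theorem Compl.of_smul (ν : AlgSeminorm A) (r : ℂ) (x : Unitization ℂ A) :
    Compl.of ν (r • x) = r • Compl.of ν x :=
  Completion.coe_smul r (show Plus A ν from x)

theorem Compl.of_zero (ν : AlgSeminorm A) : Compl.of ν (0 : Unitization ℂ A) = 0 :=
  Completion.coe_zero

theorem Compl.of_one (ν : AlgSeminorm A) : Compl.of ν (1 : Unitization ℂ A) = 1 :=
  Completion.coe_one (Plus A ν)

theorem Compl.aug_of (ν : AlgSeminorm A) (x : Unitization ℂ A) :
    Compl.aug ν (Compl.of ν x) = x.fst :=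
  Completion.extensionHom_coe (Plus.aug ν) (Plus.continuous_aug ν) (show Plus A ν from x)

/-- `Compl.of` as a ring homomorphism. -/
noncomputable def Compl.ofHom (ν : AlgSeminorm A) : Unitization ℂ A →+* Compl A ν where
  toFun := Compl.of ν
  map_one' := Compl.of_one ν
  map_mul' := Compl.of_mul ν
  map_zero' := Compl.of_zero ν
  map_add' := Compl.of_add ν

/-- The map `M_m(A) → M_m(Compl A ν)`. -/
noncomputable def injM (ν : AlgSeminorm A) (m : ℕ) :
    Matrix (Fin m) (Fin m) A →ₙₐ[ℂ] Matrix (Fin m) (Fin m) (Compl A ν) where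
  toFun W := W.map (Compl.inr ν)
  map_smul' r W := by
    ext i j
    show Compl.of ν ((r • W i j : A) : Unitization ℂ A) = r • Compl.of ν (W i j : Unitization ℂ A)
    rw [Unitization.inr_smul, Compl.of_smul]
  map_zero' := by
    ext i j
    show Compl.of ν ((0 : A) : Unitization ℂ A) = 0
    rw [Unitization.inr_zero, Compl.of_zero]
  map_add' W W' := by
    ext i j
    show Compl.of ν ((W i j + W' i j : A) : Unitization ℂ A)
      = Compl.of ν (W i j : Unitization ℂ A) + Compl.of ν (W' i j : Unitization ℂ A)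
    rw [Unitization.inr_add, Compl.of_add]
  map_mul' W W' := by
    ext i j
    have h1 : ((∑ k, W i k * W' k j : A) : Unitization ℂ A)
        = ∑ k, (W i k : Unitization ℂ A) * (W' k j : Unitization ℂ A) := by
      have h0 : ((∑ k, W i k * W' k j : A) : Unitization ℂ A)
          = Unitization.inrNonUnitalAlgHom ℂ A (∑ k, W i k * W' k j) := rfl
      rw [h0, map_sum]
      refine Finset.sum_congr rfl fun k _ => ?_
      rw [map_mul]
      rfl
    show Compl.ofHom ν (((W * W') i j : A) : Unitization ℂ A) = _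
    rw [Matrix.mul_apply, h1, map_sum, Matrix.mul_apply]
    refine Finset.sum_congr rfl fun k _ => ?_
    rw [map_mul]
    rfl

theorem injM_apply (ν : AlgSeminorm A) (m : ℕ) (W : Matrix (Fin m) (Fin m) A) (i j : Fin m) :
    injM ν m W i j = Compl.inr ν (W i j) := rfl

theorem injM_nuPow (ν : AlgSeminorm A) (m : ℕ) (W : Matrix (Fin m) (Fin m) A) (n : ℕ) :
    injM ν m (nuPow W n) = (injM ν m W) ^ (n + 1) := by
  induction n with
  | zero => simp [nuPow]
  | succ n ih => rw [nuPow, map_mul, ih, ← pow_succ]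

theorem norm_matrix_le_sum {B : Type*} [NormedRing B] {m : ℕ} (M : Matrix (Fin m) (Fin m) B) :
    ‖M‖ ≤ ∑ i, ∑ j, ‖M i j‖ := by
  rw [Matrix.linfty_opNorm_def]
  have h1 : ((Finset.univ : Finset (Fin m)).sup fun i => ∑ j, ‖M i j‖₊)
      ≤ ∑ i, ∑ j, ‖M i j‖₊ := by
    refine Finset.sup_le fun i hi => ?_
    exact Finset.single_le_sum (f := fun i => ∑ j, ‖M i j‖₊) (fun _ _ => zero_le) hi
  have h2 := NNReal.coe_le_coe.2 h1
  refine h2.trans (le_of_eq ?_)
  push_cast
  rfl

theorem norm_injM_le (ν : AlgSeminorm A) (m : ℕ) (W : Matrix (Fin m) (Fin m) A) :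
    ‖injM ν m W‖ ≤ ∑ i, ∑ j, ν (W i j) := by
  refine (norm_matrix_le_sum _).trans (le_of_eq ?_)
  refine Finset.sum_congr rfl fun i _ => Finset.sum_congr rfl fun j _ => ?_
  rw [injM_apply, Compl.norm_inr]

/-- If some power of `W` is small then `1 - W` is invertible. -/
theorem isUnit_one_sub_injM (ν : AlgSeminorm A) (m : ℕ) (W : Matrix (Fin m) (Fin m) A) (n : ℕ)
    (h : ∑ i, ∑ j, ν ((nuPow W n) i j) < 1) : IsUnit (1 - injM ν m W) := by
  have h1 : ‖(injM ν m W) ^ (n + 1)‖ < 1 := by
    rw [← injM_nuPow]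
    exact lt_of_le_of_lt (norm_injM_le ν m _) h
  have h2 : IsUnit (1 - (injM ν m W) ^ (n + 1)) := ⟨Units.oneSub _ h1, rfl⟩
  have h3 : (1 - injM ν m W) * (∑ i ∈ Finset.range (n + 1), (injM ν m W) ^ i)
      = 1 - (injM ν m W) ^ (n + 1) := mul_neg_geom_sum _ _
  have h4 : (∑ i ∈ Finset.range (n + 1), (injM ν m W) ^ i) * (1 - injM ν m W)
      = 1 - (injM ν m W) ^ (n + 1) := geom_sum_mul_neg _ _
  have hc : Commute (1 - injM ν m W) (∑ i ∈ Finset.range (n + 1), (injM ν m W) ^ i) := by
    show _ * _ = _ * _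
    rw [h3, h4]
  rw [← h3] at h2
  exact (hc.isUnit_mul_iff.1 h2).1

/-- The kernel of the augmentation is the closure of `A`. -/
theorem Compl.mem_closure_inr (ν : AlgSeminorm A) (x : Compl A ν) (hx : Compl.aug ν x = 0) :
    x ∈ closure (Set.range (Compl.inr ν)) := by
  rw [Metric.mem_closure_iff]
  intro ε hε
  obtain ⟨b, hb⟩ := Metric.mem_closure_iff.1 (Compl.denseRange_of ν x) (ε / 2) (by positivity)
  obtain ⟨⟨u, rfl⟩, hu⟩ := hb
  have hc : ∀ y : Compl A ν, ‖Compl.aug ν y‖ ≤ ‖y‖ := by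
    intro y
    induction y using Completion.induction_on with
    | hp =>
      exact isClosed_le (Compl.continuous_aug ν).norm continuous_norm
    | ih y =>
      have h1 : Compl.aug ν ((y : Plus A ν) : Completion (Plus A ν)) = Plus.aug ν y :=
        Completion.extensionHom_coe (Plus.aug ν) (Plus.continuous_aug ν) y
      rw [h1, Completion.norm_coe]
      exact Plus.norm_aug_le ν y
  refine ⟨Compl.inr ν u.snd, ⟨u.snd, rfl⟩, ?_⟩
  have h1 : ‖u.fst‖ < ε / 2 := by
    have h2 := hc (x - Compl.of ν u)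
    rw [map_sub, hx, Compl.aug_of, zero_sub, norm_neg] at h2
    rw [dist_eq_norm] at hu
    linarith
  have h3 : Compl.of ν u - Compl.inr ν u.snd = Compl.of ν (Unitization.inl u.fst) := by
    have h4 : u = Unitization.inl u.fst + (u.snd : Unitization ℂ A) :=
      (Unitization.inl_fst_add_inr_snd_eq u).symm
    unfold Compl.inr
    nth_rewrite 1 [h4]
    rw [Compl.of_add, add_sub_cancel_right]
  rw [dist_eq_norm] at hu ⊢
  calc ‖x - Compl.inr ν u.snd‖ = ‖(x - Compl.of ν u) + (Compl.of ν u - Compl.inr ν u.snd)‖ := by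
        rw [sub_add_sub_cancel]
    _ ≤ ‖x - Compl.of ν u‖ + ‖Compl.of ν u - Compl.inr ν u.snd‖ := norm_add_le _ _
    _ = ‖x - Compl.of ν u‖ + ‖u.fst‖ := by
        rw [h3, Compl.norm_of]
        simp [AlgSeminorm.zero]
    _ < ε := by linarith

end inj

end Pool.Agent.BCH
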