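import Mathlib

open MeasureTheory MeasureTheory.Measure Topology ENNReal NNReal

namespace Pool.Agent.BCH

universe u v w

open scoped Pointwise

section coset

variable {G : Type u} [Group G] [TopologicalSpace G] [IsTopologicalGroup G]
  [LocallyCompactSpace G] [SecondCountableTopology G] [T2Space G] [MeasurableSpace G]
  [BorelSpace G]
variable (Γ : Subgroup G)

omit [SecondCountableTopology G] [T2Space G] [MeasurableSpace G] [BorelSpace G] in
/-- A compact subset of `G ⧸ Γ` is covered by the image of the interior of a compact set. -/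
theorem exists_lift {Q : Set (G ⧸ Γ)} (hQ : IsCompact Q) :
    ∃ K : Set G, IsCompact K ∧ ∀ q ∈ Q, ∃ g ∈ interior K, (g : G ⧸ Γ) = q := by
  have h1 : ∀ q : G ⧸ Γ, ∃ K : Set G, IsCompact K ∧ ∃ g ∈ interior K, (g : G ⧸ Γ) = q := by
    intro q
    obtain ⟨g, rfl⟩ := QuotientGroup.mk_surjective q
    obtain ⟨K, hK, hg⟩ := exists_compact_mem_nhds g
    exact ⟨K, hK, g, mem_interior_iff_mem_nhds.2 hg, rfl⟩
  choose K hK g hg hgq using h1
  obtain ⟨t, _, ht⟩ := hQ.elim_nhds_subcover
    (fun q => ((↑) : G → G ⧸ Γ) '' interior (K q)) (fun q _ =>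
      (QuotientGroup.isOpenMap_coe _ isOpen_interior).mem_nhds ⟨g q, hg q, hgq q⟩)
  refine ⟨⋃ q ∈ t, K q, t.isCompact_biUnion fun q _ => hK q, fun q hq => ?_⟩
  obtain ⟨p, hp, g', hg', hgq'⟩ : ∃ p ∈ t, ∃ g' ∈ interior (K p), (g' : G ⧸ Γ) = q := by
    simpa using ht hq
  exact ⟨g', interior_mono (Set.subset_biUnion_of_mem hp) hg', hgq'⟩

/-- A measurable choice of `γ h ∈ Γ` with `h (γ h)⁻¹` in a compact set, for `h Γ ∈ Q`. The values are taken
in a countable dense subset of `Γ`. -/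
theorem exists_choice {Q : Set (G ⧸ Γ)} (hQ : IsCompact Q) :
    ∃ (K : Set G) (γ : G → Γ), IsCompact K ∧ Measurable γ ∧
      ∀ h : G, (h : G ⧸ Γ) ∈ Q → h * (γ h : G)⁻¹ ∈ K := by
  classical
  obtain ⟨K, hK, hKQ⟩ := exists_lift Γ hQ
  have : SecondCountableTopology Γ :=
    TopologicalSpace.Subtype.secondCountableTopology (Γ : Set G)
  let e : ℕ → Γ := TopologicalSpace.denseSeq Γ
  have he : DenseRange e := TopologicalSpace.denseRange_denseSeq Γ
  let p : G → ℕ → Prop := fun h n => h * (e n : G)⁻¹ ∈ interior K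
  have hm : ∀ n, MeasurableSet {h | p h n} := by
    intro n
    exact (isOpen_interior.preimage (continuous_mul_const (e n : G)⁻¹)).measurableSet
  let p' : G → ℕ → Prop := fun h n => p h n ∨ ∀ k, ¬ p h k
  have hp' : ∀ h, ∃ n, p' h n := by
    intro h
    by_cases hh : ∃ n, p h n
    · obtain ⟨n, hn⟩ := hh
      exact ⟨n, Or.inl hn⟩
    · push Not at hh
      exact ⟨0, Or.inr hh⟩
  have hm' : ∀ n, MeasurableSet {h | p' h n} := by
    intro n
    have : {h | p' h n} = {h | p h n} ∪ ⋂ k, {h | p h k}ᶜ := by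
      ext h; simp [p']
    rw [this]
    exact (hm n).union (MeasurableSet.iInter fun k => (hm k).compl)
  refine ⟨K, fun h => e (Nat.find (hp' h)), hK,
    (measurable_of_countable e).comp (measurable_find hp' hm'), ?_⟩
  intro h hh
  obtain ⟨g, hg, hgh⟩ := hKQ _ hh
  have h1 : ∃ n, p h n := by
    have hmem : g⁻¹ * h ∈ Γ := QuotientGroup.eq.1 hgh
    have hopen : IsOpen {η : Γ | h * (η : G)⁻¹ ∈ interior K} :=
      isOpen_interior.preimage (by fun_prop)
    have hne : ({η : Γ | h * (η : G)⁻¹ ∈ interior K}).Nonempty :=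
      ⟨⟨_, hmem⟩, by simpa using hg⟩
    obtain ⟨n, hn⟩ := he.exists_mem_open hopen hne
    exact ⟨n, hn⟩
  have h2 := Nat.find_spec (hp' h)
  rcases h2 with h2 | h2
  · exact interior_subset h2
  · obtain ⟨n, hn⟩ := h1
    exact absurd hn (h2 n)

omit [LocallyCompactSpace G] [SecondCountableTopology G] [MeasurableSpace G] [BorelSpace G]
  [IsTopologicalGroup G] [T2Space G] in
theorem compact_inter (hΓ : IsClosed (Γ : Set G)) {C : Set G} (hC : IsCompact C) :
    IsCompact {γ : Γ | (γ : G) ∈ C} :=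
  hΓ.isClosedEmbedding_subtypeVal.isCompact_preimage hC

end coset

end Pool.Agent.BCH
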