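import Pool.Agent.Lib.MP_aa9b81_an.H.HDefs

open MeasureTheory MeasureTheory.Measure Topology ENNReal NNReal

namespace Pool.Agent.BCH

universe u v w

open scoped Pointwise

/-- A Gromov hyperbolic length function `ℓ` on a topological group `H`: the left invariant pseudometric
`d(a, b) = ℓ (a⁻¹ b)` satisfies the four point condition, `ℓ` is Borel and bounded on compact sets. For
instance `ℓ h = d_Y(y, h y)` for a (continuous) isometric action of `H` on a hyperbolic space `Y`. -/
structure HypLength {H : Type*} [Group H] [TopologicalSpace H] [MeasurableSpace H]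
    (ℓ : H → ℝ) (δ : ℝ) : Prop where
  meas : Measurable ℓ
  one : ℓ 1 = 0
  inv : ∀ a, ℓ a⁻¹ = ℓ a
  mul_le : ∀ a b, ℓ (a * b) ≤ ℓ a + ℓ b
  hyp : ∀ a b c, ℓ (a⁻¹ * b) + ℓ c ≤ max (ℓ (a⁻¹ * c) + ℓ b) (ℓ (b⁻¹ * c) + ℓ a) + 2 * δ
  bdd : ∀ D : Set H, IsCompact D → ∃ R, ∀ a ∈ D, ℓ a ≤ R

/-- SLOW GROWTH: there is a compact set `L` such that for every compact `D` and `c > 0` the set of those
elements of `D ^ n` whose length is `≤ c log n` is covered by `exp(o(n))` left translates of `L`. -/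
def SlowGrowth {H : Type*} [Group H] [TopologicalSpace H] (ℓ : H → ℝ) : Prop :=
  ∃ L : Set H, IsCompact L ∧ ∀ D : Set H, IsCompact D → ∀ c : ℝ, 0 < c → ∀ ε : ℝ, 0 < ε →
    ∀ᶠ n : ℕ in Filter.atTop, ∃ F : Finset H, (F.card : ℝ) ≤ Real.exp (ε * n) ∧
      {a | a ∈ D ^ n ∧ ℓ a ≤ c * Real.log n} ⊆ (F : Set H) * L

theorem Reach.mono_set {G : Type*} [Group G] {S S' C : Set G} (h : S ⊆ S') {n : ℕ} {a b : G}
    (hr : Reach S C n a b) : Reach S' C n a b := by
  obtain ⟨g, h0, hn, hS, hC⟩ := hr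
  exact ⟨g, h0, hn, fun i hi => h (hS i hi), hC⟩

section comap

variable {G : Type u} [Group G] [TopologicalSpace G] [IsTopologicalGroup G]
  [LocallyCompactSpace G] [SecondCountableTopology G] [T2Space G] [MeasurableSpace G]
  [BorelSpace G]
variable {X : Type v} [TopologicalSpace X] [MulAction G X]
variable {X' : Type w} [TopologicalSpace X'] [MulAction G X']

/-- If `X' → X` is a continuous equivariant map and `X` is hyperbolic then so is `X'`. -/
theorem HyperbolicGSpace.comap (hX : HyperbolicGSpace G X) (f : X' → X) (hf : Continuous f)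
    (he : ∀ (g : G) (x : X'), f (g • x) = g • f x) : HyperbolicGSpace G X' := by
  intro Q' hQ'
  obtain ⟨δ, d, h⟩ := hX (f '' Q') (hQ'.image hf)
  have hret : ∀ x : X', (ret Q' x : Set G) ⊆ ret (f '' Q') (f x) := by
    intro x a ha
    show a⁻¹ • f x ∈ f '' Q'
    rw [← he]
    exact ⟨_, ha, rfl⟩
  refine ⟨δ, fun x => d (f x), ?_⟩
  constructor
  · intro x; exact h.meas (f x)
  · intro x a ha; exact h.self _ a (hret x ha)
  · intro x a ha b hb; exact h.symm _ a (hret x ha) b (hret x hb)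
  · intro x a ha b hb c hc; exact h.tri _ a (hret x ha) b (hret x hb) c (hret x hc)
  · intro x o ho a ha b hb c hc
    exact h.hyp _ o (hret x ho) a (hret x ha) b (hret x hb) c (hret x hc)
  · intro C hC
    obtain ⟨R, hR⟩ := h.bdd C hC
    exact ⟨R, fun x a ha b hb hab => hR (f x) a (hret x ha) b (hret x hb) hab⟩
  · intro C hC c hc ε hε
    filter_upwards [h.growth C hC c hc ε hε] with n hn
    intro x a ha
    refine le_trans (measure_mono ?_) (hn (f x) a (hret x ha))
    rintro b ⟨hb1, hb2⟩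
    exact ⟨hb1.mono_set (hret x), hb2⟩

end comap

end Pool.Agent.BCH
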