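import Pool.Agent.Lib.MP_aa9b81_an.H.PDisc

open MeasureTheory MeasureTheory.Measure Topology ENNReal NNReal

namespace Pool.Agent.BCH

universe u v w

open scoped Pointwise

/-- Exponential growth of the balls implies slow growth. -/
theorem slowGrowth_of_exp {H : Type*} [Group H] [TopologicalSpace H] {ℓ : H → ℝ} {A h : ℝ}
    {L : Set H} (hL : IsCompact L)
    (hcov : ∀ r : ℝ, 0 ≤ r → ∃ F : Finset H, (F.card : ℝ) ≤ A * Real.exp (h * r) ∧
      {a | ℓ a ≤ r} ⊆ (F : Set H) * L) :
    SlowGrowth ℓ := by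
  refine ⟨L, hL, ?_⟩
  intro D _ c hc ε hε
  have h1 : ∀ᶠ n : ℕ in Filter.atTop, A ≤ Real.exp (ε / 2 * n) := by
    have : Filter.Tendsto (fun n : ℕ => Real.exp (ε / 2 * n)) Filter.atTop Filter.atTop :=
      Real.tendsto_exp_atTop.comp
        (tendsto_natCast_atTop_atTop.const_mul_atTop (by positivity))
    exact this.eventually_ge_atTop A
  have h2 : ∀ᶠ n : ℕ in Filter.atTop, h * (c * Real.log n) ≤ ε / 2 * n := by
    have h3 := (Real.isLittleO_log_id_atTop.comp_tendsto tendsto_natCast_atTop_atTop).def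
      (show 0 < (ε / 2) / (|h| * c + 1) by positivity)
    filter_upwards [h3, Filter.eventually_ge_atTop 1] with n hn hn1
    have hn' : |Real.log n| ≤ (ε / 2) / (|h| * c + 1) * n := by
      simpa using hn
    have h4 : 0 ≤ (|h| * c + 1) := by positivity
    calc h * (c * Real.log n) ≤ |h * (c * Real.log n)| := le_abs_self _
      _ = (|h| * c) * |Real.log n| := by rw [abs_mul, abs_mul, abs_of_pos hc]; ring
      _ ≤ (|h| * c + 1) * |Real.log n| := by
          apply mul_le_mul_of_nonneg_right _ (abs_nonneg _)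
          linarith
      _ ≤ (|h| * c + 1) * ((ε / 2) / (|h| * c + 1) * n) := mul_le_mul_of_nonneg_left hn' h4
      _ = ε / 2 * n := by field_simp
  filter_upwards [h1, h2, Filter.eventually_ge_atTop 1] with n hn1 hn2 hn3
  have h5 : 0 ≤ c * Real.log n :=
    mul_nonneg hc.le (Real.log_nonneg (by exact_mod_cast hn3))
  obtain ⟨F, hF, hFL⟩ := hcov _ h5
  refine ⟨F, ?_, fun a ha => hFL ha.2⟩
  calc (F.card : ℝ) ≤ A * Real.exp (h * (c * Real.log n)) := hF
    _ ≤ Real.exp (ε / 2 * n) * Real.exp (ε / 2 * n) :=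
        mul_le_mul hn1 (Real.exp_le_exp.2 hn2) (Real.exp_pos _).le (Real.exp_pos _).le
    _ = Real.exp (ε * n) := by
        rw [← Real.exp_add]
        congr 1
        ring

end Pool.Agent.BCH
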