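import Pool.Agent.Lib.MP_aa9b81_an.H.PCoset
import Pool.Agent.Lib.MP_aa9b81_an.H.PDisc

open MeasureTheory MeasureTheory.Measure Topology ENNReal NNReal

namespace Pool.Agent.BCH

universe u v w

open scoped Pointwise

section coset

variable {G : Type u} [Group G] [TopologicalSpace G] [IsTopologicalGroup G]
  [LocallyCompactSpace G] [SecondCountableTopology G] [T2Space G] [MeasurableSpace G]
  [BorelSpace G]
variable (Γ : Subgroup G)

omit [TopologicalSpace G] [IsTopologicalGroup G] [LocallyCompactSpace G]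
  [SecondCountableTopology G] [T2Space G] [MeasurableSpace G] [BorelSpace G] in
/-- The elements `γ_{g_0} γ_{g_n}⁻¹` of a chain of `n` steps are products of `n` elements of `D`. -/
theorem chain_mem_pow {S C : Set G} {D : Set Γ} {ψ : G → Γ}
    (hD : ∀ a ∈ S, ∀ b ∈ S, a⁻¹ * b ∈ C → ψ a * (ψ b)⁻¹ ∈ D) (n : ℕ) :
    ∀ a b : G, Reach S C n a b → ψ a * (ψ b)⁻¹ ∈ D ^ n := by
  induction n with
  | zero =>
    rintro a b ⟨g, h0, hn, -, -⟩
    rw [← h0, ← hn]
    simp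
  | succ n ih =>
    rintro a b ⟨g, h0, hn, hS, hC⟩
    have h1 : ψ a * (ψ (g n))⁻¹ ∈ D ^ n :=
      ih a (g n) ⟨g, h0, rfl, fun i hi => hS i (by omega), fun i hi => hC i (by omega)⟩
    have h2 : ψ (g n) * (ψ b)⁻¹ ∈ D := by
      rw [← hn]
      exact hD _ (hS n (by omega)) _ (hS (n + 1) le_rfl) (hC n (by omega))
    rw [pow_succ]
    have h3 : ψ a * (ψ b)⁻¹ = ψ a * (ψ (g n))⁻¹ * (ψ (g n) * (ψ b)⁻¹) := by group
    rw [h3]
    exact Set.mul_mem_mul h1 h2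

/-- **Closed subgroups.** If the closed subgroup `Γ` of `G` has a hyperbolic length function of
slow growth then `G ⧸ Γ` is a hyperbolic `G`-space. -/
theorem hyperbolic_quotient (hΓ : IsClosed (Γ : Set G)) {ℓ : Γ → ℝ} {δ : ℝ}
    (hℓ : HypLength ℓ δ) (hs : SlowGrowth ℓ) : HyperbolicGSpace G (G ⧸ Γ) := by
  intro Q hQ
  obtain ⟨K, γ, hK, hγm, hγ⟩ := exists_choice Γ hQ
  obtain ⟨L, hL, hs⟩ := hs
  -- lifts of points
  let s : G ⧸ Γ → G := Quotient.out
  have hsq : ∀ x : G ⧸ Γ, ((s x : G) : G ⧸ Γ) = x := fun x => Quotient.out_eq x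
  let ψ : G ⧸ Γ → G → Γ := fun x a => γ (a⁻¹ * s x)
  have hψ : ∀ x, ∀ a ∈ (ret Q x : Set G), a⁻¹ * s x * (ψ x a : G)⁻¹ ∈ K := by
    intro x a ha
    apply hγ
    have h1 : a⁻¹ • x ∈ Q := ha
    rw [← hsq x] at h1
    exact h1
  have hstep : ∀ (C : Set G), ∀ x, ∀ a ∈ (ret Q x : Set G), ∀ b ∈ (ret Q x : Set G), a⁻¹ * b ∈ C →
      ((ψ x a * (ψ x b)⁻¹ : Γ) : G) ∈ K⁻¹ * C * K := by
    intro C x a ha b hb hab
    have h1 : ((ψ x a * (ψ x b)⁻¹ : Γ) : G)
        = (a⁻¹ * s x * (ψ x a : G)⁻¹)⁻¹ * (a⁻¹ * b) * (b⁻¹ * s x * (ψ x b : G)⁻¹) := by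
      push_cast
      group
    rw [h1]
    exact Set.mul_mem_mul (Set.mul_mem_mul (Set.inv_mem_inv.2 (hψ x a ha)) hab) (hψ x b hb)
  have hcpt : ∀ C : Set G, IsCompact C → IsCompact {γ : Γ | (γ : G) ∈ K⁻¹ * C * K} := by
    intro C hC
    exact compact_inter Γ hΓ ((hK.inv.mul hC).mul hK)
  have hsc : SecondCountableTopology Γ :=
    TopologicalSpace.Subtype.secondCountableTopology (Γ : Set G)
  have hbo : BorelSpace Γ := Subtype.borelSpace (Γ : Set G)
  refine ⟨δ, fun x a b => ℓ (ψ x a * (ψ x b)⁻¹), ?_⟩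
  constructor
  · intro x
    have h2 : Measurable (ψ x) := hγm.comp (measurable_inv.mul_const (s x))
    exact hℓ.meas.comp ((h2.comp measurable_fst).mul (h2.comp measurable_snd).inv)
  · intro x a _
    show ℓ (ψ x a * (ψ x a)⁻¹) = 0
    rw [mul_inv_cancel, hℓ.one]
  · intro x a _ b _
    show ℓ (ψ x a * (ψ x b)⁻¹) = ℓ (ψ x b * (ψ x a)⁻¹)
    rw [← hℓ.inv (ψ x b * (ψ x a)⁻¹), mul_inv_rev, inv_inv]
  · intro x a _ b _ c _
    show ℓ (ψ x a * (ψ x c)⁻¹) ≤ ℓ (ψ x a * (ψ x b)⁻¹) + ℓ (ψ x b * (ψ x c)⁻¹)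
    have h1 : ψ x a * (ψ x c)⁻¹ = (ψ x a * (ψ x b)⁻¹) * (ψ x b * (ψ x c)⁻¹) := by group
    rw [h1]
    exact hℓ.mul_le _ _
  · intro x o _ a _ b _ c _
    have h1 := hℓ.hyp (ψ x o * (ψ x a)⁻¹) (ψ x o * (ψ x b)⁻¹) (ψ x o * (ψ x c)⁻¹)
    have e1 : ∀ p q : Γ, (ψ x o * p⁻¹)⁻¹ * (ψ x o * q⁻¹) = p * q⁻¹ := by
      intro p q; group
    rw [e1, e1, e1] at h1
    exact h1
  · intro C hC
    obtain ⟨R, hR⟩ := hℓ.bdd _ (hcpt C hC)
    exact ⟨R, fun x a ha b hb hab => hR _ (hstep C x a ha b hb hab)⟩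
  · intro C hC c hc ε hε
    -- the compact set which is translated
    set V : Set G := ((↑) : Γ → G) '' L * K⁻¹ with hVdef
    have hVc : IsCompact V := (hL.image continuous_subtype_val).mul hK.inv
    have hV : (haar : Measure G) V < ∞ := hVc.measure_lt_top
    have hVn : ∀ᶠ n : ℕ in Filter.atTop,
        (haar : Measure G) V ≤ ENNReal.ofReal (Real.exp (ε / 2 * n)) := by
      have h1 : Filter.Tendsto (fun n : ℕ => Real.exp (ε / 2 * n)) Filter.atTop Filter.atTop :=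
        Real.tendsto_exp_atTop.comp
          (tendsto_natCast_atTop_atTop.const_mul_atTop (by positivity))
      filter_upwards [h1.eventually_ge_atTop ((haar : Measure G) V).toReal] with n hn
      rw [← ENNReal.ofReal_toReal hV.ne]
      exact ENNReal.ofReal_le_ofReal hn
    filter_upwards [hs _ (hcpt C hC) c hc (ε / 2) (by positivity), hVn] with n hn hVn
    obtain ⟨F, hF, hFL⟩ := hn
    intro x a ha
    have hsub : {b | Reach (ret Q x) C n a b ∧ ℓ (ψ x a * (ψ x b)⁻¹) ≤ c * Real.log n} ⊆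
        ⋃ η ∈ F, (a * (a⁻¹ * s x * (ψ x a : G)⁻¹) * (η : G)) • V := by
      rintro b ⟨hb1, hb2⟩
      have hb3 : b ∈ (ret Q x : Set G) := by
        obtain ⟨g, -, hgn, hgS, -⟩ := hb1
        rw [← hgn]
        exact hgS n le_rfl
      have h1 := chain_mem_pow Γ (D := {γ : Γ | (γ : G) ∈ K⁻¹ * C * K}) (ψ := ψ x)
        (fun a ha b hb hab => hstep C x a ha b hb hab) n a b hb1
      obtain ⟨η, hη, l, hl, hηl⟩ := Set.mem_mul.1 (hFL ⟨h1, hb2⟩)
      simp only [Set.mem_iUnion]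
      refine ⟨η, hη, ?_⟩
      rw [Set.mem_smul_set_iff_inv_smul_mem]
      refine Set.mem_mul.2 ⟨(l : G), ⟨l, hl, rfl⟩, (b⁻¹ * s x * (ψ x b : G)⁻¹)⁻¹,
        Set.inv_mem_inv.2 (hψ x b hb3), ?_⟩
      have h3 : (l : G) = (η : G)⁻¹ * ((ψ x a : G) * (ψ x b : G)⁻¹) := by
        have := congrArg ((↑) : Γ → G) hηl
        push_cast at this
        rw [← this]
        group
      rw [smul_eq_mul, h3]
      group
    calc (haar : Measure G) {b | Reach (ret Q x) C n a b ∧ ℓ (ψ x a * (ψ x b)⁻¹) ≤ c * Real.log n}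
        ≤ (haar : Measure G)
          (⋃ η ∈ F, (a * (a⁻¹ * s x * (ψ x a : G)⁻¹) * (η : G)) • V) :=
          measure_mono hsub
      _ ≤ ∑ η ∈ F, (haar : Measure G) ((a * (a⁻¹ * s x * (ψ x a : G)⁻¹) * (η : G)) • V) :=
          measure_biUnion_finset_le _ _
      _ = (F.card : ℝ≥0∞) * (haar : Measure G) V := by
          simp only [measure_smul, Finset.sum_const, nsmul_eq_mul]
      _ ≤ ENNReal.ofReal (Real.exp (ε / 2 * n)) * ENNReal.ofReal (Real.exp (ε / 2 * n)) := by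
          refine mul_le_mul' ?_ hVn
          rw [← ENNReal.ofReal_natCast]
          exact ENNReal.ofReal_le_ofReal hF
      _ = ENNReal.ofReal (Real.exp (ε * n)) := by
          rw [← ENNReal.ofReal_mul (Real.exp_pos _).le, ← Real.exp_add]
          congr 2
          ring

end coset

end Pool.Agent.BCH
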